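import Mathlib

set_option autoImplicit false
open scoped Classical

namespace Pool.Agent.H41.SC

/-- Allowed adjacency between labels: 0 = centre, 1 = clique part, 2 = leaves, 3 = big side. -/
def okb : Fin 4 → Fin 4 → Bool
  | 0, 2 => true
  | 0, 3 => true
  | 2, 0 => true
  | 3, 0 => true
  | 1, 1 => true
  | 1, 3 => true
  | 3, 1 => true
  | 2, 3 => true
  | 3, 2 => true
  | _, _ => false

variable {V : Type*}

/-- `T` has a good labelling. -/
def LG (G : SimpleGraph V) (T : Finset V) (c : V → Fin 4) : Prop :=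
  (∀ a ∈ T, ∀ b ∈ T, c a = 0 → c b = 0 → a = b) ∧
  (T.filter (fun a => c a = 1)).card ≤ 4 ∧
  ∀ a ∈ T, ∀ b ∈ T, G.Adj a b → okb (c a) (c b) = true

lemma LG.mono {G : SimpleGraph V} {T T' : Finset V} {c : V → Fin 4} (h : LG G T' c)
    (hT : T ⊆ T') : LG G T c := by
  refine ⟨fun a ha b hb => h.1 a (hT ha) b (hT hb), ?_, fun a ha b hb => h.2.2 a (hT ha) b (hT hb)⟩
  exact (Finset.card_le_card (Finset.filter_subset_filter _ hT)).trans h.2.1

lemma LG.special {G : SimpleGraph V} {T : Finset V} {c : V → Fin 4} (h : LG G T c) :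
    (T.filter (fun a => c a = 0 ∨ c a = 1)).card ≤ 5 := by
  have h1 : (T.filter (fun a => c a = 0)).card ≤ 1 := by
    rw [Finset.card_le_one]
    intro a ha b hb
    rw [Finset.mem_filter] at ha hb
    exact h.1 a ha.1 b hb.1 ha.2 hb.2
  rw [Finset.filter_or]
  refine (Finset.card_union_le _ _).trans ?_
  have := h.2.1
  omega

/-- `k` pairwise disjoint edges inside `S`. -/
def Mat (G : SimpleGraph V) (S : Finset V) (k : ℕ) (a b : ℕ → V) : Prop :=
  (∀ i < k, a i ∈ S ∧ b i ∈ S ∧ G.Adj (a i) (b i)) ∧
  (∀ i < k, ∀ j < k, i ≠ j → a i ≠ a j ∧ a i ≠ b j ∧ b i ≠ b j)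

lemma mat_or_cover (G : SimpleGraph V) (S : Finset V) (k : ℕ) :
    (∃ a b, Mat G S (k+1) a b) ∨
      ∃ C : Finset V, C.card ≤ 2 * k ∧ ∀ a ∈ S, ∀ b ∈ S, G.Adj a b → a ∈ C ∨ b ∈ C := by
  induction k with
  | zero =>
    by_cases h : ∃ x ∈ S, ∃ y ∈ S, G.Adj x y
    · obtain ⟨x, hx, y, hy, hxy⟩ := h
      left
      refine ⟨fun _ => x, fun _ => y, ?_, ?_⟩
      · intro i _
        exact ⟨hx, hy, hxy⟩
      · intro i hi j hj hij
        omega
    · right
      refine ⟨∅, by simp, ?_⟩
      intro a ha b hb hab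
      exact absurd ⟨a, ha, b, hb, hab⟩ h
  | succ k ih =>
    rcases ih with ⟨a, b, hab, hdis⟩ | ⟨C, hC, hcov⟩
    · set D : Finset V := (Finset.range (k+1)).image a ∪ (Finset.range (k+1)).image b with hD
      have hDcard : D.card ≤ 2 * (k+1) := by
        refine (Finset.card_union_le _ _).trans ?_
        have h1 : ((Finset.range (k+1)).image a).card ≤ k+1 := by
          simpa using (Finset.card_image_le (s := Finset.range (k+1)) (f := a))
        have h2 : ((Finset.range (k+1)).image b).card ≤ k+1 := by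
          simpa using (Finset.card_image_le (s := Finset.range (k+1)) (f := b))
        omega
      have haD : ∀ i < k+1, a i ∈ D := by
        intro i hi
        exact Finset.mem_union_left _ (Finset.mem_image_of_mem _ (Finset.mem_range.2 hi))
      have hbD : ∀ i < k+1, b i ∈ D := by
        intro i hi
        exact Finset.mem_union_right _ (Finset.mem_image_of_mem _ (Finset.mem_range.2 hi))
      by_cases h : ∃ x ∈ S, ∃ y ∈ S, G.Adj x y ∧ x ∉ D ∧ y ∉ D
      · obtain ⟨x, hx, y, hy, hxy, hxD, hyD⟩ := h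
        left
        refine ⟨fun i => if i < k+1 then a i else x, fun i => if i < k+1 then b i else y, ?_, ?_⟩
        · intro i hi
          by_cases h1 : i < k+1
          · simp only [h1, if_true]
            exact hab i h1
          · simp only [h1, if_false]
            exact ⟨hx, hy, hxy⟩
        · intro i hi j hj hij
          by_cases h1 : i < k+1 <;> by_cases h2 : j < k+1
          · simp only [h1, h2, if_true]
            exact hdis i h1 j h2 hij
          · simp only [h1, h2, if_true, if_false]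
            refine ⟨fun h => hxD (h ▸ haD i h1), fun h => hyD (h ▸ haD i h1),
              fun h => hyD (h ▸ hbD i h1)⟩
          · simp only [h1, h2, if_true, if_false]
            refine ⟨fun h => hxD (h ▸ haD j h2), fun h => hxD (h ▸ hbD j h2),
              fun h => hyD (h ▸ hbD j h2)⟩
          · omega
      · right
        refine ⟨D, hDcard, ?_⟩
        intro x hx y hy hxy
        by_contra hcon
        rw [not_or] at hcon
        exact h ⟨x, hx, y, hy, hxy, hcon.1, hcon.2⟩
    · right
      exact ⟨C, by omega, hcov⟩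

lemma ok_triangle : ∀ i j k : Fin 4, okb i j = true → okb k i = true → okb k j = true →
    k ≠ 0 → (i = 0 ∨ i = 1) ∨ (j = 0 ∨ j = 1) := by decide

/-- the vertex set of a matching -/
noncomputable def vs (a b : ℕ → V) (k : ℕ) : Finset V :=
  (Finset.range k).image a ∪ (Finset.range k).image b

lemma vs_card (a b : ℕ → V) (k : ℕ) : (vs a b k).card ≤ 2 * k := by
  refine (Finset.card_union_le _ _).trans ?_
  have h1 : ((Finset.range k).image a).card ≤ k := by
    simpa using (Finset.card_image_le (s := Finset.range k) (f := a))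
  have h2 : ((Finset.range k).image b).card ≤ k := by
    simpa using (Finset.card_image_le (s := Finset.range k) (f := b))
  omega

lemma mem_vs_left (a b : ℕ → V) {k i : ℕ} (hi : i < k) : a i ∈ vs a b k :=
  Finset.mem_union_left _ (Finset.mem_image_of_mem _ (Finset.mem_range.2 hi))

lemma mem_vs_right (a b : ℕ → V) {k i : ℕ} (hi : i < k) : b i ∈ vs a b k :=
  Finset.mem_union_right _ (Finset.mem_image_of_mem _ (Finset.mem_range.2 hi))

/-- A vertex whose neighbourhood contains six disjoint edges gets label 0. -/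
lemma forced {G : SimpleGraph V} {T S : Finset V} {c : V → Fin 4} (h : LG G T c) {v : V}
    (hv : v ∈ T) {a b : ℕ → V} (hM : Mat G S 6 a b) (hS : ∀ s ∈ S, G.Adj v s)
    (hT : vs a b 6 ⊆ T) : c v = 0 := by
  by_contra hne
  have hsp : ∀ i < 6, (c (a i) = 0 ∨ c (a i) = 1) ∨ (c (b i) = 0 ∨ c (b i) = 1) := by
    intro i hi
    obtain ⟨ha, hb, hab⟩ := hM.1 i hi
    have haT : a i ∈ T := hT (mem_vs_left a b hi)
    have hbT : b i ∈ T := hT (mem_vs_right a b hi)
    exact ok_triangle _ _ _ (h.2.2 _ haT _ hbT hab) (h.2.2 _ hv _ haT (hS _ ha))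
      (h.2.2 _ hv _ hbT (hS _ hb)) hne
  set s : ℕ → V := fun i => if c (a i) = 0 ∨ c (a i) = 1 then a i else b i with hs
  have hsT : ∀ i ∈ Finset.range 6, s i ∈ T.filter (fun a => c a = 0 ∨ c a = 1) := by
    intro i hi
    rw [Finset.mem_range] at hi
    rw [Finset.mem_filter]
    by_cases h1 : c (a i) = 0 ∨ c (a i) = 1
    · simp only [hs, h1, if_true]
      exact ⟨hT (mem_vs_left a b hi), trivial⟩
    · simp only [hs, h1, if_false]
      exact ⟨hT (mem_vs_right a b hi), (hsp i hi).resolve_left h1⟩
  have hinj : ∀ i ∈ Finset.range 6, ∀ j ∈ Finset.range 6, s i = s j → i = j := by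
    intro i hi j hj hij
    rw [Finset.mem_range] at hi hj
    by_contra hne'
    obtain ⟨h1, h2, h3⟩ := hM.2 i hi j hj hne'
    obtain ⟨_, h4, _⟩ := hM.2 j hj i hi (Ne.symm hne')
    simp only [hs] at hij
    split_ifs at hij
    · exact h1 hij
    · exact h2 hij
    · exact h4 hij.symm
    · exact h3 hij
  have hcard := Finset.card_le_card_of_injOn s hsT (by
    intro i hi j hj hij
    exact hinj i (by simpa using hi) j (by simpa using hj) hij)
  have := h.special
  rw [Finset.card_range] at hcard
  omega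

lemma two_big {G : SimpleGraph V} (hN : ∀ T : Finset V, T.card ≤ 40 → ∃ c, LG G T c)
    {v v' : V} (hne : v ≠ v') {S S' : Finset V} {a b a' b' : ℕ → V}
    (hM : Mat G S 6 a b) (hS : ∀ s ∈ S, G.Adj v s)
    (hM' : Mat G S' 6 a' b') (hS' : ∀ s ∈ S', G.Adj v' s) : False := by
  obtain ⟨c, hc⟩ := hN (insert v (insert v' (vs a b 6 ∪ vs a' b' 6))) (by
    refine (Finset.card_insert_le _ _).trans ?_
    have h1 := Finset.card_insert_le v' (vs a b 6 ∪ vs a' b' 6)
    have h2 := Finset.card_union_le (vs a b 6) (vs a' b' 6)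
    have h3 := vs_card a b 6
    have h4 := vs_card a' b' 6
    omega)
  have hv : c v = 0 := by
    refine forced hc (Finset.mem_insert_self _ _) hM hS ?_
    intro x hx
    simp [hx]
  have hv' : c v' = 0 := by
    refine forced hc (by simp) hM' hS' ?_
    intro x hx
    simp [hx]
  exact hne (hc.1 v (by simp) v' (by simp) hv hv')

end Pool.Agent.H41.SC
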