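import Mathlib
import Pool.Agent.H41.SCBasic

set_option autoImplicit false
open scoped Classical

namespace Pool.Agent.H41.SC

variable {V : Type*} [Fintype V]

/-- neighbourhood as a finset -/
noncomputable def nb (G : SimpleGraph V) (v : V) : Finset V := Finset.univ.filter (fun w => G.Adj v w)

lemma mem_nb {G : SimpleGraph V} {v w : V} : w ∈ nb G v ↔ G.Adj v w := by
  simp [nb]

lemma exists_u (G : SimpleGraph V) [Nonempty V]
    (hN : ∀ T : Finset V, T.card ≤ 40 → ∃ c, LG G T c) :
    ∃ u, ∀ v ≠ u, ∃ C : Finset V, C.card ≤ 10 ∧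
      ∀ a ∈ nb G v, ∀ b ∈ nb G v, G.Adj a b → a ∈ C ∨ b ∈ C := by
  by_cases h : ∃ u a b, Mat G (nb G u) 6 a b
  · obtain ⟨u, a, b, hM⟩ := h
    refine ⟨u, fun v hv => ?_⟩
    rcases mat_or_cover G (nb G v) 5 with ⟨a', b', hM'⟩ | h'
    · exact (two_big hN hv hM' (fun s hs => mem_nb.1 hs) hM (fun s hs => mem_nb.1 hs)).elim
    · exact h'
  · refine ⟨Classical.arbitrary V, fun v _ => ?_⟩
    rcases mat_or_cover G (nb G v) 5 with ⟨a', b', hM'⟩ | h'
    · exact absurd ⟨v, a', b', hM'⟩ h
    · exact h'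

lemma struct1 (G : SimpleGraph V)
    (hN : ∀ T : Finset V, T.card ≤ 40 → ∃ c, LG G T c)
    (hn : 10000 ≤ Fintype.card V)
    (hdeg : ∀ v, Fintype.card V ≤ 2 * (nb G v).card) :
    ∃ (u : V) (X Y : Finset V), u ∉ X ∧ u ∉ Y ∧ Disjoint X Y ∧ (∀ v, v = u ∨ v ∈ X ∨ v ∈ Y) ∧
      (∀ x ∈ X, (Y \ nb G x).card ≤ 77) ∧ (∀ y ∈ Y, (X \ nb G y).card ≤ 77) ∧
      (∀ x ∈ X, (nb G x ∩ X).card ≤ 54) ∧ (∀ y ∈ Y, (nb G y ∩ Y).card ≤ 54) ∧
      Fintype.card V ≤ 2 * X.card + 22 ∧ Fintype.card V ≤ 2 * Y.card + 22 := by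
  have : Nonempty V := Fintype.card_pos_iff.1 (by omega)
  have : Nontrivial V := Fintype.one_lt_card_iff_nontrivial.1 (by omega)
  obtain ⟨u, hu⟩ := exists_u G hN
  obtain ⟨v0, hv0⟩ := exists_ne u
  obtain ⟨C0, hC0, hcov0⟩ := hu v0 hv0
  set n := Fintype.card V with hn'
  -- Y0
  set Y0 : Finset V := (nb G v0 \ C0) \ {u} with hY0
  have hY0card : n ≤ 2 * Y0.card + 22 := by
    have h1 := Finset.le_card_sdiff C0 (nb G v0)
    have h2 := Finset.le_card_sdiff ({u} : Finset V) (nb G v0 \ C0)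
    have h3 := hdeg v0
    rw [Finset.card_singleton] at h2
    rw [hY0]
    omega
  have hY0ind : ∀ a ∈ Y0, ∀ b ∈ Y0, ¬ G.Adj a b := by
    intro a ha b hb hab
    rw [hY0] at ha hb
    simp only [Finset.mem_sdiff] at ha hb
    rcases hcov0 a ha.1.1 b hb.1.1 hab with h | h
    · exact ha.1.2 h
    · exact hb.1.2 h
  have hY0u : u ∉ Y0 := by
    rw [hY0]; simp
  have hY0ne : Y0.Nonempty := by
    rw [← Finset.card_pos]; omega
  obtain ⟨y0, hy0⟩ := hY0ne
  have hy0u : y0 ≠ u := fun h => hY0u (h ▸ hy0)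
  obtain ⟨C1, hC1, hcov1⟩ := hu y0 hy0u
  set X0 : Finset V := (nb G y0 \ C1) \ {u} with hX0
  have hX0card : n ≤ 2 * X0.card + 22 := by
    have h1 := Finset.le_card_sdiff C1 (nb G y0)
    have h2 := Finset.le_card_sdiff ({u} : Finset V) (nb G y0 \ C1)
    have h3 := hdeg y0
    rw [Finset.card_singleton] at h2
    rw [hX0]
    omega
  have hX0ind : ∀ a ∈ X0, ∀ b ∈ X0, ¬ G.Adj a b := by
    intro a ha b hb hab
    rw [hX0] at ha hb
    simp only [Finset.mem_sdiff] at ha hb
    rcases hcov1 a ha.1.1 b hb.1.1 hab with h | h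
    · exact ha.1.2 h
    · exact hb.1.2 h
  have hX0u : u ∉ X0 := by
    rw [hX0]; simp
  have hX0nb : ∀ x ∈ X0, G.Adj y0 x := by
    intro x hx
    rw [hX0] at hx
    simp only [Finset.mem_sdiff, mem_nb] at hx
    exact hx.1.1
  have hXY0 : Disjoint X0 Y0 := by
    rw [Finset.disjoint_left]
    intro x hx hx'
    exact hY0ind y0 hy0 x hx' (hX0nb x hx)
  -- the rest
  set R : Finset V := Finset.univ \ (X0 ∪ Y0) with hR
  have hRcard : R.card ≤ 22 := by
    have h1 : (X0 ∪ Y0).card = X0.card + Y0.card := Finset.card_union_of_disjoint hXY0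
    have h2 : R.card + (X0 ∪ Y0).card = n := by
      rw [hR, Finset.card_sdiff_add_card_eq_card (Finset.subset_univ _), Finset.card_univ]
    omega
  have hRmem : ∀ v, v ∈ X0 ∨ v ∈ Y0 ∨ v ∈ R := by
    intro v
    by_cases h1 : v ∈ X0
    · exact Or.inl h1
    · by_cases h2 : v ∈ Y0
      · exact Or.inr (Or.inl h2)
      · right; right
        rw [hR]
        simp [h1, h2]
  have hY0half : 2 * Y0.card ≤ n := by
    have h1 : Disjoint Y0 (nb G y0) := by
      rw [Finset.disjoint_left]
      intro y hy hy'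
      exact hY0ind y0 hy0 y hy (mem_nb.1 hy')
    have h2 : (Y0 ∪ nb G y0).card ≤ n := by
      rw [hn', ← Finset.card_univ]
      exact Finset.card_le_card (Finset.subset_univ _)
    rw [Finset.card_union_of_disjoint h1] at h2
    have := hdeg y0
    omega
  have hX0ne : X0.Nonempty := by
    rw [← Finset.card_pos]; omega
  have hX0half : 2 * X0.card ≤ n := by
    obtain ⟨x0, hx0⟩ := hX0ne
    have h1 : Disjoint X0 (nb G x0) := by
      rw [Finset.disjoint_left]
      intro y hy hy'
      exact hX0ind x0 hx0 y hy (mem_nb.1 hy')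
    have h2 : (X0 ∪ nb G x0).card ≤ n := by
      rw [hn', ← Finset.card_univ]
      exact Finset.card_le_card (Finset.subset_univ _)
    rw [Finset.card_union_of_disjoint h1] at h2
    have := hdeg x0
    omega
  -- degrees from X0 to Y0
  have hsplit : ∀ v, (nb G v).card ≤ (nb G v ∩ X0).card + (nb G v ∩ Y0).card + R.card := by
    intro v
    have h1 : nb G v ⊆ (nb G v ∩ X0) ∪ (nb G v ∩ Y0) ∪ R := by
      intro w hw
      rcases hRmem w with h | h | h
      · simp [hw, h]
      · simp [hw, h]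
      · simp [h]
    refine (Finset.card_le_card h1).trans ?_
    refine (Finset.card_union_le _ _).trans ?_
    have := Finset.card_union_le (nb G v ∩ X0) (nb G v ∩ Y0)
    omega
  have hX0Y0 : ∀ x ∈ X0, n ≤ 2 * (nb G x ∩ Y0).card + 44 := by
    intro x hx
    have h1 := hsplit x
    have h2 : nb G x ∩ X0 = ∅ := by
      rw [Finset.eq_empty_iff_forall_notMem]
      intro w hw
      rw [Finset.mem_inter, mem_nb] at hw
      exact hX0ind x hx w hw.2 hw.1
    rw [h2, Finset.card_empty] at h1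
    have := hdeg x
    omega
  have hY0X0 : ∀ y ∈ Y0, n ≤ 2 * (nb G y ∩ X0).card + 44 := by
    intro x hx
    have h1 := hsplit x
    have h2 : nb G x ∩ Y0 = ∅ := by
      rw [Finset.eq_empty_iff_forall_notMem]
      intro w hw
      rw [Finset.mem_inter, mem_nb] at hw
      exact hY0ind x hx w hw.2 hw.1
    rw [h2, Finset.card_empty] at h1
    have := hdeg x
    omega
  have hmiss : ∀ x ∈ X0, (Y0 \ nb G x).card ≤ 22 := by
    intro x hx
    have h1 := hX0Y0 x hx
    have h2 := Finset.card_sdiff_add_card_inter Y0 (nb G x)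
    rw [Finset.inter_comm] at h2
    omega
  -- main dichotomy
  have hdich : ∀ v ≠ u, 10 < (nb G v ∩ X0).card → (nb G v ∩ Y0).card ≤ 32 := by
    intro v hv h1
    by_contra h2
    rw [not_le] at h2
    obtain ⟨C, hC, hcov⟩ := hu v hv
    have h3 : ((nb G v ∩ X0) \ C).Nonempty := by
      rw [← Finset.card_pos]
      have := Finset.le_card_sdiff C (nb G v ∩ X0)
      omega
    obtain ⟨x, hx⟩ := h3
    simp only [Finset.mem_sdiff, Finset.mem_inter, mem_nb] at hx
    have h4 : (((nb G v ∩ Y0) \ (Y0 \ nb G x)) \ C).Nonempty := by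
      rw [← Finset.card_pos]
      have h5 := Finset.le_card_sdiff (Y0 \ nb G x) (nb G v ∩ Y0)
      have h6 := Finset.le_card_sdiff C ((nb G v ∩ Y0) \ (Y0 \ nb G x))
      have h7 := hmiss x hx.1.2
      omega
    obtain ⟨y, hy⟩ := h4
    simp only [Finset.mem_sdiff, Finset.mem_inter, mem_nb] at hy
    have hxy : G.Adj x y := by
      by_contra hcon
      exact hy.1.2 ⟨hy.1.1.2, hcon⟩
    rcases hcov x (mem_nb.2 hx.1.1) y (mem_nb.2 hy.1.1.1) hxy with h | h
    · exact hx.2 h
    · exact hy.2 h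
  set X : Finset V := Finset.univ.filter (fun v => v ≠ u ∧ (nb G v ∩ X0).card ≤ 10) with hX
  set Y : Finset V := Finset.univ.filter (fun v => v ≠ u ∧ ¬ (nb G v ∩ X0).card ≤ 10) with hY
  have hX0X : X0 ⊆ X := by
    intro x hx
    rw [hX, Finset.mem_filter]
    refine ⟨Finset.mem_univ _, fun h => hX0u (h ▸ hx), ?_⟩
    have h2 : nb G x ∩ X0 = ∅ := by
      rw [Finset.eq_empty_iff_forall_notMem]
      intro w hw
      rw [Finset.mem_inter, mem_nb] at hw
      exact hX0ind x hx w hw.2 hw.1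
    rw [h2]; simp
  have hY0Y : Y0 ⊆ Y := by
    intro y hy
    rw [hY, Finset.mem_filter]
    refine ⟨Finset.mem_univ _, fun h => hY0u (h ▸ hy), ?_⟩
    have := hY0X0 y hy
    omega
  have hXYdis : Disjoint X Y := by
    rw [Finset.disjoint_left]
    intro v hv hv'
    rw [hX, Finset.mem_filter] at hv
    rw [hY, Finset.mem_filter] at hv'
    exact hv'.2.2 hv.2.2
  have hXsub : X ⊆ X0 ∪ R := by
    intro v hv
    rcases hRmem v with h | h | h
    · simp [h]
    · exact absurd (hY0Y h) (Finset.disjoint_left.1 hXYdis hv)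
    · simp [h]
  have hYsub : Y ⊆ Y0 ∪ R := by
    intro v hv
    rcases hRmem v with h | h | h
    · exact absurd hv (Finset.disjoint_left.1 hXYdis (hX0X h))
    · simp [h]
    · simp [h]
  have hXcard : X.card ≤ X0.card + R.card := (Finset.card_le_card hXsub).trans (Finset.card_union_le _ _)
  have hYcard : Y.card ≤ Y0.card + R.card := (Finset.card_le_card hYsub).trans (Finset.card_union_le _ _)
  have hXin : ∀ x ∈ X, (nb G x ∩ X).card ≤ 32 := by
    intro x hx
    have h1 : nb G x ∩ X ⊆ (nb G x ∩ X0) ∪ R := by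
      intro w hw
      rw [Finset.mem_inter] at hw
      have := hXsub hw.2
      rw [Finset.mem_union] at this
      rcases this with h | h
      · simp [h, hw.1]
      · simp [h]
    have h2 := (Finset.card_le_card h1).trans (Finset.card_union_le _ _)
    rw [hX, Finset.mem_filter] at hx
    have := hx.2.2
    omega
  have hYin : ∀ y ∈ Y, (nb G y ∩ Y).card ≤ 54 := by
    intro y hy
    have h1 : nb G y ∩ Y ⊆ (nb G y ∩ Y0) ∪ R := by
      intro w hw
      rw [Finset.mem_inter] at hw
      have := hYsub hw.2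
      rw [Finset.mem_union] at this
      rcases this with h | h
      · simp [h, hw.1]
      · simp [h]
    have h2 := (Finset.card_le_card h1).trans (Finset.card_union_le _ _)
    rw [hY, Finset.mem_filter] at hy
    have := hdich y hy.2.1 (by omega)
    omega
  have hcover : ∀ v, v = u ∨ v ∈ X ∨ v ∈ Y := by
    intro v
    by_cases h1 : v = u
    · exact Or.inl h1
    · right
      by_cases h2 : (nb G v ∩ X0).card ≤ 10
      · left; rw [hX, Finset.mem_filter]; exact ⟨Finset.mem_univ _, h1, h2⟩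
      · right; rw [hY, Finset.mem_filter]; exact ⟨Finset.mem_univ _, h1, h2⟩
  have hsplit2 : ∀ v, (nb G v).card ≤ 1 + (nb G v ∩ X).card + (nb G v ∩ Y).card := by
    intro v
    have h1 : nb G v ⊆ ({u} ∪ (nb G v ∩ X)) ∪ (nb G v ∩ Y) := by
      intro w hw
      rcases hcover w with h | h | h
      · simp [h]
      · simp [hw, h]
      · simp [hw, h]
    refine (Finset.card_le_card h1).trans ?_
    refine (Finset.card_union_le _ _).trans ?_
    have := Finset.card_union_le {u} (nb G v ∩ X)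
    rw [Finset.card_singleton] at this
    omega
  refine ⟨u, X, Y, ?_, ?_, hXYdis, hcover, ?_, ?_, ?_, hYin, ?_, ?_⟩
  · rw [hX]; simp
  · rw [hY]; simp
  · intro x hx
    have h1 := hsplit2 x
    have h2 := hXin x hx
    have h3 := hdeg x
    have h4 := Finset.card_sdiff_add_card_inter Y (nb G x)
    rw [Finset.inter_comm] at h4
    omega
  · intro x hx
    have h1 := hsplit2 x
    have h2 := hYin x hx
    have h3 := hdeg x
    have h4 := Finset.card_sdiff_add_card_inter X (nb G x)
    rw [Finset.inter_comm] at h4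
    omega
  · intro x hx
    have := hXin x hx
    omega
  · have := Finset.card_le_card hX0X
    omega
  · have := Finset.card_le_card hY0Y
    omega

end Pool.Agent.H41.SC
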