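import Mathlib
import Pool.Agent.H41.SCStruct

set_option autoImplicit false
open scoped Classical

namespace Pool.Agent.H41.SC

variable {V : Type*} [Fintype V]

/-- common neighbours: a set `B` nearly joined to all members of `D` has many common neighbours. -/
lemma common {G : SimpleGraph V} (B D : Finset V) (k : ℕ)
    (h : ∀ d ∈ D, (B \ nb G d).card ≤ k) :
    B.card ≤ (B.filter (fun y => ∀ d ∈ D, G.Adj d y)).card + D.card * k := by
  have h1 : B \ (B.filter (fun y => ∀ d ∈ D, G.Adj d y)) ⊆ D.biUnion (fun d => B \ nb G d) := by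
    intro y hy
    rw [Finset.mem_sdiff, Finset.mem_filter] at hy
    have hyB := hy.1
    have hy2 : ¬ ∀ d ∈ D, G.Adj d y := fun hcon => hy.2 ⟨hyB, hcon⟩
    push Not at hy2
    obtain ⟨d, hd, hdy⟩ := hy2
    rw [Finset.mem_biUnion]
    refine ⟨d, hd, ?_⟩
    rw [Finset.mem_sdiff, mem_nb]
    exact ⟨hyB, hdy⟩
  have h2 := Finset.card_le_card h1
  have h3 : (D.biUnion (fun d => B \ nb G d)).card ≤ D.card * k :=
    Finset.card_biUnion_le_card_mul _ _ _ h
  have h4 := Finset.le_card_sdiff (B.filter (fun y => ∀ d ∈ D, G.Adj d y)) B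
  omega

lemma inside_sum {G : SimpleGraph V}
    (hN : ∀ T : Finset V, T.card ≤ 40 → ∃ c, LG G T c) {X Y : Finset V}
    (hXY : ∀ x ∈ X, (Y \ nb G x).card ≤ 77)
    (hin : ∀ x ∈ X, (nb G x ∩ X).card ≤ 54) (hY : 1000 ≤ Y.card) :
    ∑ x ∈ X, (nb G x ∩ X).card ≤ 1080 := by
  rcases mat_or_cover G X 5 with ⟨a, b, hM⟩ | ⟨C, hC, hcov⟩
  · exfalso
    have hvs : ∀ d ∈ vs a b 6, d ∈ X := by
      intro d hd
      rw [vs, Finset.mem_union, Finset.mem_image, Finset.mem_image] at hd
      rcases hd with ⟨i, hi, rfl⟩ | ⟨i, hi, rfl⟩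
      · exact (hM.1 i (Finset.mem_range.1 hi)).1
      · exact (hM.1 i (Finset.mem_range.1 hi)).2.1
    have h1 := common (G := G) Y (vs a b 6) 77 (fun d hd => hXY d (hvs d hd))
    have h2 := vs_card a b 6
    have h3 : (vs a b 6).card * 77 ≤ 12 * 77 := Nat.mul_le_mul_right _ (by omega)
    have h4 : 1 < (Y.filter (fun y => ∀ d ∈ vs a b 6, G.Adj d y)).card := by omega
    rw [Finset.one_lt_card] at h4
    obtain ⟨y, hy, y', hy', hne⟩ := h4
    rw [Finset.mem_filter] at hy hy'
    have hM' : Mat G (vs a b 6) 6 a b := by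
      refine ⟨fun i hi => ⟨mem_vs_left a b hi, mem_vs_right a b hi, (hM.1 i hi).2.2⟩, hM.2⟩
    exact two_big hN hne hM' (fun s hs => (hy.2 s hs).symm) hM' (fun s hs => (hy'.2 s hs).symm)
  · -- cover
    have h1 : ∑ x ∈ X, (nb G x ∩ X).card ≤
        ∑ x ∈ X ∩ C, (nb G x ∩ X).card + ∑ x ∈ X \ C, (nb G x ∩ X).card := by
      rw [add_comm, ← Finset.sdiff_inter_self_left X C]
      rw [Finset.sum_sdiff (Finset.inter_subset_left)]
    have h2 : ∑ x ∈ X ∩ C, (nb G x ∩ X).card ≤ 540 := by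
      have h3 : ∑ x ∈ X ∩ C, (nb G x ∩ X).card ≤ (X ∩ C).card * 54 := by
        apply Finset.sum_le_card_nsmul
        intro x hx
        exact hin x (Finset.mem_inter.1 hx).1
      have h4 : (X ∩ C).card ≤ 10 := (Finset.card_le_card Finset.inter_subset_right).trans hC
      have h5 : (X ∩ C).card * 54 ≤ 10 * 54 := Nat.mul_le_mul_right _ h4
      omega
    have h3 : ∑ x ∈ X \ C, (nb G x ∩ X).card ≤ 540 := by
      have h4 : ∑ x ∈ X \ C, (nb G x ∩ X).card ≤
          ∑ x ∈ X \ C, ∑ c ∈ X ∩ C, (if G.Adj x c then 1 else 0) := by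
        apply Finset.sum_le_sum
        intro x hx
        rw [Finset.mem_sdiff] at hx
        rw [← Finset.card_filter]
        apply Finset.card_le_card
        intro w hw
        rw [Finset.mem_inter, mem_nb] at hw
        rw [Finset.mem_filter, Finset.mem_inter]
        refine ⟨⟨hw.2, ?_⟩, hw.1⟩
        exact (hcov x hx.1 w hw.2 hw.1).resolve_left hx.2
      rw [Finset.sum_comm] at h4
      have h5 : ∑ c ∈ X ∩ C, ∑ x ∈ X \ C, (if G.Adj x c then 1 else 0) ≤ (X ∩ C).card * 54 := by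
        apply Finset.sum_le_card_nsmul
        intro c hc
        rw [← Finset.card_filter]
        refine le_trans (Finset.card_le_card ?_) (hin c (Finset.mem_inter.1 hc).1)
        intro w hw
        rw [Finset.mem_filter, Finset.mem_sdiff] at hw
        rw [Finset.mem_inter, mem_nb]
        exact ⟨hw.2.symm, hw.1.1⟩
      have h6 : (X ∩ C).card ≤ 10 := (Finset.card_le_card Finset.inter_subset_right).trans hC
      have h7 : (X ∩ C).card * 54 ≤ 10 * 54 := Nat.mul_le_mul_right _ h6
      omega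
    omega

lemma sum_split {u : V} {X Y : Finset V} (huX : u ∉ X) (huY : u ∉ Y) (hd : Disjoint X Y)
    (hc : ∀ v, v = u ∨ v ∈ X ∨ v ∈ Y) (f : V → ℕ) :
    ∑ v, f v = f u + ∑ v ∈ X, f v + ∑ v ∈ Y, f v := by
  have h1 : (Finset.univ : Finset V) = insert u (X ∪ Y) := by
    ext v
    simp only [Finset.mem_univ, Finset.mem_insert, Finset.mem_union, true_iff]
    exact hc v
  rw [h1, Finset.sum_insert, Finset.sum_union hd, add_assoc]
  simp [huX, huY]

lemma card_split {u : V} {X Y : Finset V} (huX : u ∉ X) (huY : u ∉ Y) (hd : Disjoint X Y)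
    (hc : ∀ v, v = u ∨ v ∈ X ∨ v ∈ Y) (S : Finset V) :
    S.card = (S ∩ {u}).card + (S ∩ X).card + (S ∩ Y).card := by
  have h := sum_split huX huY hd hc (fun v => if v ∈ S then 1 else 0)
  simp only [Finset.sum_ite_mem, Finset.univ_inter, Finset.sum_const, smul_eq_mul, mul_one] at h
  rw [h]
  have h1 : (S ∩ {u}).card = if u ∈ S then 1 else 0 := by
    by_cases hu : u ∈ S
    · simp [hu]
    · simp [hu]
  rw [h1, Finset.inter_comm S X, Finset.inter_comm S Y]

lemma deg_u {G : SimpleGraph V} {u : V} {X Y : Finset V} (huX : u ∉ X) (huY : u ∉ Y)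
    (hd : Disjoint X Y) (hc : ∀ v, v = u ∨ v ∈ X ∨ v ∈ Y)
    (hX : ∑ x ∈ X, (nb G x ∩ X).card ≤ 1080) (hY : ∑ x ∈ Y, (nb G x ∩ Y).card ≤ 1080)
    (hE : (Fintype.card V + 1)^2 ≤ 2 * ∑ v, (nb G v).card) :
    Fintype.card V ≤ (nb G u).card + 2159 := by
  have hcard : Fintype.card V = 1 + X.card + Y.card := by
    have := card_split huX huY hd hc Finset.univ
    simpa using this
  have h1 := sum_split huX huY hd hc (fun v => (nb G v).card)
  have h2 : ∑ x ∈ X, (nb G x).card ≤ X.card * (1 + Y.card) + 1080 := by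
    have h3 : ∑ x ∈ X, (nb G x).card ≤ ∑ x ∈ X, ((1 + Y.card) + (nb G x ∩ X).card) := by
      apply Finset.sum_le_sum
      intro x _
      rw [card_split huX huY hd hc (nb G x)]
      have h4 : (nb G x ∩ {u}).card ≤ 1 := by
        simpa using Finset.card_le_card (Finset.inter_subset_right (s₁ := nb G x) (s₂ := {u}))
      have h5 : (nb G x ∩ Y).card ≤ Y.card := Finset.card_le_card Finset.inter_subset_right
      omega
    rw [Finset.sum_add_distrib, Finset.sum_const, smul_eq_mul] at h3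
    omega
  have h2' : ∑ x ∈ Y, (nb G x).card ≤ Y.card * (1 + X.card) + 1080 := by
    have h3 : ∑ x ∈ Y, (nb G x).card ≤ ∑ x ∈ Y, ((1 + X.card) + (nb G x ∩ Y).card) := by
      apply Finset.sum_le_sum
      intro x _
      rw [card_split huX huY hd hc (nb G x)]
      have h4 : (nb G x ∩ {u}).card ≤ 1 := by
        simpa using Finset.card_le_card (Finset.inter_subset_right (s₁ := nb G x) (s₂ := {u}))
      have h5 : (nb G x ∩ X).card ≤ X.card := Finset.card_le_card Finset.inter_subset_right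
      omega
    rw [Finset.sum_add_distrib, Finset.sum_const, smul_eq_mul] at h3
    omega
  rw [h1] at hE
  rw [hcard] at hE ⊢
  -- real arithmetic
  zify at *
  nlinarith [sq_nonneg ((X.card : ℤ) - Y.card)]

end Pool.Agent.H41.SC
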