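import Mathlib
import Pool.Agent.H41.SCStruct2

set_option autoImplicit false
open scoped Classical

namespace Pool.Agent.H41.SC

variable {V : Type*}

lemma ok0 : ∀ j : Fin 4, okb 0 j = true → j = 2 ∨ j = 3 := by decide
lemma ok23 : ∀ j : Fin 4, okb 2 j = true → j ≠ 0 → j = 3 := by decide
lemma ok32 : ∀ j : Fin 4, okb j 3 = true → j ≠ 0 → j = 1 ∨ j = 2 := by decide
lemma ok12 : ∀ i j : Fin 4, (i = 1 ∨ i = 2) → (j = 1 ∨ j = 2) → okb i j = true → i = 1 := by decide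
lemma ok33 : okb 3 3 = false := by decide
lemma ok01 : okb 0 1 = false := by decide
lemma okcase : ∀ i j : Fin 4, (i = 2 ∨ i = 3) → (j = 2 ∨ j = 3) → okb i j = true →
    (i = 2 ∧ j = 3) ∨ (i = 3 ∧ j = 2) := by decide

lemma okb_symm : ∀ i j : Fin 4, okb i j = okb j i := by decide

lemma local_case {G : SimpleGraph V} {T : Finset V} {c : V → Fin 4} (h : LG G T c)
    {u x' y' : V} {X Y S : Finset V} (hu : c u = 0) (huT : u ∈ T) (hx : c x' = 2) (hy : c y' = 3)
    (hxT : x' ∈ T) (hyT : y' ∈ T) (f : V → V) (hST : S ⊆ T) (hfT : ∀ s ∈ S, f s ∈ T)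
    (hf : ∀ s ∈ S, G.Adj s (f s) ∧ ((s ∈ X ∧ f s ∈ X) ∨ (s ∈ Y ∧ f s ∈ Y)))
    (huX : u ∉ X) (huY : u ∉ Y)
    (h1 : ∀ s ∈ S, s ∈ X → G.Adj s y') (h2 : ∀ s ∈ S, f s ∈ X → G.Adj (f s) y')
    (h3 : ∀ s ∈ S, s ∈ Y → G.Adj s x') (h4 : ∀ s ∈ S, f s ∈ Y → G.Adj (f s) x') :
    S.card ≤ 4 ∧ (∀ s ∈ S, ¬ G.Adj u s) ∧ S ⊆ X := by
  have key : ∀ s ∈ S, c s = 1 ∧ s ∈ X := by
    intro s hs
    obtain ⟨hadj, hside⟩ := hf s hs
    have hsT := hST hs
    have hfsT := hfT s hs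
    rcases hside with ⟨hsX, hfX⟩ | ⟨hsY, hfY⟩
    · have e1 : c s ≠ 0 := fun hc => huX ((h.1 s hsT u huT hc hu) ▸ hsX)
      have e2 : c (f s) ≠ 0 := fun hc => huX ((h.1 (f s) hfsT u huT hc hu) ▸ hfX)
      have e3 := h.2.2 s hsT y' hyT (h1 s hs hsX)
      have e4 := h.2.2 (f s) hfsT y' hyT (h2 s hs hfX)
      rw [hy] at e3 e4
      exact ⟨ok12 _ _ (ok32 _ e3 e1) (ok32 _ e4 e2) (h.2.2 s hsT (f s) hfsT hadj), hsX⟩
    · exfalso
      have e1 : c s ≠ 0 := fun hc => huY ((h.1 s hsT u huT hc hu) ▸ hsY)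
      have e2 : c (f s) ≠ 0 := fun hc => huY ((h.1 (f s) hfsT u huT hc hu) ▸ hfY)
      have e3 := h.2.2 x' hxT s hsT (h3 s hs hsY).symm
      have e4 := h.2.2 x' hxT (f s) hfsT (h4 s hs hfY).symm
      rw [hx] at e3 e4
      have e5 := ok23 _ e3 e1
      have e6 := ok23 _ e4 e2
      have e7 := h.2.2 s hsT (f s) hfsT hadj
      rw [e5, e6, ok33] at e7
      exact absurd e7 (by decide)
  refine ⟨?_, ?_, fun s hs => (key s hs).2⟩
  · refine le_trans (Finset.card_le_card ?_) h.2.1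
    intro s hs
    rw [Finset.mem_filter]
    exact ⟨hST hs, (key s hs).1⟩
  · intro s hs hadj
    have := h.2.2 u huT s (hST hs) hadj
    rw [hu, (key s hs).1, ok01] at this
    exact absurd this (by decide)

lemma inside_local [Fintype V] {G : SimpleGraph V}
    (hN : ∀ T : Finset V, T.card ≤ 40 → ∃ c, LG G T c)
    {u : V} {X Y : Finset V} (huX : u ∉ X) (huY : u ∉ Y)
    (hXm : ∀ x ∈ X, (Y \ nb G x).card ≤ 77) (hYm : ∀ y ∈ Y, (X \ nb G y).card ≤ 77)
    (hu : Fintype.card V ≤ (nb G u).card + 2159) (hXc : 4000 ≤ X.card) (hYc : 4000 ≤ Y.card)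
    (S : Finset V) (hS : S.card ≤ 5)
    (hSI : ∀ s ∈ S, ∃ s', G.Adj s s' ∧ ((s ∈ X ∧ s' ∈ X) ∨ (s ∈ Y ∧ s' ∈ Y))) :
    S.card ≤ 4 ∧ (∀ s ∈ S, ¬ G.Adj u s) ∧ (S ⊆ X ∨ S ⊆ Y) := by
  have hf : ∃ f : V → V, ∀ s ∈ S, G.Adj s (f s) ∧ ((s ∈ X ∧ f s ∈ X) ∨ (s ∈ Y ∧ f s ∈ Y)) := by
    refine ⟨fun s => if hs : s ∈ S then (hSI s hs).choose else s, ?_⟩
    intro s hs
    simp only [hs, dif_pos]
    exact (hSI s hs).choose_spec
  obtain ⟨f, hf⟩ := hf
  set T1 : Finset V := S ∪ S.image f with hT1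
  have hT1card : T1.card ≤ 10 := by
    have h1 := Finset.card_union_le S (S.image f)
    have h2 := Finset.card_image_le (s := S) (f := f)
    rw [hT1]; omega
  have hST1 : ∀ s ∈ S, s ∈ T1 := fun s hs => Finset.mem_union_left _ hs
  have hfT1 : ∀ s ∈ S, f s ∈ T1 := fun s hs => Finset.mem_union_right _ (Finset.mem_image_of_mem _ hs)
  -- sizes of neighbourhoods of `u`
  have hmu : (Finset.univ \ nb G u).card ≤ 2159 := by
    have h1 : (Finset.univ \ nb G u).card + (nb G u).card = Fintype.card V := by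
      rw [Finset.card_sdiff_add_card_eq_card (Finset.subset_univ _), Finset.card_univ]
    omega
  have hXu : 1841 ≤ (X ∩ nb G u).card := by
    have h1 := Finset.card_sdiff_add_card_inter X (nb G u)
    have h2 : (X \ nb G u).card ≤ (Finset.univ \ nb G u).card :=
      Finset.card_le_card (Finset.sdiff_subset_sdiff (Finset.subset_univ _) (Finset.Subset.refl _))
    omega
  have hYu : 1841 ≤ (Y ∩ nb G u).card := by
    have h1 := Finset.card_sdiff_add_card_inter Y (nb G u)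
    have h2 : (Y \ nb G u).card ≤ (Finset.univ \ nb G u).card :=
      Finset.card_le_card (Finset.sdiff_subset_sdiff (Finset.subset_univ _) (Finset.Subset.refl _))
    omega
  -- reference vertices
  have hy' : ∃ y', y' ∈ Y ∧ G.Adj u y' ∧ ∀ d ∈ T1 ∩ X, G.Adj d y' := by
    have h1 := common (G := G) (Y ∩ nb G u) (T1 ∩ X) 77 (by
      intro d hd
      refine le_trans (Finset.card_le_card ?_) (hXm d (Finset.mem_inter.1 hd).2)
      exact Finset.sdiff_subset_sdiff Finset.inter_subset_left (Finset.Subset.refl _))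
    have h2 : (T1 ∩ X).card ≤ 10 := (Finset.card_le_card Finset.inter_subset_left).trans hT1card
    have h3 : (T1 ∩ X).card * 77 ≤ 10 * 77 := Nat.mul_le_mul_right _ h2
    have h4 : 0 < ((Y ∩ nb G u).filter (fun y => ∀ d ∈ T1 ∩ X, G.Adj d y)).card := by omega
    obtain ⟨y', hy'⟩ := Finset.card_pos.1 h4
    rw [Finset.mem_filter, Finset.mem_inter, mem_nb] at hy'
    exact ⟨y', hy'.1.1, hy'.1.2, hy'.2⟩
  obtain ⟨y', hy'Y, huy', hy'adj⟩ := hy'
  have hx' : ∃ x', x' ∈ X ∧ G.Adj u x' ∧ G.Adj y' x' ∧ ∀ d ∈ T1 ∩ Y, G.Adj d x' := by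
    have h1 := common (G := G) (X ∩ nb G u) (insert y' (T1 ∩ Y)) 77 (by
      intro d hd
      have hdY : d ∈ Y := by
        rw [Finset.mem_insert] at hd
        rcases hd with rfl | hd
        · exact hy'Y
        · exact (Finset.mem_inter.1 hd).2
      refine le_trans (Finset.card_le_card ?_) (hYm d hdY)
      exact Finset.sdiff_subset_sdiff Finset.inter_subset_left (Finset.Subset.refl _))
    have h2 : (insert y' (T1 ∩ Y)).card ≤ 11 := by
      refine (Finset.card_insert_le _ _).trans ?_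
      have : (T1 ∩ Y).card ≤ T1.card := Finset.card_le_card Finset.inter_subset_left
      omega
    have h3 : (insert y' (T1 ∩ Y)).card * 77 ≤ 11 * 77 := Nat.mul_le_mul_right _ h2
    have h4 : 0 < ((X ∩ nb G u).filter (fun y => ∀ d ∈ insert y' (T1 ∩ Y), G.Adj d y)).card := by
      omega
    obtain ⟨x', hx'⟩ := Finset.card_pos.1 h4
    rw [Finset.mem_filter, Finset.mem_inter, mem_nb] at hx'
    exact ⟨x', hx'.1.1, hx'.1.2, hx'.2 y' (Finset.mem_insert_self _ _),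
      fun d hd => hx'.2 d (Finset.mem_insert_of_mem hd)⟩
  obtain ⟨x', hx'X, hux', hy'x', hx'adj⟩ := hx'
  -- a matching in the neighbourhood of `u`
  have hM : ∃ a b, Mat G (nb G u) 6 a b := by
    rcases mat_or_cover G (nb G u) 5 with hM | ⟨C, hC, hcov⟩
    · exact hM
    · exfalso
      have h3 : ((X ∩ nb G u) \ C).Nonempty := by
        rw [← Finset.card_pos]
        have := Finset.le_card_sdiff C (X ∩ nb G u)
        omega
      obtain ⟨x, hx⟩ := h3
      simp only [Finset.mem_sdiff, Finset.mem_inter, mem_nb] at hx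
      have h4 : (((Y ∩ nb G u) \ (Y \ nb G x)) \ C).Nonempty := by
        rw [← Finset.card_pos]
        have h5 := Finset.le_card_sdiff (Y \ nb G x) (Y ∩ nb G u)
        have h6 := Finset.le_card_sdiff C ((Y ∩ nb G u) \ (Y \ nb G x))
        have h7 := hXm x hx.1.1
        omega
      obtain ⟨y, hy⟩ := h4
      simp only [Finset.mem_sdiff, Finset.mem_inter, mem_nb] at hy
      have hxy : G.Adj x y := by
        by_contra hcon
        exact hy.1.2 ⟨hy.1.1.1, hcon⟩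
      rcases hcov x (mem_nb.2 hx.1.2) y (mem_nb.2 hy.1.1.2) hxy with h | h
      · exact hx.2 h
      · exact hy.2 h
  obtain ⟨a, b, hM⟩ := hM
  set T : Finset V := insert u (insert x' (insert y' (T1 ∪ vs a b 6))) with hT
  have hTcard : T.card ≤ 40 := by
    have h1 := Finset.card_insert_le u (insert x' (insert y' (T1 ∪ vs a b 6)))
    have h2 := Finset.card_insert_le x' (insert y' (T1 ∪ vs a b 6))
    have h3 := Finset.card_insert_le y' (T1 ∪ vs a b 6)
    have h4 := Finset.card_union_le T1 (vs a b 6)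
    have h5 := vs_card a b 6
    rw [hT]; omega
  obtain ⟨c, hc⟩ := hN T hTcard
  have huT : u ∈ T := by simp [hT]
  have hxT : x' ∈ T := by simp [hT]
  have hyT : y' ∈ T := by simp [hT]
  have hT1T : ∀ t ∈ T1, t ∈ T := by
    intro t ht
    simp [hT, ht]
  have hcu : c u = 0 := forced hc huT hM (fun s hs => mem_nb.1 hs) (by
    intro t ht
    simp [hT, ht])
  have hcx := ok0 _ (hcu ▸ hc.2.2 u huT x' hxT hux')
  have hcy := ok0 _ (hcu ▸ hc.2.2 u huT y' hyT huy')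
  rcases okcase _ _ hcx hcy (hc.2.2 x' hxT y' hyT hy'x'.symm) with ⟨e1, e2⟩ | ⟨e1, e2⟩
  · have := local_case hc hcu huT e1 e2 hxT hyT f (fun s hs => hT1T s (hST1 s hs))
      (fun s hs => hT1T _ (hfT1 s hs)) hf huX huY
      (fun s hs hsX => hy'adj s (Finset.mem_inter.2 ⟨hST1 s hs, hsX⟩))
      (fun s hs hsX => hy'adj _ (Finset.mem_inter.2 ⟨hfT1 s hs, hsX⟩))
      (fun s hs hsX => hx'adj s (Finset.mem_inter.2 ⟨hST1 s hs, hsX⟩))
      (fun s hs hsX => hx'adj _ (Finset.mem_inter.2 ⟨hfT1 s hs, hsX⟩))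
    exact ⟨this.1, this.2.1, Or.inl this.2.2⟩
  · have := local_case (X := Y) (Y := X) hc hcu huT e2 e1 hyT hxT f
      (fun s hs => hT1T s (hST1 s hs))
      (fun s hs => hT1T _ (hfT1 s hs)) (fun s hs => ⟨(hf s hs).1, (hf s hs).2.symm⟩) huY huX
      (fun s hs hsX => hx'adj s (Finset.mem_inter.2 ⟨hST1 s hs, hsX⟩))
      (fun s hs hsX => hx'adj _ (Finset.mem_inter.2 ⟨hfT1 s hs, hsX⟩))
      (fun s hs hsX => hy'adj s (Finset.mem_inter.2 ⟨hST1 s hs, hsX⟩))
      (fun s hs hsX => hy'adj _ (Finset.mem_inter.2 ⟨hfT1 s hs, hsX⟩))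
    exact ⟨this.1, this.2.1, Or.inr this.2.2⟩

end Pool.Agent.H41.SC
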