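import Mathlib
import Pool.Agent.H41.SCLocal

set_option autoImplicit false
open scoped Classical

namespace Pool.Agent.H41.SC

variable {V : Type*} [Fintype V]

/-- Global labelling with prescribed class sizes. -/
def GLab (G : SimpleGraph V) (c : V → Fin 4) : Prop :=
  (∀ a b, G.Adj a b → okb (c a) (c b) = true) ∧
  (Finset.univ.filter (fun v => c v = 0)).card = 1 ∧
  (Finset.univ.filter (fun v => c v = 1)).card = 4 ∧
  (Fintype.card V - 1)^2 / 4 ≤
    (4 + (Finset.univ.filter (fun v => c v = 2)).card) *
      (Finset.univ.filter (fun v => c v = 3)).card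

lemma count {G : SimpleGraph V} {u : V} {X Y W : Finset V} (huX : u ∉ X) (huY : u ∉ Y)
    (hd : Disjoint X Y) (hc : ∀ v, v = u ∨ v ∈ X ∨ v ∈ Y) (hWX : W ⊆ X) (hW4 : W.card ≤ 4)
    (hWu : ∀ w ∈ W, ¬ G.Adj u w) (hin : ∀ a ∈ X, ∀ b ∈ X, G.Adj a b → a ∈ W ∧ b ∈ W)
    (hinY : ∀ a ∈ Y, ∀ b ∈ Y, ¬ G.Adj a b)
    (hE : 2 * ((Fintype.card V + 1)^2 / 4 + 1) ≤ ∑ v, (nb G v).card) :
    ∃ c : V → Fin 4, GLab G c := by
  have hcard : Fintype.card V = 1 + X.card + Y.card := by
    have := card_split huX huY hd hc Finset.univ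
    simpa using this
  have hsplit := fun v => card_split huX huY hd hc (nb G v)
  have h1 : ∀ x, (nb G x ∩ {u}).card ≤ 1 := by
    intro x
    simpa using Finset.card_le_card (Finset.inter_subset_right (s₁ := nb G x) (s₂ := {u}))
  have hsumX : ∑ x ∈ X, (nb G x).card =
      ∑ x ∈ X \ W, (nb G x).card + ∑ x ∈ W, (nb G x).card := by
    rw [Finset.sum_sdiff hWX]
  have hW : ∑ x ∈ W, ((nb G x).card + 1) ≤ W.card * (W.card + Y.card) := by
    apply Finset.sum_le_card_nsmul
    intro x hx
    have e1 : (nb G x ∩ {u}).card = 0 := by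
      rw [Finset.card_eq_zero, Finset.eq_empty_iff_forall_notMem]
      intro w hw
      rw [Finset.mem_inter, mem_nb, Finset.mem_singleton] at hw
      exact hWu x hx (hw.2 ▸ hw.1).symm
    have e2 : (nb G x ∩ X).card + 1 ≤ W.card := by
      have : nb G x ∩ X ⊆ W.erase x := by
        intro w hw
        rw [Finset.mem_inter, mem_nb] at hw
        rw [Finset.mem_erase]
        exact ⟨hw.1.ne', (hin x (hWX hx) w hw.2 hw.1).2⟩
      have h2 := Finset.card_le_card this
      rw [Finset.card_erase_of_mem hx] at h2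
      have h3 : 0 < W.card := Finset.card_pos.2 ⟨x, hx⟩
      omega
    have e3 : (nb G x ∩ Y).card ≤ Y.card := Finset.card_le_card Finset.inter_subset_right
    rw [hsplit x]
    omega
  rw [Finset.sum_add_distrib, Finset.sum_const, smul_eq_mul, mul_one] at hW
  have hXW : ∑ x ∈ X \ W, (nb G x).card ≤ (X \ W).card * (1 + Y.card) := by
    apply Finset.sum_le_card_nsmul
    intro x hx
    rw [Finset.mem_sdiff] at hx
    have e1 := h1 x
    have e2 : (nb G x ∩ X).card = 0 := by
      rw [Finset.card_eq_zero, Finset.eq_empty_iff_forall_notMem]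
      intro w hw
      rw [Finset.mem_inter, mem_nb] at hw
      exact hx.2 (hin x hx.1 w hw.2 hw.1).1
    have e3 : (nb G x ∩ Y).card ≤ Y.card := Finset.card_le_card Finset.inter_subset_right
    rw [hsplit x]
    omega
  have hYs : ∑ x ∈ Y, (nb G x).card ≤ Y.card * (1 + X.card) := by
    apply Finset.sum_le_card_nsmul
    intro x hx
    have e1 := h1 x
    have e2 : (nb G x ∩ Y).card = 0 := by
      rw [Finset.card_eq_zero, Finset.eq_empty_iff_forall_notMem]
      intro w hw
      rw [Finset.mem_inter, mem_nb] at hw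
      exact hinY x hx w hw.2 hw.1
    have e3 : (nb G x ∩ X).card ≤ X.card := Finset.card_le_card Finset.inter_subset_right
    rw [hsplit x]
    omega
  have hu : (nb G u).card ≤ (X \ W).card + Y.card := by
    rw [hsplit u]
    have e1 : (nb G u ∩ {u}).card = 0 := by
      rw [Finset.card_eq_zero, Finset.eq_empty_iff_forall_notMem]
      intro w hw
      rw [Finset.mem_inter, mem_nb, Finset.mem_singleton] at hw
      exact hw.1.ne' hw.2
    have e2 : (nb G u ∩ X).card ≤ (X \ W).card := by
      apply Finset.card_le_card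
      intro w hw
      rw [Finset.mem_inter, mem_nb] at hw
      rw [Finset.mem_sdiff]
      exact ⟨hw.2, fun h => hWu w h hw.1⟩
    have e3 : (nb G u ∩ Y).card ≤ Y.card := Finset.card_le_card Finset.inter_subset_right
    omega
  have hXWcard : (X \ W).card + W.card = X.card := Finset.card_sdiff_add_card_eq_card hWX
  rw [sum_split huX huY hd hc, hsumX] at hE
  have hm : (Fintype.card V + 1)^2 / 4 = (X.card + Y.card)^2 / 4 + (X.card + Y.card + 1) := by
    rw [hcard]
    have : (1 + X.card + Y.card + 1)^2 = (X.card + Y.card)^2 + (X.card + Y.card + 1) * 4 := by ring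
    rw [this, Nat.add_mul_div_right _ _ (by norm_num)]
  rw [hm] at hE
  have hpq : X.card * Y.card ≤ (X.card + Y.card)^2 / 4 := by
    rw [Nat.le_div_iff_mul_le (by norm_num)]
    have := four_mul_le_pow_two_add X.card Y.card
    rw [mul_comm]
    linarith [mul_assoc 4 X.card Y.card]
  -- conclude
  obtain ⟨hw4, hbal⟩ : W.card = 4 ∧ (X.card + Y.card)^2 / 4 ≤ X.card * Y.card := by
    have hxw : (X \ W).card = X.card - W.card := by omega
    have hle : W.card ≤ X.card := by omega
    generalize (X \ W).card = r at *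
    generalize hwc : W.card = w at *
    generalize X.card = p at *
    generalize Y.card = q at *
    generalize (p + q)^2 / 4 = M at *
    subst hXWcard
    clear hxw hle hm hcard hwc
    -- products
    have i1 : r * (1 + q) = r + r * q := by ring
    have i2 : q * (1 + (r + w)) = q + q * r + q * w := by ring
    have i3 : w * (w + q) = w * w + w * q := by ring
    have i4 : (r + w) * q = r * q + w * q := by ring
    rw [i1] at hXW
    rw [i2] at hYs
    rw [i3] at hW
    rw [i4] at hpq ⊢
    have i5 : q * r = r * q := mul_comm _ _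
    have i6 : q * w = w * q := mul_comm _ _
    rw [i5, i6] at hYs
    generalize r * q = A at *
    generalize w * q = B at *
    interval_cases w <;> omega
  -- the labelling
  have huW : u ∉ W := fun h => huX (hWX h)
  set c : V → Fin 4 := fun v => if v = u then 0 else if v ∈ W then 1 else if v ∈ X then 2 else 3
    with hcdef
  have cu : c u = 0 := by simp [hcdef]
  have cW : ∀ v ∈ W, c v = 1 := by
    intro v hv
    have : v ≠ u := fun h => huW (h ▸ hv)
    simp [hcdef, this, hv]
  have cX : ∀ v ∈ X, v ∉ W → c v = 2 := by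
    intro v hv hv'
    have : v ≠ u := fun h => huX (h ▸ hv)
    simp [hcdef, this, hv', hv]
  have cY : ∀ v ∈ Y, c v = 3 := by
    intro v hv
    have h1 : v ≠ u := fun h => huY (h ▸ hv)
    have h2 : v ∉ X := fun h => Finset.disjoint_left.1 hd h hv
    have h3 : v ∉ W := fun h => h2 (hWX h)
    simp [hcdef, h1, h2, h3]
  have hcases : ∀ v, v = u ∨ v ∈ W ∨ (v ∈ X ∧ v ∉ W) ∨ v ∈ Y := by
    intro v
    rcases hc v with h | h | h
    · exact Or.inl h
    · by_cases h2 : v ∈ W
      · exact Or.inr (Or.inl h2)
      · exact Or.inr (Or.inr (Or.inl ⟨h, h2⟩))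
    · exact Or.inr (Or.inr (Or.inr h))
  have f0 : (Finset.univ.filter (fun v => c v = 0)) = {u} := by
    ext v
    simp only [Finset.mem_filter, Finset.mem_univ, true_and, Finset.mem_singleton]
    constructor
    · intro h
      rcases hcases v with h1 | h1 | h1 | h1
      · exact h1
      · rw [cW v h1] at h; exact absurd h (by decide)
      · rw [cX v h1.1 h1.2] at h; exact absurd h (by decide)
      · rw [cY v h1] at h; exact absurd h (by decide)
    · intro h; rw [h, cu]
  have f1 : (Finset.univ.filter (fun v => c v = 1)) = W := by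
    ext v
    simp only [Finset.mem_filter, Finset.mem_univ, true_and]
    constructor
    · intro h
      rcases hcases v with h1 | h1 | h1 | h1
      · rw [h1, cu] at h; exact absurd h (by decide)
      · exact h1
      · rw [cX v h1.1 h1.2] at h; exact absurd h (by decide)
      · rw [cY v h1] at h; exact absurd h (by decide)
    · intro h; exact cW v h
  have f2 : (Finset.univ.filter (fun v => c v = 2)) = X \ W := by
    ext v
    simp only [Finset.mem_filter, Finset.mem_univ, true_and, Finset.mem_sdiff]
    constructor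
    · intro h
      rcases hcases v with h1 | h1 | h1 | h1
      · rw [h1, cu] at h; exact absurd h (by decide)
      · rw [cW v h1] at h; exact absurd h (by decide)
      · exact h1
      · rw [cY v h1] at h; exact absurd h (by decide)
    · intro h; exact cX v h.1 h.2
  have f3 : (Finset.univ.filter (fun v => c v = 3)) = Y := by
    ext v
    simp only [Finset.mem_filter, Finset.mem_univ, true_and]
    constructor
    · intro h
      rcases hcases v with h1 | h1 | h1 | h1
      · rw [h1, cu] at h; exact absurd h (by decide)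
      · rw [cW v h1] at h; exact absurd h (by decide)
      · rw [cX v h1.1 h1.2] at h; exact absurd h (by decide)
      · exact h1
    · intro h; exact cY v h
  refine ⟨c, ?_, ?_, ?_, ?_⟩
  · intro a b hab
    rcases hcases a with ha | ha | ha | ha <;> rcases hcases b with hb | hb | hb | hb
    · exact absurd (ha.trans hb.symm) hab.ne
    · exact absurd (ha ▸ hab) (hWu b hb)
    · rw [ha, cu, cX b hb.1 hb.2]; rfl
    · rw [ha, cu, cY b hb]; rfl
    · exact absurd (hb ▸ hab).symm (hWu a ha)
    · rw [cW a ha, cW b hb]; rfl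
    · exact absurd (hin a (hWX ha) b hb.1 hab).2 hb.2
    · rw [cW a ha, cY b hb]; rfl
    · rw [hb, cu, cX a ha.1 ha.2]; rfl
    · exact absurd (hin a ha.1 b (hWX hb) hab).1 ha.2
    · exact absurd (hin a ha.1 b hb.1 hab).1 ha.2
    · rw [cX a ha.1 ha.2, cY b hb]; rfl
    · rw [hb, cu, cY a ha]; rfl
    · rw [cY a ha, cW b hb]; rfl
    · rw [cX b hb.1 hb.2, cY a ha]; rfl
    · exact absurd hab (hinY a ha b hb)
  · rw [f0]; simp
  · rw [f1]; exact hw4
  · rw [f2, f3]
    have e1 : 4 + (X \ W).card = X.card := by omega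
    have e2 : Fintype.card V - 1 = X.card + Y.card := by omega
    rw [e1, e2]
    exact hbal

theorem structure_thm (G : SimpleGraph V)
    (hN : ∀ T : Finset V, T.card ≤ 40 → ∃ c, LG G T c)
    (hn : 10000 ≤ Fintype.card V)
    (hdeg : ∀ v, Fintype.card V ≤ 2 * (nb G v).card)
    (hE : 2 * ((Fintype.card V + 1)^2 / 4 + 1) ≤ ∑ v, (nb G v).card) :
    ∃ c : V → Fin 4, GLab G c := by
  obtain ⟨u, X, Y, huX, huY, hd, hc, hXm, hYm, hXi, hYi, hXc, hYc⟩ := struct1 G hN hn hdeg
  have hsX := inside_sum hN hXm hXi (by omega)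
  have hsY := inside_sum hN hYm hYi (by omega)
  have hdu := deg_u huX huY hd hc hsX hsY (by omega)
  set I : Finset V := Finset.univ.filter
    (fun v => ∃ v', G.Adj v v' ∧ ((v ∈ X ∧ v' ∈ X) ∨ (v ∈ Y ∧ v' ∈ Y))) with hI
  have hloc := inside_local hN huX huY hXm hYm hdu (by omega) (by omega)
  have hI4 : I.card ≤ 4 := by
    by_contra hcon
    rw [not_le] at hcon
    obtain ⟨S, hSI, hS⟩ := Finset.exists_subset_card_eq (s := I) (n := 5) (by omega)
    have := (hloc S (by omega) (fun s hs => by
      have := hSI hs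
      rw [hI, Finset.mem_filter] at this
      exact this.2)).1
    omega
  obtain ⟨-, hIu, hside⟩ := hloc I (by omega) (fun s hs => by
      rw [hI, Finset.mem_filter] at hs
      exact hs.2)
  rcases hside with hIX | hIY
  · refine count huX huY hd hc hIX hI4 hIu ?_ ?_ hE
    · intro a ha b hb hab
      constructor
      · rw [hI, Finset.mem_filter]; exact ⟨Finset.mem_univ _, b, hab, Or.inl ⟨ha, hb⟩⟩
      · rw [hI, Finset.mem_filter]; exact ⟨Finset.mem_univ _, a, hab.symm, Or.inl ⟨hb, ha⟩⟩
    · intro a ha b hb hab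
      have : a ∈ I := by
        rw [hI, Finset.mem_filter]; exact ⟨Finset.mem_univ _, b, hab, Or.inr ⟨ha, hb⟩⟩
      exact Finset.disjoint_left.1 hd (hIX this) ha
  · refine count huY huX hd.symm (fun v => (hc v).imp_right Or.symm) hIY hI4 hIu ?_ ?_ hE
    · intro a ha b hb hab
      constructor
      · rw [hI, Finset.mem_filter]; exact ⟨Finset.mem_univ _, b, hab, Or.inr ⟨ha, hb⟩⟩
      · rw [hI, Finset.mem_filter]; exact ⟨Finset.mem_univ _, a, hab.symm, Or.inr ⟨hb, ha⟩⟩
    · intro a ha b hb hab
      have : a ∈ I := by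
        rw [hI, Finset.mem_filter]; exact ⟨Finset.mem_univ _, b, hab, Or.inl ⟨ha, hb⟩⟩
      exact Finset.disjoint_left.1 hd ha (hIY this)

end Pool.Agent.H41.SC
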