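import Mathlib
import Pool.Agent.H41.SCFinal

set_option autoImplicit false
open scoped Classical

namespace Pool.Agent.H41.SC

variable {V : Type*} [Fintype V]

lemma sum_lab (c : V → Fin 4) (h : Fin 4 → ℝ) :
    ∑ v, h (c v) = ∑ j, ((Finset.univ.filter (fun v => c v = j)).card : ℝ) * h j := by
  have h1 : ∀ v, h (c v) = ∑ j, if c v = j then h j else 0 := by
    intro v
    simp
  rw [Finset.sum_congr rfl (fun v _ => h1 v), Finset.sum_comm]
  apply Finset.sum_congr rfl
  intro j _
  rw [← Finset.sum_filter, Finset.sum_const, nsmul_eq_mul]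

/-- graph built from a labelling -/
def lgraph (c : V → Fin 4) : SimpleGraph V where
  Adj a b := a ≠ b ∧ okb (c a) (c b) = true
  symm := ⟨fun a b h => ⟨h.1.symm, by rw [okb_symm]; exact h.2⟩⟩
  loopless := ⟨fun a h => h.1 rfl⟩

lemma row_sum (c : V → Fin 4) (h : Fin 4 → ℝ) (a : V) :
    ∑ b, (if (lgraph c).Adj a b then h (c b) else 0) =
      (∑ j, ((Finset.univ.filter (fun v => c v = j)).card : ℝ) *
        (if okb (c a) j = true then h j else 0)) - (if okb (c a) (c a) = true then h (c a) else 0) := by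
  rw [← sum_lab c (fun j => if okb (c a) j = true then h j else 0)]
  rw [← Finset.add_sum_erase _ _ (Finset.mem_univ a)]
  rw [← Finset.add_sum_erase (Finset.univ) (fun v => if okb (c a) (c v) = true then h (c v) else 0) (Finset.mem_univ a)]
  have h1 : (if (lgraph c).Adj a a then h (c a) else 0) = 0 := by
    rw [if_neg]; exact (lgraph c).loopless.irrefl a
  rw [h1]
  have h2 : ∑ b ∈ Finset.univ.erase a, (if (lgraph c).Adj a b then h (c b) else 0) =
      ∑ b ∈ Finset.univ.erase a, (if okb (c a) (c b) = true then h (c b) else 0) := by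
    apply Finset.sum_congr rfl
    intro b hb
    rw [Finset.mem_erase] at hb
    have : (lgraph c).Adj a b ↔ okb (c a) (c b) = true := by
      constructor
      · intro h; exact h.2
      · intro h; exact ⟨hb.1.symm, h⟩
    simp only [this]
  rw [h2]
  ring

lemma quad_le (A : V → V → ℝ) (hA0 : ∀ i j, 0 ≤ A i j) (hAs : ∀ i j, A i j = A j i) (z : V → ℝ)
    (hz : ∀ i, 0 < z i) (s M : ℝ) (hs : 0 ≤ s) (h : ∀ i, s * ∑ j, A i j * z j ≤ M * z i) (y : V → ℝ) :
    s * ∑ i, ∑ j, A i j * (y i * y j) ≤ M * ∑ i, y i ^ 2 := by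
  have h1 : ∀ i j, A i j * (y i * y j) ≤ A i j * ((z j / z i * y i ^ 2 + z i / z j * y j ^ 2) / 2) := by
    intro i j
    apply mul_le_mul_of_nonneg_left _ (hA0 i j)
    have hi := hz i
    have hj := hz j
    have : (z j / z i * y i ^ 2 + z i / z j * y j ^ 2) / 2 - y i * y j =
        (z j * y i - z i * y j)^2 / (2 * z i * z j) := by
      field_simp
      ring
    have h2 : 0 ≤ (z j * y i - z i * y j)^2 / (2 * z i * z j) := by positivity
    linarith
  have h2 : ∑ i, ∑ j, A i j * (y i * y j) ≤ ∑ i, (y i ^ 2 / z i) * ∑ j, A i j * z j := by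
    calc ∑ i, ∑ j, A i j * (y i * y j)
        ≤ ∑ i, ∑ j, A i j * ((z j / z i * y i ^ 2 + z i / z j * y j ^ 2) / 2) :=
          Finset.sum_le_sum (fun i _ => Finset.sum_le_sum (fun j _ => h1 i j))
      _ = (∑ i, ∑ j, A i j * (z j / z i * y i ^ 2)) / 2 +
          (∑ i, ∑ j, A i j * (z i / z j * y j ^ 2)) / 2 := by
          rw [Finset.sum_div, Finset.sum_div, ← Finset.sum_add_distrib]
          apply Finset.sum_congr rfl
          intro i _
          rw [Finset.sum_div, Finset.sum_div, ← Finset.sum_add_distrib]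
          apply Finset.sum_congr rfl
          intro j _
          ring
      _ = (∑ i, ∑ j, A i j * (z j / z i * y i ^ 2)) / 2 +
          (∑ i, ∑ j, A i j * (z j / z i * y i ^ 2)) / 2 := by
          congr 2
          rw [Finset.sum_comm]
          apply Finset.sum_congr rfl
          intro i _
          apply Finset.sum_congr rfl
          intro j _
          rw [hAs]
      _ = ∑ i, ∑ j, A i j * (z j / z i * y i ^ 2) := by ring
      _ = ∑ i, (y i ^ 2 / z i) * ∑ j, A i j * z j := by
          apply Finset.sum_congr rfl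
          intro i _
          rw [Finset.mul_sum]
          apply Finset.sum_congr rfl
          intro j _
          ring
  calc s * ∑ i, ∑ j, A i j * (y i * y j) ≤ s * ∑ i, (y i ^ 2 / z i) * ∑ j, A i j * z j :=
        mul_le_mul_of_nonneg_left h2 hs
    _ = ∑ i, (y i ^ 2 / z i) * (s * ∑ j, A i j * z j) := by
        rw [Finset.mul_sum]
        apply Finset.sum_congr rfl
        intro i _
        ring
    _ ≤ ∑ i, (y i ^ 2 / z i) * (M * z i) := by
        apply Finset.sum_le_sum
        intro i _
        exact mul_le_mul_of_nonneg_left (h i) (div_nonneg (sq_nonneg _) (hz i).le)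
    _ = M * ∑ i, y i ^ 2 := by
        rw [Finset.mul_sum]
        apply Finset.sum_congr rfl
        intro i _
        have := (hz i).ne'
        field_simp

/-- indicator of adjacency -/
noncomputable def ind (G : SimpleGraph V) (i j : V) : ℝ := if G.Adj i j then 1 else 0

/-- test weights for the upper bound -/
noncomputable def zz (a e : ℝ) : Fin 4 → ℝ := ![2*a^2 - (15/2)*a, a^2 + (11/10 - e/2)*a, a^2 - e/2*a,
  a^2 + e/2*a + (11/5 - e)]

lemma upper {G : SimpleGraph V} {c : V → Fin 4} (hG : GLab G c) (hn : 10000 ≤ Fintype.card V)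
    (y : V → ℝ) (a : ℝ) (ha : 2 * a = (Fintype.card V : ℝ) - 1) :
    a * ∑ i, ∑ j, ind G i j * (y i * y j) ≤ (a^2 + 2*a - 5) * ∑ i, y i ^ 2 := by
  obtain ⟨hadj, h0, h1, hbal⟩ := hG
  set k2 := (Finset.univ.filter (fun v => c v = 2)).card with hk2
  set k3 := (Finset.univ.filter (fun v => c v = 3)).card with hk3
  have hcard : (Fintype.card V : ℝ) = 5 + k2 + k3 := by
    have := sum_lab c (fun _ => 1)
    simp only [Fin.sum_univ_four, h0, h1, mul_one, Finset.sum_const, Finset.card_univ,
      nsmul_eq_mul, ← hk2, ← hk3] at this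
    push_cast at this
    linarith
  have hcard' : Fintype.card V = 5 + k2 + k3 := by exact_mod_cast hcard
  have ha' : (a : ℝ) ≥ 4999 := by
    have : (10000 : ℝ) ≤ Fintype.card V := by exact_mod_cast hn
    linarith
  -- the three cases
  obtain ⟨e, he, hp, hq⟩ : ∃ e : ℝ, (e = 0 ∨ e = 1/2 ∨ e = -1/2) ∧ (k2 : ℝ) = a + e - 4 ∧
      (k3 : ℝ) = a - e := by
    have h4 : Fintype.card V - 1 = 4 + k2 + k3 := by omega
    rw [h4] at hbal
    have h5 : (4 + k2 + k3)^2 ≤ 4 * ((4 + k2) * k3) + 3 := by omega
    have h6 : (4 + k2 : ℤ) - k3 ≤ 1 ∧ -1 ≤ (4 + k2 : ℤ) - k3 := by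
      have h7 : ((4 + k2 : ℤ) - k3)^2 ≤ 3 := by
        zify at h5
        nlinarith
      constructor <;> nlinarith
    refine ⟨((4 + k2 : ℝ) - k3)/2, ?_, by linarith, by linarith⟩
    have h8 : (4 + k2 : ℤ) - k3 = 0 ∨ (4 + k2 : ℤ) - k3 = 1 ∨ (4 + k2 : ℤ) - k3 = -1 := by omega
    rcases h8 with h | h | h
    · left
      have : (4 + k2 : ℝ) - k3 = 0 := by exact_mod_cast h
      rw [this]; norm_num
    · right; left
      have : (4 + k2 : ℝ) - k3 = 1 := by exact_mod_cast h
      rw [this]
    · right; right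
      have : (4 + k2 : ℝ) - k3 = -1 := by exact_mod_cast h
      rw [this]
  have hzpos : ∀ j, 0 < zz a e j := by
    intro j
    rcases he with rfl | rfl | rfl <;> fin_cases j <;> simp [zz] <;> nlinarith
  apply quad_le (ind G) (fun i j => by unfold ind; split_ifs <;> norm_num)
    (fun i j => by unfold ind; simp only [G.adj_comm]) (fun v => zz a e (c v)) (fun v => hzpos _) a
    (a^2 + 2*a - 5) (by linarith)
  intro i
  have hle : ∑ j, ind G i j * zz a e (c j) ≤
      ∑ b, (if (lgraph c).Adj i b then zz a e (c b) else 0) := by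
    apply Finset.sum_le_sum
    intro j _
    unfold ind
    by_cases hij : G.Adj i j
    · have : (lgraph c).Adj i j := ⟨hij.ne, hadj i j hij⟩
      simp [hij, this]
    · simp only [hij, if_false, zero_mul]
      split_ifs
      · exact (hzpos _).le
      · exact le_rfl
  refine le_trans (mul_le_mul_of_nonneg_left hle (by linarith)) ?_
  rw [row_sum]
  simp only [Fin.sum_univ_four, h0, h1, ← hk2, ← hk3, hp, hq]
  generalize c i = l
  rcases he with rfl | rfl | rfl <;> fin_cases l <;> simp [zz, okb] <;> nlinarith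

end Pool.Agent.H41.SC
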