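import Mathlib
import Pool.Agent.H41.SCSpec

set_option autoImplicit false
open Matrix
open scoped Classical

namespace Pool.Agent.H41.SC

/-! ### The family -/

/-- members of the family: graphs on 40 vertices without a good labelling -/
abbrev Bad : Type := {F : SimpleGraph (Fin 40) // ¬ ∃ c, LG F Finset.univ c}

noncomputable instance : Fintype Bad := Fintype.ofFinite _

/-- number of members -/
noncomputable def mm : ℕ := Fintype.card Bad

/-- the family -/
noncomputable def FF (i : Fin mm) : SimpleGraph (Fin 40) := ((Fintype.equivFin Bad).symm i).1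

lemma FF_bad (i : Fin mm) : ¬ ∃ c, LG (FF i) Finset.univ c := ((Fintype.equivFin Bad).symm i).2

lemma exists_FF (F : SimpleGraph (Fin 40)) (h : ¬ ∃ c, LG F Finset.univ c) : ∃ i, FF i = F :=
  ⟨Fintype.equivFin Bad ⟨F, h⟩, by simp [FF]⟩

/-- H-free -/
def Hf {n : ℕ} (G : SimpleGraph (Fin n)) : Prop := ∀ i : Fin mm, ¬ (FF i).IsContained G

lemma Hf.local {n : ℕ} {G : SimpleGraph (Fin n)} (h : Hf G) (hn : 40 ≤ n) (T : Finset (Fin n))
    (hT : T.card ≤ 40) : ∃ c, LG G T c := by
  obtain ⟨T', hTT', -, hT'⟩ := Finset.exists_subsuperset_card_eq (Finset.subset_univ T) hT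
    (by simpa using hn)
  have e : Fin 40 ≃ T' := (Fintype.equivFinOfCardEq (by simpa using hT')).symm
  set f : Fin 40 → Fin n := fun i => (e i : Fin n) with hf
  have hfinj : Function.Injective f := fun i j hij => e.injective (Subtype.ext hij)
  by_contra hcon
  have hbad : ¬ ∃ c, LG (G.comap f) Finset.univ c := by
    rintro ⟨c, hc⟩
    apply hcon
    refine ⟨fun v => if hv : v ∈ T' then c (e.symm ⟨v, hv⟩) else 0, ?_⟩
    refine LG.mono ?_ hTT'
    refine ⟨?_, ?_, ?_⟩
    · intro a ha b hb h1 h2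
      simp only [ha, hb, dif_pos] at h1 h2
      have := hc.1 _ (Finset.mem_univ _) _ (Finset.mem_univ _) h1 h2
      have := e.symm.injective this
      simpa using this
    · refine le_trans ?_ hc.2.1
      refine Finset.card_le_card_of_injOn (fun v => if hv : v ∈ T' then e.symm ⟨v, hv⟩ else 0) ?_ ?_
      · intro v hv
        rw [Finset.mem_coe, Finset.mem_filter] at hv
        obtain ⟨hv1, hv2⟩ := hv
        simp only [hv1, dif_pos] at hv2 ⊢
        rw [Finset.mem_coe, Finset.mem_filter]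
        exact ⟨Finset.mem_univ _, hv2⟩
      · intro v hv w hw hvw
        rw [Finset.mem_coe, Finset.mem_filter] at hv hw
        simp only [hv.1, hw.1, dif_pos] at hvw
        have := e.symm.injective hvw
        simpa using this
    · intro a ha b hb hab
      simp only [ha, hb, dif_pos]
      apply hc.2.2 _ (Finset.mem_univ _) _ (Finset.mem_univ _)
      simp [SimpleGraph.comap_adj, hf, hab]
  obtain ⟨i, hi⟩ := exists_FF _ hbad
  apply h i
  rw [hi]
  exact ⟨⟨⟨f, fun {a b} hab => hab⟩, hfinj⟩⟩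

lemma Hf_of_lab {n : ℕ} {G : SimpleGraph (Fin n)} (c : Fin n → Fin 4)
    (hadj : ∀ a b, G.Adj a b → okb (c a) (c b) = true)
    (h0 : (Finset.univ.filter (fun v => c v = 0)).card ≤ 1)
    (h1 : (Finset.univ.filter (fun v => c v = 1)).card ≤ 4) : Hf G := by
  rintro i ⟨⟨f, hf⟩⟩
  apply FF_bad i
  refine ⟨fun v => c (f v), ?_, ?_, ?_⟩
  · intro a _ b _ ha hb
    apply hf
    exact Finset.card_le_one.1 h0 _ (by simp [ha]) _ (by simp [hb])
  · refine le_trans ?_ h1
    refine Finset.card_le_card_of_injOn f ?_ ?_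
    · intro v hv
      rw [Finset.mem_coe, Finset.mem_filter] at hv ⊢
      exact ⟨Finset.mem_univ _, hv.2⟩
    · intro v _ w _ hvw
      exact hf hvw
  · intro a _ b _ hab
    exact hadj _ _ (f.map_adj hab)

lemma ok_tri : ∀ i j k : Fin 4, okb i j = true → okb i k = true → okb j k = true →
    (i = 0 ∨ i = 1) ∨ (j = 0 ∨ j = 1) ∨ (k = 0 ∨ k = 1) := by decide

lemma chi_ge (i : Fin mm) : ((2 + 1 : ℕ) : ℕ∞) ≤ (FF i).chromaticNumber := by
  by_contra hcon
  rw [not_le] at hcon
  have h2 : (FF i).chromaticNumber ≤ ((2 : ℕ) : ℕ∞) := by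
    apply Order.le_of_lt_add_one
    exact_mod_cast hcon
  rw [SimpleGraph.chromaticNumber_le_iff_colorable] at h2
  obtain ⟨C⟩ := h2
  apply FF_bad i
  refine ⟨fun v => if C v = 0 then 2 else 3, ?_, ?_, ?_⟩
  · intro a _ b _ ha _
    exfalso
    simp only at ha
    split_ifs at ha <;> exact absurd ha (by decide)
  · rw [Finset.filter_false_of_mem]
    · simp
    · intro a _
      simp only
      split_ifs <;> decide
  · intro a _ b _ hab
    have := C.valid hab
    simp only
    have ha : ∀ x : Fin 2, x = 0 ∨ x = 1 := by decide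
    rcases ha (C a) with h1 | h1 <;> rcases ha (C b) with h3 | h3
    · exact absurd (h1.trans h3.symm) this
    · simp [h1, h3, okb]
    · simp [h1, h3, okb]
    · exact absurd (h1.trans h3.symm) this

/-- thirteen disjoint triangles on 40 vertices -/
def tri : SimpleGraph (Fin 40) where
  Adj a b := a ≠ b ∧ a.val / 3 = b.val / 3
  symm := ⟨fun _ _ h => ⟨h.1.symm, h.2.symm⟩⟩
  loopless := ⟨fun _ h => h.1 rfl⟩

lemma tri_bad : ¬ ∃ c, LG tri Finset.univ c := by
  rintro ⟨c, hc⟩
  have hsp : ∀ t : ℕ, t < 6 → ∃ v : Fin 40, v.val / 3 = t ∧ (c v = 0 ∨ c v = 1) := by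
    intro t ht
    have e0 : 3 * t < 40 := by omega
    have e1 : 3 * t + 1 < 40 := by omega
    have e2 : 3 * t + 2 < 40 := by omega
    have a01 : tri.Adj ⟨3*t, e0⟩ ⟨3*t+1, e1⟩ := ⟨by simp, by simp only; omega⟩
    have a02 : tri.Adj ⟨3*t, e0⟩ ⟨3*t+2, e2⟩ := ⟨by simp, by simp only; omega⟩
    have a12 : tri.Adj ⟨3*t+1, e1⟩ ⟨3*t+2, e2⟩ := ⟨by simp, by simp only; omega⟩
    rcases ok_tri _ _ _ (hc.2.2 _ (Finset.mem_univ _) _ (Finset.mem_univ _) a01)
      (hc.2.2 _ (Finset.mem_univ _) _ (Finset.mem_univ _) a02)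
      (hc.2.2 _ (Finset.mem_univ _) _ (Finset.mem_univ _) a12) with h | h | h
    · exact ⟨_, by simp only; omega, h⟩
    · exact ⟨_, by simp only; omega, h⟩
    · exact ⟨_, by simp only; omega, h⟩
  choose! s hs1 hs2 using hsp
  have hcard := Finset.card_le_card_of_injOn (s := Finset.range 6)
    (t := Finset.univ.filter (fun a => c a = 0 ∨ c a = 1)) s (by
      intro t ht
      rw [Finset.mem_coe, Finset.mem_range] at ht
      rw [Finset.mem_coe, Finset.mem_filter]
      exact ⟨Finset.mem_univ _, hs2 t ht⟩) (by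
      intro t ht t' ht' htt'
      rw [Finset.mem_coe, Finset.mem_range] at ht ht'
      rw [← hs1 t ht, ← hs1 t' ht', htt'])
  have := hc.special
  rw [Finset.card_range] at hcard
  omega

lemma tri_chi_le : tri.chromaticNumber ≤ ((3 : ℕ) : ℕ∞) := by
  rw [SimpleGraph.chromaticNumber_le_iff_colorable]
  refine ⟨SimpleGraph.Coloring.mk (fun v => (⟨v.val % 3, Nat.mod_lt _ (by norm_num)⟩ : Fin 3)) ?_⟩
  intro a b hab h
  simp only [Fin.mk.injEq] at h
  apply hab.1
  apply Fin.ext
  have := hab.2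
  omega

lemma cond1 : ∃ i : Fin mm, (FF i).chromaticNumber = ((2 + 1 : ℕ) : ℕ∞) := by
  obtain ⟨i, hi⟩ := exists_FF tri tri_bad
  refine ⟨i, le_antisymm ?_ (chi_ge i)⟩
  rw [hi]
  exact tri_chi_le

lemma cond2 : ∃ i : Fin mm, ∃ N : ℕ, (FF i).IsContained
        (SimpleGraph.fromRel (fun u v : Fin 2 × Fin N =>
          u.1 ≠ v.1 ∨ (u.1.val = 0 ∧ v.1.val = 0 ∧ u.2.val / 2 = v.2.val / 2))) := by
  obtain ⟨i, hi⟩ := exists_FF tri tri_bad
  refine ⟨i, 40, ?_⟩
  rw [hi]
  refine ⟨⟨⟨fun a => (⟨a.val % 3 / 2, by omega⟩, ⟨2 * (a.val / 3) + a.val % 3 % 2, by omega⟩), ?_⟩, ?_⟩⟩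
  · intro a b hab
    obtain ⟨hne, h3⟩ := hab
    have hne' : a.val ≠ b.val := fun h => hne (Fin.ext h)
    rw [SimpleGraph.fromRel_adj]
    simp only [ne_eq, Prod.mk.injEq, Fin.mk.injEq, not_and]
    refine ⟨?_, Or.inl ?_⟩
    · intro h1 h2
      omega
    · by_cases h1 : a.val % 3 / 2 = b.val % 3 / 2
      · right
        omega
      · left
        exact h1
  · intro a b hab
    simp only [RelHom.coeFn_mk, Prod.mk.injEq, Fin.mk.injEq] at hab
    apply Fin.ext
    omega

end Pool.Agent.H41.SC
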