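import Mathlib
import Pool.Agent.H41.SCMain

set_option autoImplicit false
open Matrix
open scoped Classical

namespace Pool.Agent.H41.SC

lemma two_ncard {n : ℕ} (G : SimpleGraph (Fin n)) :
    ∑ v, (nb G v).card = 2 * G.edgeSet.ncard := by
  have h := G.sum_degrees_eq_twice_card_edges
  have h1 : G.edgeSet.ncard = G.edgeFinset.card := by
    rw [Set.ncard_eq_toFinset_card']
    rfl
  rw [h1, ← h]
  apply Finset.sum_congr rfl
  intro v _
  rw [← SimpleGraph.card_neighborFinset_eq_degree]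
  congr 1
  ext w
  simp [nb]

lemma exists_lab (k : Fin 4 → ℕ) (n : ℕ) (hk : ∑ j, k j = n) :
    ∃ c : Fin n → Fin 4, ∀ j, (Finset.univ.filter (fun v => c v = j)).card = k j := by
  have hcard : Fintype.card (Σ j : Fin 4, Fin (k j)) = n := by simp [hk]
  have e : (Σ j : Fin 4, Fin (k j)) ≃ Fin n := Fintype.equivFinOfCardEq hcard
  refine ⟨fun i => (e.symm i).1, fun j => ?_⟩
  have h1 : (Finset.univ.filter (fun v : Fin n => (e.symm v).1 = j)).card =
      (Finset.univ : Finset (Fin (k j))).card := by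
    symm
    apply Finset.card_bij (fun i _ => e ⟨j, i⟩)
    · intro i _
      simp
    · intro a _ b _ hab
      have := e.injective hab
      simpa using this
    · intro v hv
      rw [Finset.mem_filter] at hv
      obtain ⟨-, rfl⟩ := hv
      exact ⟨(e.symm v).2, Finset.mem_univ _, by simp⟩
  rw [h1, Finset.card_univ, Fintype.card_fin]

lemma nb_card_eq {V : Type*} [Fintype V] (G : SimpleGraph V) (v : V) :
    ((nb G v).card : ℝ) = ∑ b, (if G.Adj v b then (1:ℝ) else 0) := by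
  rw [nb, Finset.card_filter]
  push_cast
  rfl

lemma exists_B (n : ℕ) (hn : 10 ≤ n) :
    ∃ G : SimpleGraph (Fin n), Hf G ∧ (n+1)^2/4 + 1 ≤ G.edgeSet.ncard := by
  obtain ⟨c, hc⟩ := exists_lab ![1, 4, n/2 - 4, (n-1)/2] n (by
    simp [Fin.sum_univ_four]; omega)
  have c0 := hc 0
  have c1 := hc 1
  have c2 := hc 2
  have c3 := hc 3
  simp only [Matrix.cons_val] at c0 c1 c2 c3
  refine ⟨lgraph c, Hf_of_lab c (fun a b hab => hab.2) (by omega) (by omega), ?_⟩
  obtain ⟨D, hD⟩ : ∃ D : Fin 4 → ℝ, D =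
      (fun l => (∑ j, ((Finset.univ.filter (fun v => c v = j)).card : ℝ) *
        (if okb l j = true then (1:ℝ) else 0)) - (if okb l l = true then (1:ℝ) else 0)) := ⟨_, rfl⟩
  have h1 : ∀ v, ((nb (lgraph c) v).card : ℝ) = D (c v) := by
    intro v
    rw [nb_card_eq, hD]
    exact row_sum c (fun _ => 1) v
  have h2 : ((∑ v, (nb (lgraph c) v).card : ℕ) : ℝ) =
      2 * ((n/2 - 4 : ℕ) : ℝ) * ((n-1)/2 : ℕ) + 2 * ((n/2 - 4 : ℕ) : ℝ) + 10 * ((n-1)/2 : ℕ) + 12 := by
    push_cast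
    rw [Finset.sum_congr rfl (fun v _ => h1 v), sum_lab c D, hD]
    simp only [Fin.sum_univ_four, c0, c1, c2, c3]
    simp [okb]
    ring
  rw [two_ncard] at h2
  have h3 : 2 * (lgraph c).edgeSet.ncard = 2 * (n/2 - 4) * ((n-1)/2) + 2 * (n/2-4) + 10 * ((n-1)/2) + 12 := by
    exact_mod_cast h2
  obtain ⟨t, ht⟩ : ∃ t, n / 2 = t + 4 := ⟨n/2 - 4, by omega⟩
  have ht' : n / 2 - 4 = t := by omega
  rw [ht'] at h3
  have h4 : (n+1)^2/4 = (t+4) * ((n-1)/2) + n := by
    rcases Nat.even_or_odd' n with ⟨r, hr | hr⟩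
    · have e1 : r = t + 4 := by omega
      have e2 : (n-1)/2 = t + 3 := by omega
      rw [e2, hr, e1]
      have : (2 * (t+4) + 1)^2 = 1 + 4 * ((t+4)*(t+3) + 2 * (t+4)) := by ring
      rw [this]
      omega
    · have e1 : r = t + 4 := by omega
      have e2 : (n-1)/2 = t + 4 := by omega
      rw [e2, hr, e1]
      have : (2 * (t+4) + 1 + 1)^2 = 4 * ((t+4)*(t+4) + (2 * (t+4) + 1)) := by ring
      rw [this]
      omega
  rw [h4]
  have h5 : (t+4) * ((n-1)/2) = t * ((n-1)/2) + 4 * ((n-1)/2) := by ring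
  have h6 : 2 * t * ((n-1)/2) = 2 * (t * ((n-1)/2)) := by ring
  rw [h5]
  rw [h6] at h3
  generalize t * ((n-1)/2) = A at *
  omega

lemma exists_A (n : ℕ) (hn : 10000 ≤ n) (a : ℝ) (ha : 2 * a = (n : ℝ) - 1) :
    ∃ G : SimpleGraph (Fin n), Hf G ∧ ∃ x : Fin n → ℝ, x ≠ 0 ∧
      (a^2 + 2*a - 5) * ∑ i, x i ^ 2 < a * ∑ i, ∑ j, ind G i j * (x i * x j) := by
  obtain ⟨c, hc⟩ := exists_lab ![1, 0, n/2, (n-1)/2] n (by
    simp [Fin.sum_univ_four]; omega)
  have c0 := hc 0
  have c1 := hc 1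
  have c2 := hc 2
  have c3 := hc 3
  simp only [Matrix.cons_val] at c0 c1 c2 c3
  refine ⟨lgraph c, Hf_of_lab c (fun a b hab => hab.2) (by omega) (by omega),
    fun v => (![2, 1, 1, 1] : Fin 4 → ℝ) (c v), ?_, ?_⟩
  · intro h
    have h1 := congrFun h ⟨0, by omega⟩
    simp only [Pi.zero_apply] at h1
    generalize c ⟨0, by omega⟩ = l at h1
    fin_cases l <;> simp at h1
  · obtain ⟨D, hD⟩ : ∃ D : Fin 4 → ℝ, D = (fun l => (![2, 1, 1, 1] : Fin 4 → ℝ) l *
        ((∑ j, ((Finset.univ.filter (fun v => c v = j)).card : ℝ) *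
        (if okb l j = true then (![2, 1, 1, 1] : Fin 4 → ℝ) j else 0)) -
          (if okb l l = true then (![2, 1, 1, 1] : Fin 4 → ℝ) l else 0))) := ⟨_, rfl⟩
    have h1 : ∀ i, ∑ j, ind (lgraph c) i j * ((![2, 1, 1, 1] : Fin 4 → ℝ) (c i) *
        (![2, 1, 1, 1] : Fin 4 → ℝ) (c j)) = D (c i) := by
      intro i
      rw [hD]
      simp only
      rw [← row_sum c (![2, 1, 1, 1] : Fin 4 → ℝ) i, Finset.mul_sum]
      apply Finset.sum_congr rfl
      intro j _
      unfold ind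
      split_ifs <;> ring
    rw [Finset.sum_congr rfl (fun v _ => h1 v), sum_lab c D, hD]
    have h2 : ∑ i, ((![2, 1, 1, 1] : Fin 4 → ℝ) (c i))^2 = 4 + ((n/2 : ℕ) : ℝ) + (((n-1)/2 : ℕ) : ℝ) := by
      rw [sum_lab c (fun l => ((![2, 1, 1, 1] : Fin 4 → ℝ) l)^2)]
      simp only [Fin.sum_univ_four, c0, c1, c2, c3]
      simp
      norm_num
    rw [h2]
    simp only [Fin.sum_univ_four, c0, c1, c2, c3]
    have ha' : (a : ℝ) ≥ 4999 := by
      have : (10000 : ℝ) ≤ n := by exact_mod_cast hn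
      linarith
    rcases Nat.even_or_odd' n with ⟨r, hr | hr⟩
    · have e1 : n/2 = r := by omega
      have e2 : ((((n-1)/2 : ℕ)) : ℝ) = (r : ℝ) - 1 := by
        have : (n-1)/2 + 1 = r := by omega
        have h3 : (((n-1)/2 + 1 : ℕ) : ℝ) = r := by exact_mod_cast this
        push_cast at h3 ⊢
        linarith
      have e3 : (r : ℝ) = a + 1/2 := by
        rw [hr] at ha
        push_cast at ha
        linarith
      rw [e2, e1, e3]
      simp [okb]
      nlinarith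
    · have e1 : n/2 = r := by omega
      have e2 : (n-1)/2 = r := by omega
      have e3 : (r : ℝ) = a := by
        rw [hr] at ha
        push_cast at ha
        linarith
      rw [e2, e1, e3]
      simp [okb]
      nlinarith

lemma qform {n : ℕ} (G : SimpleGraph (Fin n)) (x : Fin n → ℝ) :
    x ⬝ᵥ (G.adjMatrix ℝ *ᵥ x) = ∑ i, ∑ j, ind G i j * (x i * x j) := by
  simp only [dotProduct, mulVec, SimpleGraph.adjMatrix_apply]
  apply Finset.sum_congr rfl
  intro i _
  rw [Finset.mul_sum]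
  apply Finset.sum_congr rfl
  intro j _
  unfold ind
  split_ifs <;> ring

lemma sqform {n : ℕ} (x : Fin n → ℝ) : x ⬝ᵥ x = ∑ i, x i ^ 2 := by
  unfold dotProduct
  apply Finset.sum_congr rfl
  intro i _
  ring

lemma max_vec {n : ℕ} (hn : 0 < n) (G : SimpleGraph (Fin n)) :
    ∃ y : Fin n → ℝ, ∑ i, y i ^ 2 = 1 ∧
      ∀ x : Fin n → ℝ, ∑ i, ∑ j, ind G i j * (x i * x j) ≤
        (∑ i, ∑ j, ind G i j * (y i * y j)) * ∑ i, x i ^ 2 := by
  set K : Set (Fin n → ℝ) := {y | ∑ i, y i ^ 2 = 1} with hK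
  have hKc : IsCompact K := by
    apply Metric.isCompact_of_isClosed_isBounded
    · exact isClosed_eq (by fun_prop) continuous_const
    · rw [Metric.isBounded_iff_subset_closedBall 0]
      refine ⟨1, ?_⟩
      intro y hy
      rw [mem_closedBall_zero_iff, pi_norm_le_iff_of_nonneg (by norm_num)]
      intro i
      have h1 : y i ^ 2 ≤ ∑ i, y i ^ 2 :=
        Finset.single_le_sum (f := fun i => y i ^ 2) (fun i _ => sq_nonneg _) (Finset.mem_univ i)
      have h2 : ∑ i, y i ^ 2 = 1 := hy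
      rw [h2] at h1
      rw [Real.norm_eq_abs]
      exact abs_le_one_iff_mul_self_le_one.2 (by nlinarith)
  have hKne : K.Nonempty := by
    refine ⟨Pi.single ⟨0, hn⟩ 1, ?_⟩
    simp only [hK, Set.mem_ofPred_eq]
    rw [Finset.sum_eq_single ⟨0, hn⟩]
    · simp
    · intro b _ hb
      simp [Pi.single_eq_of_ne hb]
    · simp
  obtain ⟨y, hy, hmax⟩ := hKc.exists_isMaxOn hKne
    (f := fun x : Fin n → ℝ => ∑ i, ∑ j, ind G i j * (x i * x j)) (by fun_prop)
  refine ⟨y, hy, fun x => ?_⟩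
  by_cases hx : ∑ i, x i ^ 2 = 0
  · have hx0 : ∀ i, x i = 0 := by
      intro i
      have := (Finset.sum_eq_zero_iff_of_nonneg (fun i _ => sq_nonneg (x i))).1 hx i (Finset.mem_univ i)
      exact pow_eq_zero_iff (two_ne_zero) |>.1 this
    simp [hx0]
  · have hpos : 0 < ∑ i, x i ^ 2 :=
      lt_of_le_of_ne (Finset.sum_nonneg (fun i _ => sq_nonneg _)) (Ne.symm hx)
    set s := ∑ i, x i ^ 2 with hs
    have hsq : (Real.sqrt s)^2 = s := Real.sq_sqrt hpos.le
    have hsqpos : 0 < Real.sqrt s := Real.sqrt_pos.2 hpos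
    have hmem : (fun i => x i / Real.sqrt s) ∈ K := by
      simp only [hK, Set.mem_ofPred_eq, div_pow]
      rw [← Finset.sum_div, hsq]
      exact div_self hx
    have h1 := hmax hmem
    simp only [Set.mem_ofPred_eq] at h1
    have h2 : ∑ i, ∑ j, ind G i j * (x i / Real.sqrt s * (x j / Real.sqrt s)) =
        (∑ i, ∑ j, ind G i j * (x i * x j)) / s := by
      rw [Finset.sum_div]
      apply Finset.sum_congr rfl
      intro i _
      rw [Finset.sum_div]
      apply Finset.sum_congr rfl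
      intro j _
      rw [div_mul_div_comm, Real.mul_self_sqrt hpos.le]
      ring
    rw [h2, div_le_iff₀ hpos] at h1
    exact h1

lemma spex_exists {n : ℕ} (hn : 0 < n) :
    ∃ G : SimpleGraph (Fin n), Hf G ∧ ∀ G' : SimpleGraph (Fin n), Hf G' →
      ∀ x : Fin n → ℝ, x ≠ 0 → ∃ y : Fin n → ℝ, y ≠ 0 ∧
        (x ⬝ᵥ (G'.adjMatrix ℝ *ᵥ x)) * (y ⬝ᵥ y) ≤
          (y ⬝ᵥ (G.adjMatrix ℝ *ᵥ y)) * (x ⬝ᵥ x) := by
  choose Y hY1 hY2 using fun G : SimpleGraph (Fin n) => max_vec hn G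
  have hne : (Finset.univ.filter (fun G : SimpleGraph (Fin n) => Hf G)).Nonempty := by
    refine ⟨⊥, ?_⟩
    rw [Finset.mem_filter]
    refine ⟨Finset.mem_univ _, Hf_of_lab (fun _ => 2) ?_ ?_ ?_⟩
    · intro a b hab
      exact absurd hab (by simp)
    · simp
    · simp
  obtain ⟨G, hG, hmax⟩ := Finset.exists_max_image _
    (fun G => ∑ i, ∑ j, ind G i j * (Y G i * Y G j)) hne
  rw [Finset.mem_filter] at hG
  refine ⟨G, hG.2, fun G' hG' x hx => ⟨Y G, ?_, ?_⟩⟩
  · intro h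
    have := hY1 G
    rw [h] at this
    simp at this
  · rw [qform, qform, sqform, sqform, hY1 G, mul_one]
    refine (hY2 G' x).trans ?_
    apply mul_le_mul_of_nonneg_right _ (Finset.sum_nonneg (fun i _ => sq_nonneg _))
    exact hmax G' (by rw [Finset.mem_filter]; exact ⟨Finset.mem_univ _, hG'⟩)

lemma remove_vertex {n : ℕ} (G : SimpleGraph (Fin (n+1))) (v : Fin (n+1)) :
    ∑ w, (nb G w).card = 2 * (nb G v).card + ∑ w, (nb (G.comap v.succAbove) w).card := by
  have h0 : ∀ (m : ℕ) (H : SimpleGraph (Fin m)) (w : Fin m),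
      (nb H w).card = ∑ b, (if H.Adj w b then 1 else 0) := by
    intro m H w
    rw [nb, Finset.card_filter]
  simp only [h0]
  rw [Fin.sum_univ_succAbove _ v]
  have h1 : ∀ i, ∑ b, (if G.Adj (v.succAbove i) b then 1 else 0) =
      (if G.Adj (v.succAbove i) v then 1 else 0) +
        ∑ j, (if (G.comap v.succAbove).Adj i j then 1 else 0) := by
    intro i
    rw [Fin.sum_univ_succAbove _ v]
    rfl
  rw [Finset.sum_congr rfl (fun i _ => h1 i), Finset.sum_add_distrib]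
  have h2 : ∑ b, (if G.Adj v b then 1 else 0) =
      ∑ i, (if G.Adj (v.succAbove i) v then 1 else 0) := by
    rw [Fin.sum_univ_succAbove _ v]
    simp only [SimpleGraph.irrefl, if_false, zero_add]
    apply Finset.sum_congr rfl
    intro i _
    simp only [G.adj_comm]
  rw [h2]
  ring

lemma Hf_comap {n : ℕ} {G : SimpleGraph (Fin (n+1))} (h : Hf G) (v : Fin (n+1)) :
    Hf (G.comap v.succAbove) := by
  rintro i ⟨⟨f, hf⟩⟩
  apply h i
  refine ⟨⟨⟨fun x => v.succAbove (f x), fun {a b} hab => ?_⟩, ?_⟩⟩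
  · exact f.map_adj hab
  · intro a b hab
    exact hf (Fin.succAbove_right_injective hab)

theorem main : ¬ (∃ N0 : ℕ, ∀ n : ℕ, N0 ≤ n → ∀ G : SimpleGraph (Fin n),
        ((∀ i : Fin mm, ¬ (FF i).IsContained G) ∧
          ∀ G' : SimpleGraph (Fin n), (∀ i : Fin mm, ¬ (FF i).IsContained G') →
            ∀ x : Fin n → ℝ, x ≠ 0 → ∃ y : Fin n → ℝ, y ≠ 0 ∧
              (x ⬝ᵥ (G'.adjMatrix ℝ *ᵥ x)) * (y ⬝ᵥ y) ≤
                (y ⬝ᵥ (G.adjMatrix ℝ *ᵥ y)) * (x ⬝ᵥ x)) →
        ((∀ i : Fin mm, ¬ (FF i).IsContained G) ∧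
          ∀ G' : SimpleGraph (Fin n), (∀ i : Fin mm, ¬ (FF i).IsContained G') →
            G'.edgeSet.ncard ≤ G.edgeSet.ncard)) := by
  rintro ⟨N0, h⟩
  have key : ∀ n, N0 + 10000 ≤ n → ∃ g : ℕ,
      (∀ G' : SimpleGraph (Fin n), Hf G' → G'.edgeSet.ncard ≤ g) ∧
      ∃ G : SimpleGraph (Fin n), Hf G ∧ G.edgeSet.ncard = g ∧ ∃ v, 2 * (nb G v).card < n := by
    intro n hn
    obtain ⟨G, hG, hsp⟩ := spex_exists (n := n) (by omega)
    obtain ⟨-, hex⟩ := h n (by omega) G ⟨hG, hsp⟩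
    refine ⟨G.edgeSet.ncard, hex, G, hG, rfl, ?_⟩
    by_contra hcon
    push Not at hcon
    obtain ⟨B, hB, hBe⟩ := exists_B n (by omega)
    have hE : (n+1)^2/4 + 1 ≤ G.edgeSet.ncard := hBe.trans (hex B hB)
    obtain ⟨c, hc⟩ := structure_thm G (hG.local (by omega)) (by simp; omega)
      (by simpa using hcon) (by rw [two_ncard]; simp; omega)
    obtain ⟨a, ha⟩ : ∃ a : ℝ, 2 * a = (n : ℝ) - 1 := ⟨((n : ℝ) - 1)/2, by ring⟩
    obtain ⟨A, hA, x, hx, hxA⟩ := exists_A n (by omega) a ha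
    obtain ⟨y, hy, hyx⟩ := hsp A hA x hx
    rw [qform, qform, sqform, sqform] at hyx
    have hup := upper hc (by simp; omega) y a (by simpa using ha)
    have hapos : 0 < a := by
      have : (10000 : ℝ) ≤ n := by
        have : 10000 ≤ n := by omega
        exact_mod_cast this
      linarith
    have hypos : 0 < ∑ i, y i ^ 2 := by
      have : ∃ i, y i ≠ 0 := by
        by_contra hcon2
        push Not at hcon2
        exact hy (funext hcon2)
      obtain ⟨i, hi⟩ := this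
      refine lt_of_lt_of_le (by positivity : 0 < y i ^ 2) ?_
      exact Finset.single_le_sum (f := fun i => y i ^ 2) (fun i _ => sq_nonneg _) (Finset.mem_univ i)
    have hx2 : 0 ≤ ∑ i, x i ^ 2 := Finset.sum_nonneg (fun i _ => sq_nonneg _)
    set Qx := ∑ i, ∑ j, ind A i j * (x i * x j)
    set Qy := ∑ i, ∑ j, ind G i j * (y i * y j)
    set sx := ∑ i, x i ^ 2
    set sy := ∑ i, y i ^ 2
    -- a * Qx * sy ≤ a * Qy * sx ≤ M * sy * sx < a * Qx * sy
    have e1 : a * (Qx * sy) ≤ a * (Qy * sx) := mul_le_mul_of_nonneg_left hyx hapos.le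
    have e2 : (a * Qy) * sx ≤ ((a^2 + 2*a - 5) * sy) * sx := mul_le_mul_of_nonneg_right hup hx2
    have e3 : ((a^2 + 2*a - 5) * sx) * sy < (a * Qx) * sy := mul_lt_mul_of_pos_right hxA hypos
    nlinarith
  choose! g hg1 hg2 using key
  have step : ∀ n, N0 + 10000 ≤ n → g (n+1) + 1 ≤ g n + (n+2)/2 := by
    intro n hn
    obtain ⟨G, hG, hGe, v, hv⟩ := hg2 (n+1) (by omega)
    have h1 := remove_vertex G v
    rw [two_ncard, two_ncard, hGe] at h1
    have h2 := hg1 n hn _ (Hf_comap hG v)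
    omega
  have hsq : ∀ n : ℕ, (n+2)^2/4 = (n+1)^2/4 + (n+2)/2 := by
    intro n
    rcases Nat.even_or_odd' n with ⟨r, hr | hr⟩
    · have e1 : (n+2)^2 = 4 * ((r+1)^2) := by rw [hr]; ring
      have e2 : (n+1)^2 = 4 * (r^2+r) + 1 := by rw [hr]; ring
      have e3 : (r+1)^2 = r^2 + r + (r + 1) := by ring
      rw [e1, e2, e3]
      omega
    · have e1 : (n+2)^2 = 4 * (r^2 + 3*r + 2) + 1 := by rw [hr]; ring
      have e2 : (n+1)^2 = 4 * (r^2+2*r+1) := by rw [hr]; ring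
      rw [e1, e2]
      omega
  have desc : ∀ k, g (N0 + 10000 + k) + k + (N0 + 10000 + 1)^2/4 ≤
      g (N0 + 10000) + (N0 + 10000 + k + 1)^2/4 := by
    intro k
    induction k with
    | zero => simp
    | succ k ih =>
      have h1 := step (N0 + 10000 + k) (by omega)
      have h2 := hsq (N0 + 10000 + k)
      have e1 : N0 + 10000 + (k+1) = N0 + 10000 + k + 1 := by ring
      have e2 : N0 + 10000 + k + 1 + 1 = N0 + 10000 + k + 2 := by ring
      rw [e1, e2, h2]
      omega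
  have h1 := desc (g (N0 + 10000))
  obtain ⟨B, hB, hBe⟩ := exists_B (N0 + 10000 + g (N0 + 10000)) (by omega)
  have h2 := hg1 _ (by omega) B hB
  omega

end Pool.Agent.H41.SC
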