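import Pool.Agent.H41.CFLeft

set_option autoImplicit false

namespace Pool.Agent.H41.CF

open Finset Classical

section count
variable {ι : Type*} (s t : ι → ℝ)

/-- the line through `i` and `j` has points of `A` strictly on both sides -/
def Sep (A : Finset ι) (i j : ι) : Prop :=
  ∃ α ∈ A, ∃ α' ∈ A, ori s t i j α < 0 ∧ 0 < ori s t i j α'

variable [DecidableEq ι] {s t} {A B : Finset ι}

lemma ln_ne
    (hgp : ∀ i ∈ A ∪ B, ∀ j ∈ A ∪ B, ∀ k ∈ A ∪ B, i ≠ j → i ≠ k → j ≠ k → ori s t i j k ≠ 0)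
    {i j k : ι} (hi : i ∈ A ∪ B) (hj : j ∈ A ∪ B) (hk : k ∈ A ∪ B) (h : s i ≠ s j)
    (hik : i ≠ k) (hjk : j ≠ k) : ln s t k (sl s t i j) ≠ ln s t i (sl s t i j) := by
  intro h1
  have hij : i ≠ j := fun h2 => h (by rw [h2])
  apply hgp i hi j hj k hk hij hik hjk
  rw [ori_eq_ln s t h, h1, sub_self, mul_zero]

lemma sl_ne
    (hgp : ∀ i ∈ A ∪ B, ∀ j ∈ A ∪ B, ∀ k ∈ A ∪ B, i ≠ j → i ≠ k → j ≠ k → ori s t i j k ≠ 0)
    {i j k : ι} (hi : i ∈ A ∪ B) (hj : j ∈ A ∪ B) (hk : k ∈ A ∪ B) (h : s i ≠ s j)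
    (h' : s i ≠ s k) (hjk : j ≠ k) : sl s t i j ≠ sl s t i k := by
  intro h1
  have hik : i ≠ k := fun h2 => h' (by rw [h2])
  apply ln_ne hgp hi hj hk h hik hjk
  rw [h1]
  exact (ln_sl s t h').symm

theorem nB1 (hs : ∀ a ∈ A, ∀ b ∈ B, s b < s a)
    (hgp : ∀ i ∈ A ∪ B, ∀ j ∈ A ∪ B, ∀ k ∈ A ∪ B, i ≠ j → i ≠ k → j ≠ k → ori s t i j k ≠ 0)
    {b : ι} (hb : b ∈ B) :
    #{a ∈ A | ¬ B1 s t A B a b} ≤ #{β ∈ B | s β < s b ∧ Sep s t A b β} := by
  apply record' A (fun a => sl s t a b) _ (fun β => sl s t b β) (fun a => ¬ B1 s t A B a b)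
  intro a ha hbad
  unfold B1 at hbad
  push Not at hbad
  obtain ⟨x, hx, ⟨α, hα, hαx⟩, hcard⟩ := hbad
  refine ⟨x, hx, ?_⟩
  have mB : b ∈ A ∪ B := mem_union_right _ hb
  have mA : a ∈ A ∪ B := mem_union_left _ ha
  have hsab := hs a ha b hb
  have hab : a ≠ b := fun h => by rw [h] at hsab; exact lt_irrefl _ hsab
  have eab := ln_sl s t (ne_of_gt hsab)
  set p := sl s t a b with hp
  -- T1
  have T1 : #{l ∈ A ∪ B | l ≠ b ∧ ln s t b x ≤ ln s t l x} ≤
      #{α ∈ A | sl s t α b ≤ x} + #{β ∈ B | β ≠ b ∧ ln s t b x ≤ ln s t β x} := by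
    rw [filter_union]
    refine (card_union_le _ _).trans ?_
    refine Nat.add_le_add (card_le_card ?_) le_rfl
    intro α hα
    rw [mem_filter] at hα ⊢
    exact ⟨hα.1, (ln_le_iff s t (hs α hα.1 b hb) x).mp hα.2.2⟩
  have T2 : #{α ∈ A | sl s t α b < p} + #{β ∈ B | ln s t b p < ln s t β p} ≤ lev s t A B a b := by
    rw [← card_union_of_disjoint]
    · apply card_le_card
      intro l hl
      rw [mem_union, mem_filter, mem_filter] at hl
      rw [mem_filter]
      rcases hl with ⟨h1, h2⟩ | ⟨h1, h2⟩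
      · exact ⟨mem_union_left _ h1, (ln_lt_iff s t (hs l h1 b hb) p).mpr h2⟩
      · exact ⟨mem_union_right _ h1, h2⟩
    · rw [disjoint_left]
      intro l h1 h2
      rw [mem_filter] at h1 h2
      exact lt_irrefl _ (hs l h1.1 l h2.1)
  have T3 : #{α ∈ A | sl s t α b ≤ x} + #{α ∈ A | x < sl s t α b ∧ sl s t α b < p} ≤
      #{α ∈ A | sl s t α b < p} := by
    rw [← card_union_of_disjoint]
    · apply card_le_card
      intro l hl
      rw [mem_union, mem_filter, mem_filter] at hl
      rw [mem_filter]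
      rcases hl with ⟨h1, h2⟩ | ⟨h1, h2⟩
      · exact ⟨h1, by linarith⟩
      · exact ⟨h1, h2.2⟩
    · rw [disjoint_left]
      intro l h1 h2
      rw [mem_filter] at h1 h2
      linarith [h1.2, h2.2.1]
  have T4 : #{β ∈ B | β ≠ b ∧ ln s t b x ≤ ln s t β x} ≤
      #{β ∈ B | ln s t b p < ln s t β p} +
      #{d ∈ B.filter (fun β => s β < s b ∧ Sep s t A b β) | x ≤ sl s t b d ∧ sl s t b d < p} := by
    refine le_trans (card_le_card ?_) (card_union_le _ _)
    intro β hβ
    rw [mem_filter] at hβ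
    obtain ⟨hβB, hβb, hβx⟩ := hβ
    have mβ : β ∈ A ∪ B := mem_union_right _ hβB
    rw [mem_union, mem_filter]
    by_cases h : ln s t b p < ln s t β p
    · exact Or.inl ⟨hβB, h⟩
    · right
      push Not at h
      have haβ : a ≠ β := fun h => by
        have := hs a ha β hβB
        rw [h] at this
        exact lt_irrefl _ this
      have hne : ln s t β p ≠ ln s t b p := by
        have := ln_ne hgp mA mB mβ (ne_of_gt hsab) haβ (Ne.symm hβb)
        rw [← eab]
        exact this
      have hlt : ln s t β p < ln s t b p := lt_of_le_of_ne h hne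
      have hsβ : s β < s b := by
        by_contra hc
        push Not at hc
        have h2 : ln s t β p - ln s t b p = (ln s t β x - ln s t b x) + (s β - s b) * (p - x) := by
          unfold ln; ring
        have h3 : 0 ≤ (s β - s b) * (p - x) := mul_nonneg (by linarith) (by linarith)
        linarith
      have hq1 : x ≤ sl s t b β := (ln_le_iff' s t hsβ x).mp hβx
      have hq2 : sl s t b β < p := (ln_lt_iff s t hsβ p).mp hlt
      rw [mem_filter, mem_filter]
      refine ⟨⟨hβB, hsβ, a, ha, α, hα, ?_, ?_⟩, hq1, hq2⟩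
      · rw [ori_eq_ln s t (ne_of_gt hsβ)]
        apply mul_neg_of_pos_of_neg (by linarith)
        have := (ln_lt_iff' s t hsab (sl s t b β)).mpr hq2
        linarith
      · rw [ori_eq_ln s t (ne_of_gt hsβ)]
        apply mul_pos (by linarith)
        have hsα := hs α hα b hb
        have h4 : sl s t α b ≤ sl s t b β := by
          have := (ln_le_iff s t hsα x).mp hαx
          linarith
        have h5 := (ln_le_iff s t hsα (sl s t b β)).mpr h4
        have mα : α ∈ A ∪ B := mem_union_left _ hα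
        have hbα : b ≠ α := fun h => by rw [h] at hsα; exact lt_irrefl _ hsα
        have hβα : β ≠ α := fun h => by
          have := hs α hα β hβB
          rw [h] at this
          exact lt_irrefl _ this
        have h6 := ln_ne hgp mB mβ mα (ne_of_gt hsβ) hbα hβα
        have := lt_of_le_of_ne h5 (Ne.symm h6)
        linarith
  have T5 : #{α ∈ A | x < sl s t α b ∧ sl s t α b ≤ p} ≤
      #{α ∈ A | x < sl s t α b ∧ sl s t α b < p} + 1 := by
    have : A.filter (fun α => x < sl s t α b ∧ sl s t α b ≤ p) ⊆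
        insert a (A.filter (fun α => x < sl s t α b ∧ sl s t α b < p)) := by
      intro l hl
      rw [mem_filter] at hl
      rw [mem_insert, mem_filter]
      by_cases h : l = a
      · exact Or.inl h
      · right
        refine ⟨hl.1, hl.2.1, lt_of_le_of_ne hl.2.2 ?_⟩
        rw [hp, sl_comm s t l b, sl_comm s t a b]
        exact sl_ne hgp mB (mem_union_left _ hl.1) mA (ne_of_lt (hs l hl.1 b hb))
          (ne_of_lt hsab) h
    exact (card_le_card this).trans (card_insert_le _ _)
  have e1 : #{y ∈ A | x < (fun a => sl s t a b) y ∧ (fun a => sl s t a b) y ≤ (fun a => sl s t a b) a}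
    = #{α ∈ A | x < sl s t α b ∧ sl s t α b ≤ p} := rfl
  rw [e1]
  show _ ≤ #{d ∈ B.filter (fun β => s β < s b ∧ Sep s t A b β) | x ≤ sl s t b d ∧ sl s t b d < p}
  omega

theorem nA1 (hs : ∀ a ∈ A, ∀ b ∈ B, s b < s a)
    (hgp : ∀ i ∈ A ∪ B, ∀ j ∈ A ∪ B, ∀ k ∈ A ∪ B, i ≠ j → i ≠ k → j ≠ k → ori s t i j k ≠ 0)
    {a : ι} (ha : a ∈ A) :
    #{b ∈ B | ¬ A1 s t A B a b} ≤ #{α ∈ A | s a < s α ∧ Sep s t B a α} := by
  apply record' B (fun b => sl s t a b) _ (fun α => sl s t α a) (fun b => ¬ A1 s t A B a b)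
  intro b hb hbad
  unfold A1 at hbad
  push Not at hbad
  obtain ⟨x, hx, ⟨β, hβ, hβx⟩, hcard⟩ := hbad
  refine ⟨x, hx, ?_⟩
  have mB : b ∈ A ∪ B := mem_union_right _ hb
  have mA : a ∈ A ∪ B := mem_union_left _ ha
  have hsab := hs a ha b hb
  have eab := ln_sl s t (ne_of_gt hsab)
  set p := sl s t a b with hp
  have T1 : lev s t A B a b ≤ #{α ∈ A | ln s t a p < ln s t α p} + #{β ∈ B | p < sl s t a β} := by
    unfold lev
    rw [filter_union]
    refine (card_union_le _ _).trans ?_
    rw [← hp, ← eab]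
    refine Nat.add_le_add le_rfl (card_le_card ?_)
    intro α hα
    rw [mem_filter] at hα ⊢
    exact ⟨hα.1, (ln_lt_iff' s t (hs a ha α hα.1) p).mp hα.2⟩
  have T2 : #{α ∈ A | ln s t a x < ln s t α x} + #{β ∈ B | x < sl s t a β} ≤
      #{l ∈ A ∪ B | ln s t a x < ln s t l x} := by
    rw [← card_union_of_disjoint]
    · apply card_le_card
      intro l hl
      rw [mem_union, mem_filter, mem_filter] at hl
      rw [mem_filter]
      rcases hl with ⟨h1, h2⟩ | ⟨h1, h2⟩
      · exact ⟨mem_union_left _ h1, h2⟩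
      · exact ⟨mem_union_right _ h1, (ln_lt_iff' s t (hs a ha l h1) x).mpr h2⟩
    · rw [disjoint_left]
      intro l h1 h2
      rw [mem_filter] at h1 h2
      exact lt_irrefl _ (hs l h1.1 l h2.1)
  have T3 : #{β ∈ B | x < sl s t a β ∧ sl s t a β ≤ p} + #{β ∈ B | p < sl s t a β} ≤
      #{β ∈ B | x < sl s t a β} := by
    rw [← card_union_of_disjoint]
    · apply card_le_card
      intro l hl
      rw [mem_union, mem_filter, mem_filter] at hl
      rw [mem_filter]
      rcases hl with ⟨h1, h2⟩ | ⟨h1, h2⟩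
      · exact ⟨h1, by linarith⟩
      · exact ⟨h1, by linarith⟩
    · rw [disjoint_left]
      intro l h1 h2
      rw [mem_filter] at h1 h2
      linarith [h1.2.2, h2.2]
  have T4 : #{α ∈ A | ln s t a p < ln s t α p} ≤ #{α ∈ A | ln s t a x < ln s t α x} +
      #{d ∈ A.filter (fun α => s a < s α ∧ Sep s t B a α) | x ≤ sl s t d a ∧ sl s t d a < p} := by
    refine le_trans (card_le_card ?_) (card_union_le _ _)
    intro α hα
    rw [mem_filter] at hα
    obtain ⟨hαA, hαp⟩ := hα
    have mα : α ∈ A ∪ B := mem_union_left _ hαA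
    rw [mem_union, mem_filter]
    by_cases h : ln s t a x < ln s t α x
    · exact Or.inl ⟨hαA, h⟩
    · right
      push Not at h
      have hsα : s a < s α := by
        by_contra hc
        push Not at hc
        have h2 : ln s t α p - ln s t a p = (ln s t α x - ln s t a x) + (s α - s a) * (p - x) := by
          unfold ln; ring
        have h3 : (s α - s a) * (p - x) ≤ 0 :=
          mul_nonpos_of_nonpos_of_nonneg (by linarith) (by linarith)
        linarith
      have hq1 : x ≤ sl s t α a := (ln_le_iff' s t hsα x).mp h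
      have hq2 : sl s t α a < p := (ln_lt_iff s t hsα p).mp hαp
      rw [mem_filter, mem_filter]
      refine ⟨⟨hαA, hsα, b, hb, β, hβ, ?_, ?_⟩, hq1, hq2⟩
      · rw [ori_eq_ln s t (ne_of_lt hsα), sl_comm s t a α]
        apply mul_neg_of_neg_of_pos (by linarith)
        have := (ln_lt_iff' s t hsab (sl s t α a)).mpr hq2
        linarith
      · rw [ori_eq_ln s t (ne_of_lt hsα), sl_comm s t a α]
        apply mul_pos_of_neg_of_neg (by linarith)
        have hsβ := hs a ha β hβ
        have h4 : sl s t a β ≤ sl s t α a := by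
          have := (ln_le_iff s t hsβ x).mp hβx
          linarith
        have h5 := (ln_le_iff s t hsβ (sl s t α a)).mpr h4
        have mβ : β ∈ A ∪ B := mem_union_right _ hβ
        have haβ : a ≠ β := fun h => by rw [h] at hsβ; exact lt_irrefl _ hsβ
        have hαβ : α ≠ β := fun h => by
          have := hs α hαA β hβ
          rw [h] at this
          exact lt_irrefl _ this
        have h6 := ln_ne hgp mA mα mβ (ne_of_lt hsα) haβ hαβ
        rw [sl_comm s t a α] at h6
        have := lt_of_le_of_ne h5 h6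
        linarith
  have e1 : #{y ∈ B | x < (fun b => sl s t a b) y ∧ (fun b => sl s t a b) y ≤ (fun b => sl s t a b) b}
    = #{β ∈ B | x < sl s t a β ∧ sl s t a β ≤ p} := rfl
  rw [e1]
  show _ ≤ #{d ∈ A.filter (fun α => s a < s α ∧ Sep s t B a α) | x ≤ sl s t d a ∧ sl s t d a < p}
  omega

theorem nA2 (hs : ∀ a ∈ A, ∀ b ∈ B, s b < s a)
    (hgp : ∀ i ∈ A ∪ B, ∀ j ∈ A ∪ B, ∀ k ∈ A ∪ B, i ≠ j → i ≠ k → j ≠ k → ori s t i j k ≠ 0)
    {a : ι} (ha : a ∈ A) :
    #{b ∈ B | ¬ A2 s t A B a b} ≤ #{α ∈ A | s a < s α ∧ Sep s t B a α} := by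
  apply record' B (fun b => - sl s t a b) _ (fun α => - sl s t α a) (fun b => ¬ A2 s t A B a b)
  intro b hb hbad
  unfold A2 at hbad
  push Not at hbad
  obtain ⟨x, hx, ⟨β, hβ, hβx⟩, hcard⟩ := hbad
  refine ⟨-x, by simpa using hx, ?_⟩
  have mB : b ∈ A ∪ B := mem_union_right _ hb
  have mA : a ∈ A ∪ B := mem_union_left _ ha
  have hsab := hs a ha b hb
  have hab : a ≠ b := fun h => by rw [h] at hsab; exact lt_irrefl _ hsab
  have eab := ln_sl s t (ne_of_gt hsab)
  set p := sl s t a b with hp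
  have T1 : #{l ∈ A ∪ B | ln s t a x < ln s t l x} ≤
      #{α ∈ A | ln s t a x < ln s t α x} + #{β ∈ B | x < sl s t a β} := by
    rw [filter_union]
    refine (card_union_le _ _).trans ?_
    refine Nat.add_le_add le_rfl (card_le_card ?_)
    intro α hα
    rw [mem_filter] at hα ⊢
    exact ⟨hα.1, (ln_lt_iff' s t (hs a ha α hα.1) x).mp hα.2⟩
  have T2 : #{α ∈ A | ln s t a p < ln s t α p} + #{β ∈ B | p < sl s t a β} ≤
      lev s t A B a b := by
    rw [← card_union_of_disjoint]
    · apply card_le_card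
      intro l hl
      rw [mem_union, mem_filter, mem_filter] at hl
      rw [mem_filter, ← hp, ← eab]
      rcases hl with ⟨h1, h2⟩ | ⟨h1, h2⟩
      · exact ⟨mem_union_left _ h1, h2⟩
      · exact ⟨mem_union_right _ h1, (ln_lt_iff' s t (hs a ha l h1) p).mpr h2⟩
    · rw [disjoint_left]
      intro l h1 h2
      rw [mem_filter] at h1 h2
      exact lt_irrefl _ (hs l h1.1 l h2.1)
  have T3 : #{β ∈ B | p < sl s t a β ∧ sl s t a β < x} + #{β ∈ B | x < sl s t a β} ≤
      #{β ∈ B | p < sl s t a β} := by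
    rw [← card_union_of_disjoint]
    · apply card_le_card
      intro l hl
      rw [mem_union, mem_filter, mem_filter] at hl
      rw [mem_filter]
      rcases hl with ⟨h1, h2⟩ | ⟨h1, h2⟩
      · exact ⟨h1, h2.1⟩
      · exact ⟨h1, by linarith⟩
    · rw [disjoint_left]
      intro l h1 h2
      rw [mem_filter] at h1 h2
      linarith [h1.2.2, h2.2]
  have T4 : #{α ∈ A | ln s t a x < ln s t α x} ≤ #{α ∈ A | ln s t a p < ln s t α p} +
      #{d ∈ A.filter (fun α => s a < s α ∧ Sep s t B a α) | -x ≤ -sl s t d a ∧ -sl s t d a < -p} := by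
    refine le_trans (card_le_card ?_) (card_union_le _ _)
    intro α hα
    rw [mem_filter] at hα
    obtain ⟨hαA, hαx⟩ := hα
    have mα : α ∈ A ∪ B := mem_union_left _ hαA
    rw [mem_union, mem_filter]
    by_cases h : ln s t a p < ln s t α p
    · exact Or.inl ⟨hαA, h⟩
    · right
      push Not at h
      have hsα : s a < s α := by
        by_contra hc
        push Not at hc
        have h2 : ln s t α x - ln s t a x = (ln s t α p - ln s t a p) + (s α - s a) * (x - p) := by
          unfold ln; ring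
        have h3 : (s α - s a) * (x - p) ≤ 0 :=
          mul_nonpos_of_nonpos_of_nonneg (by linarith) (by linarith)
        linarith
      have hαb : b ≠ α := fun h => by
        have := hs α hαA b hb
        rw [h] at this
        exact lt_irrefl _ this
      have hne : sl s t a b ≠ sl s t a α :=
        sl_ne hgp mA mB mα (ne_of_gt hsab) (ne_of_lt hsα) hαb
      rw [sl_comm s t a α] at hne
      have hq1 : p < sl s t α a := lt_of_le_of_ne ((ln_le_iff' s t hsα p).mp h) hne
      have hq2 : sl s t α a < x := (ln_lt_iff s t hsα x).mp hαx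
      rw [mem_filter, mem_filter]
      refine ⟨⟨hαA, hsα, β, hβ, b, hb, ?_, ?_⟩, by linarith, by linarith⟩
      · rw [ori_eq_ln s t (ne_of_lt hsα), sl_comm s t a α]
        apply mul_neg_of_neg_of_pos (by linarith)
        have hsβ := hs a ha β hβ
        have h4 : sl s t α a < sl s t a β := by
          have := (ln_lt_iff' s t hsβ x).mp hβx
          linarith
        have h5 := (ln_lt_iff' s t hsβ (sl s t α a)).mpr h4
        linarith
      · rw [ori_eq_ln s t (ne_of_lt hsα), sl_comm s t a α]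
        apply mul_pos_of_neg_of_neg (by linarith)
        have := (ln_lt_iff s t hsab (sl s t α a)).mpr hq1
        linarith
  have T5 : #{β ∈ B | -x < -sl s t a β ∧ -sl s t a β ≤ -p} ≤
      #{β ∈ B | p < sl s t a β ∧ sl s t a β < x} + 1 := by
    have : B.filter (fun β => -x < -sl s t a β ∧ -sl s t a β ≤ -p) ⊆
        insert b (B.filter (fun β => p < sl s t a β ∧ sl s t a β < x)) := by
      intro l hl
      rw [mem_filter] at hl
      rw [mem_insert, mem_filter]
      by_cases h : l = b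
      · exact Or.inl h
      · right
        refine ⟨hl.1, lt_of_le_of_ne (by linarith [hl.2.2]) ?_, by linarith [hl.2.1]⟩
        exact sl_ne hgp mA mB (mem_union_right _ hl.1) (ne_of_gt hsab)
          (ne_of_gt (hs a ha l hl.1)) (Ne.symm h)
    exact (card_le_card this).trans (card_insert_le _ _)
  have e1 : #{y ∈ B | -x < (fun b => -sl s t a b) y ∧ (fun b => -sl s t a b) y ≤
      (fun b => -sl s t a b) b} = #{β ∈ B | -x < -sl s t a β ∧ -sl s t a β ≤ -p} := rfl
  rw [e1]
  show _ ≤ #{d ∈ A.filter (fun α => s a < s α ∧ Sep s t B a α) | -x ≤ -sl s t d a ∧ -sl s t d a < -p}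
  omega

/-- number of good pairs -/
theorem count_good (hs : ∀ a ∈ A, ∀ b ∈ B, s b < s a)
    (hgp : ∀ i ∈ A ∪ B, ∀ j ∈ A ∪ B, ∀ k ∈ A ∪ B, i ≠ j → i ≠ k → j ≠ k → ori s t i j k ≠ 0) :
    #A * #B ≤ (∑ b ∈ B, #{a ∈ A | Good s t A B a b}) +
      #{q ∈ B ×ˢ B | Sep s t A q.1 q.2} + 2 * #A ^ 2 := by
  have h1 : ∀ b ∈ B, #A ≤ #{a ∈ A | Good s t A B a b} + #{a ∈ A | ¬ B1 s t A B a b} +
      #{a ∈ A | ¬ A1 s t A B a b} + #{a ∈ A | ¬ A2 s t A B a b} := by
    intro b hb
    have : A ⊆ ((A.filter (fun a => Good s t A B a b) ∪ A.filter (fun a => ¬ B1 s t A B a b)) ∪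
      A.filter (fun a => ¬ A1 s t A B a b)) ∪ A.filter (fun a => ¬ A2 s t A B a b) := by
      intro a ha
      simp only [mem_union, mem_filter]
      by_cases g1 : B1 s t A B a b
      · by_cases g2 : A1 s t A B a b
        · by_cases g3 : A2 s t A B a b
          · exact Or.inl (Or.inl (Or.inl ⟨ha, g1, g2, g3⟩))
          · exact Or.inr ⟨ha, g3⟩
        · exact Or.inl (Or.inr ⟨ha, g2⟩)
      · exact Or.inl (Or.inl (Or.inr ⟨ha, g1⟩))
    have e1 := card_le_card this
    have e2 := card_union_le ((A.filter (fun a => Good s t A B a b) ∪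
      A.filter (fun a => ¬ B1 s t A B a b)) ∪ A.filter (fun a => ¬ A1 s t A B a b))
      (A.filter (fun a => ¬ A2 s t A B a b))
    have e3 := card_union_le (A.filter (fun a => Good s t A B a b) ∪
      A.filter (fun a => ¬ B1 s t A B a b)) (A.filter (fun a => ¬ A1 s t A B a b))
    have e4 := card_union_le (A.filter (fun a => Good s t A B a b))
      (A.filter (fun a => ¬ B1 s t A B a b))
    omega
  have h2 : ∑ b ∈ B, #{a ∈ A | ¬ B1 s t A B a b} ≤ #{q ∈ B ×ˢ B | Sep s t A q.1 q.2} := by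
    have : #{q ∈ B ×ˢ B | Sep s t A q.1 q.2} = ∑ b ∈ B, #{β ∈ B | Sep s t A b β} := by
      rw [card_filter, sum_product]
      apply sum_congr rfl
      intro b _
      rw [card_filter]
    rw [this]
    apply sum_le_sum
    intro b hb
    refine (nB1 hs hgp hb).trans ?_
    apply card_le_card
    intro β hβ
    rw [mem_filter] at hβ ⊢
    exact ⟨hβ.1, hβ.2.2⟩
  have h3 : ∑ b ∈ B, #{a ∈ A | ¬ A1 s t A B a b} ≤ #A ^ 2 := by
    have : ∑ b ∈ B, #{a ∈ A | ¬ A1 s t A B a b} = ∑ a ∈ A, #{b ∈ B | ¬ A1 s t A B a b} := by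
      simp only [card_filter]
      exact sum_comm
    rw [this, sq]
    calc _ ≤ ∑ a ∈ A, #A := by
          apply sum_le_sum
          intro a ha
          exact (nA1 hs hgp ha).trans (card_filter_le _ _)
      _ = #A * #A := by simp
  have h4 : ∑ b ∈ B, #{a ∈ A | ¬ A2 s t A B a b} ≤ #A ^ 2 := by
    have : ∑ b ∈ B, #{a ∈ A | ¬ A2 s t A B a b} = ∑ a ∈ A, #{b ∈ B | ¬ A2 s t A B a b} := by
      simp only [card_filter]
      exact sum_comm
    rw [this, sq]
    calc _ ≤ ∑ a ∈ A, #A := by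
          apply sum_le_sum
          intro a ha
          exact (nA2 hs hgp ha).trans (card_filter_le _ _)
      _ = #A * #A := by simp
  have h5 := sum_le_sum h1
  rw [sum_const, smul_eq_mul, sum_add_distrib, sum_add_distrib, sum_add_distrib] at h5
  rw [mul_comm]
  omega

end count

end Pool.Agent.H41.CF
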