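import Pool.Agent.H41.CFCount

set_option autoImplicit false

namespace Pool.Agent.H41.CF

open Finset Classical

/-- orientation determinant in the plane -/
def det3 (P Q R : ℝ × ℝ) : ℝ := (Q.1 - P.1) * (R.2 - P.2) - (Q.2 - P.2) * (R.1 - P.1)

/-- coordinates used for the lower cluster -/
def sL (P : ℝ × ℝ) : ℝ := - P.2
def tL (P : ℝ × ℝ) : ℝ := P.1
/-- coordinates used for the upper cluster -/
def sR (P : ℝ × ℝ) : ℝ := P.2
def tR (P : ℝ × ℝ) : ℝ := - P.1

lemma ori_L (P Q R : ℝ × ℝ) : ori sL tL P Q R = det3 P Q R := by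
  unfold ori sL tL det3; ring

lemma ori_R (P Q R : ℝ × ℝ) : ori sR tR P Q R = det3 P Q R := by
  unfold ori sR tR det3; ring

/-- the line through `i` and `j` strictly separates the set `A` -/
def SepD (A : Finset (ℝ × ℝ)) (i j : ℝ × ℝ) : Prop :=
  ∃ α ∈ A, ∃ α' ∈ A, det3 i j α < 0 ∧ 0 < det3 i j α'

lemma sep_L (A : Finset (ℝ × ℝ)) (i j : ℝ × ℝ) : Sep sL tL A i j ↔ SepD A i j := by
  unfold Sep SepD
  simp only [ori_L]

lemma sep_R (A : Finset (ℝ × ℝ)) (i j : ℝ × ℝ) : Sep sR tR A i j ↔ SepD A i j := by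
  unfold Sep SepD
  simp only [ori_R]

/-- segments with endpoints on strictly opposite sides of each other's lines meet -/
theorem seg_meet {P Q R S : ℝ × ℝ} (h1 : det3 P Q R * det3 P Q S < 0)
    (h2 : det3 R S P * det3 R S Q < 0) : (segment ℝ P Q ∩ segment ℝ R S).Nonempty := by
  have key : ∀ u v : ℝ, u * v < 0 → 0 ≤ u / (u - v) ∧ u / (u - v) ≤ 1 ∧ u - v ≠ 0 := by
    intro u v h
    rcases lt_trichotomy u 0 with hu | hu | hu
    · have hv : 0 < v := by
        by_contra hc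
        push Not at hc
        have := mul_nonneg_of_nonpos_of_nonpos hu.le hc
        linarith
      have hd : u - v < 0 := by linarith
      refine ⟨div_nonneg_of_nonpos hu.le hd.le, ?_, hd.ne⟩
      rw [div_le_one_of_neg hd]
      linarith
    · rw [hu, zero_mul] at h
      exact absurd h (lt_irrefl _)
    · have hv : v < 0 := by
        by_contra hc
        push Not at hc
        have := mul_nonneg hu.le hc
        linarith
      have hd : 0 < u - v := by linarith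
      refine ⟨div_nonneg hu.le hd.le, ?_, hd.ne'⟩
      rw [div_le_one hd]
      linarith
  obtain ⟨a1, a2, a3⟩ := key _ _ h1
  obtain ⟨b1, b2, b3⟩ := key _ _ h2
  set τ := det3 R S P / (det3 R S P - det3 R S Q) with hτ
  set σ := det3 P Q R / (det3 P Q R - det3 P Q S) with hσ
  refine ⟨P + τ • (Q - P), ?_, ?_⟩
  · rw [segment_eq_image']
    exact ⟨τ, ⟨b1, b2⟩, rfl⟩
  · rw [segment_eq_image']
    refine ⟨σ, ⟨a1, a2⟩, ?_⟩
    have e1 : det3 P Q R - det3 P Q S = - (det3 R S P - det3 R S Q) := by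
      unfold det3; ring
    have hne : det3 R S P - det3 R S Q ≠ 0 := b3
    show R + σ • (S - R) = P + τ • (Q - P)
    rw [hσ, hτ, e1]
    unfold det3 at hne ⊢
    ext
    · simp only [Prod.fst_add, Prod.smul_fst, Prod.fst_sub, smul_eq_mul]
      field_simp
      ring
    · simp only [Prod.snd_add, Prod.smul_snd, Prod.snd_sub, smul_eq_mul]
      field_simp
      ring

lemma lev_le {ι : Type*} [DecidableEq ι] (s t : ι → ℝ) (A B : Finset ι) (a b : ι) :
    lev s t A B a b < #A + #B + 1 := by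
  unfold lev
  have := card_filter_le (A ∪ B) (fun l => ln s t b (sl s t a b) < ln s t l (sl s t a b))
  have := card_union_le A B
  omega

/-- number of levels at which `b` is good -/
lemma card_levels {ι : Type*} [DecidableEq ι] {s t : ι → ℝ} {A B : Finset ι} (hs : ∀ a ∈ A, ∀ b ∈ B, s b < s a)
    (hgp : ∀ i ∈ A ∪ B, ∀ j ∈ A ∪ B, ∀ k ∈ A ∪ B, i ≠ j → i ≠ k → j ≠ k → ori s t i j k ≠ 0)
    {b : ι} (hb : b ∈ B) :
    #{k ∈ range (#A + #B + 1) | ∃ a ∈ A, Good s t A B a b ∧ lev s t A B a b = k} =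
      #{a ∈ A | Good s t A B a b} := by
  symm
  apply card_bij (fun a _ => lev s t A B a b)
  · intro a ha
    rw [mem_filter] at ha
    rw [mem_filter, mem_range]
    exact ⟨lev_le s t A B a b, a, ha.1, ha.2, rfl⟩
  · intro a ha a' ha' h
    rw [mem_filter] at ha ha'
    exact inj_a hs hgp ha.1 ha'.1 hb ha.2 ha'.2 h
  · intro k hk
    rw [mem_filter] at hk
    obtain ⟨_, a, ha, hg, hl⟩ := hk
    exact ⟨a, by rw [mem_filter]; exact ⟨ha, hg⟩, hl⟩

/-- general position for a finite set -/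
def GP (S : Finset (ℝ × ℝ)) : Prop :=
  ∀ i ∈ S, ∀ j ∈ S, ∀ k ∈ S, i ≠ j → i ≠ k → j ≠ k → det3 i j k ≠ 0

lemma GP.mono {S T : Finset (ℝ × ℝ)} (h : GP T) (hST : S ⊆ T) : GP S :=
  fun i hi j hj k hk => h i (hST hi) j (hST hj) k (hST hk)

/-- the family of pairwise crossing `2`-paths -/
structure Fam (A B C : Finset (ℝ × ℝ)) (m : ℕ) where
  a : Fin m → ℝ × ℝ
  b : Fin m → ℝ × ℝ
  c : Fin m → ℝ × ℝ
  ha : ∀ i, a i ∈ A
  hb : ∀ i, b i ∈ B
  hc : ∀ i, c i ∈ C
  ia : Function.Injective a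
  ib : Function.Injective b
  ic : Function.Injective c
  cr : ∀ i j, i ≠ j → (segment ℝ (a i) (b i) ∩ segment ℝ (a j) (b j)).Nonempty ∨
    (segment ℝ (c i) (b i) ∩ segment ℝ (c j) (b j)).Nonempty

theorem exists_fam {A B C : Finset (ℝ × ℝ)} (hgp : GP (A ∪ B ∪ C))
    (hAB : ∀ a ∈ A, ∀ b ∈ B, a.2 < b.2) (hBC : ∀ b ∈ B, ∀ c ∈ C, b.2 < c.2)
    (hsep : ∀ b ∈ B, ∀ b' ∈ B, b ≠ b' → ¬ (SepD A b b' ∧ SepD C b b')) :
    ∃ m : ℕ, (∑ b ∈ B, #{a ∈ A | Good sL tL A B a b} * #{c ∈ C | Good sR tR C B c b}) ≤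
      m * ((#A + #B + 1) * (#C + #B + 1)) ∧ Nonempty (Fam A B C m) := by
  have hsA : ∀ a ∈ A, ∀ b ∈ B, sL b < sL a := fun a ha b hb => by
    unfold sL; linarith [hAB a ha b hb]
  have hsC : ∀ c ∈ C, ∀ b ∈ B, sR b < sR c := fun c hc b hb => hBC b hb c hc
  have hgA : ∀ i ∈ A ∪ B, ∀ j ∈ A ∪ B, ∀ k ∈ A ∪ B, i ≠ j → i ≠ k → j ≠ k →
      ori sL tL i j k ≠ 0 := by
    intro i hi j hj k hk h1 h2 h3
    rw [ori_L]
    exact hgp i (mem_union_left _ hi) j (mem_union_left _ hj) k (mem_union_left _ hk) h1 h2 h3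
  have hCB : C ∪ B ⊆ A ∪ B ∪ C := by
    intro x hx
    rw [mem_union] at hx
    rw [mem_union, mem_union]
    tauto
  have hgC : ∀ i ∈ C ∪ B, ∀ j ∈ C ∪ B, ∀ k ∈ C ∪ B, i ≠ j → i ≠ k → j ≠ k →
      ori sR tR i j k ≠ 0 := by
    intro i hi j hj k hk h1 h2 h3
    rw [ori_R]
    exact hgp i (hCB hi) j (hCB hj) k (hCB hk) h1 h2 h3
  -- the sets F k k'
  let F : ℕ × ℕ → Finset (ℝ × ℝ) := fun kk => B.filter (fun b =>
    (∃ a ∈ A, Good sL tL A B a b ∧ lev sL tL A B a b = kk.1) ∧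
    (∃ c ∈ C, Good sR tR C B c b ∧ lev sR tR C B c b = kk.2))
  have hsum : ∑ kk ∈ range (#A + #B + 1) ×ˢ range (#C + #B + 1), #(F kk) =
      ∑ b ∈ B, #{a ∈ A | Good sL tL A B a b} * #{c ∈ C | Good sR tR C B c b} := by
    have hF : ∀ kk ∈ range (#A + #B + 1) ×ˢ range (#C + #B + 1), #(F kk) = ∑ b ∈ B,
        if ((∃ a ∈ A, Good sL tL A B a b ∧ lev sL tL A B a b = kk.1) ∧
        (∃ c ∈ C, Good sR tR C B c b ∧ lev sR tR C B c b = kk.2)) then 1 else 0 :=
      fun kk _ => card_filter _ _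
    rw [sum_congr rfl hF, sum_comm]
    apply sum_congr rfl
    intro b hb
    rw [← card_levels hsA hgA hb, ← card_levels hsC hgC hb, ← card_product, ← filter_product,
      card_filter]
  have hne : (range (#A + #B + 1) ×ˢ range (#C + #B + 1)).Nonempty :=
    ⟨(0, 0), by simp⟩
  obtain ⟨kk, -, hmax⟩ := exists_max_image _ (fun kk => #(F kk)) hne
  refine ⟨#(F kk), ?_, ?_⟩
  · rw [← hsum]
    calc _ ≤ ∑ _x ∈ range (#A + #B + 1) ×ˢ range (#C + #B + 1), #(F kk) := sum_le_sum hmax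
      _ = _ := by rw [sum_const, card_product, card_range, card_range, smul_eq_mul, mul_comm]
  · let e := (F kk).equivFin
    have hF : ∀ i : Fin #(F kk), ((e.symm i : ℝ × ℝ) ∈ B) ∧
        (∃ a ∈ A, Good sL tL A B a (e.symm i : ℝ × ℝ) ∧ lev sL tL A B a (e.symm i : ℝ × ℝ) = kk.1) ∧
        (∃ c ∈ C, Good sR tR C B c (e.symm i : ℝ × ℝ) ∧ lev sR tR C B c (e.symm i : ℝ × ℝ) = kk.2) := by
      intro i
      have := (e.symm i).2
      simp only [F, mem_filter] at this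
      exact this
    choose hb hF2 using hF
    choose hFa hFc using hF2
    choose a ha hga hla using hFa
    choose c hc hgc hlc using hFc
    have ib : Function.Injective (fun i => (e.symm i : ℝ × ℝ)) :=
      Subtype.val_injective.comp e.symm.injective
    refine ⟨⟨a, fun i => (e.symm i : ℝ × ℝ), c, ha, hb, hc, ?_, ib, ?_, ?_⟩⟩
    · intro i j hij
      apply ib
      apply inj_b hsA hgA (ha i) (hb i) (hb j) (hga i)
      · rw [hij]; exact hga j
      · rw [hla i]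
        conv_rhs => rw [hij]
        rw [hla j]
    · intro i j hij
      apply ib
      apply inj_b hsC hgC (hc i) (hb i) (hb j) (hgc i)
      · rw [hij]; exact hgc j
      · rw [hlc i]
        conv_rhs => rw [hij]
        rw [hlc j]
    · intro i j hij
      have hbij : (e.symm i : ℝ × ℝ) ≠ (e.symm j : ℝ × ℝ) := fun h => hij (ib h)
      have haij : a i ≠ a j := by
        intro h
        apply hbij
        apply inj_b hsA hgA (ha i) (hb i) (hb j) (hga i)
        · rw [h]; exact hga j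
        · rw [hla i, h, hla j]
      have hcij : c i ≠ c j := by
        intro h
        apply hbij
        apply inj_b hsC hgC (hc i) (hb i) (hb j) (hgc i)
        · rw [h]; exact hgc j
        · rw [hlc i, h, hlc j]
      have mA : ∀ i, a i ∈ A ∪ B ∪ C := fun i => mem_union_left _ (mem_union_left _ (ha i))
      have mB : ∀ i, (e.symm i : ℝ × ℝ) ∈ A ∪ B ∪ C :=
        fun i => mem_union_left _ (mem_union_right _ (hb i))
      have mC : ∀ i, c i ∈ A ∪ B ∪ C := fun i => mem_union_right _ (hc i)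
      have nab : ∀ i j, (e.symm i : ℝ × ℝ) ≠ a j := by
        intro i j h
        have := hAB (a j) (ha j) _ (hb i)
        rw [h] at this
        exact lt_irrefl _ this
      have ncb : ∀ i j, (e.symm i : ℝ × ℝ) ≠ c j := by
        intro i j h
        have := hBC _ (hb i) (c j) (hc j)
        rw [h] at this
        exact lt_irrefl _ this
      have same : ∀ (D : Finset (ℝ × ℝ)) (u v : ℝ × ℝ), ¬ SepD D (e.symm i : ℝ × ℝ) (e.symm j : ℝ × ℝ) →
          u ∈ D → v ∈ D → det3 (e.symm i : ℝ × ℝ) (e.symm j : ℝ × ℝ) u ≠ 0 →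
          det3 (e.symm i : ℝ × ℝ) (e.symm j : ℝ × ℝ) v ≠ 0 →
          0 < det3 (e.symm i : ℝ × ℝ) (e.symm j : ℝ × ℝ) u *
            det3 (e.symm i : ℝ × ℝ) (e.symm j : ℝ × ℝ) v := by
        intro D u v hD hu hv h1 h2
        unfold SepD at hD
        push Not at hD
        rcases lt_or_gt_of_ne h1 with h | h
        · rcases lt_or_gt_of_ne h2 with h' | h'
          · exact mul_pos_of_neg_of_neg h h'
          · exact absurd h' (not_lt.mpr (hD u hu v hv h))
        · rcases lt_or_gt_of_ne h2 with h' | h'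
          · exact absurd h (not_lt.mpr (hD v hv u hu h'))
          · exact mul_pos h h'
      by_cases hS : SepD A (e.symm i : ℝ × ℝ) (e.symm j : ℝ × ℝ)
      · right
        have hSC : ¬ SepD C (e.symm i : ℝ × ℝ) (e.symm j : ℝ × ℝ) :=
          fun h => hsep _ (hb i) _ (hb j) hbij ⟨hS, h⟩
        have h1 := same C (c i) (c j) hSC (hc i) (hc j)
          (hgp _ (mB i) _ (mB j) _ (mC i) hbij (ncb i i) (ncb j i))
          (hgp _ (mB i) _ (mB j) _ (mC j) hbij (ncb i j) (ncb j j))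
        have h2 := cross hsC hgC (hc i) (hb i) (hc j) (hb j) hcij hbij (hgc i) (hgc j)
          (by rw [hlc i, hlc j]) (by rw [ori_R, ori_R]; exact h1)
        simp only [ori_R] at h2
        exact seg_meet h2.1 h2.2
      · left
        have h1 := same A (a i) (a j) hS (ha i) (ha j)
          (hgp _ (mB i) _ (mB j) _ (mA i) hbij (nab i i) (nab j i))
          (hgp _ (mB i) _ (mB j) _ (mA j) hbij (nab i j) (nab j j))
        have h2 := cross hsA hgA (ha i) (hb i) (ha j) (hb j) haij hbij (hga i) (hga j)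
          (by rw [hla i, hla j]) (by rw [ori_L, ori_L]; exact h1)
        simp only [ori_L] at h2
        exact seg_meet h2.1 h2.2

/-- quantitative version -/
theorem exists_fam_card {A B C : Finset (ℝ × ℝ)} {N : ℕ} (hN : 1 ≤ N) (hA : #A = N) (hC : #C = N)
    (hB : #B = 8 * N) (hgp : GP (A ∪ B ∪ C))
    (hAB : ∀ a ∈ A, ∀ b ∈ B, a.2 < b.2) (hBC : ∀ b ∈ B, ∀ c ∈ C, b.2 < c.2)
    (hsep : ∀ b ∈ B, ∀ b' ∈ B, b ≠ b' → ¬ (SepD A b b' ∧ SepD C b b'))
    (hX : #{q ∈ B ×ˢ B | SepD A q.1 q.2} + #{q ∈ B ×ˢ B | SepD C q.1 q.2} ≤ 2 * N ^ 2) :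
    ∃ m : ℕ, N ≤ 50 * m ∧ Nonempty (Fam A B C m) := by
  obtain ⟨m, hm, hf⟩ := exists_fam hgp hAB hBC hsep
  refine ⟨m, ?_, hf⟩
  have hsA : ∀ a ∈ A, ∀ b ∈ B, sL b < sL a := fun a ha b hb => by
    unfold sL; linarith [hAB a ha b hb]
  have hsC : ∀ c ∈ C, ∀ b ∈ B, sR b < sR c := fun c hc b hb => hBC b hb c hc
  have hgA : ∀ i ∈ A ∪ B, ∀ j ∈ A ∪ B, ∀ k ∈ A ∪ B, i ≠ j → i ≠ k → j ≠ k →
      ori sL tL i j k ≠ 0 := by
    intro i hi j hj k hk h1 h2 h3
    rw [ori_L]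
    exact hgp i (mem_union_left _ hi) j (mem_union_left _ hj) k (mem_union_left _ hk) h1 h2 h3
  have hCB : C ∪ B ⊆ A ∪ B ∪ C := by
    intro x hx
    rw [mem_union] at hx
    rw [mem_union, mem_union]
    tauto
  have hgC : ∀ i ∈ C ∪ B, ∀ j ∈ C ∪ B, ∀ k ∈ C ∪ B, i ≠ j → i ≠ k → j ≠ k →
      ori sR tR i j k ≠ 0 := by
    intro i hi j hj k hk h1 h2 h3
    rw [ori_R]
    exact hgp i (hCB hi) j (hCB hj) k (hCB hk) h1 h2 h3
  have c1 := count_good hsA hgA
  have c2 := count_good hsC hgC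
  simp only [sep_L, sep_R] at c1 c2
  rw [hA, hB] at c1
  rw [hC, hB] at c2
  rw [hA, hB, hC] at hm
  set g : ℝ × ℝ → ℕ := fun b => #{a ∈ A | Good sL tL A B a b} with hg
  set g' : ℝ × ℝ → ℕ := fun b => #{c ∈ C | Good sR tR C B c b} with hg'
  have d1 : N * (8 * N) ≤ (∑ b ∈ B, g b) + #{q ∈ B ×ˢ B | SepD A q.1 q.2} + 2 * N ^ 2 := c1
  have d2 : N * (8 * N) ≤ (∑ b ∈ B, g' b) + #{q ∈ B ×ˢ B | SepD C q.1 q.2} + 2 * N ^ 2 := c2
  clear c1 c2
  have hgN : ∀ b, g b ≤ N := fun b => (card_filter_le _ _).trans hA.le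
  have hgN' : ∀ b, g' b ≤ N := fun b => (card_filter_le _ _).trans hC.le
  have hprod : N * (∑ b ∈ B, g b) + N * (∑ b ∈ B, g' b) ≤ (∑ b ∈ B, g b * g' b) + 8 * N * N ^ 2 := by
    rw [mul_sum, mul_sum, ← sum_add_distrib]
    have : (8 * N) * N ^ 2 = ∑ b ∈ B, N ^ 2 := by rw [sum_const, hB, smul_eq_mul]
    rw [this, ← sum_add_distrib]
    apply sum_le_sum
    intro b _
    have h1 := hgN b
    have h2 := hgN' b
    obtain ⟨u, hu⟩ := Nat.exists_eq_add_of_le h1
    obtain ⟨v, hv⟩ := Nat.exists_eq_add_of_le h2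
    nlinarith [Nat.zero_le (u * v)]
  have c1' := Nat.mul_le_mul_left N d1
  have c2' := Nat.mul_le_mul_left N d2
  have hX' := Nat.mul_le_mul_left N hX
  -- 2 N^3 ≤ Σ g g'
  have h3 : 2 * N ^ 3 ≤ ∑ b ∈ B, g b * g' b := by
    have e1 : N * (N * (8 * N)) = 8 * N ^ 3 := by ring
    have e2 : 8 * N * N ^ 2 = 8 * N ^ 3 := by ring
    have e3 : N * (2 * N ^ 2) = 2 * N ^ 3 := by ring
    rw [mul_add, mul_add, e1, e3] at c1' c2'
    rw [mul_add, e3] at hX'
    rw [e2] at hprod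
    omega
  have h4 : 2 * N ^ 3 ≤ m * ((9 * N + 1) * (9 * N + 1)) := by
    refine h3.trans (hm.trans (le_of_eq ?_))
    ring
  by_contra hcon
  push Not at hcon
  have h5 : (9 * N + 1) * (9 * N + 1) ≤ 100 * N ^ 2 := by nlinarith
  have h6 : 2 * N ^ 3 ≤ m * (100 * N ^ 2) := h4.trans (Nat.mul_le_mul_left m h5)
  have h7 : (N ^ 2) * (2 * N) ≤ (N ^ 2) * (100 * m) := by
    calc (N ^ 2) * (2 * N) = 2 * N ^ 3 := by ring
      _ ≤ _ := h6
      _ = _ := by ring
  have h8 : 2 * N ≤ 100 * m := Nat.le_of_mul_le_mul_left h7 (by positivity)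
  omega

end Pool.Agent.H41.CF
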