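import Pool.Agent.H41.CFRec

set_option autoImplicit false

namespace Pool.Agent.H41.CF

open Finset Classical

section left
variable {ι : Type*} (s t : ι → ℝ)

/-- value at `x` of the dual line of the point `i` -/
def ln (i : ι) (x : ℝ) : ℝ := s i * x - t i

/-- slope of the line through the points `i` and `j` -/
noncomputable def sl (i j : ι) : ℝ := (t i - t j) / (s i - s j)

/-- orientation determinant -/
def ori (i j k : ι) : ℝ := (s j - s i) * (t k - t i) - (t j - t i) * (s k - s i)

lemma ln_sub {i j : ι} (h : s i ≠ s j) (x : ℝ) :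
    ln s t i x - ln s t j x = (s i - s j) * (x - sl s t i j) := by
  unfold ln sl
  have : s i - s j ≠ 0 := sub_ne_zero.mpr h
  field_simp
  ring

lemma sl_comm (i j : ι) : sl s t i j = sl s t j i := by
  unfold sl
  rw [← neg_sub (t j), ← neg_sub (s j), neg_div_neg_eq]

lemma ln_sl {i j : ι} (h : s i ≠ s j) : ln s t i (sl s t i j) = ln s t j (sl s t i j) := by
  have := ln_sub s t h (sl s t i j)
  rw [sub_self, mul_zero] at this
  linarith

lemma ln_le_iff {i j : ι} (h : s j < s i) (x : ℝ) : ln s t j x ≤ ln s t i x ↔ sl s t i j ≤ x := by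
  have h1 := ln_sub s t (ne_of_gt h) x
  have h2 : 0 < s i - s j := by linarith
  constructor
  · intro h3
    by_contra h4
    push Not at h4
    have : (s i - s j) * (x - sl s t i j) < 0 := mul_neg_of_pos_of_neg h2 (by linarith)
    linarith
  · intro h3
    have : 0 ≤ (s i - s j) * (x - sl s t i j) := mul_nonneg h2.le (by linarith)
    linarith

lemma ln_lt_iff {i j : ι} (h : s j < s i) (x : ℝ) : ln s t j x < ln s t i x ↔ sl s t i j < x := by
  have h1 := ln_sub s t (ne_of_gt h) x
  have h2 : 0 < s i - s j := by linarith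
  constructor
  · intro h3
    by_contra h4
    push Not at h4
    have : (s i - s j) * (x - sl s t i j) ≤ 0 := mul_nonpos_of_nonneg_of_nonpos h2.le (by linarith)
    linarith
  · intro h3
    have : 0 < (s i - s j) * (x - sl s t i j) := mul_pos h2 (by linarith)
    linarith

lemma ln_le_iff' {i j : ι} (h : s j < s i) (x : ℝ) : ln s t i x ≤ ln s t j x ↔ x ≤ sl s t i j := by
  rw [← not_lt, ← not_lt, not_iff_not]
  exact ln_lt_iff s t h x

lemma ln_lt_iff' {i j : ι} (h : s j < s i) (x : ℝ) : ln s t i x < ln s t j x ↔ x < sl s t i j := by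
  rw [← not_le, ← not_le, not_iff_not]
  exact ln_le_iff s t h x

/-- `ori i j k` in terms of dual lines at the slope of `ij` -/
lemma ori_eq_ln {i j k : ι} (h : s i ≠ s j) :
    ori s t i j k = (s i - s j) * (ln s t k (sl s t i j) - ln s t i (sl s t i j)) := by
  unfold ori ln sl
  have : s i - s j ≠ 0 := sub_ne_zero.mpr h
  field_simp
  ring

lemma ori_swap (i j k : ι) : ori s t j i k = - ori s t i j k := by unfold ori; ring
lemma ori_cyc (i j k : ι) : ori s t j k i = ori s t i j k := by unfold ori; ring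

variable [DecidableEq ι]

/-- the level of the vertex `a ∩ b` -/
noncomputable def lev (A B : Finset ι) (a b : ι) : ℕ :=
  #{l ∈ A ∪ B | ln s t b (sl s t a b) < ln s t l (sl s t a b)}

/-- condition on the `b`-line before the vertex -/
def B1 (A B : Finset ι) (a b : ι) : Prop :=
  ∀ x < sl s t a b, (∃ α ∈ A, ln s t b x ≤ ln s t α x) →
    #{l ∈ A ∪ B | l ≠ b ∧ ln s t b x ≤ ln s t l x} ≤ lev s t A B a b

/-- condition on the `a`-line before the vertex -/
def A1 (A B : Finset ι) (a b : ι) : Prop :=
  ∀ x < sl s t a b, (∃ β ∈ B, ln s t β x ≤ ln s t a x) →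
    lev s t A B a b + 1 ≤ #{l ∈ A ∪ B | ln s t a x < ln s t l x}

/-- condition on the `a`-line after the vertex -/
def A2 (A B : Finset ι) (a b : ι) : Prop :=
  ∀ x, sl s t a b < x → (∃ β ∈ B, ln s t a x < ln s t β x) →
    #{l ∈ A ∪ B | ln s t a x < ln s t l x} ≤ lev s t A B a b + 1

/-- good pairs -/
def Good (A B : Finset ι) (a b : ι) : Prop :=
  B1 s t A B a b ∧ A1 s t A B a b ∧ A2 s t A B a b

variable {s t}
variable {A B : Finset ι}

/-- core crossing statement -/
theorem cross_core (hs : ∀ a ∈ A, ∀ b ∈ B, s b < s a)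
    (hgp : ∀ i ∈ A ∪ B, ∀ j ∈ A ∪ B, ∀ k ∈ A ∪ B, i ≠ j → i ≠ k → j ≠ k → ori s t i j k ≠ 0)
    {a b a' b' : ι} (ha : a ∈ A) (hb : b ∈ B) (ha' : a' ∈ A) (hb' : b' ∈ B)
    (haa : a ≠ a') (hbb : b ≠ b')
    (hg : Good s t A B a b) (hg' : Good s t A B a' b')
    (hl : lev s t A B a b = lev s t A B a' b')
    (h1 : ln s t b' (sl s t a b) < ln s t b (sl s t a b))
    (h2 : ln s t b' (sl s t a' b') < ln s t b (sl s t a' b')) :
    sl s t a' b' < sl s t a b ∧
    ln s t a (sl s t a' b') < ln s t b' (sl s t a' b') ∧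
    ln s t b (sl s t a b) < ln s t a' (sl s t a b) := by
  have hsab := hs a ha b hb
  have hsab' := hs a' ha' b' hb'
  have hsa'b := hs a' ha' b hb
  have hsab2 := hs a ha b' hb'
  have eab := ln_sl s t (ne_of_gt hsab)
  have eab' := ln_sl s t (ne_of_gt hsab')
  have hab : a ≠ b := fun h => by rw [h] at hsab; exact lt_irrefl _ hsab
  have hab' : a' ≠ b' := fun h => by rw [h] at hsab'; exact lt_irrefl _ hsab'
  have hab2 : a ≠ b' := fun h => by rw [h] at hsab2; exact lt_irrefl _ hsab2
  have ha'b : a' ≠ b := fun h => by rw [h] at hsa'b; exact lt_irrefl _ hsa'b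
  set p := sl s t a b with hp
  set p' := sl s t a' b' with hp'
  have mA : a ∈ A ∪ B := mem_union_left _ ha
  have mB : b ∈ A ∪ B := mem_union_right _ hb
  have mA' : a' ∈ A ∪ B := mem_union_left _ ha'
  have mB' : b' ∈ A ∪ B := mem_union_right _ hb'
  -- a counting tool: lines above P together with a and b
  have hcount : ∀ (S : Finset ι), (∀ l ∈ A ∪ B, ln s t b p < ln s t l p → l ∈ S) → a ∈ S → b ∈ S →
      lev s t A B a b + 2 ≤ #S := by
    intro S hS haS hbS
    have hsub : insert a (insert b ((A ∪ B).filter (fun l => ln s t b p < ln s t l p))) ⊆ S := by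
      intro l hl
      rw [mem_insert, mem_insert, mem_filter] at hl
      rcases hl with rfl | rfl | ⟨h3, h4⟩
      · exact haS
      · exact hbS
      · exact hS l h3 h4
    have := card_le_card hsub
    rw [card_insert_of_notMem, card_insert_of_notMem] at this
    · exact this
    · simp [mem_filter]
    · rw [mem_insert, mem_filter]
      push Not
      refine ⟨hab, fun _ => ?_⟩
      rw [eab]
  have hlt : p' < p := by
    by_contra hcon
    push Not at hcon
    rcases lt_or_eq_of_le hcon with hlt | heq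
    · -- B1 for (a', b') at x = p
      have h3 := hg'.1 p hlt ⟨a, ha, by rw [eab]; exact h1.le⟩
      have h4 := hcount ((A ∪ B).filter (fun l => l ≠ b' ∧ ln s t b' p ≤ ln s t l p))
        (fun l hl hlp => by
          rw [mem_filter]
          refine ⟨hl, ?_, by linarith⟩
          rintro rfl
          linarith)
        (by rw [mem_filter]; exact ⟨mA, hab2, by rw [eab]; exact h1.le⟩)
        (by rw [mem_filter]; exact ⟨mB, hbb, h1.le⟩)
      omega
    · have h4 := hcount ((A ∪ B).filter (fun l => ln s t b' p' < ln s t l p'))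
        (fun l hl hlp => by
          rw [mem_filter]
          refine ⟨hl, ?_⟩
          rw [← heq]; linarith)
        (by rw [mem_filter]; exact ⟨mA, by rw [← heq, eab]; exact h1⟩)
        (by rw [mem_filter]; exact ⟨mB, h2⟩)
      have h5 : lev s t A B a' b' = #((A ∪ B).filter (fun l => ln s t b' p' < ln s t l p')) := rfl
      omega
  refine ⟨hlt, ?_, ?_⟩
  · -- claim 2
    by_contra hcon
    push Not at hcon
    rcases lt_or_eq_of_le hcon with h3 | h3
    · have h4 := hg.2.1 p' hlt ⟨b', hb', h3.le⟩
      have h5 : lev s t A B a' b' = #((A ∪ B).filter (fun l => ln s t b' p' < ln s t l p')) := rfl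
      have h6 : (A ∪ B).filter (fun l => ln s t a p' < ln s t l p') ⊆
          (A ∪ B).filter (fun l => ln s t b' p' < ln s t l p') := by
        intro l hl
        rw [mem_filter] at hl ⊢
        exact ⟨hl.1, by linarith [hl.2]⟩
      have := card_le_card h6
      omega
    · apply hgp a' mA' b' mB' a mA hab' (Ne.symm haa) (Ne.symm hab2)
      rw [ori_eq_ln s t (ne_of_gt hsab'), ← hp', eab', h3, sub_self, mul_zero]
  · -- claim 3
    by_contra hcon
    push Not at hcon
    rcases lt_or_eq_of_le hcon with h3 | h3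
    · have h4 := hg'.2.2 p hlt ⟨b, hb, h3⟩
      have h5 := hcount ((A ∪ B).filter (fun l => ln s t a' p < ln s t l p))
        (fun l hl hlp => by
          rw [mem_filter]
          exact ⟨hl, by linarith⟩)
        (by rw [mem_filter]; exact ⟨mA, by rw [eab]; exact h3⟩)
        (by rw [mem_filter]; exact ⟨mB, h3⟩)
      omega
    · apply hgp a mA b mB a' mA' hab haa (Ne.symm ha'b)
      rw [ori_eq_ln s t (ne_of_gt hsab), ← hp, eab, h3, sub_self, mul_zero]

/-- two good pairs of the same level whose `A`-ends lie on the same side of the line through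
their `B`-ends have crossing segments -/
theorem cross (hs : ∀ a ∈ A, ∀ b ∈ B, s b < s a)
    (hgp : ∀ i ∈ A ∪ B, ∀ j ∈ A ∪ B, ∀ k ∈ A ∪ B, i ≠ j → i ≠ k → j ≠ k → ori s t i j k ≠ 0)
    {a b a' b' : ι} (ha : a ∈ A) (hb : b ∈ B) (ha' : a' ∈ A) (hb' : b' ∈ B)
    (haa : a ≠ a') (hbb : b ≠ b')
    (hg : Good s t A B a b) (hg' : Good s t A B a' b')
    (hl : lev s t A B a b = lev s t A B a' b')
    (hside : 0 < ori s t b b' a * ori s t b b' a') :
    ori s t a b a' * ori s t a b b' < 0 ∧ ori s t a' b' a * ori s t a' b' b < 0 := by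
  have key : ∀ {a b a' b' : ι}, a ∈ A → b ∈ B → a' ∈ A → b' ∈ B → a ≠ a' → b ≠ b' →
      Good s t A B a b → Good s t A B a' b' → lev s t A B a b = lev s t A B a' b' →
      ori s t b b' a < 0 → ori s t b b' a' < 0 →
      ori s t a b a' * ori s t a b b' < 0 ∧ ori s t a' b' a * ori s t a' b' b < 0 := by
    intro a b a' b' ha hb ha' hb' haa hbb hg hg' hl h1 h2
    have hsab := hs a ha b hb
    have hsab' := hs a' ha' b' hb'
    have d1 : 0 < s a - s b := by linarith
    have d2 : 0 < s a' - s b' := by linarith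
    have eab := ln_sl s t (ne_of_gt hsab)
    have eab' := ln_sl s t (ne_of_gt hsab')
    have e1 : ori s t b b' a = (s a - s b) *
        (ln s t b' (sl s t a b) - ln s t a (sl s t a b)) := by
      rw [← ori_eq_ln s t (ne_of_gt hsab)]
      unfold ori; ring
    have e2 : ori s t b b' a' = -((s a' - s b') *
        (ln s t b (sl s t a' b') - ln s t a' (sl s t a' b'))) := by
      rw [← ori_eq_ln s t (ne_of_gt hsab')]
      unfold ori; ring
    have h3 : ln s t b' (sl s t a b) < ln s t b (sl s t a b) := by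
      rw [e1] at h1
      have := neg_of_mul_neg_right h1 d1.le
      linarith
    have h4 : ln s t b' (sl s t a' b') < ln s t b (sl s t a' b') := by
      rw [e2] at h2
      have h2' : 0 < (s a' - s b') * (ln s t b (sl s t a' b') - ln s t a' (sl s t a' b')) := by
        linarith
      have := (mul_pos_iff_of_pos_left d2).mp h2'
      linarith
    obtain ⟨h5, h6, h7⟩ := cross_core hs hgp ha hb ha' hb' haa hbb hg hg' hl h3 h4
    refine ⟨?_, ?_⟩
    · rw [ori_eq_ln s t (ne_of_gt hsab), ori_eq_ln s t (ne_of_gt hsab)]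
      rw [eab]
      have : 0 < (s a - s b) * (ln s t a' (sl s t a b) - ln s t b (sl s t a b)) :=
        mul_pos d1 (by linarith)
      have : (s a - s b) * (ln s t b' (sl s t a b) - ln s t b (sl s t a b)) < 0 :=
        mul_neg_of_pos_of_neg d1 (by linarith)
      exact mul_neg_of_pos_of_neg ‹_› this
    · rw [ori_eq_ln s t (ne_of_gt hsab'), ori_eq_ln s t (ne_of_gt hsab')]
      rw [eab']
      have : (s a' - s b') * (ln s t a (sl s t a' b') - ln s t b' (sl s t a' b')) < 0 :=
        mul_neg_of_pos_of_neg d2 (by linarith)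
      have h8 : 0 < (s a' - s b') * (ln s t b (sl s t a' b') - ln s t b' (sl s t a' b')) :=
        mul_pos d2 (by linarith)
      exact mul_neg_of_neg_of_pos this h8
  rcases lt_trichotomy (ori s t b b' a) 0 with h | h | h
  · have h' : ori s t b b' a' < 0 := by
      by_contra hc
      push Not at hc
      have := mul_nonpos_of_nonpos_of_nonneg h.le hc
      linarith
    exact key ha hb ha' hb' haa hbb hg hg' hl h h'
  · rw [h, zero_mul] at hside
    exact absurd hside (lt_irrefl _)
  · have h' : 0 < ori s t b b' a' := by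
      by_contra hc
      push Not at hc
      have := mul_nonpos_of_nonneg_of_nonpos h.le hc
      linarith
    have := key ha' hb' ha hb (Ne.symm haa) (Ne.symm hbb) hg' hg hl.symm
      (by rw [ori_swap]; linarith) (by rw [ori_swap]; linarith)
    exact ⟨this.2, this.1⟩

/-- good pairs of one level with the same `b` agree -/
theorem inj_a (hs : ∀ a ∈ A, ∀ b ∈ B, s b < s a)
    (hgp : ∀ i ∈ A ∪ B, ∀ j ∈ A ∪ B, ∀ k ∈ A ∪ B, i ≠ j → i ≠ k → j ≠ k → ori s t i j k ≠ 0)
    {a a' b : ι} (ha : a ∈ A) (ha' : a' ∈ A) (hb : b ∈ B)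
    (hg : Good s t A B a b) (hg' : Good s t A B a' b)
    (hl : lev s t A B a b = lev s t A B a' b) : a = a' := by
  by_contra haa
  have key : ∀ {a a' : ι}, a ∈ A → a' ∈ A → a ≠ a' → Good s t A B a b → Good s t A B a' b →
      lev s t A B a b = lev s t A B a' b → ¬ sl s t a b < sl s t a' b := by
    intro a a' ha ha' haa hg hg' hl hlt
    have hsab := hs a ha b hb
    have eab := ln_sl s t (ne_of_gt hsab)
    have hab : a ≠ b := fun h => by rw [h] at hsab; exact lt_irrefl _ hsab
    have h3 := hg'.1 _ hlt ⟨a, ha, by rw [eab]⟩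
    have hsub : insert a ((A ∪ B).filter (fun l => ln s t b (sl s t a b) < ln s t l (sl s t a b))) ⊆
        (A ∪ B).filter (fun l => l ≠ b ∧ ln s t b (sl s t a b) ≤ ln s t l (sl s t a b)) := by
      intro l hl
      rw [mem_insert, mem_filter] at hl
      rw [mem_filter]
      rcases hl with rfl | ⟨h4, h5⟩
      · exact ⟨mem_union_left _ ha, hab, by rw [eab]⟩
      · exact ⟨h4, by rintro rfl; exact lt_irrefl _ h5, h5.le⟩
    have := card_le_card hsub
    rw [card_insert_of_notMem] at this
    · have h5 : lev s t A B a b =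
        #((A ∪ B).filter (fun l => ln s t b (sl s t a b) < ln s t l (sl s t a b))) := rfl
      omega
    · rw [mem_filter]
      push Not
      intro _
      rw [eab]
  have hsab := hs a ha b hb
  have hsab' := hs a' ha' b hb
  rcases lt_trichotomy (sl s t a b) (sl s t a' b) with h | h | h
  · exact key ha ha' haa hg hg' hl h
  · have hab : a ≠ b := fun h => by rw [h] at hsab; exact lt_irrefl _ hsab
    have hab' : a' ≠ b := fun h => by rw [h] at hsab'; exact lt_irrefl _ hsab'
    apply hgp a (mem_union_left _ ha) b (mem_union_right _ hb) a' (mem_union_left _ ha') hab haa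
      (Ne.symm hab')
    rw [ori_eq_ln s t (ne_of_gt hsab), ln_sl s t (ne_of_gt hsab), h,
      ln_sl s t (ne_of_gt hsab'), sub_self, mul_zero]
  · exact key ha' ha (Ne.symm haa) hg' hg hl.symm h

/-- good pairs of one level with the same `a` agree -/
theorem inj_b (hs : ∀ a ∈ A, ∀ b ∈ B, s b < s a)
    (hgp : ∀ i ∈ A ∪ B, ∀ j ∈ A ∪ B, ∀ k ∈ A ∪ B, i ≠ j → i ≠ k → j ≠ k → ori s t i j k ≠ 0)
    {a b b' : ι} (ha : a ∈ A) (hb : b ∈ B) (hb' : b' ∈ B)
    (hg : Good s t A B a b) (hg' : Good s t A B a b')
    (hl : lev s t A B a b = lev s t A B a b') : b = b' := by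
  by_contra hbb
  have key : ∀ {b b' : ι}, b ∈ B → b' ∈ B → b ≠ b' → Good s t A B a b → Good s t A B a b' →
      lev s t A B a b = lev s t A B a b' → ¬ sl s t a b < sl s t a b' := by
    intro b b' hb hb' hbb hg hg' hl hlt
    have hsab := hs a ha b hb
    have eab := ln_sl s t (ne_of_gt hsab)
    have h3 := hg'.2.1 _ hlt ⟨b, hb, by rw [eab]⟩
    have h5 : lev s t A B a b =
      #((A ∪ B).filter (fun l => ln s t a (sl s t a b) < ln s t l (sl s t a b))) := by
      unfold lev
      rw [eab]
    omega
  have hsab := hs a ha b hb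
  have hsab' := hs a ha b' hb'
  rcases lt_trichotomy (sl s t a b) (sl s t a b') with h | h | h
  · exact key hb hb' hbb hg hg' hl h
  · have hab : a ≠ b := fun h => by rw [h] at hsab; exact lt_irrefl _ hsab
    have hab' : a ≠ b' := fun h => by rw [h] at hsab'; exact lt_irrefl _ hsab'
    apply hgp a (mem_union_left _ ha) b (mem_union_right _ hb) b' (mem_union_right _ hb') hab hab' hbb
    rw [ori_eq_ln s t (ne_of_gt hsab), h, ← ln_sl s t (ne_of_gt hsab'), sub_self, mul_zero]
  · exact key hb' hb (Ne.symm hbb) hg' hg hl.symm h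

end left

end Pool.Agent.H41.CF
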