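import Pool.Agent.H41.CFSel2

set_option autoImplicit false

namespace Pool.Agent.H41.CF

open Finset Classical

/-- existence of a crossing family, with its size -/
def HasFam (P : Finset (ℝ × ℝ)) (m : ℕ) : Prop :=
  ∃ A B C : Finset (ℝ × ℝ), A ⊆ P ∧ B ⊆ P ∧ C ⊆ P ∧
    (∀ a ∈ A, ∀ b ∈ B, a.2 < b.2) ∧ (∀ b ∈ B, ∀ c ∈ C, b.2 < c.2) ∧ Nonempty (Fam A B C m)

lemma finish {P A0 B0 C0 : Finset (ℝ × ℝ)} (hgp : GP P)
    (hy : ∀ x ∈ P, ∀ y ∈ P, x.2 = y.2 → x = y) (hA : A0 ⊆ P) (hB : B0 ⊆ P) (hC : C0 ⊆ P)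
    (hAB : ∀ a ∈ A0, ∀ b ∈ B0, a.2 < b.2) (hBC : ∀ b ∈ B0, ∀ c ∈ C0, b.2 < c.2)
    {u v w : ℝ} (fB : ∀ b ∈ B0, u * b.1 + v * b.2 + w < 0)
    (fA : ∀ a ∈ A0, 0 < u * a.1 + v * a.2 + w) (fC : ∀ c ∈ C0, 0 < u * c.1 + v * c.2 + w)
    {n : ℕ} (hn : 100 ≤ n) (nA : n ≤ 24 * #A0) (nC : n ≤ 24 * #C0) (nB : n ≤ 6 * #B0) :
    ∃ m : ℕ, n ≤ 1200 * 16 ^ 15 * m ∧ HasFam P m := by
  have hBy : ∀ b ∈ B0, ∀ b' ∈ B0, b ≠ b' → b.2 ≠ b'.2 :=
    fun b hb b' hb' h h' => h (hy b (hB hb) b' (hB hb') h')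
  obtain ⟨A1, a1, a2, a3, a4⟩ := quad_iter hBy 15 (hgp.mono hA)
    (fun x hx y hy' => hy x (hA hx) y (hA hy')) (card_pos.mp (by omega))
  obtain ⟨C1, c1, c2, c3, c4⟩ := quad_iter hBy 15 (hgp.mono hC)
    (fun x hx y hy' => hy x (hC hx) y (hC hy')) (card_pos.mp (by omega))
  set N := min (min #A1 #C1) (#B0 / 8) with hN
  have hK : n ≤ 24 * 16 ^ 15 * N := by
    have e1 : n ≤ 24 * 16 ^ 15 * #A1 := by
      calc n ≤ 24 * #A0 := nA
        _ ≤ 24 * (16 ^ 15 * #A1) := Nat.mul_le_mul_left _ a3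
        _ = _ := by ring
    have e2 : n ≤ 24 * 16 ^ 15 * #C1 := by
      calc n ≤ 24 * #C0 := nC
        _ ≤ 24 * (16 ^ 15 * #C1) := Nat.mul_le_mul_left _ c3
        _ = _ := by ring
    have e3 : n ≤ 24 * 16 ^ 15 * (#B0 / 8) := by
      have : n ≤ 90 * (#B0 / 8) := by omega
      refine this.trans (Nat.mul_le_mul_right _ ?_)
      norm_num
    rw [hN]
    rcases min_choice (min #A1 #C1) (#B0 / 8) with h | h
    · rw [h]
      rcases min_choice #A1 #C1 with h | h
      · rw [h]; exact e1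
      · rw [h]; exact e2
    · rw [h]; exact e3
  have hN1 : 1 ≤ N := by
    rcases Nat.eq_zero_or_pos N with h | h
    · rw [h, mul_zero] at hK
      omega
    · exact h
  have hNA : N ≤ #A1 := (min_le_left _ _).trans (min_le_left _ _)
  have hNC : N ≤ #C1 := (min_le_left _ _).trans (min_le_right _ _)
  have hNB : 8 * N ≤ #B0 := by
    have : N ≤ #B0 / 8 := min_le_right _ _
    omega
  -- the weight
  set wt : ℝ × ℝ → ℝ × ℝ → ℕ := fun b b' =>
    (if SepD A1 b b' then 1 else 0) + (if SepD C1 b b' then 1 else 0) with hwt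
  have hW : ∀ B : Finset (ℝ × ℝ), W wt B = X B A1 + X B C1 := by
    intro B
    unfold W X
    rw [card_filter, card_filter, sum_product, sum_product, ← sum_add_distrib]
    apply sum_congr rfl
    intro b _
    rw [← sum_add_distrib]
  obtain ⟨B1, b1, b2, b3⟩ := exists_subset_weight wt (fun b => by
    simp only [hwt]
    rw [if_neg SepD.ne, if_neg SepD.ne]) B0 (#B0 - 8 * N) (by omega)
  have hb : #B0 - (#B0 - 8 * N) = 8 * N := by omega
  rw [hb] at b2 b3
  rw [hW, hW] at b3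
  have hX0 : ∀ S, X B0 S ≤ #B0 ^ 2 := by
    intro S
    unfold X
    refine (card_filter_le _ _).trans ?_
    rw [card_product, sq]
  have hX1 : 4 ^ 15 * (X B0 A1 + X B0 C1) ≤ 3 ^ 15 * (2 * #B0 ^ 2) := by
    have := hX0 A0
    have := hX0 C0
    omega
  have hX2 : X B1 A1 + X B1 C1 ≤ 2 * N ^ 2 := by
    have h1 : (4 ^ 15 * #B0 ^ 2) * (X B1 A1 + X B1 C1) ≤
        (4 ^ 15 * #B0 ^ 2) * (2 * N ^ 2) := by
      calc (4 ^ 15 * #B0 ^ 2) * (X B1 A1 + X B1 C1)
          = 4 ^ 15 * ((X B1 A1 + X B1 C1) * #B0 ^ 2) := by ring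
        _ ≤ 4 ^ 15 * ((X B0 A1 + X B0 C1) * (8 * N) ^ 2) := Nat.mul_le_mul_left _ b3
        _ = (4 ^ 15 * (X B0 A1 + X B0 C1)) * (8 * N) ^ 2 := by ring
        _ ≤ (3 ^ 15 * (2 * #B0 ^ 2)) * (8 * N) ^ 2 := Nat.mul_le_mul_right _ hX1
        _ = (3 ^ 15 * 64) * (2 * (#B0 ^ 2 * N ^ 2)) := by ring
        _ ≤ (4 ^ 15) * (2 * (#B0 ^ 2 * N ^ 2)) := Nat.mul_le_mul_right _ (by norm_num)
        _ = _ := by ring
    have hpos : 0 < #B0 := by omega
    exact Nat.le_of_mul_le_mul_left h1 (by positivity)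
  obtain ⟨A, hA1, hA2⟩ := exists_subset_card_eq hNA
  obtain ⟨C, hC1, hC2⟩ := exists_subset_card_eq hNC
  have hAP : A ⊆ P := (hA1.trans a1).trans hA
  have hCP : C ⊆ P := (hC1.trans c1).trans hC
  have hBP : B1 ⊆ P := b1.trans hB
  have hABf : ∀ a ∈ A, ∀ b ∈ B1, a.2 < b.2 := fun a ha b hb => hAB a (a1 (hA1 ha)) b (b1 hb)
  have hBCf : ∀ b ∈ B1, ∀ c ∈ C, b.2 < c.2 := fun b hb c hc => hBC b (b1 hb) c (c1 (hC1 hc))
  obtain ⟨m, hm, hfam⟩ := exists_fam_card (A := A) (B := B1) (C := C) hN1 hA2 hC2 b2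
    (hgp.mono (union_subset (union_subset hAP hBP) hCP)) hABf hBCf
    (fun b hb b' hb' hbb => not_both (A := A) (B := B1) (C := C) hABf hBCf
      (fun b hb => fB b (b1 hb)) (fun a ha => fA a (a1 (hA1 ha)))
      (fun c hc => fC c (c1 (hC1 hc))) hb (hBy b (b1 hb) b' (b1 hb') hbb))
    (by
      have h1 := X_mono (B := B1) (B' := B1) (Subset.refl _) hA1
      have h2 := X_mono (B := B1) (B' := B1) (Subset.refl _) hC1
      unfold X at h1 h2 hX2
      omega)
  refine ⟨m, ?_, A, B1, C, hAP, hBP, hCP, hABf, hBCf, hfam⟩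
  calc n ≤ 24 * 16 ^ 15 * N := hK
    _ ≤ 24 * 16 ^ 15 * (50 * m) := Nat.mul_le_mul_left _ hm
    _ = _ := by ring

theorem select {P : Finset (ℝ × ℝ)} (hgp : GP P)
    (hy : ∀ x ∈ P, ∀ y ∈ P, x.2 = y.2 → x = y) (hn : 100 ≤ #P) :
    ∃ m : ℕ, #P ≤ 1200 * 16 ^ 15 * m ∧ HasFam P m := by
  set n := #P with hnP
  obtain ⟨x1, -, r1⟩ := exists_rank (fun z : ℝ × ℝ => z.2) P hy (n / 3) (by omega)
  obtain ⟨x2, -, r2⟩ := exists_rank (fun z : ℝ × ℝ => z.2) P hy (n - n / 3) (by omega)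
  set y1 := x1.2 with hy1
  set y2 := x2.2 with hy2
  have h12 : y1 ≤ y2 := by
    by_contra hc
    push Not at hc
    have : P.filter (fun z => z.2 < y2) ⊆ P.filter (fun z => z.2 < y1) := by
      intro z hz
      rw [mem_filter] at hz ⊢
      exact ⟨hz.1, by linarith [hz.2]⟩
    have := card_le_card this
    have e1 : #(P.filter (fun z => z.2 < y2)) = n - n / 3 := r2
    have e2 : #(P.filter (fun z => z.2 < y1)) = n / 3 := r1
    omega
  set L := P.filter (fun z => z.2 < y1) with hL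
  set M := P.filter (fun z => y1 ≤ z.2 ∧ z.2 < y2) with hM
  set H := P.filter (fun z => y2 ≤ z.2) with hH
  have cL : #L = n / 3 := r1
  have cH : #H = n / 3 := by
    have h1 := card_filter_add_card_filter_not (s := P) (fun z : ℝ × ℝ => z.2 < y2)
    simp only [not_lt] at h1
    have e1 : #(P.filter (fun z => z.2 < y2)) = n - n / 3 := r2
    rw [hH]
    omega
  have cM : #L + #M = n - n / 3 := by
    have e1 : #(P.filter (fun z => z.2 < y2)) = n - n / 3 := r2
    rw [← e1, hL, hM, ← card_union_of_disjoint]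
    · congr 1
      ext z
      simp only [mem_union, mem_filter]
      constructor
      · rintro (⟨h1, h2⟩ | ⟨h1, h2, h3⟩)
        · exact ⟨h1, by linarith⟩
        · exact ⟨h1, h3⟩
      · rintro ⟨h1, h2⟩
        rcases lt_or_ge z.2 y1 with h | h
        · exact Or.inl ⟨h1, h⟩
        · exact Or.inr ⟨h1, h, h2⟩
    · rw [disjoint_left]
      intro z h1 h2
      rw [mem_filter] at h1 h2
      linarith [h1.2, h2.2.1]
  have sL' : L ⊆ P := filter_subset _ _
  have sM : M ⊆ P := filter_subset _ _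
  have sH : H ⊆ P := filter_subset _ _
  obtain ⟨μ, c, p, hp, q, hq, hne, n1, n2, n3, n4⟩ := halving (L := L) (H := H) (y0 := y1)
    (fun z hz => (mem_filter.mp hz).2) (fun z hz => h12.trans (mem_filter.mp hz).2) sL' sH hgp
    (card_pos.mp (by omega)) ((#L + 1) / 4) (#H / 2) (by omega) (by omega)
  have hLM : ∀ a ∈ L, ∀ b ∈ M, a.2 < b.2 := by
    intro a ha b hb
    rw [hL, mem_filter] at ha
    rw [hM, mem_filter] at hb
    linarith [ha.2, hb.2.1]
  have hMH : ∀ b ∈ M, ∀ c ∈ H, b.2 < c.2 := by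
    intro b hb c hc
    rw [hM, mem_filter] at hb
    rw [hH, mem_filter] at hc
    linarith [hb.2.2, hc.2]
  have hMne : ∀ z ∈ M, La μ c z ≠ 0 := by
    intro z hz
    apply hne z (sM hz)
    · rintro rfl
      exact lt_irrefl _ (hLM z hp z hz)
    · rintro rfl
      exact lt_irrefl _ (hMH z hz z hq)
  have hMs : #M ≤ #(M.filter (fun z => La μ c z < 0)) + #(M.filter (fun z => 0 < La μ c z)) := by
    refine le_trans (card_le_card ?_) (card_union_le _ _)
    intro z hz
    rcases lt_or_gt_of_ne (hMne z hz) with h | h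
    · exact mem_union_left _ (mem_filter.mpr ⟨hz, h⟩)
    · exact mem_union_right _ (mem_filter.mpr ⟨hz, h⟩)
  rcases le_total #(M.filter (fun z => 0 < La μ c z)) #(M.filter (fun z => La μ c z < 0)) with h | h
  · apply finish (A0 := L.filter (fun z => 0 < La μ c z)) (B0 := M.filter (fun z => La μ c z < 0))
      (C0 := H.filter (fun z => 0 < La μ c z)) hgp hy ((filter_subset _ _).trans sL')
      ((filter_subset _ _).trans sM) ((filter_subset _ _).trans sH)
      (u := 1) (v := -μ) (w := -c)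
    · intro a ha b hb
      exact hLM a (mem_filter.mp ha).1 b (mem_filter.mp hb).1
    · intro b hb c hc
      exact hMH b (mem_filter.mp hb).1 c (mem_filter.mp hc).1
    · intro b hb
      have := (mem_filter.mp hb).2
      unfold La at this
      linarith
    · intro b hb
      have := (mem_filter.mp hb).2
      unfold La at this
      linarith
    · intro b hb
      have := (mem_filter.mp hb).2
      unfold La at this
      linarith
    · omega
    · omega
    · omega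
    · omega
  · apply finish (A0 := L.filter (fun z => La μ c z < 0)) (B0 := M.filter (fun z => 0 < La μ c z))
      (C0 := H.filter (fun z => La μ c z < 0)) hgp hy ((filter_subset _ _).trans sL')
      ((filter_subset _ _).trans sM) ((filter_subset _ _).trans sH)
      (u := -1) (v := μ) (w := c)
    · intro a ha b hb
      exact hLM a (mem_filter.mp ha).1 b (mem_filter.mp hb).1
    · intro b hb c hc
      exact hMH b (mem_filter.mp hb).1 c (mem_filter.mp hc).1
    · intro b hb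
      have := (mem_filter.mp hb).2
      unfold La at this
      linarith
    · intro b hb
      have := (mem_filter.mp hb).2
      unfold La at this
      linarith
    · intro b hb
      have := (mem_filter.mp hb).2
      unfold La at this
      linarith
    · omega
    · omega
    · omega
    · omega

end Pool.Agent.H41.CF
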