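import Mathlib

set_option autoImplicit false

namespace Pool.Agent.H41.CF

open Finset Classical

/-- Record lemma: the number of indices `a` that are dominated on some window ending at `a` by
the marks `D` is at most the number of marks. -/
theorem record_aux {α β : Type*} (A : Finset α) (p : α → ℝ) (D : Finset β) (q : β → ℝ)
    (bad : α → Prop)
    (hbad : ∀ a ∈ A, bad a → ∃ x, x < p a ∧
      #{y ∈ A | x < p y ∧ p y ≤ p a} ≤ #{d ∈ D | x ≤ q d ∧ q d < p a}) :
    ∀ (n : ℕ) (t : ℝ), #{a ∈ A | p a ≤ t} ≤ n →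
      #{a ∈ A | bad a ∧ p a ≤ t} ≤ #{d ∈ D | q d < t} := by
  intro n
  induction n with
  | zero =>
    intro t ht
    have : #{a ∈ A | bad a ∧ p a ≤ t} ≤ #{a ∈ A | p a ≤ t} := by
      apply card_le_card
      intro a ha
      simp only [mem_filter] at ha ⊢
      exact ⟨ha.1, ha.2.2⟩
    omega
  | succ n ih =>
    intro t ht
    by_cases hne : (A.filter (fun a => bad a ∧ p a ≤ t)).Nonempty
    · obtain ⟨a, ha, hmax⟩ := exists_max_image _ p hne
      simp only [mem_filter] at ha
      obtain ⟨haA, hab, hat⟩ := ha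
      obtain ⟨x, hx, hcard⟩ := hbad a haA hab
      have h1 : A.filter (fun a => bad a ∧ p a ≤ t) ⊆
          (A.filter (fun y => bad y ∧ p y ≤ x)) ∪ (A.filter (fun y => x < p y ∧ p y ≤ p a)) := by
        intro y hy
        have hy' := hmax y hy
        simp only [mem_filter, mem_union] at hy ⊢
        rcases le_or_gt (p y) x with h | h
        · exact Or.inl ⟨hy.1, hy.2.1, h⟩
        · exact Or.inr ⟨hy.1, h, hy'⟩
      have h2 : #{y ∈ A | p y ≤ x} ≤ n := by
        have : #{y ∈ A | p y ≤ x} < #{y ∈ A | p y ≤ t} := by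
          apply card_lt_card
          refine ⟨fun y hy => ?_, fun h => ?_⟩
          · simp only [mem_filter] at hy ⊢
            exact ⟨hy.1, by linarith [hy.2]⟩
          · have : a ∈ A.filter (fun y => p y ≤ x) := h (by simp [haA, hat])
            simp only [mem_filter] at this
            linarith [this.2]
        omega
      have h3 := ih x h2
      have h4 : #{d ∈ D | q d < x} + #{d ∈ D | x ≤ q d ∧ q d < p a} ≤ #{d ∈ D | q d < t} := by
        rw [← card_union_of_disjoint]
        · apply card_le_card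
          intro d hd
          simp only [mem_filter, mem_union] at hd ⊢
          rcases hd with hd | hd
          · exact ⟨hd.1, by linarith [hd.2]⟩
          · exact ⟨hd.1, by linarith [hd.2.2]⟩
        · rw [disjoint_left]
          intro d hd hd'
          simp only [mem_filter] at hd hd'
          linarith [hd.2, hd'.2.1]
      calc #{a ∈ A | bad a ∧ p a ≤ t} ≤ _ := card_le_card h1
        _ ≤ #{y ∈ A | bad y ∧ p y ≤ x} + #{y ∈ A | x < p y ∧ p y ≤ p a} := card_union_le _ _
        _ ≤ #{d ∈ D | q d < x} + #{d ∈ D | x ≤ q d ∧ q d < p a} := by omega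
        _ ≤ _ := h4
    · rw [not_nonempty_iff_eq_empty] at hne
      rw [hne]
      simp

theorem record {α β : Type*} (A : Finset α) (p : α → ℝ) (D : Finset β) (q : β → ℝ)
    (bad : α → Prop)
    (hbad : ∀ a ∈ A, bad a → ∃ x, x < p a ∧
      #{y ∈ A | x < p y ∧ p y ≤ p a} ≤ #{d ∈ D | x ≤ q d ∧ q d < p a}) :
    #{a ∈ A | bad a} ≤ #D := by
  by_cases hne : A.Nonempty
  · obtain ⟨a, haA, hmax⟩ := exists_max_image A p hne
    have h := record_aux A p D q bad hbad _ (p a) le_rfl
    calc #{a ∈ A | bad a} = #{y ∈ A | bad y ∧ p y ≤ p a} := by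
          congr 1
          ext y
          simp only [mem_filter]
          constructor
          · rintro ⟨h1, h2⟩
            exact ⟨h1, h2, hmax y h1⟩
          · rintro ⟨h1, h2, _⟩
            exact ⟨h1, h2⟩
      _ ≤ _ := h
      _ ≤ #D := card_filter_le _ _
  · rw [not_nonempty_iff_eq_empty] at hne
    subst hne
    simp

theorem record' {α β : Type*} (A : Finset α) (p : α → ℝ) (D : Finset β) (q : β → ℝ)
    (bad : α → Prop) [DecidablePred bad]
    (hbad : ∀ a ∈ A, bad a → ∃ x, x < p a ∧
      #{y ∈ A | x < p y ∧ p y ≤ p a} ≤ #{d ∈ D | x ≤ q d ∧ q d < p a}) :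
    #{a ∈ A | bad a} ≤ #D := by
  convert record A p D q bad hbad

end Pool.Agent.H41.CF
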