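import Pool.Agent.H41.CFFam

set_option autoImplicit false

namespace Pool.Agent.H41.CF

open Finset Classical

/-- element of given rank -/
lemma exists_rank {α : Type*} (g : α → ℝ) (S : Finset α) :
    (∀ x ∈ S, ∀ y ∈ S, g x = g y → x = y) →
    ∀ h < #S, ∃ x ∈ S, #{y ∈ S | g y < g x} = h := by
  induction S using Finset.induction_on_max_value g with
  | empty => intro _ h hh; simp at hh
  | insert a s ha hmax ih =>
    intro hg h hh
    rw [card_insert_of_notMem ha] at hh
    rcases Nat.lt_succ_iff_lt_or_eq.mp hh with h1 | h1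
    · obtain ⟨x, hx, hc⟩ := ih (fun x hx y hy => hg x (mem_insert_of_mem hx) y
        (mem_insert_of_mem hy)) h h1
      refine ⟨x, mem_insert_of_mem hx, ?_⟩
      rw [filter_insert, if_neg (not_lt.mpr (hmax x hx))]
      exact hc
    · refine ⟨a, mem_insert_self _ _, ?_⟩
      rw [filter_insert, if_neg (lt_irrefl _), h1]
      congr 1
      rw [filter_eq_self]
      intro x hx
      refine lt_of_le_of_ne (hmax x hx) ?_
      intro h2
      have := hg x (mem_insert_of_mem hx) a (mem_insert_self _ _) h2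
      rw [this] at hx
      exact ha hx

lemma tourn_aux {α : Type*} (Z : Finset α) (R : α → α → Prop) (hirr : ∀ x ∈ Z, ¬ R x x)
    (hR : ∀ x ∈ Z, ∀ y ∈ Z, x ≠ y → (R x y ↔ ¬ R y x)) (d : ℕ)
    (hout : ∀ x ∈ Z, #{y ∈ Z | R x y} < d) : #Z ≤ 2 * d - 1 := by
  rcases Z.eq_empty_or_nonempty with rfl | hne
  · simp
  have h1 : ∀ x ∈ Z, #{y ∈ Z | R x y} + #{y ∈ Z | R y x} + 1 = #Z := by
    intro x hx
    have h : Z.erase x = Z.filter (fun y => R x y) ∪ Z.filter (fun y => R y x) := by
      ext y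
      simp only [mem_erase, mem_union, mem_filter]
      constructor
      · rintro ⟨h1, h2⟩
        by_cases h3 : R x y
        · exact Or.inl ⟨h2, h3⟩
        · refine Or.inr ⟨h2, ?_⟩
          rw [hR y h2 x hx h1]
          exact h3
      · rintro (⟨h1, h2⟩ | ⟨h1, h2⟩)
        · refine ⟨?_, h1⟩
          rintro rfl
          exact hirr _ hx h2
        · refine ⟨?_, h1⟩
          rintro rfl
          exact hirr _ hx h2
    have hd : Disjoint (Z.filter (fun y => R x y)) (Z.filter (fun y => R y x)) := by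
      rw [disjoint_left]
      intro y hy hy'
      rw [mem_filter] at hy hy'
      have hne : x ≠ y := by
        rintro rfl
        exact hirr _ hx hy.2
      exact (hR x hx y hy.1 hne).mp hy.2 hy'.2
    rw [← card_union_of_disjoint hd, ← h, card_erase_of_mem hx]
    have : 0 < #Z := card_pos.mpr ⟨x, hx⟩
    omega
  have h2 : ∑ x ∈ Z, #{y ∈ Z | R x y} = ∑ x ∈ Z, #{y ∈ Z | R y x} := by
    simp only [card_filter]
    exact sum_comm
  have h3 : ∑ x ∈ Z, (#{y ∈ Z | R x y} + #{y ∈ Z | R y x} + 1) = #Z * #Z := by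
    rw [sum_congr rfl h1, sum_const, smul_eq_mul]
  have h4 : ∑ x ∈ Z, (#{y ∈ Z | R x y} + 1) ≤ #Z * d := by
    have := sum_le_card_nsmul Z (fun x => #{y ∈ Z | R x y} + 1) d (fun x hx => hout x hx)
    rwa [smul_eq_mul] at this
  rw [sum_add_distrib, sum_add_distrib, ← h2, sum_const, smul_eq_mul, mul_one] at h3
  rw [sum_add_distrib, sum_const, smul_eq_mul, mul_one] at h4
  have hpos : 0 < #Z := hne.card_pos
  have h5 : #Z * (#Z + 1) ≤ #Z * (2 * d) := by nlinarith
  have h6 := Nat.le_of_mul_le_mul_left h5 hpos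
  omega

/-- tournament lemma -/
lemma tourn {α : Type*} (S : Finset α) (R : α → α → Prop) (hirr : ∀ x ∈ S, ¬ R x x)
    (hR : ∀ x ∈ S, ∀ y ∈ S, x ≠ y → (R x y ↔ ¬ R y x)) (hne : S.Nonempty) (d : ℕ)
    (hd : 4 * d ≤ #S + 1) :
    ∃ x ∈ S, d ≤ #{y ∈ S | R x y} ∧ d ≤ #{y ∈ S | R y x} := by
  by_contra hcon
  push Not at hcon
  have hd0 : d ≠ 0 := by
    rintro rfl
    obtain ⟨x, hx⟩ := hne
    have := hcon x hx (Nat.zero_le _)
    exact Nat.not_lt_zero _ this
  have hc : S ⊆ S.filter (fun x => #{y ∈ S | R x y} < d) ∪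
      S.filter (fun x => #{y ∈ S | R y x} < d) := by
    intro x hx
    rw [mem_union, mem_filter, mem_filter]
    by_cases h : #{y ∈ S | R x y} < d
    · exact Or.inl ⟨hx, h⟩
    · exact Or.inr ⟨hx, hcon x hx (not_lt.mp h)⟩
  have h1 : #(S.filter (fun x => #{y ∈ S | R x y} < d)) ≤ 2 * d - 1 := by
    apply tourn_aux _ R
    · intro x hx
      rw [mem_filter] at hx
      exact hirr x hx.1
    · intro x hx y hy
      rw [mem_filter] at hx hy
      exact hR x hx.1 y hy.1
    · intro x hx
      rw [mem_filter] at hx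
      refine lt_of_le_of_lt (card_le_card ?_) hx.2
      intro y hy
      rw [mem_filter, mem_filter] at hy
      rw [mem_filter]
      exact ⟨hy.1.1, hy.2⟩
  have h2 : #(S.filter (fun x => #{y ∈ S | R y x} < d)) ≤ 2 * d - 1 := by
    apply tourn_aux _ (fun x y => R y x)
    · intro x hx
      rw [mem_filter] at hx
      exact hirr x hx.1
    · intro x hx y hy h
      rw [mem_filter] at hx hy
      exact hR y hy.1 x hx.1 (Ne.symm h)
    · intro x hx
      rw [mem_filter] at hx
      refine lt_of_le_of_lt (card_le_card ?_) hx.2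
      intro y hy
      rw [mem_filter, mem_filter] at hy
      rw [mem_filter]
      exact ⟨hy.1.1, hy.2⟩
  have h3 := (card_le_card hc).trans (card_union_le _ _)
  omega

/-- a family of affine functionals -/
def La (μ c : ℝ) (z : ℝ × ℝ) : ℝ := z.1 - μ * z.2 - c

/-- approximate ham-sandwich line for two vertically separated sets -/
theorem halving {L H : Finset (ℝ × ℝ)} {y0 : ℝ} (hL : ∀ p ∈ L, p.2 < y0)
    (hH : ∀ q ∈ H, y0 ≤ q.2) {P : Finset (ℝ × ℝ)} (hLP : L ⊆ P) (hHP : H ⊆ P) (hgp : GP P)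
    (hne : L.Nonempty) (d h : ℕ) (hd : 4 * d ≤ #L + 1) (hh : h < #H) :
    ∃ μ c : ℝ, ∃ p ∈ L, ∃ q ∈ H, (∀ z ∈ P, z ≠ p → z ≠ q → La μ c z ≠ 0) ∧
      d ≤ #{z ∈ L | La μ c z < 0} ∧ d ≤ #{z ∈ L | 0 < La μ c z} ∧
      #{z ∈ H | La μ c z < 0} = h ∧ #{z ∈ H | 0 < La μ c z} + h + 1 = #H := by
  -- g_p
  have hlt : ∀ p ∈ L, ∀ q ∈ H, 0 < q.2 - p.2 := fun p hp q hq => by
    linarith [hL p hp, hH q hq]
  have hpq : ∀ p ∈ L, ∀ q ∈ H, p ≠ q := fun p hp q hq h => by
    have := hlt p hp q hq
    rw [h, sub_self] at this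
    exact lt_irrefl _ this
  let g : ℝ × ℝ → ℝ × ℝ → ℝ := fun p q => (q.1 - p.1) / (q.2 - p.2)
  have hginj : ∀ p ∈ L, ∀ q ∈ H, ∀ q' ∈ H, g p q = g p q' → q = q' := by
    intro p hp q hq q' hq' h
    by_contra hne
    have h1 := hlt p hp q hq
    have h2 := hlt p hp q' hq'
    have h3 : (q.1 - p.1) * (q'.2 - p.2) = (q'.1 - p.1) * (q.2 - p.2) :=
      (div_eq_div_iff h1.ne' h2.ne').mp h
    apply hgp p (hLP hp) q (hHP hq) q' (hHP hq') (hpq p hp q hq) (hpq p hp q' hq') hne
    unfold det3
    linarith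
  have hrank : ∀ p ∈ L, ∃ q ∈ H, #{z ∈ H | g p z < g p q} = h :=
    fun p hp => exists_rank (g p) H (fun x hx y hy => hginj p hp x hx y hy) h hh
  choose! Q hQH hQr using hrank
  -- the functional attached to p
  let Λ : ℝ × ℝ → ℝ × ℝ → ℝ := fun p z => La (g p (Q p)) (p.1 - g p (Q p) * p.2) z
  have hΛ : ∀ p z, Λ p z = (z.1 - p.1) - g p (Q p) * (z.2 - p.2) := by
    intro p z
    simp only [Λ, La]
    ring
  have hΛp : ∀ p, Λ p p = 0 := fun p => by rw [hΛ]; ring
  have hΛdet : ∀ p ∈ L, ∀ z, Λ p z * ((Q p).2 - p.2) = - det3 p (Q p) z := by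
    intro p hp z
    rw [hΛ]
    have h1 := hlt p hp (Q p) (hQH p hp)
    have h2 : g p (Q p) * ((Q p).2 - p.2) = (Q p).1 - p.1 := div_mul_cancel₀ _ h1.ne'
    unfold det3
    linear_combination (-(z.2 - p.2)) * h2
  have hΛne : ∀ p ∈ L, ∀ z ∈ P, z ≠ p → z ≠ Q p → Λ p z ≠ 0 := by
    intro p hp z hz h1 h2 h3
    have h4 := hΛdet p hp z
    rw [h3, zero_mul] at h4
    apply hgp p (hLP hp) (Q p) (hHP (hQH p hp)) z hz (hpq p hp _ (hQH p hp)) (Ne.symm h1)
      (Ne.symm h2)
    linarith
  have hΛg : ∀ p ∈ L, ∀ z ∈ H, (Λ p z < 0 ↔ g p z < g p (Q p)) := by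
    intro p hp z hz
    have h1 := hlt p hp z hz
    rw [hΛ]
    have : g p z < g p (Q p) ↔ z.1 - p.1 < g p (Q p) * (z.2 - p.2) := by
      show (z.1 - p.1) / (z.2 - p.2) < _ ↔ _
      rw [div_lt_iff₀ h1]
    rw [this]
    constructor
    · intro h; linarith
    · intro h; linarith
  have hneg : ∀ p ∈ L, #{z ∈ H | Λ p z < 0} = h := by
    intro p hp
    rw [← hQr p hp]
    congr 1
    apply filter_congr
    intro z hz
    exact hΛg p hp z hz
  have hQ0 : ∀ p ∈ L, Λ p (Q p) = 0 := by
    intro p hp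
    have h1 := hΛdet p hp (Q p)
    have h2 := hlt p hp (Q p) (hQH p hp)
    have h3 : det3 p (Q p) (Q p) = 0 := by unfold det3; ring
    rw [h3, neg_zero] at h1
    rcases mul_eq_zero.mp h1 with h | h
    · exact h
    · exact absurd h h2.ne'
  have hnonpos : ∀ p ∈ L, h + 1 ≤ #{z ∈ H | Λ p z ≤ 0} := by
    intro p hp
    rw [← hneg p hp]
    have : insert (Q p) (H.filter (fun z => Λ p z < 0)) ⊆ H.filter (fun z => Λ p z ≤ 0) := by
      intro z hz
      rw [mem_insert, mem_filter] at hz
      rw [mem_filter]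
      rcases hz with rfl | ⟨h1, h2⟩
      · exact ⟨hQH p hp, (hQ0 p hp).le⟩
      · exact ⟨h1, h2.le⟩
    have h2 := card_le_card this
    rw [card_insert_of_notMem] at h2
    · exact h2
    · rw [mem_filter]
      push Not
      intro _
      exact (hQ0 p hp).ge
  -- the difference of two functionals
  have hdiff : ∀ p ∈ L, ∀ p' ∈ L, Λ p p' < 0 → Λ p' p < 0 → False := by
    have key : ∀ p ∈ L, ∀ p' ∈ L, p.2 ≤ p'.2 → Λ p p' < 0 → Λ p' p < 0 → False := by
      intro p hp p' hp' hle h1 h2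
      have hsub : H.filter (fun z => Λ p' z ≤ 0) ⊆ H.filter (fun z => Λ p z < 0) := by
        intro z hz
        rw [mem_filter] at hz ⊢
        refine ⟨hz.1, ?_⟩
        have h3 := hL p' hp'
        have h4 := hH z hz.1
        have h5 := hz.2
        rw [hΛ] at h1 h2 h5 ⊢
        -- δ(y) = Λ p - Λ p'
        have hlt' : p.2 < p'.2 := by
          rcases lt_or_eq_of_le hle with h | h
          · exact h
          · rw [h] at h1 h2
            linarith
        have h6 : 0 < p'.2 - p.2 := by linarith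
        -- δ(p) > 0, δ(p') < 0, so (slope) < 0
        have h7 : (g p' (Q p') - g p (Q p)) * (p'.2 - p.2) < 0 := by linarith
        have h8 : g p' (Q p') - g p (Q p) < 0 := by
          by_contra hc
          push Not at hc
          have := mul_nonneg hc h6.le
          linarith
        have h9 : (g p' (Q p') - g p (Q p)) * (z.2 - p'.2) < 0 :=
          mul_neg_of_neg_of_pos h8 (by linarith)
        linarith
      have h3 := card_le_card hsub
      rw [hneg p hp] at h3
      have := hnonpos p' hp'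
      omega
    intro p hp p' hp' h1 h2
    rcases le_total p.2 p'.2 with h | h
    · exact key p hp p' hp' h h1 h2
    · exact key p' hp' p hp h h2 h1
  have hdiff2 : ∀ p ∈ L, ∀ p' ∈ L, 0 < Λ p p' → 0 < Λ p' p → False := by
    have key : ∀ p ∈ L, ∀ p' ∈ L, p.2 ≤ p'.2 → 0 < Λ p p' → 0 < Λ p' p → False := by
      intro p hp p' hp' hle h1 h2
      have hsub : H.filter (fun z => Λ p z ≤ 0) ⊆ H.filter (fun z => Λ p' z < 0) := by
        intro z hz
        rw [mem_filter] at hz ⊢
        refine ⟨hz.1, ?_⟩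
        have h3 := hL p' hp'
        have h4 := hH z hz.1
        have h5 := hz.2
        rw [hΛ] at h1 h2 h5 ⊢
        have hlt' : p.2 < p'.2 := by
          rcases lt_or_eq_of_le hle with h | h
          · exact h
          · rw [h] at h1 h2
            linarith
        have h6 : 0 < p'.2 - p.2 := by linarith
        have h7 : 0 < (g p' (Q p') - g p (Q p)) * (p'.2 - p.2) := by linarith
        have h8 : 0 < g p' (Q p') - g p (Q p) := by
          by_contra hc
          push Not at hc
          have := mul_nonpos_of_nonpos_of_nonneg hc h6.le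
          linarith
        have h9 : 0 < (g p' (Q p') - g p (Q p)) * (z.2 - p'.2) :=
          mul_pos h8 (by linarith)
        linarith
      have h3 := card_le_card hsub
      rw [hneg p' hp'] at h3
      have := hnonpos p hp
      omega
    intro p hp p' hp' h1 h2
    rcases le_total p.2 p'.2 with h | h
    · exact key p hp p' hp' h h1 h2
    · exact key p' hp' p hp h h2 h1
  have hLL : ∀ p ∈ L, ∀ p' ∈ L, p ≠ p' → Λ p p' ≠ 0 := by
    intro p hp p' hp' hpp
    apply hΛne p hp p' (hLP hp') (Ne.symm hpp)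
    exact hpq p' hp' (Q p) (hQH p hp)
  obtain ⟨p, hp, hp1, hp2⟩ := tourn L (fun p p' => Λ p p' < 0)
    (fun p _ => by rw [hΛp]; exact lt_irrefl _)
    (fun p hp p' hp' hpp => by
      constructor
      · intro h1 h2
        exact hdiff p hp p' hp' h1 h2
      · intro h1
        by_contra h2
        rw [not_lt] at h1 h2
        exact hdiff2 p hp p' hp' (lt_of_le_of_ne h2 (Ne.symm (hLL p hp p' hp' hpp)))
          (lt_of_le_of_ne h1 (Ne.symm (hLL p' hp' p hp (Ne.symm hpp))))) hne d hd
  refine ⟨g p (Q p), p.1 - g p (Q p) * p.2, p, hp, Q p, hQH p hp, hΛne p hp, hp1, ?_,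
    hneg p hp, ?_⟩
  · refine hp2.trans (card_le_card ?_)
    intro z hz
    rw [mem_filter] at hz ⊢
    refine ⟨hz.1, ?_⟩
    have hzp : p ≠ z := by
      rintro rfl
      have := hz.2
      rw [hΛp] at this
      exact lt_irrefl _ this
    have h1 : ¬ Λ p z < 0 := fun h => hdiff p hp z hz.1 h hz.2
    exact lt_of_le_of_ne (not_lt.mp h1) (Ne.symm (hLL p hp z hz.1 hzp))
  · have h1 : H = insert (Q p) (H.filter (fun z => Λ p z < 0) ∪ H.filter (fun z => 0 < Λ p z)) := by
      ext z
      simp only [mem_insert, mem_union, mem_filter]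
      constructor
      · intro hz
        by_cases hzq : z = Q p
        · exact Or.inl hzq
        · right
          have h2 := hΛne p hp z (hHP hz) (Ne.symm (hpq p hp z hz)) hzq
          rcases lt_or_gt_of_ne h2 with h | h
          · exact Or.inl ⟨hz, h⟩
          · exact Or.inr ⟨hz, h⟩
      · rintro (rfl | h | h)
        · exact hQH p hp
        · exact h.1
        · exact h.1
    have h2 : #H = _ := congrArg card h1
    rw [card_insert_of_notMem, card_union_of_disjoint, hneg p hp] at h2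
    · show #{z ∈ H | 0 < Λ p z} + h + 1 = #H
      omega
    · rw [disjoint_left]
      intro z hz hz'
      rw [mem_filter] at hz hz'
      linarith [hz.2, hz'.2]
    · rw [mem_union, mem_filter, mem_filter, hQ0 p hp]
      simp

end Pool.Agent.H41.CF
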