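import Pool.Agent.H41.CFSel

set_option autoImplicit false

namespace Pool.Agent.H41.CF

open Finset Classical

/-- a separated set contains a convex combination of two of its points on the line -/
lemma sep_point {Q : Finset (ℝ × ℝ)} {b b' : ℝ × ℝ} (h : SepD Q b b') :
    ∃ u : ℝ × ℝ, det3 b b' u = 0 ∧ ∀ r s t : ℝ, (∀ q ∈ Q, 0 < r * q.1 + s * q.2 + t) →
      0 < r * u.1 + s * u.2 + t := by
  obtain ⟨α, hα, α', hα', h1, h2⟩ := h
  set D := det3 b b' α with hD
  set D' := det3 b b' α' with hD'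
  have h3 : 0 < D' - D := by linarith
  refine ⟨((D' * α.1 - D * α'.1) / (D' - D), (D' * α.2 - D * α'.2) / (D' - D)), ?_, ?_⟩
  · have e : det3 b b' ((D' * α.1 - D * α'.1) / (D' - D), (D' * α.2 - D * α'.2) / (D' - D)) *
        (D' - D) = D' * det3 b b' α - D * det3 b b' α' := by
      unfold det3
      field_simp
      ring
    rw [← hD, ← hD'] at e
    have e2 : D' * D - D * D' = 0 := by ring
    rw [e2] at e
    rcases mul_eq_zero.mp e with h | h
    · exact h
    · exact absurd h h3.ne'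
  · intro r s t hpos
    have e1 := hpos α hα
    have e2 := hpos α' hα'
    have e3 : r * ((D' * α.1 - D * α'.1) / (D' - D)) + s * ((D' * α.2 - D * α'.2) / (D' - D)) + t =
        (D' * (r * α.1 + s * α.2 + t) + (-D) * (r * α'.1 + s * α'.2 + t)) / (D' - D) := by
      field_simp
      ring
    show 0 < r * ((D' * α.1 - D * α'.1) / (D' - D)) + s * ((D' * α.2 - D * α'.2) / (D' - D)) + t
    rw [e3]
    apply div_pos _ h3
    have := mul_pos h2 e1
    have := mul_pos (neg_pos.mpr h1) e2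
    linarith

/-- `A` below `B` below `C`, and `B` on the other side of a line than `A ∪ C` -/
lemma not_both {A B C : Finset (ℝ × ℝ)} (hAB : ∀ a ∈ A, ∀ b ∈ B, a.2 < b.2)
    (hBC : ∀ b ∈ B, ∀ c ∈ C, b.2 < c.2) {u v w : ℝ} (hB : ∀ b ∈ B, u * b.1 + v * b.2 + w < 0)
    (hA : ∀ a ∈ A, 0 < u * a.1 + v * a.2 + w) (hC : ∀ c ∈ C, 0 < u * c.1 + v * c.2 + w)
    {b b' : ℝ × ℝ} (hb : b ∈ B) (hbb : b.2 ≠ b'.2) : ¬ (SepD A b b' ∧ SepD C b b') := by
  rintro ⟨h1, h2⟩
  obtain ⟨x, hx0, hx⟩ := sep_point h1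
  obtain ⟨y, hy0, hy⟩ := sep_point h2
  have x1 := hx u v w hA
  have x2 := hx 0 (-1) b.2 (fun q hq => by linarith [hAB q hq b hb])
  have y1 := hy u v w hC
  have y2 := hy 0 1 (-b.2) (fun q hq => by linarith [hBC b hb q hq])
  have b1 := hB b hb
  have d0 : b'.2 - b.2 ≠ 0 := fun h => hbb (by linarith)
  -- parametrise by the second coordinate
  set κ := (b'.1 - b.1) / (b'.2 - b.2) with hκ
  have hκ' : κ * (b'.2 - b.2) = b'.1 - b.1 := div_mul_cancel₀ _ d0
  have par : ∀ z : ℝ × ℝ, det3 b b' z = 0 → z.1 = b.1 + κ * (z.2 - b.2) := by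
    intro z hz
    unfold det3 at hz
    rw [← hκ'] at hz
    have : (b'.2 - b.2) * (κ * (z.2 - b.2) - (z.1 - b.1)) = 0 := by linarith
    rcases mul_eq_zero.mp this with h | h
    · exact absurd h d0
    · linarith
  have px := par x hx0
  have py := par y hy0
  have ex : (u * κ + v) * (x.2 - b.2) = u * x.1 + v * x.2 - (u * b.1 + v * b.2) := by
    rw [px]; ring
  have ey : (u * κ + v) * (y.2 - b.2) = u * y.1 + v * y.2 - (u * b.1 + v * b.2) := by
    rw [py]; ring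
  have f1 : 0 < (u * κ + v) * (x.2 - b.2) := by linarith
  have f2 : 0 < (u * κ + v) * (y.2 - b.2) := by linarith
  have g1 : x.2 - b.2 < 0 := by linarith
  have g2 : 0 < y.2 - b.2 := by linarith
  rcases le_or_gt (u * κ + v) 0 with h | h
  · have := mul_nonpos_of_nonpos_of_nonneg h g2.le
    linarith
  · have := mul_neg_of_pos_of_neg h g1
    linarith

/-- no line separates all four quadrants -/
lemma not_four {Q1 Q2 Q3 Q4 : Finset (ℝ × ℝ)} {y0 μ c : ℝ}
    (h1 : ∀ z ∈ Q1, z.2 < y0 ∧ La μ c z < 0) (h2 : ∀ z ∈ Q2, z.2 < y0 ∧ 0 < La μ c z)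
    (h3 : ∀ z ∈ Q3, y0 ≤ z.2 ∧ La μ c z < 0) (h4 : ∀ z ∈ Q4, y0 ≤ z.2 ∧ 0 < La μ c z)
    {b b' : ℝ × ℝ} (hbb : b.2 ≠ b'.2) :
    ¬ (SepD Q1 b b' ∧ SepD Q2 b b' ∧ SepD Q3 b b' ∧ SepD Q4 b b') := by
  rintro ⟨s1, s2, s3, s4⟩
  obtain ⟨z1, d1, p1⟩ := sep_point s1
  obtain ⟨z2, d2, p2⟩ := sep_point s2
  obtain ⟨z3, d3, p3⟩ := sep_point s3
  obtain ⟨z4, d4, p4⟩ := sep_point s4
  unfold La at h1 h2 h3 h4
  have a1 := p1 (-1) μ c (fun q hq => by linarith [(h1 q hq).2])
  have b1 := p1 0 (-1) y0 (fun q hq => by linarith [(h1 q hq).1])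
  have a2 := p2 1 (-μ) (-c) (fun q hq => by linarith [(h2 q hq).2])
  have b2 := p2 0 (-1) y0 (fun q hq => by linarith [(h2 q hq).1])
  have a3 := p3 (-1) μ c (fun q hq => by linarith [(h3 q hq).2])
  have a4 := p4 1 (-μ) (-c) (fun q hq => by linarith [(h4 q hq).2])
  have b3 : y0 ≤ z3.2 := by
    by_contra hc
    push Not at hc
    have := p3 0 1 (-y0 + (y0 - z3.2)) (fun q hq => by linarith [(h3 q hq).1])
    linarith
  have b4 : y0 ≤ z4.2 := by
    by_contra hc
    push Not at hc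
    have := p4 0 1 (-y0 + (y0 - z4.2)) (fun q hq => by linarith [(h4 q hq).1])
    linarith
  -- det3 b b' z = α La z + β (z.2 - y0) + γ
  set α := -(b'.2 - b.2) with hα
  have hα0 : α ≠ 0 := fun h => hbb (by rw [hα] at h; linarith)
  set β := (b'.1 - b.1) + α * μ with hβ
  set γ := det3 b b' (μ * y0 + c, y0) with hγ
  have key : ∀ z : ℝ × ℝ, det3 b b' z = α * (z.1 - μ * z.2 - c) + β * (z.2 - y0) + γ := by
    intro z
    rw [hγ, hβ, hα]
    unfold det3
    ring
  rw [key] at d1 d2 d3 d4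
  rcases lt_or_gt_of_ne hα0 with hα1 | hα1
  · rcases le_or_gt β 0 with hβ1 | hβ1
    · -- α<0, β ≤ 0: use 1 and 4
      have e1 : 0 < α * (z1.1 - μ * z1.2 - c) := mul_pos_of_neg_of_neg hα1 (by linarith)
      have e2 : 0 ≤ β * (z1.2 - y0) := mul_nonneg_of_nonpos_of_nonpos hβ1 (by linarith)
      have e3 : α * (z4.1 - μ * z4.2 - c) < 0 := mul_neg_of_neg_of_pos hα1 (by linarith)
      have e4 : β * (z4.2 - y0) ≤ 0 := mul_nonpos_of_nonpos_of_nonneg hβ1 (by linarith)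
      linarith
    · -- α<0, β > 0: use 2 and 3
      have e1 : α * (z2.1 - μ * z2.2 - c) < 0 := mul_neg_of_neg_of_pos hα1 (by linarith)
      have e2 : β * (z2.2 - y0) ≤ 0 := mul_nonpos_of_nonneg_of_nonpos hβ1.le (by linarith)
      have e3 : 0 < α * (z3.1 - μ * z3.2 - c) := mul_pos_of_neg_of_neg hα1 (by linarith)
      have e4 : 0 ≤ β * (z3.2 - y0) := mul_nonneg hβ1.le (by linarith)
      linarith
  · rcases le_or_gt β 0 with hβ1 | hβ1
    · -- α>0, β ≤ 0: 2 and 3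
      have e1 : 0 < α * (z2.1 - μ * z2.2 - c) := mul_pos hα1 (by linarith)
      have e2 : 0 ≤ β * (z2.2 - y0) := mul_nonneg_of_nonpos_of_nonpos hβ1 (by linarith)
      have e3 : α * (z3.1 - μ * z3.2 - c) < 0 := mul_neg_of_pos_of_neg hα1 (by linarith)
      have e4 : β * (z3.2 - y0) ≤ 0 := mul_nonpos_of_nonpos_of_nonneg hβ1 (by linarith)
      linarith
    · have e1 : α * (z1.1 - μ * z1.2 - c) < 0 := mul_neg_of_pos_of_neg hα1 (by linarith)
      have e2 : β * (z1.2 - y0) ≤ 0 := mul_nonpos_of_nonneg_of_nonpos hβ1.le (by linarith)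
      have e3 : 0 < α * (z4.1 - μ * z4.2 - c) := mul_pos hα1 (by linarith)
      have e4 : 0 ≤ β * (z4.2 - y0) := mul_nonneg hβ1.le (by linarith)
      linarith

/-- number of ordered pairs of `B` whose line separates `S` -/
noncomputable def X (B S : Finset (ℝ × ℝ)) : ℕ := #{q ∈ B ×ˢ B | SepD S q.1 q.2}

lemma SepD.mono {S T : Finset (ℝ × ℝ)} (hST : S ⊆ T) {b b' : ℝ × ℝ} (h : SepD S b b') :
    SepD T b b' := by
  obtain ⟨α, hα, α', hα', h1⟩ := h
  exact ⟨α, hST hα, α', hST hα', h1⟩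

lemma SepD.ne {S : Finset (ℝ × ℝ)} {b : ℝ × ℝ} : ¬ SepD S b b := by
  rintro ⟨α, hα, α', hα', h1, h2⟩
  unfold det3 at h1
  rw [sub_self, sub_self] at h1
  linarith

lemma X_mono {B B' S S' : Finset (ℝ × ℝ)} (hB : B ⊆ B') (hS : S ⊆ S') : X B S ≤ X B' S' := by
  apply card_le_card
  intro q hq
  rw [mem_filter, mem_product] at hq ⊢
  exact ⟨⟨hB hq.1.1, hB hq.1.2⟩, hq.2.mono hS⟩

lemma quad_step {B S : Finset (ℝ × ℝ)} (hBy : ∀ b ∈ B, ∀ b' ∈ B, b ≠ b' → b.2 ≠ b'.2)
    (hS : GP S) (hSy : ∀ x ∈ S, ∀ y ∈ S, x.2 = y.2 → x = y) (hne : S.Nonempty) :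
    ∃ S' ⊆ S, S'.Nonempty ∧ #S ≤ 16 * #S' ∧ 4 * X B S' ≤ 3 * X B S := by
  by_cases hs : #S < 16
  · obtain ⟨x, hx⟩ := hne
    refine ⟨{x}, by simpa using hx, by simp, by simp; omega, ?_⟩
    have : X B {x} = 0 := by
      unfold X
      rw [card_eq_zero, filter_eq_empty_iff]
      rintro q _ ⟨α, hα, α', hα', h1, h2⟩
      rw [mem_singleton] at hα hα'
      subst hα
      subst hα'
      linarith
    rw [this]
    omega
  · push Not at hs
    obtain ⟨x, hx, hrank⟩ := exists_rank (fun z : ℝ × ℝ => z.2) S hSy (#S / 2) (by omega)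
    set y0 := x.2 with hy0
    set L := S.filter (fun z => z.2 < y0) with hL
    set H := S.filter (fun z => y0 ≤ z.2) with hH
    have hLH : #L + #H = #S := by
      rw [hL, hH]
      have := card_filter_add_card_filter_not (s := S) (fun z : ℝ × ℝ => z.2 < y0)
      simp only [not_lt] at this
      exact this
    have hLc : #L = #S / 2 := hrank
    have hLS : L ⊆ S := filter_subset _ _
    have hHS : H ⊆ S := filter_subset _ _
    obtain ⟨μ, c, p, hp, q, hq, -, n1, n2, n3, n4⟩ := halving (L := L) (H := H) (y0 := y0)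
      (fun z hz => (mem_filter.mp hz).2) (fun z hz => (mem_filter.mp hz).2) hLS hHS hS
      (card_pos.mp (by omega)) ((#L + 1) / 4) (#H / 2) (by omega) (by omega)
    set Q1 := L.filter (fun z => La μ c z < 0) with hQ1
    set Q2 := L.filter (fun z => 0 < La μ c z) with hQ2
    set Q3 := H.filter (fun z => La μ c z < 0) with hQ3
    set Q4 := H.filter (fun z => 0 < La μ c z) with hQ4
    have s1 : Q1 ⊆ S := (filter_subset _ _).trans hLS
    have s2 : Q2 ⊆ S := (filter_subset _ _).trans hLS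
    have s3 : Q3 ⊆ S := (filter_subset _ _).trans hHS
    have s4 : Q4 ⊆ S := (filter_subset _ _).trans hHS
    have hnot : ∀ b ∈ B, ∀ b' ∈ B, b ≠ b' →
        ¬ (SepD Q1 b b' ∧ SepD Q2 b b' ∧ SepD Q3 b b' ∧ SepD Q4 b b') := by
      intro b hb b' hb' hbb
      apply not_four (y0 := y0) (μ := μ) (c := c) _ _ _ _ (hBy b hb b' hb' hbb)
      · intro z hz
        rw [hQ1, hL, mem_filter, mem_filter] at hz
        exact ⟨hz.1.2, hz.2⟩
      · intro z hz
        rw [hQ2, hL, mem_filter, mem_filter] at hz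
        exact ⟨hz.1.2, hz.2⟩
      · intro z hz
        rw [hQ3, hH, mem_filter, mem_filter] at hz
        exact ⟨hz.1.2, hz.2⟩
      · intro z hz
        rw [hQ4, hH, mem_filter, mem_filter] at hz
        exact ⟨hz.1.2, hz.2⟩
    have hsum : X B Q1 + X B Q2 + X B Q3 + X B Q4 ≤ 3 * X B S := by
      unfold X
      rw [card_filter, card_filter, card_filter, card_filter, card_filter, ← sum_add_distrib,
        ← sum_add_distrib, ← sum_add_distrib, mul_sum]
      apply sum_le_sum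
      intro q hq
      rw [mem_product] at hq
      by_cases hqq : q.1 = q.2
      · rw [if_neg (by rw [hqq]; exact SepD.ne), if_neg (by rw [hqq]; exact SepD.ne),
          if_neg (by rw [hqq]; exact SepD.ne), if_neg (by rw [hqq]; exact SepD.ne)]
        exact Nat.zero_le _
      · have h := hnot q.1 hq.1 q.2 hq.2 hqq
        by_cases hSS : SepD S q.1 q.2
        · rw [if_pos hSS]
          by_cases g1 : SepD Q1 q.1 q.2
          · by_cases g2 : SepD Q2 q.1 q.2
            · by_cases g3 : SepD Q3 q.1 q.2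
              · rw [if_pos g1, if_pos g2, if_pos g3, if_neg (fun g4 => h ⟨g1, g2, g3, g4⟩)]
                norm_num
              · rw [if_pos g1, if_pos g2, if_neg g3]
                split_ifs <;> omega
            · rw [if_pos g1, if_neg g2]
              split_ifs <;> omega
          · rw [if_neg g1]
            split_ifs <;> omega
        · rw [if_neg hSS, if_neg (fun h => hSS (h.mono s1)), if_neg (fun h => hSS (h.mono s2)),
            if_neg (fun h => hSS (h.mono s3)), if_neg (fun h => hSS (h.mono s4))]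
          norm_num
    have c1 : (#L + 1) / 4 ≤ #Q1 := n1
    have c2 : (#L + 1) / 4 ≤ #Q2 := n2
    have c3 : #Q3 = #H / 2 := n3
    have c4 : #Q4 + #H / 2 + 1 = #H := n4
    by_cases g1 : 4 * X B Q1 ≤ 3 * X B S
    · exact ⟨Q1, s1, card_pos.mp (by omega), by omega, g1⟩
    by_cases g2 : 4 * X B Q2 ≤ 3 * X B S
    · exact ⟨Q2, s2, card_pos.mp (by omega), by omega, g2⟩
    by_cases g3 : 4 * X B Q3 ≤ 3 * X B S
    · exact ⟨Q3, s3, card_pos.mp (by omega), by omega, g3⟩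
    by_cases g4 : 4 * X B Q4 ≤ 3 * X B S
    · exact ⟨Q4, s4, card_pos.mp (by omega), by omega, g4⟩
    omega

lemma quad_iter {B : Finset (ℝ × ℝ)} (hBy : ∀ b ∈ B, ∀ b' ∈ B, b ≠ b' → b.2 ≠ b'.2) (t : ℕ) :
    ∀ {S : Finset (ℝ × ℝ)}, GP S → (∀ x ∈ S, ∀ y ∈ S, x.2 = y.2 → x = y) → S.Nonempty →
    ∃ S' ⊆ S, S'.Nonempty ∧ #S ≤ 16 ^ t * #S' ∧ 4 ^ t * X B S' ≤ 3 ^ t * X B S := by
  induction t with
  | zero =>
    intro S _ _ hne
    exact ⟨S, Subset.refl _, hne, by simp, by simp⟩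
  | succ t ih =>
    intro S hS hSy hne
    obtain ⟨S1, h1, h2, h3, h4⟩ := quad_step hBy hS hSy hne
    obtain ⟨S2, g1, g2, g3, g4⟩ := ih (hS.mono h1)
      (fun x hx y hy => hSy x (h1 hx) y (h1 hy)) h2
    refine ⟨S2, g1.trans h1, g2, ?_, ?_⟩
    · rw [pow_succ]
      calc #S ≤ 16 * #S1 := h3
        _ ≤ 16 * (16 ^ t * #S2) := Nat.mul_le_mul_left _ g3
        _ = _ := by ring
    · rw [pow_succ, pow_succ]
      calc 4 ^ t * 4 * X B S2 = 4 * (4 ^ t * X B S2) := by ring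
        _ ≤ 4 * (3 ^ t * X B S1) := Nat.mul_le_mul_left _ g4
        _ = 3 ^ t * (4 * X B S1) := by ring
        _ ≤ 3 ^ t * (3 * X B S) := Nat.mul_le_mul_left _ h4
        _ = _ := by ring

/-- total weight of ordered pairs -/
def W (w : ℝ × ℝ → ℝ × ℝ → ℕ) (B : Finset (ℝ × ℝ)) : ℕ := ∑ b ∈ B, ∑ b' ∈ B, w b b'

lemma W_erase (w : ℝ × ℝ → ℝ × ℝ → ℕ) (hw : ∀ b, w b b = 0) (B : Finset (ℝ × ℝ)) {x : ℝ × ℝ}
    (hx : x ∈ B) : W w (B.erase x) + (∑ b ∈ B, w b x) + (∑ b ∈ B, w x b) = W w B := by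
  unfold W
  have h1 : ∀ f : ℝ × ℝ → ℕ, ∑ b ∈ B.erase x, f b + f x = ∑ b ∈ B, f b := fun f =>
    sum_erase_add B f hx
  have h2 : ∑ b ∈ B.erase x, ∑ b' ∈ B.erase x, w b b' + ∑ b ∈ B.erase x, w b x =
      ∑ b ∈ B.erase x, ∑ b' ∈ B, w b b' := by
    rw [← sum_add_distrib]
    apply sum_congr rfl
    intro b _
    exact h1 (fun b' => w b b')
  have h3 := h1 (fun b => w b x)
  have h4 := h1 (fun b => ∑ b' ∈ B, w b b')
  simp only [hw, add_zero] at h3
  omega

lemma exists_subset_weight (w : ℝ × ℝ → ℝ × ℝ → ℕ) (hw : ∀ b, w b b = 0)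
    (B : Finset (ℝ × ℝ)) : ∀ j ≤ #B, ∃ B' ⊆ B, #B' = #B - j ∧
      W w B' * #B ^ 2 ≤ W w B * (#B - j) ^ 2 := by
  intro j
  induction j with
  | zero =>
    intro _
    exact ⟨B, Subset.refl _, by simp, by simp⟩
  | succ j ih =>
    intro hj
    obtain ⟨B1, h1, h2, h3⟩ := ih (by omega)
    -- delete an element of B1
    set k := #B - (j + 1) with hk
    have hk1 : #B - j = k + 1 := by omega
    rw [hk1] at h2 h3
    have hne : B1.Nonempty := card_pos.mp (by omega)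
    have hsum : ∑ x ∈ B1, W w (B1.erase x) + 2 * W w B1 = (k + 1) * W w B1 := by
      have e1 : ∑ x ∈ B1, (W w (B1.erase x) + (∑ b ∈ B1, w b x) + (∑ b ∈ B1, w x b)) =
          ∑ x ∈ B1, W w B1 := sum_congr rfl (fun x hx => W_erase w hw B1 hx)
      rw [sum_add_distrib, sum_add_distrib, sum_const, h2, smul_eq_mul] at e1
      have e2 : ∑ x ∈ B1, ∑ b ∈ B1, w b x = W w B1 := by
        unfold W
        exact sum_comm
      have e3 : ∑ x ∈ B1, ∑ b ∈ B1, w x b = W w B1 := rfl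
      rw [e2, e3] at e1
      omega
    obtain ⟨x, hx, hmin⟩ := exists_min_image B1 (fun x => W w (B1.erase x)) hne
    have h4 : (k + 1) * W w (B1.erase x) ≤ ∑ x ∈ B1, W w (B1.erase x) := by
      have := card_nsmul_le_sum B1 (fun x => W w (B1.erase x)) (W w (B1.erase x)) hmin
      rwa [smul_eq_mul, h2] at this
    refine ⟨B1.erase x, (erase_subset _ _).trans h1, ?_, ?_⟩
    · rw [card_erase_of_mem hx, h2]; omega
    · -- (k+1)^2 W(erase) ≤ k^2 W(B1)
      have h5 : (k + 1) * W w (B1.erase x) + 2 * W w B1 ≤ (k + 1) * W w B1 := by omega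
      have h6 : (k + 1) ^ 2 * W w (B1.erase x) ≤ k ^ 2 * W w B1 := by
        have := Nat.mul_le_mul_left (k + 1) h5
        nlinarith
      have h7 : (k + 1) ^ 2 * (W w (B1.erase x) * #B ^ 2) ≤ (k + 1) ^ 2 * (W w B * k ^ 2) := by
        calc (k + 1) ^ 2 * (W w (B1.erase x) * #B ^ 2)
            = ((k + 1) ^ 2 * W w (B1.erase x)) * #B ^ 2 := by ring
          _ ≤ (k ^ 2 * W w B1) * #B ^ 2 := Nat.mul_le_mul_right _ h6
          _ = k ^ 2 * (W w B1 * #B ^ 2) := by ring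
          _ ≤ k ^ 2 * (W w B * (k + 1) ^ 2) := Nat.mul_le_mul_left _ h3
          _ = _ := by ring
      exact Nat.le_of_mul_le_mul_left h7 (by positivity)

end Pool.Agent.H41.CF
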