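import Pool.Agent.H41.ZcSmooth

/-!
# Asymptotics of the iterated smoothings at the origin
-/

open Set Filter Topology MeasureTheory

namespace ZC

lemma hs_congr {E : Type*} [AddCommMonoid E] [TopologicalSpace E] {f g : ℕ → E} {s : E}
    (h : ∀ n, g n = f n) (hf : HasSum f s) : HasSum g s := by
  rwa [show g = f from funext h]

lemma series_ext {c : ℕ → ℂ} {f : ℂ → ℂ} {z0 : ℂ} {r R : ℝ} (hr : 0 < r) (hR : 0 < R)
    (hs : ∀ w : ℂ, ‖w‖ < r → HasSum (fun n => c n * w ^ n) (f (z0 + w)))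
    (hf : DifferentiableOn ℂ f (Metric.ball z0 R)) {w : ℂ} (hw : ‖w‖ < R) :
    HasSum (fun n => c n * w ^ n) (f (z0 + w)) := by
  set t : ℕ → ℂ := fun n => (n.factorial : ℂ)⁻¹ * iteratedDeriv n f z0 with ht
  have hT : ∀ w : ℂ, ‖w‖ < R → HasSum (fun n => t n * w ^ n) (f (z0 + w)) := by
    intro w hw
    have := Complex.hasSum_taylorSeries_on_ball hf (z := z0 + w) (by simpa using hw)
    refine hs_congr (fun n => ?_) this
    simp only [add_sub_cancel_left, smul_eq_mul, ht]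
    ring
  have h1 : HasFPowerSeriesAt f (FormalMultilinearSeries.ofScalars ℂ c) z0 := by
    rw [hasFPowerSeriesAt_iff]
    have : Metric.ball (0 : ℂ) r ∈ 𝓝 (0 : ℂ) := Metric.ball_mem_nhds _ hr
    filter_upwards [this] with w hw
    have := hs w (by simpa using hw)
    refine hs_congr (fun n => ?_) this
    simp [FormalMultilinearSeries.coeff_ofScalars, mul_comm]
  have h2 : HasFPowerSeriesAt f (FormalMultilinearSeries.ofScalars ℂ t) z0 := by
    rw [hasFPowerSeriesAt_iff]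
    have : Metric.ball (0 : ℂ) R ∈ 𝓝 (0 : ℂ) := Metric.ball_mem_nhds _ hR
    filter_upwards [this] with w hw
    have := hT w (by simpa using hw)
    refine hs_congr (fun n => ?_) this
    simp [FormalMultilinearSeries.coeff_ofScalars, mul_comm]
  have h3 := h1.eq_formalMultilinearSeries h2
  have h4 : c = t := by
    ext n
    have := congrArg (fun p : FormalMultilinearSeries ℂ ℂ ℂ => p.coeff n) h3
    simpa [FormalMultilinearSeries.coeff_ofScalars] using this
  rw [h4]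
  exact hT w hw

/-- coefficients of `z^2 * f(z)` around `a` -/
noncomputable def cf (a : ℂ) (j : ℕ → ℂ) : ℕ → ℂ
  | 0 => a ^ 2 * j 0
  | 1 => a ^ 2 * j 1 + 2 * a * j 0
  | n + 2 => a ^ 2 * j (n + 2) + 2 * a * j (n + 1) + j n

lemma cf_hasSum {a w L : ℂ} {j : ℕ → ℂ} (h : HasSum (fun n => j n * w ^ n) L) :
    HasSum (fun n => cf a j n * w ^ n) ((a + w) ^ 2 * L) := by
  rw [← hasSum_nat_add_iff' 2]
  have h1 := (hasSum_nat_add_iff' 1).mpr h
  have h2 := (hasSum_nat_add_iff' 2).mpr h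
  have h3 := ((h2.mul_left (a ^ 2)).add (h1.mul_left (2 * a * w))).add (h.mul_left (w ^ 2))
  have e1 : (a + w) ^ 2 * L - ∑ i ∈ Finset.range 2, cf a j i * w ^ i =
      a ^ 2 * (L - ∑ i ∈ Finset.range 2, j i * w ^ i) +
      2 * a * w * (L - ∑ i ∈ Finset.range 1, j i * w ^ i) + w ^ 2 * L := by
    simp only [Finset.sum_range_succ, Finset.sum_range_zero, cf]
    ring
  rw [e1]
  refine hs_congr (fun n => ?_) h3
  simp only [cf]
  ring

/-- second differences -/
noncomputable def dd (p : ℕ → ℝ) : ℕ → ℝ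
  | 0 => p 0
  | 1 => p 1 - 2 * p 0
  | n + 2 => p (n + 2) - 2 * p (n + 1) + p n

lemma dd_sum (p : ℕ → ℝ) (n : ℕ) : ∑ i ∈ Finset.range (n + 2), dd p i = p (n + 1) - p n := by
  induction n with
  | zero =>
    rw [Finset.sum_range_succ, Finset.sum_range_one]
    simp only [dd, zero_add]; ring
  | succ n ih =>
    rw [Finset.sum_range_succ, ih]
    simp only [dd]; ring

theorem asym {a b C : ℝ} {h : ℝ → ℝ} (ha : 0 < a) (hab : b < a) (hc : Continuous h)
    (hb : ∀ t, |h t| ≤ C * Real.exp (-b * t)) {Ψ : ℂ → ℂ} {R : ℝ} (hR : a < R)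
    (hΨ : DifferentiableOn ℂ Ψ (Metric.ball (a : ℂ) R))
    (hΨ2 : ∀ w : ℂ, ‖w‖ < a - b → Ψ (a + w) = (a + w) ^ 2 * LT h (a + w)) (hΨ0 : Ψ 0 = -2) :
    Tendsto (fun n => a ^ (n + 1) * Jn a (n + 1) h - a ^ n * Jn a n h) atTop
      (𝓝 (-2 / a ^ 2)) := by
  set j : ℕ → ℂ := fun n => (-1) ^ n * Jn a n h with hj
  have h1 : ∀ w : ℂ, ‖w‖ < a - b → HasSum (fun n => cf a j n * w ^ n) (Ψ (a + w)) := by
    intro w hw
    rw [hΨ2 w hw]
    exact cf_hasSum (LT_series hab hc hb hw)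
  have h2 := series_ext (sub_pos.mpr hab) (by linarith : 0 < R) h1 hΨ (w := -(a : ℂ)) (by
    rw [norm_neg, Complex.norm_real, Real.norm_eq_abs, abs_of_pos ha]; exact hR)
  rw [add_neg_cancel, hΨ0] at h2
  set p : ℕ → ℝ := fun n => a ^ n * Jn a n h with hp
  have h3 : ∀ n, cf a j n * (-(a : ℂ)) ^ n = ((a ^ 2 * dd p n : ℝ) : ℂ) := by
    intro n
    have e : ∀ n : ℕ, (-(a : ℂ)) ^ n * (-1) ^ n = (a : ℂ) ^ n := by
      intro n
      rw [← mul_pow]; ring_nf
    rcases n with _ | _ | n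
    · simp [cf, dd, hj, hp]
    · simp only [cf, dd, hj, hp]; push_cast; ring
    · simp only [cf, dd, hj, hp]
      have e1 := e n
      push_cast
      rw [pow_succ, pow_succ (-(a : ℂ)), pow_succ (-1 : ℂ) (n + 1), pow_succ (-1 : ℂ) n,
        pow_succ (a : ℂ) (n + 1), pow_succ (a : ℂ) n]
      linear_combination (a ^ 4 * Jn a (n + 2) h - 2 * a ^ 3 * Jn a (n + 1) h +
        a ^ 2 * Jn a n h : ℂ) * e1
  simp_rw [h3] at h2
  have h4 : HasSum (fun n => a ^ 2 * dd p n) (-2) := by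
    have : ((-2 : ℂ)) = ((-2 : ℝ) : ℂ) := by push_cast; ring
    rw [this] at h2
    exact_mod_cast h2
  have h5 : HasSum (dd p) (-2 / a ^ 2) := by
    have := h4.mul_left (1 / a ^ 2)
    have e1 : 1 / a ^ 2 * -2 = -2 / a ^ 2 := by ring
    rw [e1] at this
    refine hs_congr (fun n => ?_) this
    field_simp
  have h6 := h5.tendsto_sum_nat
  have h7 := h6.comp (tendsto_add_atTop_nat 2)
  refine h7.congr (fun n => ?_)
  simp only [Function.comp_apply]
  rw [dd_sum]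

lemma ces {p : ℕ → ℝ} {l : ℝ} (h : Tendsto (fun n => p (n + 1) - p n) atTop (𝓝 l)) :
    Tendsto (fun n : ℕ => (n : ℝ)⁻¹ * (p n - p 0)) atTop (𝓝 l) := by
  have := h.cesaro
  refine this.congr (fun n => ?_)
  congr 1
  exact Finset.sum_range_sub p n

lemma to_bot {p : ℕ → ℝ} {l : ℝ} (hl : l < 0)
    (h : Tendsto (fun n => p (n + 1) - p n) atTop (𝓝 l)) : Tendsto p atTop atBot := by
  have h1 := ces h
  have h2 : Tendsto (fun n : ℕ => (n : ℝ) * ((n : ℝ)⁻¹ * (p n - p 0))) atTop atBot :=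
    tendsto_natCast_atTop_atTop.atTop_mul_neg hl h1
  have h3 : Tendsto (fun n : ℕ => p 0 + (n : ℝ) * ((n : ℝ)⁻¹ * (p n - p 0))) atTop atBot :=
    tendsto_atBot_add_const_left _ _ h2
  refine h3.congr' ?_
  filter_upwards [eventually_gt_atTop 0] with n hn
  have : (n : ℝ) ≠ 0 := by positivity
  field_simp
  ring

lemma lin_bound {p : ℕ → ℝ} {l : ℝ} (h : Tendsto (fun n => p (n + 1) - p n) atTop (𝓝 l)) :
    ∃ D : ℝ, 0 ≤ D ∧ ∀ n, |p n| ≤ D * (n + 1) := by
  obtain ⟨D, hD⟩ := (ces h).bddAbove_range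
  obtain ⟨D', hD'⟩ := (ces h).bddBelow_range
  refine ⟨|D| + |D'| + |p 0|, by positivity, fun n => ?_⟩
  rcases Nat.eq_zero_or_pos n with h0 | hn
  · subst h0
    simp only [Nat.cast_zero, zero_add, mul_one]
    have := abs_nonneg D
    have := abs_nonneg D'
    linarith
  have hn' : (0 : ℝ) < n := by exact_mod_cast hn
  have h1 : (n : ℝ)⁻¹ * (p n - p 0) ≤ D := hD ⟨n, rfl⟩
  have h2 : D' ≤ (n : ℝ)⁻¹ * (p n - p 0) := hD' ⟨n, rfl⟩
  have h3 : |(n : ℝ)⁻¹ * (p n - p 0)| ≤ |D| + |D'| := by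
    rw [abs_le]
    have a1 := neg_abs_le D'
    have a2 := le_abs_self D
    have a3 := abs_nonneg D
    have a4 := abs_nonneg D'
    constructor <;> linarith
  have h4 : p n = p 0 + n * ((n : ℝ)⁻¹ * (p n - p 0)) := by
    field_simp
    ring
  rw [h4]
  calc |p 0 + n * ((n : ℝ)⁻¹ * (p n - p 0))| ≤ |p 0| + n * |(n : ℝ)⁻¹ * (p n - p 0)| := by
        refine (abs_add_le _ _).trans ?_
        rw [abs_mul, abs_of_pos hn']
    _ ≤ |p 0| + n * (|D| + |D'|) := by gcongr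
    _ ≤ _ := by
        have := abs_nonneg D
        have := abs_nonneg D'
        have := abs_nonneg (p 0)
        nlinarith

end ZC
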