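import Mathlib

/-!
# Sign-change chains, one-sided exponential smoothing and the lobe argument
-/

open Set Filter Topology

namespace ZC

/-- `CL F m x`: there is a chain of `m` sign changes of `F` starting at `x` and going left. -/
def CL (F : ℝ → ℝ) : ℕ → ℝ → Prop
  | 0, x => F x ≠ 0
  | m + 1, x => ∃ y, y < x ∧ F y * F x < 0 ∧ CL F m y

/-- `CR F m x`: there is a chain of `m` sign changes of `F` starting at `x` and going right. -/
def CR (F : ℝ → ℝ) : ℕ → ℝ → Prop
  | 0, x => F x ≠ 0
  | m + 1, x => ∃ y, x < y ∧ F y * F x < 0 ∧ CR F m y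

variable {F U : ℝ → ℝ} {a : ℝ}

lemma CL_ne {m : ℕ} {x : ℝ} (h : CL F m x) : F x ≠ 0 := by
  cases m with
  | zero => exact h
  | succ m =>
    obtain ⟨y, _, h2, _⟩ := h
    intro h0
    rw [h0] at h2; simp at h2

lemma CR_ne {m : ℕ} {x : ℝ} (h : CR F m x) : F x ≠ 0 := by
  cases m with
  | zero => exact h
  | succ m =>
    obtain ⟨y, _, h2, _⟩ := h
    intro h0
    rw [h0] at h2; simp at h2

lemma CL_pred {m : ℕ} : ∀ {x : ℝ}, CL F (m + 1) x → CL F m x := by
  induction m with
  | zero => intro x h; exact CL_ne h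
  | succ m ih =>
    intro x h
    obtain ⟨y, h1, h2, h3⟩ := h
    exact ⟨y, h1, h2, ih h3⟩

lemma CR_pred {m : ℕ} : ∀ {x : ℝ}, CR F (m + 1) x → CR F m x := by
  induction m with
  | zero => intro x h; exact CR_ne h
  | succ m ih =>
    intro x h
    obtain ⟨y, h1, h2, h3⟩ := h
    exact ⟨y, h1, h2, ih h3⟩

lemma CL_le {m n : ℕ} (hmn : n ≤ m) {x : ℝ} (h : CL F m x) : CL F n x := by
  induction m, hmn using Nat.le_induction with
  | base => exact h
  | succ m _ ih => exact ih (CL_pred h)

lemma CR_le {m n : ℕ} (hmn : n ≤ m) {x : ℝ} (h : CR F m x) : CR F n x := by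
  induction m, hmn using Nat.le_induction with
  | base => exact h
  | succ m _ ih => exact ih (CR_pred h)

lemma mul_neg_of_same {p q r : ℝ} (h1 : p * q < 0) (h2 : 0 < q * r) : p * r < 0 := by
  rcases lt_trichotomy q 0 with h | h | h
  · have hp : 0 < p := pos_of_mul_neg_left h1 h.le |> fun h => h
    have hr : r < 0 := by
      by_contra hr; push Not at hr; nlinarith
    nlinarith
  · rw [h] at h1; simp at h1
  · have hp : p < 0 := by
      by_contra hp; push Not at hp; nlinarith
    have hr : 0 < r := by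
      by_contra hr; push Not at hr; nlinarith
    nlinarith

lemma mul_pos_of_opp {p q r : ℝ} (h1 : p * q < 0) (h2 : q * r < 0) : 0 < p * r := by
  rcases lt_trichotomy q 0 with h | h | h
  · have hp : 0 < p := by
      by_contra hp; push Not at hp; nlinarith
    have hr : 0 < r := by
      by_contra hr; push Not at hr; nlinarith
    positivity
  · rw [h] at h1; simp at h1
  · have hp : p < 0 := by
      by_contra hp; push Not at hp; nlinarith
    have hr : r < 0 := by
      by_contra hr; push Not at hr; nlinarith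
    nlinarith

lemma CL_move {m : ℕ} {r x : ℝ} (h : CL F m r) (hrx : r ≤ x) (hs : 0 < F r * F x) :
    CL F m x := by
  cases m with
  | zero =>
    intro h0
    rw [h0] at hs; simp at hs
  | succ m =>
    obtain ⟨y, h1, h2, h3⟩ := h
    exact ⟨y, lt_of_lt_of_le h1 hrx, mul_neg_of_same h2 hs, h3⟩

lemma CR_move {m : ℕ} {r x : ℝ} (h : CR F m r) (hrx : x ≤ r) (hs : 0 < F r * F x) :
    CR F m x := by
  cases m with
  | zero =>
    intro h0
    rw [h0] at hs; simp at hs
  | succ m =>
    obtain ⟨y, h1, h2, h3⟩ := h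
    exact ⟨y, lt_of_le_of_lt hrx h1, mul_neg_of_same h2 hs, h3⟩

lemma CL_CR {b : ℕ} : ∀ {a : ℕ} {x : ℝ}, CL F a x → CR F b x → ∃ z, CL F (a + b) z := by
  induction b with
  | zero => intro a x h _; exact ⟨x, h⟩
  | succ b ih =>
    intro a x h1 h2
    obtain ⟨y, hy1, hy2, hy3⟩ := h2
    have : CL F (a + 1) y := ⟨x, hy1, by rw [mul_comm]; exact hy2, h1⟩
    obtain ⟨z, hz⟩ := ih this hy3
    exact ⟨z, by rw [show a + (b + 1) = a + 1 + b by ring]; exact hz⟩

lemma CR_weak {m : ℕ} {x z : ℝ} (hxz : x < z) (hx : F x ≠ 0) (h : CR F m z) : CR F m x := by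
  rcases lt_or_gt_of_ne (mul_ne_zero (CR_ne h) hx) with h1 | h1
  · exact CR_pred ⟨z, hxz, h1, h⟩
  · exact CR_move h hxz.le h1

lemma split_aux {x : ℝ} (hx : F x ≠ 0) : ∀ (K : ℕ) (z : ℝ), x < z → CL F K z →
    ∃ a b, K ≤ a + b ∧ CL F a x ∧ (∀ m, CR F m z → CR F (m + b) x) := by
  intro K
  induction K with
  | zero =>
    intro z hxz h
    exact ⟨0, 0, le_rfl, hx, fun m hm => CR_weak hxz hx hm⟩
  | succ K ih =>
    intro z hxz h
    obtain ⟨z', h1, h2, h3⟩ := h
    rcases le_or_gt z' x with h4 | h4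
    · rcases lt_or_gt_of_ne (mul_ne_zero (CL_ne h3) hx) with h5 | h5
      · -- opposite signs of z' and x
        have hlt : z' < x := by
          rcases h4.lt_or_eq with h | h
          · exact h
          · rw [h] at h5
            exact absurd h5 (not_lt.mpr (mul_self_nonneg _))
        have hxz' : 0 < F x * F z := by
          apply mul_pos_of_opp (q := F z') _ h2
          rw [mul_comm]; exact h5
        exact ⟨K + 1, 0, le_rfl, ⟨z', hlt, h5, h3⟩, fun m hm =>
          CR_move hm hxz.le (by rw [mul_comm]; exact hxz')⟩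
      · have h6 : CL F K x := CL_move h3 h4 h5
        have h7 : F z * F x < 0 := by
          apply mul_neg_of_same (q := F z')
          · rw [mul_comm]; exact h2
          · exact h5
        exact ⟨K, 1, le_rfl, h6, fun m hm => ⟨z, hxz, h7, hm⟩⟩
    · obtain ⟨a, b, hab, ha, hb⟩ := ih z' h4 h3
      refine ⟨a, b + 1, by omega, ha, fun m hm => ?_⟩
      have : CR F (m + 1) z' := ⟨z, h1, by rw [mul_comm]; exact h2, hm⟩
      have := hb (m + 1) this
      rwa [show m + (b + 1) = m + 1 + b by ring]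

lemma split {K : ℕ} {x z : ℝ} (hx : F x ≠ 0) (h : CL F K z) :
    ∃ a b, K ≤ a + b ∧ CL F a x ∧ CR F b x := by
  rcases le_or_gt z x with h1 | h1
  · rcases lt_or_gt_of_ne (mul_ne_zero (CL_ne h) hx) with h2 | h2
    · have hlt : z < x := by
        rcases h1.lt_or_eq with h | h
        · exact h
        · rw [h] at h2
          exact absurd h2 (not_lt.mpr (mul_self_nonneg _))
      exact ⟨K + 1, 0, by omega, ⟨z, hlt, h2, h⟩, hx⟩
    · exact ⟨K, 0, le_rfl, CL_move h h1 h2, hx⟩
  · obtain ⟨a, b, hab, ha, hb⟩ := split_aux hx K z h1 h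
    have := hb 0 (CL_ne h)
    rw [zero_add] at this
    exact ⟨a, b, hab, ha, this⟩

/-- `U` is the one-sided exponential smoothing of `F`. -/
structure Sm (a : ℝ) (F U : ℝ → ℝ) : Prop where
  der : ∀ t, HasDerivAt U (a * (F t - U t)) t
  lim : Tendsto (fun t => Real.exp (a * t) * U t) atBot (𝓝 0)

lemma Sm.neg (h : Sm a F U) : Sm a (fun t => -F t) (fun t => -U t) := by
  refine ⟨fun t => ?_, ?_⟩
  · have := (h.der t).neg
    change HasDerivAt (fun t => -U t) (a * (-F t - -U t)) t
    rw [show a * (-F t - -U t) = -(a * (F t - U t)) by ring]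
    exact this
  · have := h.lim.neg
    simp only [neg_zero] at this
    refine this.congr (fun t => ?_)
    ring

lemma Sm.der' (h : Sm a F U) (c t : ℝ) :
    HasDerivAt (fun t => Real.exp (a * t) * (U t + c)) (a * Real.exp (a * t) * (F t + c)) t := by
  have h1 : HasDerivAt (fun t => Real.exp (a * t)) (Real.exp (a * t) * (a * 1)) t :=
    ((hasDerivAt_id t).const_mul a).exp
  have h2 : HasDerivAt (fun t => Real.exp (a * t) * (U t + c))
      (Real.exp (a * t) * (a * 1) * (U t + c) + Real.exp (a * t) * (a * (F t - U t))) t :=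
    h1.mul ((h.der t).add_const c)
  rw [show a * Real.exp (a * t) * (F t + c) =
    Real.exp (a * t) * (a * 1) * (U t + c) + Real.exp (a * t) * (a * (F t - U t)) by ring]
  exact h2

/-- lower barrier -/
lemma Sm.barrier (h : Sm a F U) (ha : 0 < a) {C s t : ℝ} (hst : s ≤ t)
    (hF : ∀ r ∈ Ioo s t, -C ≤ F r) (hU : -C ≤ U s) : -C ≤ U t := by
  have hm : MonotoneOn (fun t => Real.exp (a * t) * (U t + C)) (Icc s t) := by
    apply monotoneOn_of_deriv_nonneg (convex_Icc s t)
    · intro r _
      exact (h.der' C r).continuousAt.continuousWithinAt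
    · intro r _
      exact (h.der' C r).differentiableAt.differentiableWithinAt
    · intro r hr
      rw [interior_Icc] at hr
      rw [(h.der' C r).deriv]
      have := hF r hr
      have h2 := Real.exp_pos (a * r)
      have : 0 ≤ F r + C := by linarith
      positivity
  have h1 := hm (left_mem_Icc.mpr hst) (right_mem_Icc.mpr hst) hst
  simp only at h1
  have h2 : 0 ≤ Real.exp (a * s) * (U s + C) := by
    have := Real.exp_pos (a * s)
    have : 0 ≤ U s + C := by linarith
    positivity
  have h3 : 0 ≤ U t + C := by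
    by_contra hneg
    push Not at hneg
    have := Real.exp_pos (a * t)
    nlinarith
  linarith

lemma Sm.pos_between (h : Sm a F U) (ha : 0 < a) {s t : ℝ} (hst : s < t) (hs : U s ≤ 0)
    (ht : 0 < U t) : ∃ r, s < r ∧ r < t ∧ 0 < F r := by
  by_contra hcon
  push Not at hcon
  have := h.neg.barrier ha (C := 0) hst.le (fun r hr => by
    have := hcon r hr.1 hr.2
    linarith) (by linarith)
  linarith

lemma Sm.between (h : Sm a F U) (ha : 0 < a) {s t : ℝ} (hst : s < t) (hs : U s * U t < 0) :
    ∃ r, s < r ∧ r < t ∧ 0 < F r * U t := by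
  rcases lt_trichotomy (U t) 0 with h1 | h1 | h1
  · have h2 : 0 < U s := by
      by_contra hp; push Not at hp; nlinarith
    obtain ⟨r, hr1, hr2, hr3⟩ := h.neg.pos_between ha hst (by linarith) (by linarith)
    exact ⟨r, hr1, hr2, by nlinarith⟩
  · rw [h1] at hs; simp at hs
  · have h2 : U s < 0 := by
      by_contra hp; push Not at hp; nlinarith
    obtain ⟨r, hr1, hr2, hr3⟩ := h.pos_between ha hst h2.le h1
    exact ⟨r, hr1, hr2, by positivity⟩

lemma Sm.pos_left (h : Sm a F U) (ha : 0 < a) {t : ℝ} (ht : 0 < U t) : ∃ r, r < t ∧ 0 < F r := by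
  by_contra hcon
  push Not at hcon
  have key : ∀ s, s ≤ t → Real.exp (a * t) * U t ≤ Real.exp (a * s) * U s := by
    intro s hs
    have hm : AntitoneOn (fun t => Real.exp (a * t) * (U t + 0)) (Icc s t) := by
      apply antitoneOn_of_deriv_nonpos (convex_Icc s t)
      · intro r _
        exact (h.der' 0 r).continuousAt.continuousWithinAt
      · intro r _
        exact (h.der' 0 r).differentiableAt.differentiableWithinAt
      · intro r hr
        rw [interior_Icc] at hr
        rw [(h.der' 0 r).deriv]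
        have h1 := hcon r hr.2
        have h2 := Real.exp_pos (a * r)
        have : 0 < a * Real.exp (a * r) := by positivity
        nlinarith
    have := hm (left_mem_Icc.mpr hs) (right_mem_Icc.mpr hs) hs
    simpa using this
  have h1 : Real.exp (a * t) * U t ≤ 0 := by
    refine ge_of_tendsto h.lim ?_
    filter_upwards [eventually_le_atBot t] with s hs using key s hs
  have := Real.exp_pos (a * t)
  nlinarith

lemma Sm.left (h : Sm a F U) (ha : 0 < a) {t : ℝ} (ht : U t ≠ 0) :
    ∃ r, r < t ∧ 0 < F r * U t := by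
  rcases lt_or_gt_of_ne ht with h1 | h1
  · obtain ⟨r, hr1, hr2⟩ := h.neg.pos_left ha (t := t) (by linarith)
    exact ⟨r, hr1, by nlinarith⟩
  · obtain ⟨r, hr1, hr2⟩ := h.pos_left ha h1
    exact ⟨r, hr1, by positivity⟩

/-- variation diminishing, left version -/
lemma Sm.VDL (h : Sm a F U) (ha : 0 < a) {m : ℕ} : ∀ {x : ℝ}, CL U m x →
    ∃ r, r < x ∧ 0 < F r * U x ∧ CL F m r := by
  induction m with
  | zero =>
    intro x hx
    obtain ⟨r, h1, h2⟩ := h.left ha hx
    exact ⟨r, h1, h2, by intro h0; rw [h0] at h2; simp at h2⟩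
  | succ m ih =>
    intro x hx
    obtain ⟨y, h1, h2, h3⟩ := hx
    obtain ⟨r', h4, h5, h6⟩ := ih h3
    obtain ⟨r, h7, h8, h9⟩ := h.between ha h1 h2
    refine ⟨r, h8, h9, r', by linarith, ?_, h6⟩
    have h10 : F r' * U x < 0 := by
      have : U x * F r' < 0 := by
        apply mul_neg_of_same (q := U y)
        · rw [mul_comm]; exact h2
        · rw [mul_comm]; exact h5
      rw [mul_comm]; exact this
    exact mul_neg_of_same h10 (by rw [mul_comm]; exact h9)

/-- variation diminishing, right version -/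
lemma Sm.VDR (h : Sm a F U) (ha : 0 < a) {m : ℕ} : ∀ {x : ℝ}, CR U m x →
    ∀ r, r ≤ x → 0 < F r * U x → CR F m r := by
  induction m with
  | zero =>
    intro x _ r _ h2 h0
    rw [h0] at h2; simp at h2
  | succ m ih =>
    intro x hx r hr1 hr2
    obtain ⟨y, h1, h2, h3⟩ := hx
    obtain ⟨r', h4, h5, h6⟩ := h.between ha h1 (by rw [mul_comm]; exact h2)
    refine ⟨r', by linarith, ?_, ih h3 r' h5.le h6⟩
    have h7 : F r' * U x < 0 := by
      have : U x * F r' < 0 := by
        apply mul_neg_of_same (q := U y)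
        · rw [mul_comm]; exact h2
        · rw [mul_comm]; exact h6
      rw [mul_comm]; exact this
    exact mul_neg_of_same h7 (by rw [mul_comm]; exact hr2)

lemma Sm.match1 (h : Sm a F U) (ha : 0 < a) {j : ℕ} {x : ℝ} (hx : 0 < F x * U x)
    (hc : CL U j x) : CL F j x := by
  obtain ⟨r, h1, h2, h3⟩ := h.VDL ha hc
  apply CL_move h3 h1.le
  have : 0 < F r * F x := by
    by_contra hneg
    push Not at hneg
    have h4 : F r * F x ≠ 0 := by
      intro h0
      rcases mul_eq_zero.mp h0 with h | h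
      · rw [h] at h2; simp at h2
      · rw [h] at hx; simp at hx
    have h5 : F r * F x < 0 := lt_of_le_of_ne hneg h4
    have := mul_neg_of_same h5 hx
    linarith
  exact this

lemma Sm.match2 (h : Sm a F U) (ha : 0 < a) {K j : ℕ} {x z : ℝ} (hx : 0 < F x * U x)
    (hno : ∀ z, ¬ CL F (K + 1) z) (hex : CL U K z) (hc : CL F j x) : CL U j x := by
  have hUx : U x ≠ 0 := by intro h0; rw [h0] at hx; simp at hx
  obtain ⟨a', b', h1, h2, h3⟩ := split hUx hex
  rcases le_or_gt j a' with h4 | h4
  · exact CL_le h4 h2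
  · have h5 := h.VDR ha h3 x le_rfl hx
    obtain ⟨w, hw⟩ := CL_CR hc h5
    exact absurd (CL_le (by omega) hw) (hno w)

/-- **Lobe lemma.** -/
theorem lobe {a : ℝ} (ha : 0 < a) (u : ℕ → ℝ → ℝ) (hS : ∀ n, Sm a (u n) (u (n + 1)))
    (K n1 N1 : ℕ) (hno : ∀ z, ¬ CL (u n1) (K + 1) z)
    (hex : ∀ n, n1 ≤ n → ∃ z, CL (u n) K z)
    (hneg : ∀ n, n1 ≤ n → n ≤ N1 → u n 0 < 0)
    (α : ℝ) (hα : α < 0) (hα2 : 0 < u n1 α) (C : ℝ) (hC : 0 ≤ C)
    (hCb : ∀ t, α ≤ t → -C ≤ u n1 t) (hN : n1 ≤ N1) : -C ≤ u N1 0 := by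
  -- no longer chains at any stage
  have hno' : ∀ n, n1 ≤ n → ∀ z, ¬ CL (u n) (K + 1) z := by
    intro n hn
    induction n, hn using Nat.le_induction with
    | base => exact hno
    | succ n _ ih =>
      intro z hz
      obtain ⟨r, _, _, h3⟩ := (hS n).VDL ha hz
      exact ih r h3
  have h00 : u n1 0 < 0 := hneg n1 le_rfl hN
  -- the index
  have h1 : CL (u n1) 1 0 := ⟨α, hα, by nlinarith, hα2.ne'⟩
  obtain ⟨j, hj1, hj2, hj3⟩ : ∃ j, 1 ≤ j ∧ CL (u n1) j 0 ∧ ¬ CL (u n1) (j + 1) 0 := by
    by_contra hcon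
    push Not at hcon
    have : ∀ j, 1 ≤ j → CL (u n1) j 0 := by
      intro j hj
      induction j, hj using Nat.le_induction with
      | base => exact h1
      | succ j hj ih => exact hcon j hj ih
    exact hno 0 (this (K + 1) (by omega))
  have c1 : ∀ n, n1 ≤ n → n ≤ N1 → CL (u n) j 0 ∧ ¬ CL (u n) (j + 1) 0 := by
    intro n hn
    induction n, hn using Nat.le_induction with
    | base => intro _; exact ⟨hj2, hj3⟩
    | succ n hn ih =>
      intro hn2
      obtain ⟨i1, i2⟩ := ih (by omega)
      have s1 := hneg n hn (by omega)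
      have s2 := hneg (n + 1) (by omega) hn2
      have s3 : 0 < u n 0 * u (n + 1) 0 := by nlinarith
      obtain ⟨z, hz⟩ := hex (n + 1) (by omega)
      refine ⟨(hS n).match2 ha s3 (hno' n hn) hz i1, fun hcon => i2 ((hS n).match1 ha s3 hcon)⟩
  have c2 : ∀ n, n1 ≤ n → n ≤ N1 → ∀ t, u n t < 0 → CL (u n) j t → ¬ CL (u n) (j + 1) t →
      -C ≤ u n t := by
    intro n hn
    induction n, hn using Nat.le_induction with
    | base =>
      intro _ t ht1 ht2 ht3
      apply hCb
      by_contra hlt
      push Not at hlt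
      have h2 : CL (u n1) (j + 1) α := ⟨t, hlt, by nlinarith, ht2⟩
      have h3 : CL (u n1) (j + 2) 0 := ⟨α, hα, by nlinarith, h2⟩
      exact hj3 (CL_pred h3)
    | succ n hn ih =>
      intro hn2 t ht1 ht2 ht3
      have ih' := ih (by omega)
      have hcont : Continuous (u (n + 1)) :=
        continuous_iff_continuousAt.mpr fun t => ((hS n).der t).continuousAt
      obtain ⟨j', rfl⟩ : ∃ j', j = j' + 1 := ⟨j - 1, by omega⟩
      obtain ⟨y, hy1, hy2, hy3⟩ := ht2
      have hy4 : 0 < u (n + 1) y := by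
        by_contra hp; push Not at hp; nlinarith
      -- last nonnegative point before t
      have hcomp : IsCompact (Icc y t ∩ {r | 0 ≤ u (n + 1) r}) :=
        isCompact_Icc.inter_right (isClosed_le continuous_const hcont)
      have hnon : (Icc y t ∩ {r | 0 ≤ u (n + 1) r}).Nonempty :=
        ⟨y, ⟨left_mem_Icc.mpr hy1.le, hy4.le⟩⟩
      obtain ⟨t', ht', htmax⟩ := hcomp.exists_isGreatest hnon
      have ht'1 : t' < t := by
        rcases ht'.1.2.lt_or_eq with h | h
        · exact h
        · have h5 : 0 ≤ u (n + 1) t' := ht'.2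
          rw [h] at h5; linarith
      have hbelow : ∀ r, t' < r → r ≤ t → u (n + 1) r < 0 := by
        intro r hr1 hr2
        by_contra hr3
        push Not at hr3
        have h6 := htmax ⟨⟨by linarith [ht'.1.1], hr2⟩, hr3⟩
        linarith
      have hF : ∀ r ∈ Ioo t' t, -C ≤ u n r := by
        intro r hr
        rcases le_or_gt 0 (u n r) with h | h
        · linarith
        · have hUr := hbelow r hr.1 hr.2.le
          have s3 : 0 < u n r * u (n + 1) r := by nlinarith
          have k1 : CL (u (n + 1)) (j' + 1) r := by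
            refine ⟨y, ?_, by nlinarith, hy3⟩
            have := htmax ⟨left_mem_Icc.mpr hy1.le, hy4.le⟩
            linarith [hr.1]
          have k2 : ¬ CL (u (n + 1)) (j' + 1 + 1) r := fun hcon =>
            ht3 (CL_move hcon hr.2.le (by nlinarith))
          obtain ⟨z, hz⟩ := hex (n + 1) (by omega)
          have k3 : CL (u n) (j' + 1) r := (hS n).match1 ha s3 k1
          have k4 : ¬ CL (u n) (j' + 1 + 1) r := fun hcon =>
            k2 ((hS n).match2 ha s3 (hno' n hn) hz hcon)
          exact ih' r h k3 k4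
      refine (hS n).barrier ha ht'1.le hF ?_
      have : 0 ≤ u (n + 1) t' := ht'.2
      linarith
  obtain ⟨d1, d2⟩ := c1 N1 hN le_rfl
  exact c2 N1 hN le_rfl 0 (hneg N1 hN le_rfl) d1 d2

end ZC
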