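import Pool.Agent.H41.ZcLimit

/-!
# Counting real critical points of cyclotomic polynomials
-/

open Set Filter Topology MeasureTheory Polynomial

namespace ZC

/-- the base point `-e^{-e^t}` -/
noncomputable def xi (t : ℝ) : ℝ := -Real.exp (-Real.exp t)

lemma xi_gt (t : ℝ) : -1 < xi t := by
  unfold xi
  have := x_lt_one t
  linarith

lemma xi_lt (t : ℝ) : xi t < 0 := by
  unfold xi
  have := Real.exp_pos (-Real.exp t)
  linarith

lemma xi_mono {s t : ℝ} (h : s < t) : xi s < xi t := by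
  unfold xi
  have h1 := Real.exp_lt_exp.mpr h
  have h2 := Real.exp_lt_exp.mpr (neg_lt_neg h1)
  linarith

lemma CL_neg {F : ℝ → ℝ} {m : ℕ} : ∀ {x : ℝ}, CL F m x → CL (fun t => -F t) m x := by
  induction m with
  | zero => intro x h; exact neg_ne_zero.mpr h
  | succ m ih =>
    intro x h
    obtain ⟨y, h1, h2, h3⟩ := h
    exact ⟨y, h1, by nlinarith, ih h3⟩

lemma V.neg {F : ℝ → ℝ} {m : ℕ} (h : V m F) : V m (fun t => -F t) := by
  obtain ⟨C, hC⟩ := h.bd
  refine ⟨h.cont.neg, ⟨C, fun t => by rw [abs_neg]; exact hC t⟩, ?_, ?_⟩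
  · obtain ⟨t, ht⟩ := h.ne
    exact ⟨t, neg_ne_zero.mpr ht⟩
  · intro P hP
    have := h.mom P hP
    have e : ∀ t, -F t * P.eval t = -(F t * P.eval t) := by intro t; ring
    simp_rw [e]
    rw [integral_neg, this, neg_zero]

/-- Rolle along a chain -/
lemma rolle_chain {φ φ' : ℝ → ℝ} (hφ : ∀ x, HasDerivAt φ (φ' x) x) (hm1 : φ (-1) = 0)
    {U : ℝ → ℝ} (hU : ∀ t, 0 < U t ↔ 0 < φ (xi t)) (hU2 : ∀ t, U t < 0 ↔ φ (xi t) < 0)
    (m : ℕ) : ∀ z, CL U m z → ∃ S : Finset ℝ, S.card = m ∧ ∃ w, -1 ≤ w ∧ w < xi z ∧ φ w = 0 ∧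
      ∀ x ∈ S, -1 < x ∧ x < w ∧ φ' x = 0 := by
  classical
  have hcont : Continuous φ := continuous_iff_continuousAt.mpr fun x => (hφ x).continuousAt
  induction m with
  | zero =>
    intro z _
    exact ⟨∅, rfl, -1, le_rfl, xi_gt z, hm1, by simp⟩
  | succ m ih =>
    intro z hz
    obtain ⟨y, hyz, hs, hy⟩ := hz
    obtain ⟨S, hS, w', hw1, hw2, hw3, hw4⟩ := ih y hy
    have hlt := xi_mono hyz
    -- sign change gives a zero
    have hzero : ∃ w, xi y < w ∧ w < xi z ∧ φ w = 0 := by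
      rcases lt_trichotomy (U y) 0 with h | h | h
      · have h2 : 0 < U z := by
          by_contra hp; push Not at hp; nlinarith
        have a1 := (hU2 y).mp h
        have a2 := (hU z).mp h2
        obtain ⟨w, hw, hw0⟩ := intermediate_value_Ioo hlt.le hcont.continuousOn
          (show (0 : ℝ) ∈ Ioo (φ (xi y)) (φ (xi z)) from ⟨a1, a2⟩)
        exact ⟨w, hw.1, hw.2, hw0⟩
      · rw [h] at hs; simp at hs
      · have h2 : U z < 0 := by
          by_contra hp; push Not at hp; nlinarith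
        have a1 := (hU y).mp h
        have a2 := (hU2 z).mp h2
        obtain ⟨w, hw, hw0⟩ := intermediate_value_Ioo' hlt.le hcont.continuousOn
          (show (0 : ℝ) ∈ Ioo (φ (xi z)) (φ (xi y)) from ⟨a2, a1⟩)
        exact ⟨w, hw.1, hw.2, hw0⟩
    obtain ⟨w, hwa, hwb, hwc⟩ := hzero
    obtain ⟨c, hc, hc0⟩ := exists_hasDerivAt_eq_zero (show w' < w by linarith)
      hcont.continuousOn (by rw [hw3, hwc]) (fun x _ => hφ x)
    have hcS : c ∉ S := by
      intro hcS
      have := (hw4 c hcS).2.1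
      linarith [hc.1]
    refine ⟨insert c S, by rw [Finset.card_insert_of_notMem hcS, hS], w, by linarith, hwb, hwc, ?_⟩
    intro x hx
    rw [Finset.mem_insert] at hx
    rcases hx with rfl | hx
    · exact ⟨by linarith [hc.1], hc.2, hc0⟩
    · obtain ⟨b1, b2, b3⟩ := hw4 x hx
      exact ⟨b1, by linarith, b3⟩

lemma rolle_final {φ φ' : ℝ → ℝ} (hφ : ∀ x, HasDerivAt φ (φ' x) x) (hm1 : φ (-1) = 0)
    (h0 : φ 0 = 0) {U : ℝ → ℝ} (hU : ∀ t, 0 < U t ↔ 0 < φ (xi t))
    (hU2 : ∀ t, U t < 0 ↔ φ (xi t) < 0) {m : ℕ} {z : ℝ} (hz : CL U m z) :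
    ∃ S : Finset ℝ, S.card = m + 1 ∧ ∀ x ∈ S, -1 < x ∧ x < 0 ∧ φ' x = 0 := by
  classical
  have hcont : Continuous φ := continuous_iff_continuousAt.mpr fun x => (hφ x).continuousAt
  obtain ⟨S, hS, w, hw1, hw2, hw3, hw4⟩ := rolle_chain hφ hm1 hU hU2 m z hz
  have hw0 : w < 0 := hw2.trans (xi_lt z)
  obtain ⟨c, hc, hc0⟩ := exists_hasDerivAt_eq_zero hw0 hcont.continuousOn
    (by rw [hw3, h0]) (fun x _ => hφ x)
  have hcS : c ∉ S := by
    intro hcS
    have := (hw4 c hcS).2.1
    linarith [hc.1]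
  refine ⟨insert c S, by rw [Finset.card_insert_of_notMem hcS, hS], ?_⟩
  intro x hx
  rw [Finset.mem_insert] at hx
  rcases hx with rfl | hx
  · exact ⟨by linarith [hc.1], hc.2, hc0⟩
  · obtain ⟨b1, b2, b3⟩ := hw4 x hx
    exact ⟨b1, by linarith, b3⟩

/-- `log Φ_n(-e^{-e^t})` -/
noncomputable def Am (n : ℕ) (t : ℝ) : ℝ := Real.log (eval (xi t) (cyclotomic n ℝ))
/-- `log Φ_n(e^{-e^t})` -/
noncomputable def Ap (n : ℕ) (t : ℝ) : ℝ := Real.log (eval (-xi t) (cyclotomic n ℝ))

lemma cyc_ne {n : ℕ} (hn : 0 < n) {x : ℝ} (h1 : -1 < x) (h2 : x < 1) :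
    eval x (cyclotomic n ℝ) ≠ 0 := by
  rcases Nat.lt_or_ge 2 n with h | h
  · exact (cyclotomic_pos h x).ne'
  · rcases (by omega : n = 1 ∨ n = 2) with rfl | rfl
    · rw [cyclotomic_one]; simp; intro h; linarith
    · rw [cyclotomic_two]; simp; intro h; linarith

lemma cyc_mul {n q : ℕ} (hq : q.Prime) (hqn : ¬ q ∣ n) (x : ℝ) :
    eval (x ^ q) (cyclotomic n ℝ) = eval x (cyclotomic (n * q) ℝ) * eval x (cyclotomic n ℝ) := by
  have := congrArg (eval x) (cyclotomic_expand_eq_cyclotomic_mul hq hqn ℝ)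
  rwa [expand_eval, eval_mul] at this

lemma xi_shift {q : ℕ} (hq : 0 < q) (t : ℝ) : (-xi t) ^ q = -xi (t + Real.log q) := by
  unfold xi
  rw [neg_neg, neg_neg, ← Real.exp_nat_mul, Real.exp_add, Real.exp_log (by exact_mod_cast hq)]
  ring_nf

lemma xi_shift' {q : ℕ} (hq : Odd q) (t : ℝ) : (xi t) ^ q = xi (t + Real.log q) := by
  have h1 := xi_shift hq.pos t
  rw [hq.neg_pow] at h1
  linarith

lemma Am_mul {n q : ℕ} (hn : 0 < n) (hq : q.Prime) (hodd : Odd q) (hqn : ¬ q ∣ n) (t : ℝ) :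
    Am (n * q) t = -(Am n t - Am n (t + Real.log q)) := by
  unfold Am
  have h1 := cyc_mul hq hqn (xi t)
  rw [xi_shift' hodd] at h1
  have g1 := xi_gt t
  have g2 := xi_lt t
  rw [h1, Real.log_mul (cyc_ne (Nat.mul_pos hn hq.pos) g1 (by linarith))
    (cyc_ne hn g1 (by linarith))]
  ring

lemma Ap_mul {n q : ℕ} (hn : 0 < n) (hq : q.Prime) (hqn : ¬ q ∣ n) (t : ℝ) :
    Ap (n * q) t = -(Ap n t - Ap n (t + Real.log q)) := by
  unfold Ap
  have h1 := cyc_mul hq hqn (-xi t)
  rw [xi_shift hq.pos] at h1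
  have g1 := xi_gt t
  have g2 := xi_lt t
  rw [h1, Real.log_mul (cyc_ne (Nat.mul_pos hn hq.pos) (by linarith) (by linarith))
    (cyc_ne hn (by linarith) (by linarith))]
  ring

lemma Am_one (t : ℝ) : Am 1 t = v0 t := by
  unfold Am v0 xi
  rw [cyclotomic_one]
  simp only [eval_sub, eval_X, eval_one]
  rw [← Real.log_neg_eq_log]
  congr 1
  ring

/-- product of a finset of odd primes -/
structure OP (S : Finset ℕ) : Prop where
  prime : ∀ p ∈ S, p.Prime
  odd : ∀ p ∈ S, Odd p

lemma OP.not_dvd {S : Finset ℕ} {q : ℕ} (h : OP S) (hq : q.Prime) (hqS : q ∉ S) :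
    ¬ q ∣ ∏ p ∈ S, p := by
  intro hd
  rw [hq.prime.dvd_finsetProd_iff] at hd
  obtain ⟨p, hp, hdvd⟩ := hd
  have := (Nat.prime_dvd_prime_iff_eq hq (h.prime p hp)).mp hdvd
  exact hqS (this ▸ hp)

lemma OP.pos {S : Finset ℕ} (h : OP S) : 0 < ∏ p ∈ S, p :=
  Finset.prod_pos fun p hp => (h.prime p hp).pos

lemma OP.of_cons {S : Finset ℕ} {q : ℕ} {hqS : q ∉ S} (h : OP (Finset.cons q S hqS)) :
    OP S ∧ q.Prime ∧ Odd q :=
  ⟨⟨fun p hp => h.prime p (Finset.mem_cons_of_mem hp), fun p hp => h.odd p (Finset.mem_cons_of_mem hp)⟩,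
    h.prime q (Finset.mem_cons_self q S), h.odd q (Finset.mem_cons_self q S)⟩

lemma V_Am (S : Finset ℕ) (hne : S.Nonempty) : OP S → V (S.card - 1) (Am (∏ p ∈ S, p)) := by
  induction hne using Finset.Nonempty.cons_induction with
  | singleton q =>
    intro h
    have hq := h.prime q (Finset.mem_singleton_self q)
    have hodd := h.odd q (Finset.mem_singleton_self q)
    simp only [Finset.card_singleton, Nat.sub_self, Finset.prod_singleton]
    have h1 := (V_v0 (log_prime_pos hq)).neg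
    have e : Am q = fun t => -(v0 t - v0 (t + Real.log q)) := by
      ext t
      have := Am_mul one_pos hq hodd (by
        intro hd; exact hq.one_lt.ne' (Nat.dvd_one.mp hd)) t
      rw [one_mul, Am_one, Am_one] at this
      exact this
    rw [e]; exact h1
  | cons q S hqS hS ih =>
    intro h
    obtain ⟨hS', hq, hodd⟩ := h.of_cons
    have h1 := ((ih hS').diff (log_prime_pos hq)).neg
    have hc : 1 ≤ S.card := hS.card_pos
    rw [Finset.card_cons, Finset.prod_cons]
    have e1 : S.card + 1 - 1 = S.card - 1 + 1 := by omega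
    have e : Am (q * ∏ p ∈ S, p) = fun t => -(Am (∏ p ∈ S, p) t - Am (∏ p ∈ S, p) (t + Real.log q)) := by
      ext t
      rw [mul_comm]
      exact Am_mul hS'.pos hq hodd (hS'.not_dvd hq hqS) t
    rw [e1, e]
    exact h1

lemma cyc_prime_eval {p : ℕ} (hp : p.Prime) (x : ℝ) :
    eval x (cyclotomic p ℝ) = ∑ i ∈ Finset.range p, x ^ i := by
  have := Fact.mk hp
  rw [cyclotomic_prime, eval_finsetSum]
  simp

lemma V_Ap_base {p : ℕ} (hp : p.Prime) {β : ℝ} (hβ : 0 < β) :
    V 0 (fun t => Ap p t - Ap p (t + β)) := by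
  have hp2 := hp.two_le
  have hp0 : (0 : ℝ) < p := by exact_mod_cast hp.pos
  -- x in (0,1)
  have hx0 : ∀ t, 0 < -xi t := fun t => by linarith [xi_lt t]
  have hx1 : ∀ t, -xi t < 1 := fun t => by linarith [xi_gt t]
  have hA : ∀ t, Ap p t = Real.log (∑ i ∈ Finset.range p, (-xi t) ^ i) := by
    intro t; unfold Ap; rw [cyc_prime_eval hp]
  have hge : ∀ t, 1 ≤ ∑ i ∈ Finset.range p, (-xi t) ^ i := by
    intro t
    have h0 : (-xi t) ^ 0 ≤ ∑ i ∈ Finset.range p, (-xi t) ^ i :=
      Finset.single_le_sum (f := fun i => (-xi t) ^ i) (fun i _ => pow_nonneg (hx0 t).le i)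
        (Finset.mem_range.mpr hp.pos)
    simpa using h0
  have hle : ∀ t, ∑ i ∈ Finset.range p, (-xi t) ^ i ≤ p := by
    intro t
    calc ∑ i ∈ Finset.range p, (-xi t) ^ i ≤ ∑ _i ∈ Finset.range p, (1 : ℝ) :=
          Finset.sum_le_sum fun i _ => pow_le_one₀ (hx0 t).le (hx1 t).le
      _ = p := by simp
  have hcont : Continuous (Ap p) := by
    have : Ap p = fun t => Real.log (∑ i ∈ Finset.range p, (-xi t) ^ i) := funext hA
    rw [this]
    apply Continuous.log
    · unfold xi; fun_prop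
    · intro t; have := hge t; linarith
  apply V_base hcont hβ (c0 := Real.log p) (D := (p : ℝ) ^ 2) (by positivity)
  · intro t
    rw [hA]
    set x := -xi t with hx
    set P := ∑ i ∈ Finset.range p, x ^ i with hP
    have h1 := hge t
    have h2 := hle t
    rw [← hx, ← hP] at h1 h2
    have h3 : (p : ℝ) - P ≤ (p : ℝ) ^ 2 * (1 - x) := by
      have e : (p : ℝ) - P = ∑ i ∈ Finset.range p, (1 - x ^ i) := by
        rw [Finset.sum_sub_distrib]; simp [hP]
      rw [e]
      have hb : ∀ i ∈ Finset.range p, 1 - x ^ i ≤ (p : ℝ) * (1 - x) := by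
        intro i hi
        have hi' : (i : ℝ) ≤ p := by
          exact_mod_cast (Finset.mem_range.mp hi).le
        have hbern := one_add_mul_le_pow (a := x - 1) (by have := hx0 t; rw [← hx] at this; linarith) i
        have : 1 + (x - 1) = x := by ring
        rw [this] at hbern
        have hx1' : 0 ≤ 1 - x := by have := hx1 t; rw [← hx] at this; linarith
        nlinarith
      calc ∑ i ∈ Finset.range p, (1 - x ^ i) ≤ ∑ _i ∈ Finset.range p, (p : ℝ) * (1 - x) :=
            Finset.sum_le_sum hb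
        _ = _ := by simp; ring
    have h4 : 1 - x ≤ Real.exp t := by
      have := one_sub_x_le t
      have e : x = Real.exp (-Real.exp t) := by rw [hx]; unfold xi; ring
      rw [e]; exact this
    have h5 : Real.log P ≤ Real.log p := Real.log_le_log (by linarith) h2
    rw [abs_of_nonpos (by linarith)]
    have h6 : Real.log p - Real.log P = Real.log (p / P) :=
      (Real.log_div hp0.ne' (by linarith)).symm
    have h7 := Real.log_le_sub_one_of_pos (x := p / P) (by positivity)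
    have h8 : (p : ℝ) / P - 1 ≤ p - P := by
      rw [div_sub_one (by linarith), div_le_iff₀ (by linarith)]
      nlinarith
    have h9 : (p : ℝ) ^ 2 * (1 - x) ≤ (p : ℝ) ^ 2 * Real.exp t := by gcongr
    linarith
  · intro t
    rw [hA]
    set x := -xi t with hx
    have hxx : x = Real.exp (-Real.exp t) := by rw [hx]; unfold xi; ring
    have h1 := hge t
    rw [← hx] at h1
    rw [abs_of_nonneg (Real.log_nonneg h1), ← hxx]
    have h2 := Real.log_le_sub_one_of_pos (x := ∑ i ∈ Finset.range p, x ^ i) (by linarith)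
    have h3 : ∑ i ∈ Finset.range p, x ^ i - 1 ≤ (p : ℝ) ^ 2 * x := by
      obtain ⟨p', rfl⟩ : ∃ p', p = p' + 1 := ⟨p - 1, by omega⟩
      rw [Finset.sum_range_succ']
      simp only [pow_zero, add_sub_cancel_right]
      have hxp : 0 < x := hx0 t
      have hx1' : x ≤ 1 := (hx1 t).le
      have hb : ∀ i ∈ Finset.range p', x ^ (i + 1) ≤ x := by
        intro i _
        rw [pow_succ]
        have := pow_le_one₀ (n := i) hxp.le hx1'
        nlinarith
      calc ∑ i ∈ Finset.range p', x ^ (i + 1) ≤ ∑ _i ∈ Finset.range p', x := Finset.sum_le_sum hb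
        _ = p' * x := by simp
        _ ≤ _ := by
          push_cast
          have : (0 : ℝ) ≤ p' := by positivity
          nlinarith [mul_nonneg this hxp.le, mul_nonneg (mul_nonneg this this) hxp.le]
    linarith
  · refine ⟨0, ?_⟩
    rw [hA, hA]
    intro h
    have h1 := Real.log_injOn_pos (by simp only [mem_Ioi]; linarith [hge 0])
      (by simp only [mem_Ioi]; linarith [hge (0 + β)]) h
    have hlt : -xi (0 + β) < -xi 0 := by
      have := xi_mono (show (0 : ℝ) < 0 + β by linarith)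
      linarith
    have h2 : ∑ i ∈ Finset.range p, (-xi (0 + β)) ^ i < ∑ i ∈ Finset.range p, (-xi 0) ^ i := by
      apply Finset.sum_lt_sum
      · intro i _
        exact pow_le_pow_left₀ (hx0 _).le hlt.le i
      · exact ⟨1, Finset.mem_range.mpr hp.one_lt, by simpa using hlt⟩
    linarith

lemma V_Ap (S : Finset ℕ) (hne : S.Nonempty) : OP S →
    (S.card = 1 ∨ V (S.card - 2) (Ap (∏ p ∈ S, p))) := by
  induction hne using Finset.Nonempty.cons_induction with
  | singleton q => intro _; left; simp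
  | cons q S hqS hS ih =>
    intro h
    obtain ⟨hS', hq, hodd⟩ := h.of_cons
    right
    have e : Ap (q * ∏ p ∈ S, p) = fun t => -(Ap (∏ p ∈ S, p) t - Ap (∏ p ∈ S, p) (t + Real.log q)) := by
      ext t
      rw [mul_comm]
      exact Ap_mul hS'.pos hq (hS'.not_dvd hq hqS) t
    rw [Finset.card_cons, Finset.prod_cons, e]
    rcases ih hS' with h1 | h1
    · obtain ⟨p, rfl⟩ := Finset.card_eq_one.mp h1
      have hp := hS'.prime p (Finset.mem_singleton_self p)
      simp only [Finset.card_singleton, Finset.prod_singleton]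
      exact (V_Ap_base hp (log_prime_pos hq)).neg
    · by_cases hc : S.card = 1
      · obtain ⟨p, rfl⟩ := Finset.card_eq_one.mp hc
        have hp := hS'.prime p (Finset.mem_singleton_self p)
        simp only [Finset.card_singleton, Finset.prod_singleton]
        exact (V_Ap_base hp (log_prime_pos hq)).neg
      · have hc1 : 1 ≤ S.card := hS.card_pos
        have e1 : S.card + 1 - 2 = S.card - 2 + 1 := by omega
        rw [e1]
        exact (h1.diff (log_prime_pos hq)).neg

end ZC
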