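import Pool.Agent.H41.ZcCyclo

/-!
# Real critical points of cyclotomic polynomials: final counting
-/

open Set Filter Topology Polynomial

namespace ZC

lemma roots_neg {n : ℕ} (hn : 2 < n) (h1 : eval (-1) (cyclotomic n ℝ) = 1) {m : ℕ} {z : ℝ}
    (hz : CL (Am n) m z) :
    ∃ S : Finset ℝ, S.card = m + 1 ∧
      ∀ x ∈ S, -1 < x ∧ x < 0 ∧ eval x (derivative (cyclotomic n ℝ)) = 0 := by
  refine rolle_final (φ := fun x => eval x (cyclotomic n ℝ) - 1) (U := Am n) (z := z)
    ?_ ?_ ?_ ?_ ?_ hz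
  · intro x
    exact ((cyclotomic n ℝ).hasDerivAt x).sub_const 1
  · rw [h1]; ring
  · rw [← coeff_zero_eq_eval_zero, cyclotomic_coeff_zero ℝ (by omega)]; ring
  · intro t
    have hp := cyclotomic_pos hn (xi t)
    unfold Am
    rw [Real.log_pos_iff hp.le]
    constructor <;> intro h <;> linarith
  · intro t
    have hp := cyclotomic_pos hn (xi t)
    unfold Am
    rw [Real.log_neg_iff hp]
    constructor <;> intro h <;> linarith

lemma roots_pos {n : ℕ} (hn : 2 < n) (h1 : eval 1 (cyclotomic n ℝ) = 1) {m : ℕ} {z : ℝ}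
    (hz : CL (Ap n) m z) :
    ∃ S : Finset ℝ, S.card = m + 1 ∧
      ∀ x ∈ S, 0 < x ∧ x < 1 ∧ eval x (derivative (cyclotomic n ℝ)) = 0 := by
  classical
  have key := rolle_final (φ := fun x => eval (-x) (cyclotomic n ℝ) - 1)
    (φ' := fun x => -eval (-x) (derivative (cyclotomic n ℝ))) (U := Ap n) (z := z) (m := m)
    ?_ ?_ ?_ ?_ ?_ hz
  · obtain ⟨S, hS, hS2⟩ := key
    refine ⟨S.image (fun x => -x), ?_, ?_⟩
    · rw [Finset.card_image_of_injective S neg_injective, hS]
    · intro x hx
      rw [Finset.mem_image] at hx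
      obtain ⟨y, hy, rfl⟩ := hx
      obtain ⟨a1, a2, a3⟩ := hS2 y hy
      exact ⟨by linarith, by linarith, by linarith⟩
  · intro x
    have h2 : HasDerivAt (fun x : ℝ => -x) (-1) x := hasDerivAt_neg x
    have h3 := ((cyclotomic n ℝ).hasDerivAt (-x)).comp x h2
    have h4 : HasDerivAt (fun x => eval (-x) (cyclotomic n ℝ))
        (eval (-x) (derivative (cyclotomic n ℝ)) * -1) x := h3
    refine (h4.sub_const 1).congr_deriv ?_
    ring
  · simp only [neg_neg]; rw [h1]; ring
  · simp only [neg_zero]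
    rw [← coeff_zero_eq_eval_zero, cyclotomic_coeff_zero ℝ (by omega)]; ring
  · intro t
    have hp := cyclotomic_pos hn (-xi t)
    unfold Ap
    rw [Real.log_pos_iff hp.le]
    constructor <;> intro h <;> linarith
  · intro t
    have hp := cyclotomic_pos hn (-xi t)
    unfold Ap
    rw [Real.log_neg_iff hp]
    constructor <;> intro h <;> linarith

/-- the number of real roots of the derivative, counted with multiplicity -/
noncomputable def Nn (n : ℕ) : ℕ := Multiset.card (derivative (cyclotomic n ℝ)).roots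

lemma natDegree_der {n : ℕ} (hn : 2 < n) :
    (derivative (cyclotomic n ℝ)).natDegree = n.totient - 1 := by
  have h1 : (cyclotomic n ℝ).natDegree = n.totient := natDegree_cyclotomic n ℝ
  have h2 : 0 < n.totient := Nat.totient_pos.mpr (by omega)
  have h3 := degree_derivative (p := cyclotomic n ℝ) (by rw [h1]; exact h2.ne')
  rw [h1] at h3
  exact natDegree_eq_of_degree_eq_some h3

lemma der_ne {n : ℕ} (hn : 2 < n) : derivative (cyclotomic n ℝ) ≠ 0 := by
  intro h0
  have h1 : (cyclotomic n ℝ).natDegree = n.totient := natDegree_cyclotomic n ℝ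
  have h2 : 0 < n.totient := Nat.totient_pos.mpr (by omega)
  have h3 := degree_derivative (p := cyclotomic n ℝ) (by rw [h1]; exact h2.ne')
  rw [h0] at h3
  simp at h3

lemma card_le_Nn {n : ℕ} (hn : 2 < n) (S : Finset ℝ)
    (hS : ∀ x ∈ S, eval x (derivative (cyclotomic n ℝ)) = 0) : S.card ≤ Nn n := by
  classical
  have h1 : S ⊆ (derivative (cyclotomic n ℝ)).roots.toFinset := by
    intro x hx
    rw [Multiset.mem_toFinset, mem_roots (der_ne hn)]
    exact hS x hx
  exact (Finset.card_le_card h1).trans (Multiset.toFinset_card_le _)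

lemma OP.gt_two {S : Finset ℕ} (h : OP S) (hne : S.Nonempty) : 2 < ∏ p ∈ S, p := by
  obtain ⟨q, hq⟩ := hne
  have h1 : q ∣ ∏ p ∈ S, p := Finset.dvd_prod_of_mem _ hq
  have h2 := Nat.le_of_dvd h.pos h1
  have h3 := (h.prime q hq).two_le
  have h4 := h.odd q hq
  rcases h3.lt_or_eq with h5 | h5
  · omega
  · rw [← h5] at h4; exact absurd h4 (by decide)

lemma OP.erase {S : Finset ℕ} (h : OP S) (q : ℕ) : OP (S.erase q) :=
  ⟨fun p hp => h.prime p (Finset.mem_of_mem_erase hp),
    fun p hp => h.odd p (Finset.mem_of_mem_erase hp)⟩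

lemma OP.eval_neg_one {S : Finset ℕ} (h : OP S) (hne : S.Nonempty) :
    eval (-1) (cyclotomic (∏ p ∈ S, p) ℝ) = 1 := by
  obtain ⟨q, hq⟩ := hne
  have hqp := h.prime q hq
  have hqo := h.odd q hq
  have h' := h.erase q
  have hnd := h'.not_dvd hqp (Finset.notMem_erase q S)
  have h1 := cyc_mul hqp hnd (-1)
  rw [hqo.neg_one_pow, Finset.prod_erase_mul S _ hq] at h1
  have h2 : eval (-1) (cyclotomic (∏ p ∈ S.erase q, p) ℝ) ≠ 0 := by
    rcases (S.erase q).eq_empty_or_nonempty with he | he
    · rw [he, Finset.prod_empty, cyclotomic_one]; simp; norm_num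
    · exact (cyclotomic_pos (h'.gt_two he) _).ne'
  have h3 : (eval (-1) (cyclotomic (∏ p ∈ S, p) ℝ) - 1) *
      eval (-1) (cyclotomic (∏ p ∈ S.erase q, p) ℝ) = 0 := by linarith
  rcases mul_eq_zero.mp h3 with h4 | h4
  · linarith
  · exact absurd h4 h2

lemma OP.eval_one {S : Finset ℕ} (h : OP S) (hc : 2 ≤ S.card) :
    eval 1 (cyclotomic (∏ p ∈ S, p) ℝ) = 1 := by
  have hne : S.Nonempty := Finset.card_pos.mp (by omega)
  obtain ⟨q, hq⟩ := hne
  have hqp := h.prime q hq
  have h' := h.erase q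
  have hnd := h'.not_dvd hqp (Finset.notMem_erase q S)
  have h1 := cyc_mul hqp hnd 1
  rw [one_pow, Finset.prod_erase_mul S _ hq] at h1
  have he : (S.erase q).Nonempty := by
    apply Finset.card_pos.mp
    rw [Finset.card_erase_of_mem hq]; omega
  have h2 : eval 1 (cyclotomic (∏ p ∈ S.erase q, p) ℝ) ≠ 0 :=
    (cyclotomic_pos (h'.gt_two he) _).ne'
  have h3 : (eval 1 (cyclotomic (∏ p ∈ S, p) ℝ) - 1) *
      eval 1 (cyclotomic (∏ p ∈ S.erase q, p) ℝ) = 0 := by linarith
  rcases mul_eq_zero.mp h3 with h4 | h4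
  · linarith
  · exact absurd h4 h2

/-- combine the roots in `(-1,0)` and in `(0,1)` -/
lemma combine {S : Finset ℕ} (h : OP S) (hc : 2 ≤ S.card) {m : ℕ} {z : ℝ}
    (hz : CL (Am (∏ p ∈ S, p)) m z) : m + S.card ≤ Nn (∏ p ∈ S, p) := by
  classical
  have hne : S.Nonempty := Finset.card_pos.mp (by omega)
  have hn := h.gt_two hne
  obtain ⟨S1, a1, a2⟩ := roots_neg hn (h.eval_neg_one hne) hz
  have hV : V (S.card - 2) (Ap (∏ p ∈ S, p)) := by
    rcases V_Ap S hne h with h1 | h1
    · omega
    · exact h1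
  obtain ⟨w, hw⟩ := hV.chain
  obtain ⟨S2, b1, b2⟩ := roots_pos hn (h.eval_one hc) hw
  have hdisj : Disjoint S1 S2 := by
    rw [Finset.disjoint_left]
    intro x hx1 hx2
    have := (a2 x hx1).2.1
    have := (b2 x hx2).1
    linarith
  have h3 : (S1 ∪ S2).card = m + 1 + (S.card - 2 + 1) := by
    rw [Finset.card_union_of_disjoint hdisj, a1, b1]
  have h4 := card_le_Nn hn (S1 ∪ S2) (by
    intro x hx
    rw [Finset.mem_union] at hx
    rcases hx with hx | hx
    · exact (a2 x hx).2.2
    · exact (b2 x hx).2.2)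
  omega

/-- **General lower bound** -/
theorem lower (S : Finset ℕ) (hne : S.Nonempty) (h : OP S) :
    2 * S.card - 1 ≤ Nn (∏ p ∈ S, p) := by
  obtain ⟨z, hz⟩ := (V_Am S hne h).chain
  by_cases hc : 2 ≤ S.card
  · have := combine h hc hz
    omega
  · have hc1 : S.card = 1 := by
      have := hne.card_pos
      omega
    have hn := h.gt_two hne
    obtain ⟨S1, a1, a2⟩ := roots_neg hn (h.eval_neg_one hne) hz
    have := card_le_Nn hn S1 (fun x hx => (a2 x hx).2.2)
    omega

/-! ### parity -/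

lemma exists_root_of_odd {P : ℝ[X]} (hP : Odd P.natDegree) : ∃ x, P.eval x = 0 := by
  have key : ∀ Q : ℝ[X], Odd Q.natDegree → 0 < Q.leadingCoeff → ∃ x, Q.eval x = 0 := by
    intro Q hQ hlc
    have hd : 0 < Q.natDegree := hQ.pos
    have h1 : Tendsto (fun x => eval x Q) atTop atTop :=
      tendsto_atTop_of_leadingCoeff_nonneg Q (natDegree_pos_iff_degree_pos.mp hd) hlc.le
    have hX : (-Polynomial.X : ℝ[X]).natDegree = 1 := by rw [natDegree_neg, natDegree_X]
    have h2 : Tendsto (fun x => eval x (Q.comp (-Polynomial.X))) atTop atBot := by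
      apply tendsto_atBot_of_leadingCoeff_nonpos
      · apply natDegree_pos_iff_degree_pos.mp
        rw [natDegree_comp, hX]; omega
      · rw [leadingCoeff_comp (by rw [hX]; norm_num), leadingCoeff_neg, leadingCoeff_X,
          hQ.neg_one_pow]
        linarith
    obtain ⟨x1, hx1⟩ := (h1.eventually (eventually_ge_atTop (0 : ℝ))).exists
    obtain ⟨x2, hx2⟩ := (h2.eventually (eventually_le_atBot (0 : ℝ))).exists
    rw [eval_comp] at hx2
    have := mem_range_of_exists_le_of_exists_ge Q.continuous ⟨_, hx2⟩ ⟨x1, hx1⟩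
    obtain ⟨x, hx⟩ := this
    exact ⟨x, hx⟩
  have hP0 : P ≠ 0 := by
    rintro rfl
    simp at hP
  rcases lt_or_gt_of_ne (leadingCoeff_ne_zero.mpr hP0) with h | h
  · obtain ⟨x, hx⟩ := key (-P) (by rwa [natDegree_neg]) (by rw [leadingCoeff_neg]; linarith)
    exact ⟨x, by simpa using hx⟩
  · exact key P hP h

lemma odd_card_roots {P : ℝ[X]} (hP : Odd P.natDegree) : Odd (Multiset.card P.roots) := by
  obtain ⟨q, _, h2, h3⟩ := exists_prod_multiset_X_sub_C_mul P
  have h4 : ¬ Odd q.natDegree := by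
    intro ho
    obtain ⟨x, hx⟩ := exists_root_of_odd ho
    have hq0 : q ≠ 0 := by
      rintro rfl
      simp at ho
    have : x ∈ q.roots := by rw [mem_roots hq0]; exact hx
    rw [h3] at this
    simp at this
  rw [Nat.not_odd_iff_even] at h4
  rw [← h2] at hP
  by_contra hcon
  rw [Nat.not_odd_iff_even] at hcon
  have := hcon.add h4
  rw [← Nat.not_odd_iff_even] at this
  exact this hP

lemma odd_Nn {n : ℕ} (hn : 2 < n) : Odd (Nn n) := by
  unfold Nn
  apply odd_card_roots
  rw [natDegree_der hn]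
  have h1 := Nat.totient_even hn
  have h2 : 0 < n.totient := Nat.totient_pos.mpr (by omega)
  obtain ⟨r, hr⟩ := h1
  exact ⟨r - 1, by omega⟩

/-! ### the smallest odd primes -/

/-- `m_k`, the product of the `k` smallest odd primes -/
noncomputable def mk (k : ℕ) : ℕ := ∏ i ∈ Finset.range k, Nat.nth Nat.Prime (i + 1)

/-- the set of the `k` smallest odd primes -/
noncomputable def Sk (k : ℕ) : Finset ℕ := by
  classical exact (Finset.range k).image (fun i => Nat.nth Nat.Prime (i + 1))

lemma nth_succ_inj : Function.Injective (fun i : ℕ => Nat.nth Nat.Prime (i + 1)) := by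
  intro i j h
  have := Nat.nth_injective Nat.infinite_setOfPred_prime h
  omega

lemma Sk_card (k : ℕ) : (Sk k).card = k := by
  classical
  unfold Sk
  rw [Finset.card_image_of_injective _ nth_succ_inj, Finset.card_range]

lemma Sk_prod (k : ℕ) : ∏ p ∈ Sk k, p = mk k := by
  classical
  unfold Sk mk
  rw [Finset.prod_image (fun i _ j _ h => nth_succ_inj h)]

lemma nth_odd (i : ℕ) : Odd (Nat.nth Nat.Prime (i + 1)) := by
  apply (prime_nth (i + 1)).odd_of_ne_two
  intro h
  rw [← Nat.nth_prime_zero_eq_two] at h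
  have := Nat.nth_injective Nat.infinite_setOfPred_prime h
  omega

lemma Sk_OP (k : ℕ) : OP (Sk k) := by
  classical
  constructor
  · intro p hp
    unfold Sk at hp
    rw [Finset.mem_image] at hp
    obtain ⟨i, _, rfl⟩ := hp
    exact prime_nth (i + 1)
  · intro p hp
    unfold Sk at hp
    rw [Finset.mem_image] at hp
    obtain ⟨i, _, rfl⟩ := hp
    exact nth_odd i

lemma Gk_eq_Am (k : ℕ) (t : ℝ) : Gk k t = (-1) ^ k * Am (mk k) t := by
  induction k generalizing t with
  | zero =>
    rw [Gk_zero]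
    unfold mk
    simp only [Finset.range_zero, Finset.prod_empty, pow_zero, one_mul]
    rw [Am_one]; rfl
  | succ k ih =>
    rw [Gk_succ, ih, ih]
    have e : mk (k + 1) = mk k * Nat.nth Nat.Prime (k + 1) := by
      unfold mk; rw [Finset.prod_range_succ]
    have hpos : 0 < mk k := Finset.prod_pos fun i _ => (prime_nth (i + 1)).pos
    have hnd : ¬ Nat.nth Nat.Prime (k + 1) ∣ mk k := by
      intro hd
      apply nth_not_dvd_M k
      have : M k = 2 * mk k := by
        unfold M mk
        rw [Finset.prod_range_succ', Nat.nth_prime_zero_eq_two, mul_comm]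
      rw [this]
      exact hd.mul_left 2
    rw [e, Am_mul hpos (prime_nth (k + 1)) (nth_odd k) hnd, pow_succ]
    ring

theorem many_roots : ∃ K, ∀ k, K ≤ k → 2 * k + 1 ≤ Nn (mk k) := by
  obtain ⟨K, hK⟩ := many_changes
  refine ⟨max K 2, fun k hk => ?_⟩
  have hk2 : 2 ≤ k := le_trans (le_max_right _ _) hk
  obtain ⟨z, hz⟩ := hK k (le_trans (le_max_left _ _) hk)
  have hCL : CL (Am (mk k)) k z := by
    rcases Nat.even_or_odd k with he | ho
    · have : Gk k = Am (mk k) := by
        ext t; rw [Gk_eq_Am, he.neg_one_pow, one_mul]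
      rwa [← this]
    · have : (fun t => -Gk k t) = Am (mk k) := by
        ext t; rw [Gk_eq_Am, ho.neg_one_pow]; ring
      rw [← this]
      exact CL_neg hz
  have h1 := combine (Sk_OP k) (by rw [Sk_card]; exact hk2) (m := k) (z := z)
    (by rw [Sk_prod]; exact hCL)
  rw [Sk_card, Sk_prod] at h1
  have hn : 2 < mk k := by
    rw [← Sk_prod]
    apply (Sk_OP k).gt_two
    apply Finset.card_pos.mp
    rw [Sk_card]; omega
  obtain ⟨r, hr⟩ := odd_Nn hn
  omega

end ZC
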