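import Mathlib

/-!
# A small zero-free disc for the Riemann zeta function

`riemannZeta₁ s = (s-1) ζ(s)` does not vanish on the closed disc with centre `101/100` and
radius `101/100`.
-/

open Complex MeasureTheory Set Filter Topology

namespace ZC

/-- the fractional part, cut off at `1` -/
noncomputable def frac1 (t : ℝ) : ℝ := (Ioi (1 : ℝ)).indicator (fun t => t - ⌊t⌋₊) t

lemma frac1_nonneg (t : ℝ) : 0 ≤ frac1 t := by
  unfold frac1
  apply Set.indicator_nonneg
  intro t ht
  have ht' : (1 : ℝ) < t := ht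
  have := Nat.floor_le (by linarith : 0 ≤ t)
  simp; linarith

lemma frac1_le (t : ℝ) : frac1 t ≤ 1 := by
  unfold frac1
  by_cases ht : t ∈ Ioi (1 : ℝ)
  · rw [indicator_of_mem ht]
    have := (Nat.lt_floor_add_one t).le
    linarith
  · rw [indicator_of_notMem ht]; norm_num

lemma frac1_meas : Measurable frac1 := by
  unfold frac1
  apply Measurable.indicator _ measurableSet_Ioi
  exact measurable_id.sub ((Measurable.of_discrete (f := fun n : ℕ => (n : ℝ))).comp Nat.measurable_floor)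

lemma frac1_locInt : LocallyIntegrableOn (fun t => (frac1 t : ℂ)) (Ioi 0) := by
  apply LocallyIntegrable.locallyIntegrableOn
  have h1 : LocallyIntegrable (fun _ : ℝ => (1 : ℝ)) volume := locallyIntegrable_const 1
  refine h1.mono ?_ ?_
  · exact (Complex.measurable_ofReal.comp frac1_meas).aestronglyMeasurable
  · filter_upwards with t
    rw [Complex.norm_real, Real.norm_eq_abs, abs_of_nonneg (frac1_nonneg t)]
    simpa using frac1_le t

/-- `J s = ∫_1^∞ {t} t^{-s-1} dt` -/
noncomputable def J (s : ℂ) : ℂ := mellin (fun t => (frac1 t : ℂ)) (-s)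

lemma frac1_top : (fun t => (frac1 t : ℂ)) =O[atTop] fun t : ℝ => t ^ (-(0 : ℝ)) := by
  simp only [neg_zero, Real.rpow_zero]
  refine Asymptotics.IsBigO.of_bound 1 ?_
  filter_upwards with t
  rw [Complex.norm_real, Real.norm_eq_abs, abs_of_nonneg (frac1_nonneg t)]
  simpa using frac1_le t

lemma frac1_bot (b : ℝ) : (fun t => (frac1 t : ℂ)) =O[𝓝[>] 0] fun t : ℝ => t ^ (-b) := by
  refine Asymptotics.IsBigO.of_bound 1 ?_
  have : Ioo (0 : ℝ) 1 ∈ 𝓝[>] (0 : ℝ) := Ioo_mem_nhdsGT (by norm_num)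
  filter_upwards [this] with t ht
  have h1 : t ∉ Ioi (1 : ℝ) := by
    simp only [mem_Ioi, not_lt]; exact ht.2.le
  have : frac1 t = 0 := by unfold frac1; rw [indicator_of_notMem h1]
  rw [this]; simp

lemma J_diff {s : ℂ} (hs : 0 < s.re) : DifferentiableAt ℂ J s := by
  have h1 : DifferentiableAt ℂ (mellin (fun t => (frac1 t : ℂ))) (-s) :=
    mellin_differentiableAt_of_isBigO_rpow (a := 0) (b := (-s).re - 1) frac1_locInt frac1_top
      (by simpa using hs) (frac1_bot _) (by linarith)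
  unfold J
  exact h1.comp s (differentiableAt_id.neg)

lemma J_eq (s : ℂ) : J s = ∫ t in Ioi (1 : ℝ), ((t : ℂ) - ⌊t⌋₊) * (t : ℂ) ^ (-s - 1) := by
  unfold J mellin
  have h1 : ∀ t : ℝ, (t : ℂ) ^ (-s - 1) • (frac1 t : ℂ) =
      (Ioi (1 : ℝ)).indicator (fun t : ℝ => ((t : ℂ) - ⌊t⌋₊) * (t : ℂ) ^ (-s - 1)) t := by
    intro t
    unfold frac1
    by_cases ht : t ∈ Ioi (1 : ℝ)
    · rw [indicator_of_mem ht, indicator_of_mem ht]
      push_cast
      rw [smul_eq_mul]; ring
    · rw [indicator_of_notMem ht, indicator_of_notMem ht]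
      simp
  simp_rw [h1]
  rw [setIntegral_indicator measurableSet_Ioi]
  congr 2
  rw [inter_eq_right]
  intro t ht
  have ht' : (1 : ℝ) < t := ht
  simp only [mem_Ioi]; linarith

lemma J_norm_le {s : ℂ} (hs : 1 / 2 ≤ s.re) :
    ‖J s‖ ≤ ∫ t in Ioi (1 : ℝ), (t - ⌊t⌋₊) * t ^ (-(3 / 2) : ℝ) := by
  rw [J_eq]
  have hint : IntegrableOn (fun t : ℝ => (t - ⌊t⌋₊) * t ^ (-(3 / 2) : ℝ)) (Ioi 1) := by
    have h1 : IntegrableOn (fun t : ℝ => t ^ (-(3 / 2) : ℝ)) (Ioi 1) :=
      integrableOn_Ioi_rpow_of_lt (by norm_num) (by norm_num)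
    refine h1.mono' ?_ ?_
    · apply Measurable.aestronglyMeasurable
      apply Measurable.mul
      · exact measurable_id.sub ((Measurable.of_discrete (f := fun n : ℕ => (n : ℝ))).comp Nat.measurable_floor)
      · exact measurable_id.pow_const _
    · filter_upwards [ae_restrict_mem measurableSet_Ioi] with t ht
      have ht' : (1 : ℝ) < t := ht
      have a1 := Nat.floor_le (by linarith : 0 ≤ t)
      have a2 := (Nat.lt_floor_add_one t).le
      rw [norm_mul, Real.norm_eq_abs, abs_of_nonneg (by linarith), Real.norm_eq_abs,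
        abs_of_nonneg (by positivity)]
      have : 0 ≤ t ^ (-(3 / 2) : ℝ) := by positivity
      nlinarith
  apply norm_integral_le_of_norm_le hint
  filter_upwards [ae_restrict_mem measurableSet_Ioi] with t ht
  have ht' : (1 : ℝ) < t := ht
  have a1 := Nat.floor_le (by linarith : 0 ≤ t)
  rw [norm_mul, Complex.norm_cpow_eq_rpow_re_of_pos (by linarith)]
  have e1 : ‖(t : ℂ) - ⌊t⌋₊‖ = t - ⌊t⌋₊ := by
    have : (t : ℂ) - ⌊t⌋₊ = ((t - ⌊t⌋₊ : ℝ) : ℂ) := by push_cast; ring
    rw [this, Complex.norm_real, Real.norm_eq_abs, abs_of_nonneg (by linarith)]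
  rw [e1]
  apply mul_le_mul_of_nonneg_left _ (by linarith)
  apply Real.rpow_le_rpow_of_exponent_le ht'.le
  have : (-s - 1).re = -s.re - 1 := by simp
  rw [this]; linarith

/-- integral over one unit interval -/
lemma unit_int (n : ℕ) (hn : 1 ≤ n) :
    ∫ t in (n : ℝ)..(n + 1), (t - ⌊t⌋₊) * t ^ (-(3 / 2) : ℝ) =
      4 * Real.sqrt (n + 1) - 2 / Real.sqrt (n + 1) - 4 * Real.sqrt n := by
  have hn' : (1 : ℝ) ≤ n := by exact_mod_cast hn
  have h1 : ∫ t in (n : ℝ)..(n + 1), (t - ⌊t⌋₊) * t ^ (-(3 / 2) : ℝ) =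
      ∫ t in (n : ℝ)..(n + 1), (t - n) * t ^ (-(3 / 2) : ℝ) := by
    rw [intervalIntegral.integral_of_le (by linarith), intervalIntegral.integral_of_le (by linarith),
      integral_Ioc_eq_integral_Ioo, integral_Ioc_eq_integral_Ioo]
    apply setIntegral_congr_fun measurableSet_Ioo
    intro t ht
    have : ⌊t⌋₊ = n := by
      rw [Nat.floor_eq_iff (by linarith [ht.1])]
      exact ⟨ht.1.le, ht.2⟩
    simp only [this]
  rw [h1]
  have hderiv : ∀ t ∈ Set.uIcc (n : ℝ) (n + 1), HasDerivAt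
      (fun t : ℝ => 2 * Real.sqrt t + 2 * n / Real.sqrt t) ((t - n) * t ^ (-(3 / 2) : ℝ)) t := by
    intro t ht
    rw [Set.uIcc_of_le (by linarith)] at ht
    have ht0 : 0 < t := by linarith [ht.1]
    have hs0 : Real.sqrt t ≠ 0 := (Real.sqrt_pos.mpr ht0).ne'
    have d1 : HasDerivAt Real.sqrt (1 / (2 * Real.sqrt t)) t := Real.hasDerivAt_sqrt ht0.ne'
    have d2 : HasDerivAt (fun t : ℝ => 2 * Real.sqrt t + 2 * n / Real.sqrt t)
        (2 * (1 / (2 * Real.sqrt t)) +
          (0 * Real.sqrt t - 2 * n * (1 / (2 * Real.sqrt t))) / (Real.sqrt t) ^ 2) t :=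
      (d1.const_mul 2).add ((hasDerivAt_const t (2 * (n : ℝ))).div d1 hs0)
    convert d2 using 1
    have e1 : t ^ (-(3 / 2) : ℝ) = 1 / (Real.sqrt t) ^ 3 := by
      rw [Real.sqrt_eq_rpow, ← Real.rpow_natCast, ← Real.rpow_mul ht0.le, one_div,
        ← Real.rpow_neg ht0.le]
      norm_num
    rw [e1]
    have e2 : t = Real.sqrt t ^ 2 := (Real.sq_sqrt ht0.le).symm
    have e3 : (t - n) * (1 / Real.sqrt t ^ 3) = (Real.sqrt t ^ 2 - n) * (1 / Real.sqrt t ^ 3) := by
      rw [← e2]
    rw [e3]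
    field_simp
    ring
  rw [intervalIntegral.integral_eq_sub_of_hasDerivAt hderiv]
  · have hp : 0 < Real.sqrt (n + 1) := Real.sqrt_pos.mpr (by linarith)
    have hq : 0 < Real.sqrt n := Real.sqrt_pos.mpr (by linarith)
    have e1 : (n : ℝ) = Real.sqrt (n + 1) ^ 2 - 1 := by
      rw [Real.sq_sqrt (by linarith)]; ring
    have e2 : (n : ℝ) = Real.sqrt n ^ 2 := (Real.sq_sqrt (by linarith)).symm
    have e3 : 2 * (n : ℝ) / Real.sqrt n = 2 * Real.sqrt n := by
      rw [div_eq_iff hq.ne']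
      have : 2 * Real.sqrt n * Real.sqrt n = 2 * Real.sqrt n ^ 2 := by ring
      rw [this, ← e2]
    have e4 : 2 * (n : ℝ) / Real.sqrt (n + 1) = 2 * Real.sqrt (n + 1) - 2 / Real.sqrt (n + 1) := by
      have : 2 * (n : ℝ) / Real.sqrt (n + 1) =
          2 * (Real.sqrt (n + 1) ^ 2 - 1) / Real.sqrt (n + 1) := by rw [← e1]
      rw [this]
      field_simp
    rw [e3, e4]
    ring
  · apply ContinuousOn.intervalIntegrable
    rw [Set.uIcc_of_le (by linarith)]
    intro t ht
    apply ContinuousAt.continuousWithinAt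
    have ht0 : t ≠ 0 := by linarith [ht.1]
    have : ContinuousAt (fun t : ℝ => t ^ (-(3 / 2) : ℝ)) t :=
      Real.continuousAt_rpow_const _ _ (Or.inl ht0)
    exact (continuousAt_id.sub continuousAt_const).mul this

lemma intervalInt_aux (a b : ℝ) (ha : 1 ≤ a) (hb : 1 ≤ b) :
    IntervalIntegrable (fun t : ℝ => (t - ⌊t⌋₊) * t ^ (-(3 / 2) : ℝ)) volume a b := by
  have h1 : IntervalIntegrable (fun _ : ℝ => (1 : ℝ)) volume a b := intervalIntegrable_const
  refine h1.mono_fun ?_ ?_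
  · apply Measurable.aestronglyMeasurable
    apply Measurable.mul
    · exact measurable_id.sub ((Measurable.of_discrete (f := fun n : ℕ => (n : ℝ))).comp Nat.measurable_floor)
    · exact measurable_id.pow_const _
  · filter_upwards [ae_restrict_mem measurableSet_uIoc] with t ht
    have ht1 : 1 ≤ t := by
      rw [Set.mem_uIoc] at ht
      rcases ht with h | h <;> linarith [h.1]
    have a1 := Nat.floor_le (by linarith : 0 ≤ t)
    have a2 := (Nat.lt_floor_add_one t).le
    rw [norm_mul, Real.norm_eq_abs, abs_of_nonneg (by linarith), Real.norm_eq_abs,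
      abs_of_nonneg (by positivity)]
    have h3 : t ^ (-(3 / 2) : ℝ) ≤ 1 := Real.rpow_le_one_of_one_le_of_nonpos ht1 (by norm_num)
    have h4 : 0 ≤ t ^ (-(3 / 2) : ℝ) := by positivity
    have : (t - ⌊t⌋₊) * t ^ (-(3 / 2) : ℝ) ≤ 1 * 1 := by
      apply mul_le_mul <;> linarith
    simpa using this

lemma partial_bound (n : ℕ) (hn : 2 ≤ n) :
    ∫ t in (1 : ℝ)..n, (t - ⌊t⌋₊) * t ^ (-(3 / 2) : ℝ) ≤
      7 / Real.sqrt 2 - 4 - 1 / Real.sqrt n := by
  induction n, hn using Nat.le_induction with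
  | base =>
    have := unit_int 1 le_rfl
    norm_num at this ⊢
    have h2 : 0 < Real.sqrt 2 := by positivity
    have h3 : Real.sqrt 2 = 2 * (Real.sqrt 2)⁻¹ := by
      field_simp
      exact Real.sq_sqrt (by norm_num)
    have e1 : (7 : ℝ) / Real.sqrt 2 = 7 * (Real.sqrt 2)⁻¹ := by rw [div_eq_mul_inv]
    rw [this]
    rw [e1]
    linarith
  | succ n hn ih =>
    have hn1 : (1 : ℝ) ≤ n := by exact_mod_cast (by omega : 1 ≤ n)
    have h1 := unit_int n (by omega)
    have hsplit : ∫ t in (1 : ℝ)..((n + 1 : ℕ) : ℝ), (t - ⌊t⌋₊) * t ^ (-(3 / 2) : ℝ) =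
        (∫ t in (1 : ℝ)..n, (t - ⌊t⌋₊) * t ^ (-(3 / 2) : ℝ)) +
        ∫ t in (n : ℝ)..(n + 1), (t - ⌊t⌋₊) * t ^ (-(3 / 2) : ℝ) := by
      push_cast
      rw [intervalIntegral.integral_add_adjacent_intervals]
      · exact intervalInt_aux _ _ le_rfl hn1
      · exact intervalInt_aux _ _ hn1 (by linarith)
    rw [hsplit, h1]
    push_cast
    have hp : 0 < Real.sqrt (n + 1) := Real.sqrt_pos.mpr (by linarith)
    have hq : 0 < Real.sqrt n := Real.sqrt_pos.mpr (by linarith)
    set p := Real.sqrt (n + 1) with hpdef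
    set q := Real.sqrt n with hqdef
    have hpq : p ^ 2 - q ^ 2 = 1 := by
      rw [hpdef, hqdef, Real.sq_sqrt (by linarith), Real.sq_sqrt (by linarith)]; ring
    have hlt : 0 < p - q := by nlinarith
    have key : 4 * (p - q) ≤ 1 / q + 1 / p := by
      rw [div_add_div _ _ hq.ne' hp.ne', le_div_iff₀ (by positivity)]
      have e : 4 * (p - q) * (q * p) = (p - q) * (4 * (p * q)) := by ring
      have e2 : (1 : ℝ) * p + q * 1 = (p - q) * (p + q) ^ 2 := by
        have : (p - q) * (p + q) ^ 2 = (p ^ 2 - q ^ 2) * (p + q) := by ring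
        rw [this, hpq]; ring
      rw [e, e2]
      apply mul_le_mul_of_nonneg_left _ hlt.le
      nlinarith [sq_nonneg (p - q)]
    have e5 : 2 / p = 1 / p + 1 / p := by ring
    rw [e5]
    linarith

lemma J_half_le : ∫ t in Ioi (1 : ℝ), (t - ⌊t⌋₊) * t ^ (-(3 / 2) : ℝ) ≤ 95 / 100 := by
  have hint : IntegrableOn (fun t : ℝ => (t - ⌊t⌋₊) * t ^ (-(3 / 2) : ℝ)) (Ioi 1) := by
    have h1 : IntegrableOn (fun t : ℝ => t ^ (-(3 / 2) : ℝ)) (Ioi 1) :=
      integrableOn_Ioi_rpow_of_lt (by norm_num) (by norm_num)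
    refine h1.mono' ?_ ?_
    · apply Measurable.aestronglyMeasurable
      apply Measurable.mul
      · exact measurable_id.sub ((Measurable.of_discrete (f := fun n : ℕ => (n : ℝ))).comp Nat.measurable_floor)
      · exact measurable_id.pow_const _
    · filter_upwards [ae_restrict_mem measurableSet_Ioi] with t ht
      have ht' : (1 : ℝ) < t := ht
      have a1 := Nat.floor_le (by linarith : 0 ≤ t)
      have a2 := (Nat.lt_floor_add_one t).le
      rw [norm_mul, Real.norm_eq_abs, abs_of_nonneg (by linarith), Real.norm_eq_abs,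
        abs_of_nonneg (by positivity)]
      have : 0 ≤ t ^ (-(3 / 2) : ℝ) := by positivity
      nlinarith
  have hlim := intervalIntegral_tendsto_integral_Ioi (1 : ℝ) hint tendsto_natCast_atTop_atTop
  refine le_of_tendsto hlim ?_
  filter_upwards [eventually_ge_atTop 2] with n hn
  refine (partial_bound n hn).trans ?_
  have h1 : 0 ≤ 1 / Real.sqrt n := by positivity
  have h2 : 7 / Real.sqrt 2 ≤ 4.95 := by
    rw [div_le_iff₀ (by positivity)]
    have : (1.4142 : ℝ) ≤ Real.sqrt 2 := by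
      apply Real.le_sqrt_of_sq_le
      norm_num
    nlinarith
  linarith

lemma zeta_eq_J {s : ℂ} (hs : 1 < s.re) : riemannZeta s = s / (s - 1) - s * J s := by
  have h1 : LSeries 1 s = s * ∫ t in Set.Ioi (1 : ℝ), (∑ k ∈ Finset.Icc 1 ⌊t⌋₊, (1 : ℕ → ℂ) k) *
      (t : ℂ) ^ (-(s + 1)) := by
    apply LSeries_eq_mul_integral' (1 : ℕ → ℂ) (r := 1) (by norm_num) (by simpa using hs)
    refine Asymptotics.IsBigO.of_bound 1 ?_
    filter_upwards with n
    simp
  rw [← LSeries_one_eq_riemannZeta hs, h1, J_eq]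
  have hs0 : s ≠ 0 := by rintro rfl; norm_num at hs
  have hs1 : s - 1 ≠ 0 := by
    intro h
    have : s = 1 := by linear_combination h
    rw [this] at hs; norm_num at hs
  have hre1 : (-s).re < -1 := by simpa using hs
  have i1 : IntegrableOn (fun t : ℝ => (t : ℂ) ^ (-s)) (Ioi 1) :=
    integrableOn_Ioi_cpow_of_lt hre1 one_pos
  have v1 : ∫ t in Ioi (1 : ℝ), (t : ℂ) ^ (-s) = 1 / (s - 1) := by
    rw [integral_Ioi_cpow_of_lt hre1 one_pos]
    simp only [ofReal_one, one_cpow]
    have : -s + 1 ≠ 0 := by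
      intro h; apply hs1; linear_combination -h
    rw [div_eq_div_iff this hs1]
    ring
  have hfloor : ∀ t ∈ Ioi (1 : ℝ), (∑ k ∈ Finset.Icc 1 ⌊t⌋₊, (1 : ℕ → ℂ) k) * (t : ℂ) ^ (-(s + 1)) =
      (t : ℂ) ^ (-s) - ((t : ℂ) - ⌊t⌋₊) * (t : ℂ) ^ (-s - 1) := by
    intro t ht
    have ht' : (1 : ℝ) < t := ht
    have ht0 : (t : ℂ) ≠ 0 := by
      exact_mod_cast (by linarith : t ≠ 0)
    have e1 : (∑ k ∈ Finset.Icc 1 ⌊t⌋₊, (1 : ℕ → ℂ) k) = (⌊t⌋₊ : ℂ) := by simp
    have e2 : (t : ℂ) ^ (-s) = t * (t : ℂ) ^ (-s - 1) := by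
      have : -s = (-s - 1) + 1 := by ring
      conv_lhs => rw [this]
      rw [Complex.cpow_add _ _ ht0, Complex.cpow_one]
      ring
    have e3 : -(s + 1) = -s - 1 := by ring
    rw [e1, e2, e3]; ring
  rw [setIntegral_congr_fun measurableSet_Ioi hfloor]
  have i2 : IntegrableOn (fun t : ℝ => ((t : ℂ) - ⌊t⌋₊) * (t : ℂ) ^ (-s - 1)) (Ioi 1) := by
    refine (i1.norm).mono' ?_ ?_
    · apply Measurable.aestronglyMeasurable
      apply Measurable.mul
      · exact Complex.measurable_ofReal.sub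
          ((Measurable.of_discrete (f := fun n : ℕ => (n : ℂ))).comp Nat.measurable_floor)
      · exact Complex.measurable_ofReal.pow_const _
    · filter_upwards [ae_restrict_mem measurableSet_Ioi] with t ht
      have ht' : (1 : ℝ) < t := ht
      have ht0 : 0 < t := by linarith
      have a1 := Nat.floor_le (by linarith : 0 ≤ t)
      have a2 : (1 : ℝ) ≤ ⌊t⌋₊ := by
        exact_mod_cast Nat.le_floor (by exact_mod_cast ht'.le)
      have a3 := (Nat.lt_floor_add_one t).le
      rw [norm_mul, Complex.norm_cpow_eq_rpow_re_of_pos ht0,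
        Complex.norm_cpow_eq_rpow_re_of_pos ht0]
      have e1 : ‖(t : ℂ) - ⌊t⌋₊‖ = t - ⌊t⌋₊ := by
        have : (t : ℂ) - ⌊t⌋₊ = ((t - ⌊t⌋₊ : ℝ) : ℂ) := by push_cast; ring
        rw [this, Complex.norm_real, Real.norm_eq_abs, abs_of_nonneg (by linarith)]
      rw [e1]
      have e2 : (-s - 1).re = (-s).re - 1 := by simp
      rw [e2, Real.rpow_sub_one ht0.ne']
      have h3 : 0 < t ^ (-s).re := by positivity
      have h4 : (t - ⌊t⌋₊) * (t ^ (-s).re / t) = ((t - ⌊t⌋₊) / t) * t ^ (-s).re := by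
        field_simp
      rw [h4]
      have h5 : (t - ⌊t⌋₊) / t ≤ 1 := by
        rw [div_le_one ht0]; linarith
      nlinarith
  rw [integral_sub i1 i2, v1]
  field_simp

/-- representation of `riemannZeta₁` in the right half plane -/
lemma zeta1_eq {s : ℂ} (hs : 0 < s.re) : riemannZeta₁ s = s - s * (s - 1) * J s := by
  have hU : IsOpen {s : ℂ | 0 < s.re} := isOpen_lt continuous_const Complex.continuous_re
  have hconn : IsPreconnected {s : ℂ | 0 < s.re} := (convex_halfSpace_re_gt 0).isPreconnected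
  have f1 : AnalyticOnNhd ℂ riemannZeta₁ {s : ℂ | 0 < s.re} :=
    DifferentiableOn.analyticOnNhd differentiable_riemannZeta₁.differentiableOn hU
  have f2 : AnalyticOnNhd ℂ (fun s => s - s * (s - 1) * J s) {s : ℂ | 0 < s.re} := by
    apply DifferentiableOn.analyticOnNhd _ hU
    intro s hs
    apply DifferentiableAt.differentiableWithinAt
    have := J_diff hs
    fun_prop
  have hmem : (2 : ℂ) ∈ {s : ℂ | 0 < s.re} := by simp
  have heq : riemannZeta₁ =ᶠ[𝓝 (2 : ℂ)] (fun s => s - s * (s - 1) * J s) := by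
    have : {s : ℂ | 1 < s.re} ∈ 𝓝 (2 : ℂ) :=
      (isOpen_lt continuous_const Complex.continuous_re).mem_nhds (by norm_num)
    filter_upwards [this] with s hs
    have hs' : (1 : ℝ) < s.re := hs
    have hs1 : s ≠ 1 := by rintro rfl; norm_num at hs'
    have hs2 : s - 1 ≠ 0 := sub_ne_zero.mpr hs1
    have h1 := riemannZeta_eq_inv_sub_mul hs1
    have h2 := zeta_eq_J hs'
    rw [h1] at h2
    field_simp at h2
    rw [h2]; ring
  exact f1.eqOn_of_preconnected_of_eventuallyEq f2 hconn hmem heq hs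

lemma zeta1_ne_zero_right {s : ℂ} (hs : 1 / 2 ≤ s.re) (hs2 : ‖s - 1‖ ≤ 102 / 100) :
    riemannZeta₁ s ≠ 0 := by
  rw [zeta1_eq (by linarith)]
  intro h
  have hs0 : s ≠ 0 := by rintro rfl; norm_num at hs
  have h1 : s * (1 - (s - 1) * J s) = 0 := by linear_combination h
  rcases mul_eq_zero.mp h1 with h2 | h2
  · exact hs0 h2
  · have h3 : (s - 1) * J s = 1 := by linear_combination -h2
    have h4 : ‖(s - 1) * J s‖ = 1 := by rw [h3]; simp
    rw [norm_mul] at h4
    have h5 := (J_norm_le hs).trans J_half_le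
    have h6 := norm_nonneg (J s)
    have h7 := norm_nonneg (s - 1)
    nlinarith

theorem zeta1_ne_zero {s : ℂ} (hs : s ∈ Metric.closedBall (101 / 100 : ℂ) (101 / 100)) :
    riemannZeta₁ s ≠ 0 := by
  have hsq : (s.re - 101 / 100) ^ 2 + s.im ^ 2 ≤ (101 / 100) ^ 2 := by
    rw [mem_closedBall_iff_norm] at hs
    have h1 : ‖s - 101 / 100‖ ^ 2 ≤ (101 / 100) ^ 2 := by
      have := norm_nonneg (s - 101 / 100)
      nlinarith
    rw [← Complex.normSq_eq_norm_sq, Complex.normSq_apply] at h1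
    have e1 : (s - 101 / 100).re = s.re - 101 / 100 := by
      have : (101 / 100 : ℂ) = ((101 / 100 : ℝ) : ℂ) := by push_cast; ring
      rw [this, Complex.sub_re, Complex.ofReal_re]
    have e2 : (s - 101 / 100).im = s.im := by
      have : (101 / 100 : ℂ) = ((101 / 100 : ℝ) : ℂ) := by push_cast; ring
      rw [this, Complex.sub_im, Complex.ofReal_im, sub_zero]
    rw [e1, e2] at h1
    nlinarith
  rcases le_or_gt (1 / 2) s.re with h | h
  · apply zeta1_ne_zero_right h
    have h2 : ‖s - 1‖ ^ 2 ≤ (102 / 100) ^ 2 := by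
      rw [← Complex.normSq_eq_norm_sq, Complex.normSq_apply]
      simp only [sub_re, one_re, sub_im, one_im, sub_zero]
      nlinarith [sq_nonneg (s.im)]
    have := norm_nonneg (s - 1)
    exact abs_le_of_sq_le_sq' h2 (by norm_num) |>.2
  · by_cases h0 : s = 0
    · rw [h0]
      have h1 := riemannZeta_eq_inv_sub_mul (s := 0) (by norm_num)
      rw [riemannZeta_zero] at h1
      intro h2
      rw [h2] at h1
      norm_num at h1
    have hre : 0 < s.re := by
      by_contra hneg
      push Not at hneg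
      have h1 : s.im ^ 2 ≤ 0 := by nlinarith [sq_nonneg s.im]
      have him : s.im = 0 := by
        have := sq_nonneg s.im
        exact pow_eq_zero_iff (two_ne_zero) |>.mp (le_antisymm h1 this)
      have hre0 : s.re = 0 := by nlinarith
      exact h0 (Complex.ext hre0 him)
    have hs1 : s ≠ 1 := by rintro rfl; norm_num at h
    -- reflect
    have h1s : riemannZeta₁ (1 - s) ≠ 0 := by
      apply zeta1_ne_zero_right
      · simp; linarith
      · have e : ‖1 - s - 1‖ = ‖s‖ := by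
          have : (1 - s - 1 : ℂ) = -s := by ring
          rw [this, norm_neg]
        rw [e]
        have h2 : ‖s‖ ^ 2 ≤ (102 / 100) ^ 2 := by
          rw [← Complex.normSq_eq_norm_sq, Complex.normSq_apply]
          nlinarith
        exact abs_le_of_sq_le_sq' h2 (by norm_num) |>.2
    intro h3
    have hz : riemannZeta s = 0 := by rw [riemannZeta_eq_inv_sub_mul hs1, h3, mul_zero]
    rw [riemannZeta_def_of_ne_zero h0] at hz
    have hΛ : completedRiemannZeta s = 0 := by
      rcases div_eq_zero_iff.mp hz with h | h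
      · exact h
      · exact absurd h (Gammaℝ_ne_zero_of_re_pos hre)
    have h1s0 : (1 - s) ≠ 0 := sub_ne_zero.mpr (Ne.symm hs1)
    have h1s1 : (1 - s) ≠ 1 := by
      intro h; apply h0; linear_combination -h
    have hz' : riemannZeta (1 - s) = 0 := by
      rw [riemannZeta_def_of_ne_zero h1s0, completedRiemannZeta_one_sub, hΛ, zero_div]
    rw [riemannZeta_eq_inv_sub_mul h1s1] at hz'
    rcases mul_eq_zero.mp hz' with h | h
    · have : (1 - s - 1 : ℂ) ≠ 0 := sub_ne_zero.mpr h1s1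
      exact (inv_ne_zero this) h
    · exact h1s h

end ZC
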