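import Pool.Agent.H41.ZcSmooth

/-!
# The functions `G_k` and their limit `G`
-/

open Set Filter Topology MeasureTheory ArithmeticFunction

namespace ZC

/-- `L0 s = -log (1 - e^{-s})` -/
noncomputable def L0 (s : ℝ) : ℝ := -Real.log (1 - Real.exp (-s))

lemma exp_neg_lt_one {s : ℝ} (hs : 0 < s) : Real.exp (-s) < 1 := by
  rw [Real.exp_lt_one_iff]; linarith

lemma L0_nonneg {s : ℝ} (hs : 0 < s) : 0 ≤ L0 s := by
  unfold L0
  have h1 := exp_neg_lt_one hs
  have h2 := Real.exp_pos (-s)
  have := Real.log_nonpos (x := 1 - Real.exp (-s)) (by linarith) (by linarith)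
  linarith

lemma L0_le {s : ℝ} (hs : 0 < s) : L0 s ≤ 1 / (Real.exp s - 1) := by
  unfold L0
  have h1 := exp_neg_lt_one hs
  have h2 := Real.exp_pos (-s)
  have h3 : 1 < Real.exp s := by
    rw [← Real.exp_zero]; exact Real.exp_lt_exp.mpr hs
  have h4 := Real.add_one_le_exp s
  rw [← Real.log_inv]
  have h5 : (1 - Real.exp (-s))⁻¹ = 1 / (Real.exp s - 1) + 1 := by
    rw [Real.exp_neg]
    have : Real.exp s ≠ 0 := (Real.exp_pos s).ne'
    have h6 : Real.exp s - 1 ≠ 0 := by linarith
    field_simp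
    ring
  have h6 := Real.log_le_sub_one_of_pos (x := (1 - Real.exp (-s))⁻¹)
    (by apply inv_pos.mpr; linarith)
  rw [h5] at h6 ⊢
  linarith

lemma L0_le_rpow {s c : ℝ} (hs : 0 < s) (h1 : 1 ≤ c) (h3 : c ≤ 3) : L0 s ≤ 6 * s ^ (-c) := by
  refine (L0_le hs).trans ?_
  have e1 := Real.sum_le_exp_of_nonneg hs.le 4
  simp only [Finset.sum_range_succ, Finset.sum_range_zero, Nat.factorial] at e1
  norm_num at e1
  have e2 : s ≤ Real.exp s - 1 := by nlinarith [pow_pos hs 2, pow_pos hs 3]
  have e3 : s ^ 3 / 6 ≤ Real.exp s - 1 := by nlinarith [pow_pos hs 2, pow_pos hs 3]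
  rcases le_total s 1 with h | h
  · calc 1 / (Real.exp s - 1) ≤ 1 / s := one_div_le_one_div_of_le hs e2
      _ = s ^ (-1 : ℝ) := by rw [Real.rpow_neg_one, one_div]
      _ ≤ s ^ (-c) := Real.rpow_le_rpow_of_exponent_ge hs h (by linarith)
      _ ≤ 6 * s ^ (-c) := by
        have : 0 < s ^ (-c) := by positivity
        linarith
  · calc 1 / (Real.exp s - 1) ≤ 1 / (s ^ 3 / 6) := one_div_le_one_div_of_le (by positivity) e3
      _ = 6 * s ^ (-3 : ℝ) := by
        rw [Real.rpow_neg hs.le]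
        norm_num
        rw [div_eq_mul_inv]
      _ ≤ 6 * s ^ (-c) := by
        gcongr

lemma L0_cont : ContinuousOn L0 (Ioi 0) := by
  unfold L0
  apply ContinuousOn.neg
  apply ContinuousOn.log
  · fun_prop
  · intro s hs
    have := exp_neg_lt_one (s := s) hs
    linarith

lemma L0_cont' (d : ℝ) (hd : 0 < d) : Continuous (fun t => L0 (d * Real.exp t)) := by
  rw [← continuousOn_univ]
  apply L0_cont.comp (by fun_prop)
  intro t _
  have := Real.exp_pos t
  simp only [mem_Ioi]
  positivity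

/-- general term -/
noncomputable def gt (n : ℕ) (t : ℝ) : ℝ := (moebius n : ℝ) * L0 (n * Real.exp t)

lemma gt_bound (n : ℕ) {t c : ℝ} (h1 : 1 ≤ c) (h3 : c ≤ 3) :
    |gt n t| ≤ 6 * Real.exp (-c * t) * (1 / (n : ℝ) ^ c) := by
  unfold gt
  rcases Nat.eq_zero_or_pos n with h0 | hn
  · subst h0
    simp only [ArithmeticFunction.map_zero, Int.cast_zero, zero_mul, abs_zero]
    positivity
  have hn' : (0 : ℝ) < n := by exact_mod_cast hn
  have hpos : 0 < (n : ℝ) * Real.exp t := mul_pos hn' (Real.exp_pos t)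
  rw [abs_mul, abs_of_nonneg (L0_nonneg hpos)]
  have hmu : |(moebius n : ℝ)| ≤ 1 := by
    exact_mod_cast abs_moebius_le_one (n := n)
  have h4 := L0_le_rpow hpos h1 h3
  have h5 : ((n : ℝ) * Real.exp t) ^ (-c) = Real.exp (-c * t) * (1 / (n : ℝ) ^ c) := by
    rw [Real.mul_rpow hn'.le (Real.exp_pos t).le, ← Real.exp_mul, Real.rpow_neg hn'.le]
    rw [show t * -c = -c * t by ring, one_div]
    ring
  rw [h5] at h4
  calc |(moebius n : ℝ)| * L0 (n * Real.exp t) ≤ 1 * L0 (n * Real.exp t) := by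
        apply mul_le_mul_of_nonneg_right hmu (L0_nonneg hpos)
    _ ≤ _ := by rw [one_mul, mul_assoc]; exact h4

/-- the constant -/
noncomputable def Cc (c : ℝ) : ℝ := 6 * ∑' n : ℕ, 1 / (n : ℝ) ^ c

lemma Cc_nonneg (c : ℝ) : 0 ≤ Cc c := by
  unfold Cc
  have : 0 ≤ ∑' n : ℕ, 1 / (n : ℝ) ^ c := tsum_nonneg (fun n => by positivity)
  linarith

lemma sum_bound_summable {c : ℝ} (h1 : 1 < c) (t : ℝ) :
    Summable (fun n : ℕ => 6 * Real.exp (-c * t) * (1 / (n : ℝ) ^ c)) :=
  (Real.summable_one_div_nat_rpow.mpr h1).mul_left _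

lemma sum_bound_eq {c : ℝ} (t : ℝ) :
    ∑' n : ℕ, 6 * Real.exp (-c * t) * (1 / (n : ℝ) ^ c) = Cc c * Real.exp (-c * t) := by
  rw [tsum_mul_left]; unfold Cc; ring

lemma gt_summable (t : ℝ) : Summable (fun n => gt n t) := by
  apply Summable.of_norm_bounded (sum_bound_summable (c := 2) (by norm_num) t)
  intro n
  exact gt_bound n (by norm_num) (by norm_num)

/-- the limit function -/
noncomputable def G (t : ℝ) : ℝ := ∑' n : ℕ, gt n t

lemma G_bound {c : ℝ} (h1 : 1 < c) (h3 : c ≤ 3) (t : ℝ) : |G t| ≤ Cc c * Real.exp (-c * t) := by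
  unfold G
  rw [← sum_bound_eq]
  have := tsum_of_norm_bounded (f := fun n => gt n t) (sum_bound_summable h1 t).hasSum
    (fun n => gt_bound n (t := t) h1.le h3)
  simpa using this

lemma gt_cont (n : ℕ) : Continuous (gt n) := by
  unfold gt
  rcases Nat.eq_zero_or_pos n with h0 | hn
  · subst h0; simp; exact continuous_const
  · exact continuous_const.mul (L0_cont' n (by exact_mod_cast hn))

lemma G_cont : Continuous G := by
  rw [continuous_iff_continuousAt]
  intro t
  have h1 : ContinuousOn G (Ioi (t - 1)) := by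
    unfold G
    apply continuousOn_tsum (u := fun n : ℕ => 6 * Real.exp (-2 * (t - 1)) * (1 / (n : ℝ) ^ (2 : ℝ)))
    · intro n; exact (gt_cont n).continuousOn
    · exact sum_bound_summable (by norm_num) _
    · intro n x hx
      refine (gt_bound n (t := x) (c := 2) (by norm_num) (by norm_num)).trans ?_
      have : Real.exp (-2 * x) ≤ Real.exp (-2 * (t - 1)) := by
        apply Real.exp_le_exp.mpr
        have : t - 1 < x := hx
        linarith
      gcongr
  exact h1.continuousAt (Ioi_mem_nhds (by linarith))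

/-! ## finite versions -/

/-- the primorials `M k = p_0 ⋯ p_k` -/
noncomputable def M (k : ℕ) : ℕ := ∏ i ∈ Finset.range (k + 1), Nat.nth Nat.Prime i

lemma prime_nth (i : ℕ) : (Nat.nth Nat.Prime i).Prime :=
  Nat.nth_mem_of_infinite Nat.infinite_setOfPred_prime i

lemma M_pos (k : ℕ) : 0 < M k := Finset.prod_pos fun i _ => (prime_nth i).pos

lemma M_succ (k : ℕ) : M (k + 1) = M k * Nat.nth Nat.Prime (k + 1) := by
  unfold M; rw [Finset.prod_range_succ]

lemma nth_not_dvd_M (k : ℕ) : ¬ Nat.nth Nat.Prime (k + 1) ∣ M k := by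
  intro h
  unfold M at h
  rw [(prime_nth (k + 1)).prime.dvd_finsetProd_iff] at h
  obtain ⟨i, hi, hdvd⟩ := h
  rw [Finset.mem_range] at hi
  have := (Nat.prime_dvd_prime_iff_eq (prime_nth (k + 1)) (prime_nth i)).mp hdvd
  have h2 := Nat.nth_injective Nat.infinite_setOfPred_prime this
  omega

/-- finite sums -/
noncomputable def Gk (k : ℕ) (t : ℝ) : ℝ := ∑ d ∈ (M k).divisors, gt d t

lemma Gk_eq_tsum (k : ℕ) (t : ℝ) : Gk k t = ∑' n : ℕ, (if n ∣ M k then gt n t else 0) := by
  unfold Gk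
  rw [tsum_eq_sum (s := (M k).divisors)]
  · apply Finset.sum_congr rfl
    intro d hd
    rw [if_pos (Nat.dvd_of_mem_divisors hd)]
  · intro n hn
    rw [if_neg]
    intro h
    exact hn (Nat.mem_divisors.mpr ⟨h, (M_pos k).ne'⟩)

lemma Gk_bound (k : ℕ) {c : ℝ} (h1 : 1 < c) (h3 : c ≤ 3) (t : ℝ) :
    |Gk k t| ≤ Cc c * Real.exp (-c * t) := by
  rw [Gk_eq_tsum, ← sum_bound_eq]
  have := tsum_of_norm_bounded (f := fun n : ℕ => if n ∣ M k then gt n t else 0)
    (sum_bound_summable h1 t).hasSum (fun n => by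
      refine le_trans ?_ (gt_bound n (t := t) h1.le h3)
      split_ifs
      · exact le_rfl
      · simp)
  simpa using this

lemma Gk_cont (k : ℕ) : Continuous (Gk k) := by
  unfold Gk
  exact continuous_finsetSum _ fun d _ => gt_cont d

lemma dvd_M_of_squarefree {n : ℕ} (hn : Squarefree n) : ∀ᶠ k in atTop, n ∣ M k := by
  set B := n.primeFactors.sup (fun p => Nat.count Nat.Prime p) with hB
  filter_upwards [eventually_ge_atTop B] with k hk
  rw [← Nat.prod_primeFactors_of_squarefree hn]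
  apply Finset.prod_primes_dvd
  · intro p hp
    exact (Nat.prime_of_mem_primeFactors hp).prime
  · intro p hp
    have hpp := Nat.prime_of_mem_primeFactors hp
    have h1 : Nat.count Nat.Prime p ≤ k := le_trans (Finset.le_sup (f := fun p => Nat.count Nat.Prime p) hp) hk
    have h2 : Nat.nth Nat.Prime (Nat.count Nat.Prime p) = p := Nat.nth_count hpp
    rw [← h2]
    unfold M
    exact Finset.dvd_prod_of_mem _ (Finset.mem_range.mpr (by omega))

lemma Gk_tendsto (t : ℝ) : Tendsto (fun k => Gk k t) atTop (𝓝 (G t)) := by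
  simp_rw [Gk_eq_tsum]
  unfold G
  apply tendsto_tsum_of_dominated_convergence (sum_bound_summable (c := 2) (by norm_num) t)
  · intro n
    by_cases hn : Squarefree n
    · apply tendsto_const_nhds.congr'
      filter_upwards [dvd_M_of_squarefree hn] with k hk
      rw [if_pos hk]
    · have h0 : gt n t = 0 := by
        unfold gt
        rw [moebius_eq_zero_of_not_squarefree hn]; simp
      simp [h0]
  · filter_upwards with k n
    refine le_trans ?_ (gt_bound n (t := t) (c := 2) (by norm_num) (by norm_num))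
    split_ifs
    · exact le_rfl
    · simp

lemma sum_divisors_mul_prime {n q : ℕ} (hn : 0 < n) (hq : q.Prime) (hqn : ¬ q ∣ n) (f : ℕ → ℝ) :
    ∑ d ∈ (n * q).divisors, f d = ∑ d ∈ n.divisors, f d + ∑ d ∈ n.divisors, f (d * q) := by
  classical
  have h1 : (n * q).divisors = n.divisors ∪ n.divisors.image (fun d => d * q) := by
    ext d
    simp only [Nat.mem_divisors, Finset.mem_union, Finset.mem_image]
    constructor
    · rintro ⟨hd, _⟩
      obtain ⟨d1, d2, h1, h2, h3⟩ := (Nat.dvd_mul).mp hd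
      rcases (Nat.dvd_prime hq).mp h2 with h | h
      · left
        rw [h, mul_one] at h3
        exact ⟨h3 ▸ h1, hn.ne'⟩
      · right
        exact ⟨d1, ⟨h1, hn.ne'⟩, by rw [← h3, h]⟩
    · rintro (⟨hd, _⟩ | ⟨d1, ⟨h1, _⟩, h2⟩)
      · exact ⟨hd.mul_right q, by have := hq.pos; positivity⟩
      · refine ⟨h2 ▸ Nat.mul_dvd_mul_right h1 q, by have := hq.pos; positivity⟩
  have hdisj : Disjoint n.divisors (n.divisors.image (fun d => d * q)) := by
    rw [Finset.disjoint_left]
    intro d hd hd2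
    rw [Finset.mem_image] at hd2
    obtain ⟨d1, _, h2⟩ := hd2
    apply hqn
    have : q ∣ d := ⟨d1, by rw [← h2]; ring⟩
    exact this.trans (Nat.dvd_of_mem_divisors hd)
  rw [h1, Finset.sum_union hdisj, Finset.sum_image]
  intro x _ y _ hxy
  exact Nat.eq_of_mul_eq_mul_right hq.pos hxy

lemma Gk_succ (k : ℕ) (t : ℝ) :
    Gk (k + 1) t = Gk k t - Gk k (t + Real.log (Nat.nth Nat.Prime (k + 1))) := by
  unfold Gk
  rw [M_succ, sum_divisors_mul_prime (M_pos k) (prime_nth _) (nth_not_dvd_M k), sub_eq_add_neg,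
    ← Finset.sum_neg_distrib]
  congr 1
  apply Finset.sum_congr rfl
  intro d hd
  set q := Nat.nth Nat.Prime (k + 1) with hq
  have hqp : q.Prime := prime_nth (k + 1)
  have hcop : Nat.Coprime d q := by
    rw [Nat.coprime_comm, hqp.coprime_iff_not_dvd]
    intro h
    exact nth_not_dvd_M k (h.trans (Nat.dvd_of_mem_divisors hd))
  unfold gt
  rw [isMultiplicative_moebius.map_mul_of_coprime hcop, moebius_apply_prime hqp]
  have hq0 : (0 : ℝ) < q := by exact_mod_cast hqp.pos
  rw [Real.exp_add, Real.exp_log hq0]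
  push_cast
  ring_nf

lemma Gk_zero (t : ℝ) : Gk 0 t = Real.log (1 + Real.exp (-Real.exp t)) := by
  unfold Gk M
  simp only [zero_add, Finset.range_one, Finset.prod_singleton, Nat.nth_prime_zero_eq_two]
  rw [Nat.Prime.sum_divisors Nat.prime_two]
  unfold gt L0
  rw [moebius_apply_prime Nat.prime_two, moebius_apply_one]
  have h0 := Real.exp_pos t
  have h1 := exp_neg_lt_one h0
  have h2 : Real.exp (-(2 * Real.exp t)) = Real.exp (-Real.exp t) ^ 2 := by
    rw [← Real.exp_nat_mul]; push_cast; ring_nf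
  have h3 : 1 - Real.exp (-(2 * Real.exp t)) =
      (1 - Real.exp (-Real.exp t)) * (1 + Real.exp (-Real.exp t)) := by
    rw [h2]; ring
  push_cast
  rw [h3, Real.log_mul (by linarith) (by have := Real.exp_pos (-Real.exp t); positivity), one_mul]
  ring

end ZC
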