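import Mathlib

/-!
# Existence of a nontrivial zero of the Riemann zeta function
-/

open Complex MeasureTheory Set Filter Topology

namespace ZC

/-- The entire function `X s = s (s-1) Λ₀ s + 1 = s (s-1) Λ s`. -/
noncomputable def X (s : ℂ) : ℂ := s * (s - 1) * completedRiemannZeta₀ s + 1

lemma X_diff : Differentiable ℂ X := by
  unfold X
  have := differentiable_completedZeta₀
  fun_prop

lemma X_symm (s : ℂ) : X (1 - s) = X s := by
  unfold X
  rw [completedRiemannZeta₀_one_sub]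
  ring

lemma X_eq {s : ℂ} (h0 : s ≠ 0) (h1 : s ≠ 1) : X s = s * (s - 1) * completedRiemannZeta s := by
  unfold X
  rw [completedRiemannZeta_eq]
  have h2 : 1 - s ≠ 0 := sub_ne_zero.mpr (Ne.symm h1)
  have h3 : s - 1 ≠ 0 := sub_ne_zero.mpr h1
  field_simp
  ring

lemma X_zero : X 0 = 1 := by simp [X]

lemma X_one : X 1 = 1 := by simp [X]

lemma X_eq_zeta {s : ℂ} (h0 : 0 < s.re) (h1 : s ≠ 1) :
    X s = s * (s - 1) * (Gammaℝ s * riemannZeta s) := by
  have h0' : s ≠ 0 := by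
    rintro rfl
    simp at h0
  rw [X_eq h0' h1, riemannZeta_def_of_ne_zero h0']
  have := Gammaℝ_ne_zero_of_re_pos h0
  field_simp

/-- boundedness of `Λ₀` in the strip -/
lemma strip_bound : ∃ B : ℝ, 0 ≤ B ∧ ∀ s : ℂ, -1 ≤ s.re → s.re ≤ 2 →
    ‖completedRiemannZeta₀ s‖ ≤ B := by
  set P := HurwitzZeta.hurwitzEvenFEPair 0 with hP
  have hconv : ∀ s : ℂ, MellinConvergent P.f_modif s := by
    intro s
    exact (P.isStrongFEPair_toStrongFEPair.hasMellin s).1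
  have hL : ∀ s, P.Λ₀ s = mellin P.f_modif s := fun s => rfl
  have hint : ∀ σ : ℝ, IntegrableOn (fun t : ℝ => t ^ (σ - 1) * ‖P.f_modif t‖) (Ioi 0) := by
    intro σ
    have h0 : IntegrableOn (fun t : ℝ => ‖(t : ℂ) ^ ((σ : ℂ) - 1) • P.f_modif t‖) (Ioi 0) :=
      (hconv (σ : ℂ)).norm
    refine IntegrableOn.congr_fun h0 (fun t ht => ?_) measurableSet_Ioi
    have ht' : (0 : ℝ) < t := ht
    simp only [norm_smul]
    rw [Complex.norm_cpow_eq_rpow_re_of_pos ht']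
    simp
  obtain ⟨σ1, hσ1⟩ : ∃ σ1 : ℝ, σ1 = -1 / 2 := ⟨_, rfl⟩
  obtain ⟨σ2, hσ2⟩ : ∃ σ2 : ℝ, σ2 = 1 := ⟨_, rfl⟩
  refine ⟨((∫ t in Ioi (0 : ℝ), t ^ (σ1 - 1) * ‖P.f_modif t‖) +
    ∫ t in Ioi (0 : ℝ), t ^ (σ2 - 1) * ‖P.f_modif t‖), ?_, ?_⟩
  · apply add_nonneg
    · apply setIntegral_nonneg measurableSet_Ioi
      intro t ht
      have ht' : (0 : ℝ) < t := ht
      positivity
    · apply setIntegral_nonneg measurableSet_Ioi
      intro t ht
      have ht' : (0 : ℝ) < t := ht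
      positivity
  · intro s hs1 hs2
    have e : completedRiemannZeta₀ s = P.Λ₀ (s / 2) / 2 := rfl
    rw [e, hL]
    have hre : (s / 2).re = s.re / 2 := by simp
    have key : ‖mellin P.f_modif (s / 2)‖ ≤
        ((∫ t in Ioi (0 : ℝ), t ^ (σ1 - 1) * ‖P.f_modif t‖) +
          ∫ t in Ioi (0 : ℝ), t ^ (σ2 - 1) * ‖P.f_modif t‖) := by
      rw [← integral_add (hint σ1) (hint σ2)]
      unfold mellin
      apply norm_integral_le_of_norm_le ((hint σ1).add (hint σ2))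
      filter_upwards [ae_restrict_mem measurableSet_Ioi] with t ht
      have ht' : (0 : ℝ) < t := ht
      rw [norm_smul, Complex.norm_cpow_eq_rpow_re_of_pos ht', Pi.add_apply, ← add_mul]
      apply mul_le_mul_of_nonneg_right _ (norm_nonneg _)
      have hr : (s / 2 - 1).re = s.re / 2 - 1 := by simp
      rw [hr]
      rcases le_total t 1 with h | h
      · have : t ^ (s.re / 2 - 1) ≤ t ^ (σ1 - 1) :=
          Real.rpow_le_rpow_of_exponent_ge ht' h (by rw [hσ1]; linarith)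
        have h2 : 0 ≤ t ^ (σ2 - 1) := by positivity
        linarith
      · have : t ^ (s.re / 2 - 1) ≤ t ^ (σ2 - 1) :=
          Real.rpow_le_rpow_of_exponent_le h (by rw [hσ2]; linarith)
        have h2 : 0 ≤ t ^ (σ1 - 1) := by positivity
        linarith
    rw [norm_div]
    simp only [Complex.norm_ofNat]
    have := norm_nonneg (mellin P.f_modif (s / 2))
    linarith

lemma norm_Gamma_le {s : ℂ} (hs : 0 < s.re) : ‖Gamma s‖ ≤ Real.Gamma s.re := by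
  rw [Gamma_eq_integral hs, Real.Gamma_eq_integral hs]
  unfold Complex.GammaIntegral
  apply norm_integral_le_of_norm_le (Real.GammaIntegral_convergent hs)
  filter_upwards [ae_restrict_mem measurableSet_Ioi] with t ht
  have ht' : (0 : ℝ) < t := ht
  rw [norm_mul, Complex.norm_cpow_eq_rpow_re_of_pos ht', Complex.norm_real, Real.norm_eq_abs,
    abs_of_pos (Real.exp_pos _)]
  simp

lemma norm_zeta_le {s : ℂ} (hs : 2 ≤ s.re) :
    ‖riemannZeta s‖ ≤ ∑' n : ℕ, 1 / ((n : ℝ) + 1) ^ (2 : ℕ) := by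
  rw [zeta_eq_tsum_one_div_nat_add_one_cpow (by linarith)]
  have hsum : Summable (fun n : ℕ => 1 / ((n : ℝ) + 1) ^ (2 : ℕ)) := by
    have := (summable_nat_add_iff 1).mpr (Real.summable_one_div_nat_pow.mpr (by norm_num : 1 < 2))
    simpa using this
  have hb : ∀ n : ℕ, ‖1 / ((n : ℂ) + 1) ^ s‖ ≤ 1 / ((n : ℝ) + 1) ^ (2 : ℕ) := by
    intro n
    have h1 : ((n : ℂ) + 1) = (((n : ℝ) + 1 : ℝ) : ℂ) := by push_cast; ring
    rw [norm_div, h1, Complex.norm_cpow_eq_rpow_re_of_pos (by positivity)]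
    simp only [norm_one]
    apply one_div_le_one_div_of_le (by positivity)
    calc ((n : ℝ) + 1) ^ (2 : ℕ) = ((n : ℝ) + 1) ^ (2 : ℝ) := by norm_cast
      _ ≤ ((n : ℝ) + 1) ^ s.re := by
        apply Real.rpow_le_rpow_of_exponent_le _ hs
        have : (0 : ℝ) ≤ n := by positivity
        linarith
  exact tsum_of_norm_bounded hsum.hasSum hb

lemma Gamma_real_le {x : ℝ} (hx : 1 ≤ x) {N : ℕ} (hN : x ≤ N) : Real.Gamma x ≤ N.factorial := by
  have h1 : Real.Gamma (x + 1) = x * Real.Gamma x := Real.Gamma_add_one (by linarith)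
  have h0 : 0 < Real.Gamma x := Real.Gamma_pos_of_pos (by linarith)
  have h2 : Real.Gamma x ≤ Real.Gamma (x + 1) := by
    rw [h1]
    nlinarith
  have h3 : Real.Gamma (x + 1) ≤ Real.Gamma (N + 1) := by
    apply Real.Gamma_strictMonoOn_Ici.monotoneOn
    · simp; linarith
    · simp; linarith
    · linarith
  rw [Real.Gamma_nat_eq_factorial] at h3
  linarith

lemma norm_Gammaℝ_le {s : ℂ} (hs : 2 ≤ s.re) {N : ℕ} (hN : s.re / 2 ≤ N) :
    ‖Gammaℝ s‖ ≤ N.factorial := by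
  rw [Gammaℝ_def, norm_mul]
  have h1 : ‖(Real.pi : ℂ) ^ (-s / 2)‖ ≤ 1 := by
    rw [Complex.norm_cpow_eq_rpow_re_of_pos Real.pi_pos]
    apply Real.rpow_le_one_of_one_le_of_nonpos
    · linarith [Real.pi_gt_three]
    · have : (-s / 2).re = -s.re / 2 := by simp
      rw [this]; linarith
  have hre : (s / 2).re = s.re / 2 := by simp
  have h2 : ‖Gamma (s / 2)‖ ≤ N.factorial := by
    refine (norm_Gamma_le (by rw [hre]; linarith)).trans ?_
    rw [hre]
    exact Gamma_real_le (by linarith) hN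
  calc _ ≤ 1 * ‖Gamma (s / 2)‖ := by gcongr
    _ ≤ _ := by linarith

lemma factorial_bound {ρ : ℝ} (hρ : 1 ≤ ρ) {N : ℕ} (hN : (N : ℝ) ≤ ρ ^ 2) :
    (N.factorial : ℝ) ≤ Real.exp (2 * ρ ^ 3) := by
  have h1 : (N.factorial : ℝ) ≤ (N : ℝ) ^ N := by exact_mod_cast Nat.factorial_le_pow N
  have h2 : (N : ℝ) ^ N ≤ (ρ ^ 2) ^ N := by
    gcongr
  have hlog : ρ ≤ Real.exp ρ := by
    have := Real.add_one_le_exp ρ
    linarith
  have h3 : (ρ ^ 2) ^ N ≤ (Real.exp (2 * ρ)) ^ N := by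
    gcongr
    have : Real.exp (2 * ρ) = Real.exp ρ ^ 2 := by
      rw [← Real.exp_nat_mul]; norm_num
    rw [this]
    gcongr
  have h4 : (Real.exp (2 * ρ)) ^ N = Real.exp (N * (2 * ρ)) := by
    rw [← Real.exp_nat_mul]
  have h5 : Real.exp (N * (2 * ρ)) ≤ Real.exp (2 * ρ ^ 3) := by
    apply Real.exp_le_exp.mpr
    have : (N : ℝ) * (2 * ρ) ≤ ρ ^ 2 * (2 * ρ) := by gcongr
    nlinarith
  linarith [h4.le]

lemma growth_right : ∃ C : ℝ, 1 ≤ C ∧ ∀ ρ : ℝ, 1 ≤ ρ → ∀ s : ℂ, 2 ≤ s.re → ‖s‖ ≤ ρ ^ 2 →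
    ‖X s‖ ≤ C * Real.exp (4 * (ρ + 1) ^ 3) := by
  set Z : ℝ := ∑' n : ℕ, 1 / ((n : ℝ) + 1) ^ (2 : ℕ) with hZ
  have hZ0 : 0 ≤ Z := tsum_nonneg (fun n => by positivity)
  refine ⟨Z + 1, by linarith, ?_⟩
  intro ρ hρ s hs hsn
  have h1 : s ≠ 1 := by
    rintro rfl
    norm_num at hs
  rw [X_eq_zeta (by linarith) h1]
  set N := ⌈ρ ^ 2⌉₊ with hN
  have hN1 : ρ ^ 2 ≤ N := Nat.le_ceil _
  have hN2 : (N : ℝ) ≤ (ρ + 1) ^ 2 := by
    have := (Nat.ceil_lt_add_one (by positivity : 0 ≤ ρ ^ 2)).le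
    nlinarith
  have hres : s.re ≤ ‖s‖ := Complex.re_le_norm s
  have g1 : ‖Gammaℝ s‖ ≤ Real.exp (2 * (ρ + 1) ^ 3) :=
    (norm_Gammaℝ_le hs (N := N) (by nlinarith)).trans (factorial_bound (by linarith) hN2)
  have g2 : ‖riemannZeta s‖ ≤ Z + 1 := (norm_zeta_le hs).trans (by linarith)
  have g3 : ‖s - 1‖ ≤ (ρ + 1) ^ 2 := by
    calc ‖s - 1‖ ≤ ‖s‖ + ‖(1 : ℂ)‖ := norm_sub_le _ _
      _ ≤ ρ ^ 2 + 1 := by simp [hsn]
      _ ≤ (ρ + 1) ^ 2 := by nlinarith
  have g4 : ‖s‖ ≤ (ρ + 1) ^ 2 := by nlinarith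
  have e1 : (ρ + 1) ^ 2 ≤ Real.exp ((ρ + 1) ^ 2) := by
    have := Real.add_one_le_exp ((ρ + 1) ^ 2)
    linarith
  rw [norm_mul, norm_mul, norm_mul]
  calc ‖s‖ * ‖s - 1‖ * (‖Gammaℝ s‖ * ‖riemannZeta s‖)
      ≤ Real.exp ((ρ + 1) ^ 2) * Real.exp ((ρ + 1) ^ 2) *
        (Real.exp (2 * (ρ + 1) ^ 3) * (Z + 1)) := by
        gcongr <;> linarith
    _ = (Z + 1) * Real.exp ((ρ + 1) ^ 2 + (ρ + 1) ^ 2 + 2 * (ρ + 1) ^ 3) := by
        rw [Real.exp_add, Real.exp_add]; ring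
    _ ≤ (Z + 1) * Real.exp (4 * (ρ + 1) ^ 3) := by
        gcongr
        have : 0 ≤ (ρ + 1) ^ 2 * ρ := by positivity
        nlinarith

lemma growth : ∃ C : ℝ, 1 ≤ C ∧ ∀ ρ : ℝ, 1 ≤ ρ → ∀ s : ℂ, ‖s‖ ≤ ρ ^ 2 →
    ‖X s‖ ≤ C * Real.exp (4 * (ρ + 2) ^ 3) := by
  obtain ⟨C, hC1, hC⟩ := growth_right
  obtain ⟨B, hB0, hB⟩ := strip_bound
  refine ⟨C + B + 1, by linarith, ?_⟩
  intro ρ hρ s hs
  have mono : ∀ a : ℝ, 1 ≤ a → a ≤ ρ + 1 →
      C * Real.exp (4 * (a + 1) ^ 3) ≤ (C + B + 1) * Real.exp (4 * (ρ + 2) ^ 3) := by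
    intro a ha1 ha2
    have e1 : (a + 1) ^ 3 ≤ (ρ + 2) ^ 3 := by
      have : a + 1 ≤ ρ + 2 := by linarith
      gcongr
    have e2 : Real.exp (4 * (a + 1) ^ 3) ≤ Real.exp (4 * (ρ + 2) ^ 3) :=
      Real.exp_le_exp.mpr (by linarith)
    have e3 : C ≤ C + B + 1 := by linarith
    exact mul_le_mul e3 e2 (Real.exp_pos _).le (by linarith)
  rcases le_total 2 s.re with h | h
  · exact (hC ρ hρ s h hs).trans (mono ρ hρ (by linarith))
  rcases le_total (-1) s.re with h' | h'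
  · unfold X
    have h1 : ‖s - 1‖ ≤ (ρ + 2) ^ 2 := by
      calc ‖s - 1‖ ≤ ‖s‖ + ‖(1 : ℂ)‖ := norm_sub_le _ _
        _ ≤ ρ ^ 2 + 1 := by simp [hs]
        _ ≤ (ρ + 2) ^ 2 := by nlinarith
    have h2 : ‖s‖ ≤ (ρ + 2) ^ 2 := by nlinarith
    have e1 : (ρ + 2) ^ 2 ≤ Real.exp ((ρ + 2) ^ 2) := by
      have := Real.add_one_le_exp ((ρ + 2) ^ 2)
      linarith
    have e2 : Real.exp ((ρ + 2) ^ 2) * Real.exp ((ρ + 2) ^ 2) ≤ Real.exp (4 * (ρ + 2) ^ 3) := by
      rw [← Real.exp_add]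
      apply Real.exp_le_exp.mpr
      have : 0 ≤ (ρ + 2) ^ 2 * ρ := by positivity
      nlinarith
    have e3 : 1 ≤ Real.exp (4 * (ρ + 2) ^ 3) := Real.one_le_exp (by positivity)
    calc ‖s * (s - 1) * completedRiemannZeta₀ s + 1‖
        ≤ ‖s * (s - 1) * completedRiemannZeta₀ s‖ + ‖(1 : ℂ)‖ := norm_add_le _ _
      _ = ‖s‖ * ‖s - 1‖ * ‖completedRiemannZeta₀ s‖ + 1 := by simp
      _ ≤ Real.exp ((ρ + 2) ^ 2) * Real.exp ((ρ + 2) ^ 2) * B + 1 := by
        have := hB s h' h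
        gcongr <;> linarith
      _ ≤ Real.exp (4 * (ρ + 2) ^ 3) * B + Real.exp (4 * (ρ + 2) ^ 3) := by gcongr
      _ ≤ _ := by nlinarith [Real.exp_pos (4 * (ρ + 2) ^ 3)]
  · rw [← X_symm]
    have h1 : ‖1 - s‖ ≤ (ρ + 1) ^ 2 := by
      calc ‖1 - s‖ ≤ ‖(1 : ℂ)‖ + ‖s‖ := norm_sub_le _ _
        _ ≤ 1 + ρ ^ 2 := by simp [hs]
        _ ≤ (ρ + 1) ^ 2 := by nlinarith
    have h2 : 2 ≤ (1 - s).re := by simp; linarith
    exact (hC (ρ + 1) (by linarith) (1 - s) h2 h1).trans (mono (ρ + 1) (by linarith) le_rfl)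

/-- An entire function `h` whose real part is `O(r^3)` on the ball of radius `r^2` is affine. -/
lemma affine_of_growth (h : ℂ → ℂ) (hd : Differentiable ℂ h) (C : ℝ) (hC : 1 ≤ C)
    (hb : ∀ ρ : ℝ, 1 ≤ ρ → ∀ s : ℂ, ‖s‖ ≤ ρ ^ 2 → (h s).re ≤ C + 4 * (ρ + 2) ^ 3) :
    ∀ s, deriv (deriv h) s = 0 := by
  -- norm bound on smaller ball
  have hn : ∀ ρ : ℝ, 1 ≤ ρ → ∀ s : ℂ, ‖s‖ ≤ ρ ^ 2 / 2 →
      ‖h s‖ ≤ 2 * (C + 4 * (ρ + 2) ^ 3) + 3 * ‖h 0‖ := by
    intro ρ hρ s hs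
    have hR : (0 : ℝ) < ρ ^ 2 := by positivity
    have hM : 0 < C + 4 * (ρ + 2) ^ 3 := by positivity
    have hs' : s ∈ Metric.ball (0 : ℂ) (ρ ^ 2) := by
      rw [mem_ball_zero_iff]; linarith
    have := Complex.borelCaratheodory (f := h) (M := C + 4 * (ρ + 2) ^ 3) (R := ρ ^ 2) hM
      hd.differentiableOn (fun z hz => hb ρ hρ z (by rw [mem_ball_zero_iff] at hz; exact hz.le))
      hR hs'
    refine this.trans ?_
    have hden : 0 < ρ ^ 2 - ‖s‖ := by linarith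
    have n0 := norm_nonneg s
    have n1 := norm_nonneg (h 0)
    apply add_le_add
    · rw [div_le_iff₀ hden]
      nlinarith
    · rw [div_le_iff₀ hden]
      nlinarith
  intro c
  -- Cauchy estimate
  have key : ∀ ρ : ℝ, 1 ≤ ρ → 4 * ‖c‖ ≤ ρ ^ 2 →
      ‖iteratedDeriv 2 h c‖ ≤ 2 * (2 * (C + 4 * (ρ + 2) ^ 3) + 3 * ‖h 0‖) / (ρ ^ 2 / 4) ^ 2 := by
    intro ρ hρ hc
    have := Complex.norm_iteratedDeriv_le_of_forall_mem_sphere_norm_le (c := c) (R := ρ ^ 2 / 4)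
      (C := 2 * (C + 4 * (ρ + 2) ^ 3) + 3 * ‖h 0‖) (f := h) 2 (by positivity)
      hd.diffContOnCl (fun z hz => hn ρ hρ z ?_)
    · simpa using this
    · rw [mem_sphere_iff_norm] at hz
      calc ‖z‖ = ‖(z - c) + c‖ := by ring_nf
        _ ≤ ‖z - c‖ + ‖c‖ := norm_add_le _ _
        _ ≤ ρ ^ 2 / 2 := by rw [hz]; linarith
  have hlim : Tendsto (fun ρ : ℝ => 2 * (2 * (C + 4 * (ρ + 2) ^ 3) + 3 * ‖h 0‖) / (ρ ^ 2 / 4) ^ 2)
      atTop (𝓝 0) := by
    have h1 : ∀ᶠ ρ : ℝ in atTop,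
        2 * (2 * (C + 4 * (ρ + 2) ^ 3) + 3 * ‖h 0‖) / (ρ ^ 2 / 4) ^ 2 ≤
          (32 * (2 * C + 216 + 3 * ‖h 0‖)) * ρ⁻¹ := by
      filter_upwards [eventually_ge_atTop 1] with ρ hρ
      have hp : 0 < ρ := by linarith
      have h27 : (ρ + 2) ^ 3 ≤ 27 * ρ ^ 3 := by
        have : ρ + 2 ≤ 3 * ρ := by linarith
        calc (ρ + 2) ^ 3 ≤ (3 * ρ) ^ 3 := by gcongr
          _ = 27 * ρ ^ 3 := by ring
      have h28 : 1 ≤ ρ ^ 3 := one_le_pow₀ hρ
      have n1 := norm_nonneg (h 0)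
      rw [div_le_iff₀ (by positivity)]
      have : 32 * (2 * C + 216 + 3 * ‖h 0‖) * ρ⁻¹ * (ρ ^ 2 / 4) ^ 2 =
          2 * (2 * C + 216 + 3 * ‖h 0‖) * ρ ^ 3 := by
        field_simp
        ring
      rw [this]
      nlinarith [mul_nonneg (by linarith : 0 ≤ C) (by linarith : (0 : ℝ) ≤ ρ ^ 3 - 1),
        mul_nonneg n1 (by linarith : (0 : ℝ) ≤ ρ ^ 3 - 1)]
    have h2 : Tendsto (fun ρ : ℝ => (32 * (2 * C + 216 + 3 * ‖h 0‖)) * ρ⁻¹) atTop (𝓝 0) := by
      simpa using (tendsto_inv_atTop_zero (𝕜 := ℝ)).const_mul (32 * (2 * C + 216 + 3 * ‖h 0‖))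
    refine squeeze_zero' ?_ h1 h2
    filter_upwards [eventually_ge_atTop 1] with ρ hρ
    positivity
  have h0 : ‖iteratedDeriv 2 h c‖ ≤ 0 := by
    refine ge_of_tendsto hlim ?_
    filter_upwards [eventually_ge_atTop 1, eventually_ge_atTop (4 * ‖c‖)] with ρ h1 h2
    refine key ρ h1 (h2.trans ?_)
    nlinarith
  have h1 : iteratedDeriv 2 h c = 0 := norm_le_zero_iff.mp h0
  rw [iteratedDeriv_succ, iteratedDeriv_one] at h1
  exact h1

theorem exists_zero : ∃ ρ : ℂ, 0 < ρ.re ∧ ρ.re < 1 ∧ riemannZeta ρ = 0 := by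
  by_contra hcon
  push Not at hcon
  -- X never vanishes
  have hX1 : ∀ s : ℂ, 0 < s.re → X s ≠ 0 := by
    intro s hs
    by_cases h1 : s = 1
    · rw [h1, X_one]; exact one_ne_zero
    rw [X_eq_zeta hs h1]
    have h0 : s ≠ 0 := by rintro rfl; simp at hs
    have hz : riemannZeta s ≠ 0 := by
      rcases lt_or_ge s.re 1 with h | h
      · exact hcon s hs h
      · exact riemannZeta_ne_zero_of_one_le_re h
    exact mul_ne_zero (mul_ne_zero h0 (sub_ne_zero.mpr h1))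
      (mul_ne_zero (Gammaℝ_ne_zero_of_re_pos hs) hz)
  have hX : ∀ s : ℂ, X s ≠ 0 := by
    intro s
    rcases lt_or_ge 0 s.re with h | h
    · exact hX1 s h
    · rw [← X_symm]
      apply hX1
      simp; linarith
  -- logarithm
  have hdX : Differentiable ℂ (fun s => deriv X s / X s) := by
    intro s
    exact ((X_diff.analyticAt s).deriv.differentiableAt).div (X_diff s) (hX s)
  obtain ⟨h, h00, hder⟩ := hdX.isExactOn_univ.with_val_at 0 0
  have hder' : ∀ s, HasDerivAt h (deriv X s / X s) s := fun s => hder s (mem_univ s)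
  have hhd : Differentiable ℂ h := fun s => (hder' s).differentiableAt
  have hconst : ∀ s, X s * Complex.exp (-h s) = 1 := by
    have hd : Differentiable ℂ (fun s => X s * Complex.exp (-h s)) := by
      have := X_diff
      fun_prop
    have hz : ∀ s, deriv (fun s => X s * Complex.exp (-h s)) s = 0 := by
      intro s
      have h1 : HasDerivAt (fun s => X s * Complex.exp (-h s))
          (deriv X s * Complex.exp (-h s) +
            X s * (Complex.exp (-h s) * (-(deriv X s / X s)))) s :=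
        (X_diff s).hasDerivAt.mul ((hder' s).neg.cexp)
      rw [h1.deriv]
      have := hX s
      field_simp
      ring
    intro s
    have := is_const_of_deriv_eq_zero hd hz s 0
    rw [this, X_zero, h00]
    simp
  have hexp : ∀ s, X s = Complex.exp (h s) := by
    intro s
    have := hconst s
    rw [Complex.exp_neg] at this
    have h2 := Complex.exp_ne_zero (h s)
    field_simp at this
    exact this
  obtain ⟨C, hC1, hC⟩ := growth
  have hre : ∀ ρ : ℝ, 1 ≤ ρ → ∀ s : ℂ, ‖s‖ ≤ ρ ^ 2 → (h s).re ≤ C + 4 * (ρ + 2) ^ 3 := by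
    intro ρ hρ s hs
    have h1 := hC ρ hρ s hs
    rw [hexp, Complex.norm_exp] at h1
    have h2 : C * Real.exp (4 * (ρ + 2) ^ 3) ≤ Real.exp (C + 4 * (ρ + 2) ^ 3) := by
      rw [Real.exp_add]
      gcongr
      have := Real.add_one_le_exp C
      linarith
    exact Real.exp_le_exp.mp (h1.trans h2)
  have haff := affine_of_growth h hhd C hC1 hre
  have hd2 : Differentiable ℂ (deriv h) := by
    intro s
    exact (hhd.analyticAt s).deriv.differentiableAt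
  have hc : ∀ s, deriv h s = deriv h 0 := fun s => is_const_of_deriv_eq_zero hd2 haff s 0
  set c := deriv h 0 with hcdef
  have hlin : ∀ s, h s = c * s := by
    have hd3 : Differentiable ℂ (fun s => h s - c * s) := by fun_prop
    have hz : ∀ s, deriv (fun s => h s - c * s) s = 0 := by
      intro s
      have h1 : HasDerivAt (fun s => h s - c * s) (deriv h s - c * 1) s :=
        (hhd s).hasDerivAt.sub ((hasDerivAt_id s).const_mul c)
      rw [h1.deriv, hc s]; ring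
    intro s
    have := is_const_of_deriv_eq_zero hd3 hz s 0
    simp only [h00] at this
    linear_combination this
  -- X (1 - s) = X s for all s gives exp(c(1-2s)) = 1
  have hsym : ∀ s : ℂ, Complex.exp (c * (1 - 2 * s)) = 1 := by
    intro s
    have h1 := X_symm s
    rw [hexp, hexp, hlin, hlin] at h1
    have h2 : c * (1 - 2 * s) = c * (1 - s) - c * s := by ring
    rw [h2, Complex.exp_sub, h1, div_self (Complex.exp_ne_zero _)]
  have hc0 : c = 0 := by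
    have hder0 : HasDerivAt (fun s : ℂ => Complex.exp (c * (1 - 2 * s)))
        (Complex.exp (c * (1 - 2 * 0)) * (c * (0 - 2 * 1))) (0 : ℂ) := by
      have : HasDerivAt (fun s : ℂ => c * (1 - 2 * s)) (c * (0 - 2 * 1)) (0 : ℂ) :=
        ((hasDerivAt_const _ _).sub ((hasDerivAt_id _).const_mul 2)).const_mul c
      exact this.cexp
    have hfun : (fun s : ℂ => Complex.exp (c * (1 - 2 * s))) = fun _ => 1 := funext hsym
    rw [hfun] at hder0
    have h2 := hder0.unique (hasDerivAt_const _ _)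
    have h3 : Complex.exp (c * (1 - 2 * 0)) ≠ 0 := Complex.exp_ne_zero _
    have h4 : c * (0 - 2 * 1) = 0 := by
      rcases mul_eq_zero.mp h2 with h | h
      · exact absurd h h3
      · exact h
    have : c * (-2) = 0 := by linear_combination h4
    simpa using this
  have hX2 : X 2 = 1 := by
    rw [hexp, hlin, hc0]; simp
  have hX2' : X 2 = Real.pi / 3 := by
    rw [X_eq_zeta (by norm_num) (by norm_num), riemannZeta_two, Gammaℝ_def]
    have h1 : (-2 / 2 : ℂ) = -1 := by norm_num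
    have h2 : (2 / 2 : ℂ) = 1 := by norm_num
    rw [h1, h2, Complex.Gamma_one, Complex.cpow_neg_one]
    have : (Real.pi : ℂ) ≠ 0 := by exact_mod_cast Real.pi_ne_zero
    field_simp
    norm_num
  rw [hX2'] at hX2
  have : (Real.pi : ℝ) = 3 := by
    have h1 : (Real.pi : ℂ) = 3 := by
      linear_combination 3 * hX2
    exact_mod_cast h1
  linarith [Real.pi_gt_three]

end ZC
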