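import Pool.Agent.H41.ZcPsi
import Pool.Agent.H41.ZcZero

/-!
# Landau's argument: the smoothings of `G` take positive values to the left of the origin
-/

open Set Filter Topology MeasureTheory

namespace ZC

lemma landau_int {h : ℝ → ℝ} (hc : Continuous h) {C : ℝ}
    (hb : ∀ t, |h t| ≤ C * Real.exp (-bb * t)) (hneg : ∀ t ≤ 0, h t ≤ 0) {D : ℝ} {N : ℕ}
    (hJ : ∀ m : ℕ, aa ^ m * |Jn aa m h| ≤ D * (m + N + 1)) {x : ℝ} (hx : 0 < x) (hxa : x < aa) :
    IntegrableOn (fun t => |h t| * Real.exp (x * t)) (Iic 0) := by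
  set ρ := aa - x with hρ
  have hρ0 : 0 < ρ := by rw [hρ]; linarith
  have hρa : ρ < aa := by rw [hρ]; linarith
  set F : ℕ → ℝ → ℝ := fun m t => ρ ^ m / m.factorial * ((-t) ^ m * (Real.exp (aa * t) * (-h t)))
    with hF
  have hFi : ∀ m, IntegrableOn (F m) (Iic 0) := by
    intro m
    have h0 : IntegrableOn (fun t => (-(ρ ^ m / m.factorial)) *
        ((-t) ^ m * (Real.exp (aa * t) * h t))) (Iic 0) :=
      (int_pow bb_lt hc hb m).const_mul (-(ρ ^ m / m.factorial))
    refine IntegrableOn.congr_fun h0 (fun t _ => ?_) measurableSet_Iic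
    simp only [hF]; ring
  have hF0 : ∀ m, ∀ t ∈ Iic (0 : ℝ), 0 ≤ F m t := by
    intro m t ht
    have ht' : t ≤ 0 := ht
    have h1 := hneg t ht'
    have h2 : 0 ≤ -h t := by linarith
    have h3 : 0 ≤ -t := by linarith
    simp only [hF]
    positivity
  have hFv : ∀ m, ∫ t in Iic (0 : ℝ), F m t = ρ ^ m * |Jn aa m h| := by
    intro m
    have h0 : 0 ≤ ∫ t in Iic (0 : ℝ), F m t := setIntegral_nonneg measurableSet_Iic (hF0 m)
    have h1 : ∫ t in Iic (0 : ℝ), F m t = -(ρ ^ m * Jn aa m h) := by
      have : ∀ t, F m t = (-(ρ ^ m / m.factorial)) * ((-t) ^ m * (Real.exp (aa * t) * h t)) := by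
        intro t; simp only [hF]; ring
      simp_rw [this]
      rw [integral_const_mul]
      unfold Jn
      ring
    have h2 : Jn aa m h ≤ 0 := by
      rw [h1] at h0
      by_contra hpos
      push Not at hpos
      have : 0 < ρ ^ m * Jn aa m h := by positivity
      linarith
    rw [h1, abs_of_nonpos h2]; ring
  have hsum : Summable (fun m : ℕ => ∫ t in Iic (0 : ℝ), F m t) := by
    simp_rw [hFv]
    have hr : |ρ / aa| < 1 := by
      rw [abs_of_pos (div_pos hρ0 aa_pos), div_lt_one aa_pos]; exact hρa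
    have s1 : Summable (fun m : ℕ => (m : ℝ) ^ 1 * (ρ / aa) ^ m) :=
      summable_pow_mul_geometric_of_norm_lt_one 1 (by rw [Real.norm_eq_abs]; exact hr)
    have s2 : Summable (fun m : ℕ => (ρ / aa) ^ m) := summable_geometric_of_abs_lt_one hr
    have s3 : Summable (fun m : ℕ => (ρ / aa) ^ m * (D * (m + N + 1))) := by
      have := (s1.mul_left D).add (s2.mul_left (D * (N + 1)))
      refine this.congr (fun m => ?_)
      ring
    apply Summable.of_nonneg_of_le (fun m => by positivity) _ s3
    intro m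
    have ha := aa_pos
    have h1 := hJ m
    calc ρ ^ m * |Jn aa m h| = (ρ / aa) ^ m * (aa ^ m * |Jn aa m h|) := by
          rw [div_pow]; field_simp
      _ ≤ _ := by
          have : 0 ≤ (ρ / aa) ^ m := by positivity
          gcongr
  have htsum : ∀ t ∈ Iic (0 : ℝ), HasSum (fun m => F m t) (|h t| * Real.exp (x * t)) := by
    intro t ht
    have ht' : t ≤ 0 := ht
    have h1 : HasSum (fun m : ℕ => (ρ * -t) ^ m / (m.factorial : ℝ)) (Real.exp (ρ * -t)) := by
      rw [Real.exp_eq_exp_ℝ]
      exact NormedSpace.expSeries_div_hasSum_exp (ρ * -t)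
    have h2 := h1.mul_left (Real.exp (aa * t) * (-h t))
    have e : Real.exp (aa * t) * (-h t) * Real.exp (ρ * -t) = |h t| * Real.exp (x * t) := by
      rw [abs_of_nonpos (hneg t ht')]
      have : Real.exp (aa * t) * Real.exp (ρ * -t) = Real.exp (x * t) := by
        rw [← Real.exp_add, hρ]; ring_nf
      rw [← this]; ring
    rw [e] at h2
    refine hs_congr (fun m => ?_) h2
    simp only [hF]
    rw [mul_pow]; ring
  refine ⟨?_, ?_⟩
  · apply Continuous.aestronglyMeasurable
    fun_prop
  · rw [hasFiniteIntegral_iff_ofReal (by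
      filter_upwards with t
      have := abs_nonneg (h t)
      positivity)]
    have e1 : ∫⁻ t in Iic (0 : ℝ), ENNReal.ofReal (|h t| * Real.exp (x * t)) =
        ∫⁻ t in Iic (0 : ℝ), ∑' m, ENNReal.ofReal (F m t) := by
      apply setLIntegral_congr_fun measurableSet_Iic
      intro t ht
      simp only
      rw [← (htsum t ht).tsum_eq, ENNReal.ofReal_tsum_of_nonneg (fun m => hF0 m t ht)
        (htsum t ht).summable]
    rw [e1, lintegral_tsum (fun m => (hFi m).1.aemeasurable.ennreal_ofReal)]
    have e2 : ∀ m, ∫⁻ t in Iic (0 : ℝ), ENNReal.ofReal (F m t) =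
        ENNReal.ofReal (∫ t in Iic (0 : ℝ), F m t) := by
      intro m
      rw [ofReal_integral_eq_lintegral_ofReal (hFi m)]
      filter_upwards [ae_restrict_mem measurableSet_Iic] with t ht
      exact hF0 m t ht
    simp_rw [e2]
    rw [← ENNReal.ofReal_tsum_of_nonneg (fun m => by rw [hFv]; positivity) hsum]
    exact ENNReal.ofReal_lt_top

lemma landau_int' {h : ℝ → ℝ} (hc : Continuous h)
    (hi : ∀ x, 0 < x → x < aa → IntegrableOn (fun t => |h t| * Real.exp (x * t)) (Iic 0))
    {x : ℝ} (hx : 0 < x) : IntegrableOn (fun t => |h t| * Real.exp (x * t)) (Iic 0) := by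
  have ha := aa_pos
  have h1 := hi (min x (aa / 2)) (lt_min hx (by linarith))
    (lt_of_le_of_lt (min_le_right _ _) (by linarith))
  refine h1.mono' (by apply Continuous.aestronglyMeasurable; fun_prop) ?_
  filter_upwards [ae_restrict_mem measurableSet_Iic] with t ht
  have ht' : t ≤ 0 := ht
  rw [Real.norm_eq_abs, abs_mul, abs_abs, abs_of_pos (Real.exp_pos _)]
  apply mul_le_mul_of_nonneg_left _ (abs_nonneg _)
  apply Real.exp_le_exp.mpr
  have := min_le_left x (aa / 2)
  nlinarith

theorem landau (n1 : ℕ) : ∃ α < 0, 0 < Sit aa G n1 α := by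
  by_contra hcon
  push Not at hcon
  set h := Sit aa G n1 with hh
  obtain ⟨hc, hb⟩ := Sit_props aa_pos bb_lt G_cont G_bd n1
  rw [← hh] at hc hb
  have hneg : ∀ t ≤ 0, h t ≤ 0 := by
    intro t ht
    rcases ht.lt_or_eq with h1 | h1
    · exact hcon t h1
    · rw [h1]
      have hcl : IsClosed {t : ℝ | h t ≤ 0} := isClosed_le hc continuous_const
      have hsub : Iio (0 : ℝ) ⊆ {t : ℝ | h t ≤ 0} := fun t ht => hcon t ht
      have := hcl.closure_subset_iff.mpr hsub
      rw [closure_Iio] at this
      exact this (mem_Iic.mpr le_rfl)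
  obtain ⟨D, hD0, hD⟩ := lin_bound (p := fun n => aa ^ n * Jn aa n G) G_asym
  have hJ : ∀ m : ℕ, aa ^ m * |Jn aa m h| ≤ D * (m + n1 + 1) := by
    intro m
    have h1 := Jn_Sit aa_pos bb_lt G_cont G_bd m n1
    rw [← hh] at h1
    have h2 := hD (m + n1)
    have h3 : aa ^ m * |Jn aa m h| = |aa ^ (m + n1) * Jn aa (m + n1) G| := by
      rw [h1, abs_mul, abs_mul, abs_of_pos (pow_pos aa_pos _), abs_of_pos (pow_pos aa_pos _),
        pow_add]
      ring
    rw [h3]
    push_cast at h2
    linarith
  have hi : ∀ x, 0 < x → IntegrableOn (fun t => |h t| * Real.exp (x * t)) (Iic 0) := fun x hx =>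
    landau_int' hc (fun x hx hxa => landau_int hc hb hneg hJ hx hxa) hx
  -- LT h is differentiable in the right half plane
  have hd : ∀ z : ℂ, 0 < z.re → DifferentiableAt ℂ (LT h) z := by
    intro z hz
    exact diff_laplace (ε := z.re / 2) hc.aestronglyMeasurable (by linarith)
      (hi _ (by linarith)) (hi _ (by linarith))
  -- downward induction
  have hT : ∀ i j : ℕ, i + j = n1 → ∃ T : ℂ → ℂ, (∀ z : ℂ, 0 < z.re → DifferentiableAt ℂ T z) ∧
      ∀ z : ℂ, bb < z.re → T z = LT (Sit aa G j) z := by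
    intro i
    induction i with
    | zero =>
      intro j hj
      rw [zero_add] at hj
      subst hj
      exact ⟨LT h, hd, fun z _ => rfl⟩
    | succ i ih =>
      intro j hj
      obtain ⟨T, hT1, hT2⟩ := ih (j + 1) (by omega)
      obtain ⟨jc, jb⟩ := Sit_props aa_pos bb_lt G_cont G_bd j
      refine ⟨fun z => ((aa - z) * T z + Sop aa (Sit aa G j) 0) / aa, ?_, ?_⟩
      · intro z hz
        have := hT1 z hz
        fun_prop
      · intro z hz
        have h1 := LT_Sop aa_pos bb_lt jc jb hz
        have h2 : T z = LT (Sop aa (Sit aa G j)) z := hT2 z hz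
        simp only
        rw [h2, h1]
        have : (aa : ℂ) ≠ 0 := by exact_mod_cast aa_pos.ne'
        field_simp
        ring
  obtain ⟨T, hT1, hT2⟩ := hT n1 0 (by omega)
  -- identity theorem
  set S : Set ℂ := {z | 0 < z.re ∧ z.re < 3} with hS
  have hSo : IsOpen S := by
    have h1 : IsOpen {z : ℂ | 0 < z.re} := isOpen_lt continuous_const Complex.continuous_re
    have h2 : IsOpen {z : ℂ | z.re < 3} := isOpen_lt Complex.continuous_re continuous_const
    exact h1.inter h2
  have hSc : IsPreconnected S := by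
    have h1 : Convex ℝ {z : ℂ | 0 < z.re} := convex_halfSpace_re_gt 0
    have h2 : Convex ℝ {z : ℂ | z.re < 3} := convex_halfSpace_re_lt 3
    exact (h1.inter h2).isPreconnected
  have f1 : AnalyticOnNhd ℂ (fun z => riemannZeta₁ z * (T z + EE z)) S := by
    apply DifferentiableOn.analyticOnNhd _ hSo
    intro z hz
    apply DifferentiableAt.differentiableWithinAt
    have e1 := hT1 z hz.1
    have e2 := EE_diff hz.2
    have e3 := differentiable_riemannZeta₁ z
    exact e3.mul (e1.add e2)
  have f2 : AnalyticOnNhd ℂ (fun z => (z - 1) * (Complex.Gamma z * riemannZeta (z + 1))) S := by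
    apply DifferentiableOn.analyticOnNhd _ hSo
    intro z hz
    apply DifferentiableAt.differentiableWithinAt
    have e1 : DifferentiableAt ℂ Complex.Gamma z := by
      apply Complex.differentiableAt_Gamma
      intro m hm
      have := congrArg Complex.re hm
      simp at this
      have hm' : (0 : ℝ) ≤ m := by positivity
      linarith [hz.1]
    have e2 : DifferentiableAt ℂ (fun z => riemannZeta (z + 1)) z := by
      have h1 : DifferentiableAt ℂ riemannZeta (z + 1) := by
        apply differentiableAt_riemannZeta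
        intro h
        have : z = 0 := by linear_combination h
        rw [this] at hz
        have := hz.1
        simp at this
      exact h1.comp z (by fun_prop)
    have e3 : DifferentiableAt ℂ (fun z : ℂ => z - 1) z := by fun_prop
    exact e3.mul (e1.mul e2)
  have hmem : (2 : ℂ) ∈ S := by simp [hS]; norm_num
  have heq : (fun z => riemannZeta₁ z * (T z + EE z)) =ᶠ[𝓝 (2 : ℂ)]
      (fun z => (z - 1) * (Complex.Gamma z * riemannZeta (z + 1))) := by
    have hopen : IsOpen {z : ℂ | bb < z.re ∧ z.re < 3} := by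
      have h1 : IsOpen {z : ℂ | bb < z.re} := isOpen_lt continuous_const Complex.continuous_re
      have h2 : IsOpen {z : ℂ | z.re < 3} := isOpen_lt Complex.continuous_re continuous_const
      exact h1.inter h2
    have hm : {z : ℂ | bb < z.re ∧ z.re < 3} ∈ 𝓝 (2 : ℂ) :=
      hopen.mem_nhds (by simp [bb]; norm_num)
    filter_upwards [hm] with z hz
    obtain ⟨hz1, hz3⟩ := hz
    have h1 := LT_add_EE hz1 hz3
    have h2 : T z = LT G z := hT2 z hz1
    rw [h2, h1]
    have hzb := one_lt_bb.trans hz1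
    have hne1 : z ≠ 1 := by
      rintro rfl
      simp at hzb
    have e1 := riemannZeta_eq_inv_sub_mul hne1
    have hzeta : riemannZeta z ≠ 0 := riemannZeta_ne_zero_of_one_lt_re hzb
    have hz3' : z - 1 ≠ 0 := sub_ne_zero.mpr hne1
    have e2 : riemannZeta₁ z = (z - 1) * riemannZeta z := by
      rw [e1]; field_simp
    rw [e2]
    field_simp
  obtain ⟨ρ, hρ1, hρ2, hρ3⟩ := exists_zero
  have hρS : ρ ∈ S := ⟨hρ1, by linarith⟩
  have key := f1.eqOn_of_preconnected_of_eventuallyEq f2 hSc hmem heq hρS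
  simp only at key
  have hne1 : ρ ≠ 1 := by
    rintro rfl
    simp at hρ2
  have hz3' : ρ - 1 ≠ 0 := sub_ne_zero.mpr hne1
  have e1 := riemannZeta_eq_inv_sub_mul hne1
  have e2 : riemannZeta₁ ρ = 0 := by
    rw [hρ3] at e1
    rcases mul_eq_zero.mp e1.symm with h1 | h1
    · exact absurd h1 (inv_ne_zero hz3')
    · exact h1
  rw [e2, zero_mul] at key
  have hG : Complex.Gamma ρ ≠ 0 := Complex.Gamma_ne_zero_of_re_pos hρ1
  have hZ : riemannZeta (ρ + 1) ≠ 0 := riemannZeta_ne_zero_of_one_lt_re (by simpa using hρ1)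
  exact (mul_ne_zero hz3' (mul_ne_zero hG hZ)) key.symm

end ZC
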