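import Pool.Agent.H41.ZcChain

/-!
# Vanishing moments force sign changes
-/

open Set Filter Topology MeasureTheory Polynomial

namespace ZC

/-! ## a polynomial with prescribed sign pattern -/

lemma poly_step (K : ℕ) : ∀ (F : ℝ → ℝ) (σ y : ℝ), (σ = 1 ∨ σ = -1) →
    (∀ z < y, 0 < σ * F z → ¬ CL F K z) →
    ∃ Q : ℝ[X], Q ≠ 0 ∧ Q.natDegree ≤ K ∧ (∀ t < y, 0 ≤ F t * Q.eval t) ∧
      ∀ t, y ≤ t → 0 ≤ -σ * Q.eval t := by
  induction K with
  | zero =>
    intro F σ y hσ hno
    have hσ2 : σ * σ = 1 := by rcases hσ with h | h <;> rw [h] <;> norm_num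
    have hσ0 : σ ≠ 0 := by rintro rfl; norm_num at hσ2
    refine ⟨C (-σ), ?_, by simp, ?_, ?_⟩
    · rw [Ne, C_eq_zero]; simpa using hσ0
    · intro t ht
      simp only [eval_C]
      by_contra hneg
      push Not at hneg
      have h1 : 0 < σ * F t := by nlinarith
      exact hno t ht h1 (by intro h0; rw [h0] at h1; simp at h1)
    · intro t _
      simp only [eval_C]
      nlinarith
  | succ K ih =>
    intro F σ y hσ hno
    have hσ2 : σ * σ = 1 := by rcases hσ with h | h <;> rw [h] <;> norm_num
    have hσ0 : σ ≠ 0 := by rintro rfl; norm_num at hσ2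
    set A : Set ℝ := {z | z < y ∧ 0 < -σ * F z ∧ CL F K z} with hA
    -- right of a point of A the sign is controlled
    have hright : ∀ z ∈ A, ∀ t, z < t → t < y → σ * F t ≤ 0 := by
      intro z hz t hzt hty
      by_contra hpos
      push Not at hpos
      apply hno t hty hpos
      refine ⟨z, hzt, ?_, hz.2.2⟩
      have h1 := hz.2.1
      have : F z * F t = (σ * F z) * (σ * F t) := by
        calc F z * F t = (σ * σ) * (F z * F t) := by rw [hσ2, one_mul]
          _ = _ := by ring
      rw [this]
      nlinarith
    have hmk : ∀ (Q : ℝ[X]) (y1 : ℝ), Q ≠ 0 → Q.natDegree ≤ K →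
        (Polynomial.C y1 - X) * Q ≠ 0 ∧ ((Polynomial.C y1 - X) * Q).natDegree ≤ K + 1 := by
      intro Q y1 hQ hQd
      have h1 : (Polynomial.C y1 - X : ℝ[X]) ≠ 0 := by
        intro h0
        have := congrArg (fun p => p.eval (y1 + 1)) h0
        simp at this
      refine ⟨mul_ne_zero h1 hQ, ?_⟩
      have h2 : (Polynomial.C y1 - X : ℝ[X]).natDegree ≤ 1 := by
        refine (natDegree_sub_le _ _).trans ?_
        simp
      have := natDegree_mul_le (p := (Polynomial.C y1 - X : ℝ[X])) (q := Q)
      omega
    rcases A.eq_empty_or_nonempty with hem | hne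
    · obtain ⟨Q, q1, q2, q3, q4⟩ := ih F (-σ) y (by
        rcases hσ with h | h
        · right; rw [h]
        · left; rw [h]; norm_num) (by
        intro z hz h1 h2
        have : z ∈ A := ⟨hz, h1, h2⟩
        rw [hem] at this
        exact this.elim)
      refine ⟨(Polynomial.C y - X) * Q, (hmk Q y q1 q2).1, (hmk Q y q1 q2).2, ?_, ?_⟩
      · intro t ht
        have := q3 t ht
        simp only [eval_mul, eval_sub, eval_C, eval_X]
        have h2 : 0 < y - t := by linarith
        calc 0 ≤ (y - t) * (F t * Q.eval t) := by positivity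
          _ = _ := by ring
      · intro t ht
        have := q4 t ht
        simp only [eval_mul, eval_sub, eval_C, eval_X]
        have h2 : 0 ≤ t - y := by linarith
        calc 0 ≤ (t - y) * (- -σ * Q.eval t) := by positivity
          _ = _ := by ring
    · by_cases hbdd : BddBelow A
      · set y1 := sInf A with hy1
        obtain ⟨z0, hz0⟩ := hne
        have hy1y : y1 < y := lt_of_le_of_lt (csInf_le hbdd hz0) hz0.1
        obtain ⟨Q, q1, q2, q3, q4⟩ := ih F (-σ) y1 (by
          rcases hσ with h | h
          · right; rw [h]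
          · left; rw [h]; norm_num) (by
          intro z hz h1 h2
          have : z ∈ A := ⟨hz.trans hy1y, h1, h2⟩
          have := csInf_le hbdd this
          linarith)
        refine ⟨(Polynomial.C y1 - X) * Q, (hmk Q y1 q1 q2).1, (hmk Q y1 q1 q2).2, ?_, ?_⟩
        · intro t ht
          simp only [eval_mul, eval_sub, eval_C, eval_X]
          rcases lt_trichotomy t y1 with h | h | h
          · have := q3 t h
            have h2 : 0 < y1 - t := by linarith
            calc 0 ≤ (y1 - t) * (F t * Q.eval t) := by positivity
              _ = _ := by ring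
          · rw [h]; simp
          · obtain ⟨z, hz, hzt⟩ := exists_lt_of_csInf_lt ⟨z0, hz0⟩ h
            have h1 := hright z hz t hzt ht
            have h2 := q4 t h.le
            have h3 : 0 < t - y1 := by linarith
            have e : F t * ((y1 - t) * Q.eval t) = (t - y1) * ((-(σ * F t)) * (- -σ * Q.eval t)) := by
              calc F t * ((y1 - t) * Q.eval t) = (σ * σ) * (F t * ((y1 - t) * Q.eval t)) := by
                    rw [hσ2, one_mul]
                _ = _ := by ring
            rw [e]
            have h4 : 0 ≤ -(σ * F t) := by linarith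
            positivity
        · intro t ht
          have := q4 t (by linarith)
          simp only [eval_mul, eval_sub, eval_C, eval_X]
          have h2 : 0 ≤ t - y1 := by linarith
          calc 0 ≤ (t - y1) * (- -σ * Q.eval t) := by positivity
            _ = _ := by ring
      · refine ⟨C (-σ), ?_, by simp, ?_, ?_⟩
        · rw [Ne, C_eq_zero]; simpa using hσ0
        · intro t ht
          simp only [eval_C]
          obtain ⟨z, hz, hzt⟩ := not_bddBelow_iff.mp hbdd t
          have := hright z hz t hzt ht
          linarith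
        · intro t _
          simp only [eval_C]
          nlinarith

lemma poly_final (F : ℝ → ℝ) (K : ℕ) (hno : ∀ z, ¬ CL F K z) (hne : ∃ t, F t ≠ 0) :
    ∃ Q : ℝ[X], Q ≠ 0 ∧ Q.degree < K ∧ ∀ t, 0 ≤ F t * Q.eval t := by
  classical
  have hex : ∃ k, ∀ z, ¬ CL F k z := ⟨K, hno⟩
  set k0 := Nat.find hex with hk0
  have h1 : ∀ z, ¬ CL F k0 z := Nat.find_spec hex
  have h2 : k0 ≤ K := Nat.find_min' hex hno
  have h3 : 1 ≤ k0 := by
    by_contra hcon
    have : k0 = 0 := by omega
    obtain ⟨t, ht⟩ := hne
    rw [this] at h1
    exact h1 t ht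
  have h4 : ∃ z, CL F (k0 - 1) z := by
    by_contra hcon
    push Not at hcon
    have := Nat.find_min' hex hcon
    omega
  obtain ⟨z0, hz0⟩ := h4
  have hz0ne := CL_ne hz0
  obtain ⟨τ, hτ, hτF⟩ : ∃ τ : ℝ, (τ = 1 ∨ τ = -1) ∧ 0 < τ * F z0 := by
    rcases lt_or_gt_of_ne hz0ne with h | h
    · exact ⟨-1, Or.inr rfl, by linarith⟩
    · exact ⟨1, Or.inl rfl, by linarith⟩
  have hτ2 : τ * τ = 1 := by rcases hτ with h | h <;> rw [h] <;> norm_num
  have hk : k0 - 1 + 1 = k0 := by omega
  have hprod : ∀ s t, F s * F t = (τ * F s) * (τ * F t) := by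
    intro s t
    calc F s * F t = (τ * τ) * (F s * F t) := by rw [hτ2, one_mul]
      _ = _ := by ring
  obtain ⟨Q, q1, q2, q3, q4⟩ := poly_step (k0 - 1) F (-τ) z0 (by
    rcases hτ with h | h
    · right; rw [h]
    · left; rw [h]; norm_num) (by
    intro z hz h5 h6
    apply h1 z0
    rw [← hk]
    refine ⟨z, hz, ?_, h6⟩
    rw [hprod]
    nlinarith)
  refine ⟨Q, q1, ?_, ?_⟩
  · rw [Polynomial.degree_eq_natDegree q1]
    exact_mod_cast (by omega : Q.natDegree < K)
  · intro t
    rcases lt_trichotomy t z0 with h | h | h
    · exact q3 t h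
    · have h5 := q4 t h.ge
      have h6 : 0 < τ * F t := by rw [h]; exact hτF
      have e : F t * Q.eval t = (τ * F t) * (- -τ * Q.eval t) := by
        calc F t * Q.eval t = (τ * τ) * (F t * Q.eval t) := by rw [hτ2, one_mul]
          _ = _ := by ring
      rw [e]; positivity
    · have h5 := q4 t h.le
      have h6 : 0 ≤ τ * F t := by
        by_contra hneg
        push Not at hneg
        apply h1 t
        rw [← hk]
        refine ⟨z0, h, ?_, hz0⟩
        rw [hprod]
        nlinarith
      have e : F t * Q.eval t = (τ * F t) * (- -τ * Q.eval t) := by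
        calc F t * Q.eval t = (τ * τ) * (F t * Q.eval t) := by rw [hτ2, one_mul]
          _ = _ := by ring
      rw [e]; positivity

/-! ## integrability -/

lemma poly_exp_bound (P : ℝ[X]) : ∃ C : ℝ, 0 ≤ C ∧ ∀ t : ℝ, |P.eval t| ≤ C * Real.exp (|t| / 2) := by
  induction P using Polynomial.induction_on' with
  | add p q hp hq =>
    obtain ⟨C1, h1, h2⟩ := hp
    obtain ⟨C2, h3, h4⟩ := hq
    refine ⟨C1 + C2, by positivity, fun t => ?_⟩
    rw [eval_add, add_mul]
    exact (abs_add_le _ _).trans (add_le_add (h2 t) (h4 t))
  | monomial n c =>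
    refine ⟨|c| * (2 ^ n * n.factorial), by positivity, fun t => ?_⟩
    rw [eval_monomial, abs_mul, mul_assoc]
    apply mul_le_mul_of_nonneg_left _ (abs_nonneg c)
    have h1 := Real.pow_div_factorial_le_exp (|t| / 2) (by positivity) n
    rw [div_le_iff₀ (by positivity), div_pow] at h1
    rw [abs_pow]
    rw [div_le_iff₀ (by positivity)] at h1
    calc |t| ^ n ≤ Real.exp (|t| / 2) * n.factorial * 2 ^ n := h1
      _ = _ := by ring

lemma exp_abs_integrable {c : ℝ} (hc : 0 < c) : Integrable (fun t : ℝ => Real.exp (-c * |t|)) := by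
  rw [← integrableOn_univ, ← Set.Iic_union_Ioi (a := (0 : ℝ))]
  apply IntegrableOn.union
  · have h1 : IntegrableOn (fun t : ℝ => Real.exp (c * t)) (Iic 0) := integrableOn_exp_mul_Iic hc 0
    refine h1.congr_fun (fun t ht => ?_) measurableSet_Iic
    have ht' : t ≤ 0 := ht
    rw [abs_of_nonpos ht']; ring_nf
  · have h1 : IntegrableOn (fun t : ℝ => Real.exp (-c * t)) (Ioi 0) :=
      integrableOn_exp_mul_Ioi (by linarith) 0
    refine h1.congr_fun (fun t ht => ?_) measurableSet_Ioi
    have ht' : 0 < t := ht
    rw [abs_of_pos ht']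

lemma mul_poly_integrable {u : ℝ → ℝ} (hu : Continuous u) {C : ℝ}
    (hb : ∀ t, |u t| ≤ C * Real.exp (-|t|)) (P : ℝ[X]) :
    Integrable (fun t => u t * P.eval t) := by
  obtain ⟨D, hD0, hD⟩ := poly_exp_bound P
  have h1 := (exp_abs_integrable (c := 1 / 2) (by norm_num)).const_mul (C * D)
  refine h1.mono' (hu.mul P.continuous).aestronglyMeasurable ?_
  filter_upwards with t
  rw [Real.norm_eq_abs, abs_mul]
  have hC0 : 0 ≤ C := by
    have := hb 0
    have h2 := abs_nonneg (u 0)
    simp at this
    linarith
  calc |u t| * |P.eval t| ≤ (C * Real.exp (-|t|)) * (D * Real.exp (|t| / 2)) := by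
        apply mul_le_mul (hb t) (hD t) (abs_nonneg _)
        positivity
    _ = C * D * Real.exp (-(1 / 2) * |t|) := by
        have : -(1 / 2) * |t| = -|t| + |t| / 2 := by ring
        rw [this, Real.exp_add]; ring

/-- The class of functions with `m` vanishing moments. -/
structure V (m : ℕ) (u : ℝ → ℝ) : Prop where
  cont : Continuous u
  bd : ∃ C : ℝ, ∀ t, |u t| ≤ C * Real.exp (-|t|)
  ne : ∃ t, u t ≠ 0
  mom : ∀ P : ℝ[X], P.degree < m → ∫ t, u t * P.eval t = 0

theorem V.chain {m : ℕ} {u : ℝ → ℝ} (h : V m u) : ∃ z, CL u m z := by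
  by_contra hcon
  push Not at hcon
  obtain ⟨Q, q1, q2, q3⟩ := poly_final u m hcon h.ne
  obtain ⟨C, hC⟩ := h.bd
  have hint := mul_poly_integrable h.cont hC Q
  have h0 := h.mom Q q2
  have h1 : (fun t => u t * Q.eval t) =ᵐ[volume] 0 :=
    (integral_eq_zero_iff_of_nonneg q3 hint).mp h0
  have h2 : (fun t => u t * Q.eval t) = fun _ => 0 := by
    have := (h.cont.mul Q.continuous).ae_eq_iff_eq (μ := volume) (continuous_const (y := (0 : ℝ)))
    exact this.mp h1
  -- u vanishes off the roots of Q
  obtain ⟨t0, ht0⟩ := h.ne
  have hopen : IsOpen {t | u t ≠ 0} := isOpen_ne_fun h.cont continuous_const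
  have hsub : {t | u t ≠ 0} ⊆ (Q.rootSet ℝ : Set ℝ) := by
    intro t ht
    have h3 : u t * Q.eval t = 0 := congrFun h2 t
    rcases mul_eq_zero.mp h3 with h | h
    · exact absurd h ht
    · rw [Polynomial.mem_rootSet]
      exact ⟨q1, by simpa using h⟩
  have hfin : ({t | u t ≠ 0} : Set ℝ).Finite := (Q.rootSet_finite ℝ).subset hsub
  have hnb : {t | u t ≠ 0} ∈ 𝓝 t0 := hopen.mem_nhds ht0
  have := infinite_of_mem_nhds t0 hnb
  exact this hfin

/-! ## closure properties -/

/-- closure under differences -/
theorem V.diff {m : ℕ} {u : ℝ → ℝ} (h : V m u) {b : ℝ} (hb : 0 < b) :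
    V (m + 1) (fun t => u t - u (t + b)) := by
  obtain ⟨C, hC⟩ := h.bd
  have hC0 : 0 ≤ C := by
    have := hC 0
    have h2 := abs_nonneg (u 0)
    simp at this
    linarith
  refine ⟨h.cont.sub (h.cont.comp (continuous_id.add continuous_const)),
    ⟨C + C * Real.exp b, fun t => ?_⟩, ?_, ?_⟩
  · have h1 : |u t - u (t + b)| ≤ |u t| + |u (t + b)| := abs_sub _ _
    have h2 : Real.exp (-|t + b|) ≤ Real.exp b * Real.exp (-|t|) := by
      rw [← Real.exp_add]
      apply Real.exp_le_exp.mpr
      have : |t| ≤ |t + b| + |b| := by
        have := abs_sub (t + b) b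
        simpa using this
      rw [abs_of_pos hb] at this
      linarith
    calc |u t - u (t + b)| ≤ C * Real.exp (-|t|) + C * Real.exp (-|t + b|) :=
          h1.trans (add_le_add (hC t) (hC (t + b)))
      _ ≤ C * Real.exp (-|t|) + C * (Real.exp b * Real.exp (-|t|)) := by gcongr
      _ = _ := by ring
  · by_contra hcon
    push Not at hcon
    obtain ⟨t0, ht0⟩ := h.ne
    have hper : ∀ n : ℕ, u (t0 + n * b) = u t0 := by
      intro n
      induction n with
      | zero => simp
      | succ n ih =>
        have := hcon (t0 + n * b)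
        push_cast
        have e : t0 + (n + 1) * b = t0 + n * b + b := by ring
        rw [e]; linarith
    have hlim : Tendsto (fun n : ℕ => C * Real.exp (-|t0 + n * b|)) atTop (𝓝 0) := by
      have h1 : Tendsto (fun n : ℕ => t0 + n * b) atTop atTop := by
        apply tendsto_atTop_add_const_left
        exact tendsto_natCast_atTop_atTop.atTop_mul_const hb
      have h2 := (Real.tendsto_exp_neg_atTop_nhds_zero.comp (tendsto_abs_atTop_atTop.comp h1)).const_mul C
      simpa using h2
    have h1 : |u t0| ≤ 0 := by
      refine ge_of_tendsto' hlim (fun n => ?_)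
      have := hC (t0 + n * b)
      rwa [hper] at this
    exact ht0 (abs_nonpos_iff.mp h1)
  · intro P hP
    set P' : ℝ[X] := P.comp (X - Polynomial.C b) with hP'
    have hPdeg : (P - P').degree < m := by
      by_cases hP0 : P = 0
      · rw [hP', hP0]; simp
      by_cases hd0 : P.natDegree = 0
      · obtain ⟨c, hc⟩ := Polynomial.natDegree_eq_zero.mp hd0
        rw [hP', ← hc]; simp
      have hX : (X - Polynomial.C b : ℝ[X]).natDegree = 1 := natDegree_X_sub_C b
      have hn : P'.natDegree = P.natDegree := by rw [hP', natDegree_comp, hX, mul_one]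
      have hP'0 : P' ≠ 0 := by
        intro h0
        rw [h0] at hn; simp at hn; omega
      have hdeg : P.degree = P'.degree := by
        rw [degree_eq_natDegree hP0, degree_eq_natDegree hP'0, hn]
      have hlc : P.leadingCoeff = P'.leadingCoeff := by
        rw [hP', leadingCoeff_comp (by rw [hX]; norm_num)]
        simp
      have h1 := degree_sub_lt_left hdeg hP0 hlc
      refine lt_of_lt_of_le h1 ?_
      rw [degree_eq_natDegree hP0] at hP ⊢
      have : P.natDegree < m + 1 := by exact_mod_cast hP
      exact_mod_cast (by omega : P.natDegree ≤ m)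
    have i1 := mul_poly_integrable h.cont hC P
    have i2 := mul_poly_integrable h.cont hC P'
    have e1 : ∫ t, u (t + b) * P.eval t = ∫ t, u t * P'.eval t := by
      have := integral_add_right_eq_self (μ := volume) (fun t => u t * P'.eval t) b
      rw [← this]
      congr 1
      ext t
      rw [hP']
      simp
    have i3 : Integrable (fun t => u (t + b) * P.eval t) := by
      have := i2.comp_add_right b
      refine this.congr ?_
      filter_upwards with t
      rw [hP']
      simp
    have e2 : ∀ t, (u t - u (t + b)) * P.eval t = u t * P.eval t - u (t + b) * P.eval t := by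
      intro t; ring
    simp_rw [e2]
    rw [integral_sub i1 i3, e1, ← integral_sub i1 i2]
    have := h.mom (P - P') hPdeg
    rw [← this]
    congr 1
    ext t
    rw [eval_sub]; ring

/-- closure under one-sided smoothing -/
theorem V.smooth {m : ℕ} {a : ℝ} (ha : 0 < a) {F U : ℝ → ℝ} (h : V m F) (hS : Sm a F U)
    (hUb : ∃ C : ℝ, ∀ t, |U t| ≤ C * Real.exp (-|t|)) : V m U := by
  obtain ⟨C, hC⟩ := h.bd
  obtain ⟨D, hD⟩ := hUb
  have hUc : Continuous U := continuous_iff_continuousAt.mpr fun t => (hS.der t).continuousAt
  refine ⟨hUc, ⟨D, hD⟩, ?_, ?_⟩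
  · by_contra hcon
    push Not at hcon
    obtain ⟨t0, ht0⟩ := h.ne
    have hU0 : U = fun _ => 0 := funext hcon
    have h1 := hS.der t0
    rw [hU0] at h1
    have h2 := h1.unique (hasDerivAt_const t0 (0 : ℝ))
    simp at h2
    rcases h2 with h | h
    · exact ha.ne' h
    · exact ht0 h
  · -- induction on the degree
    have key : ∀ n : ℕ, ∀ P : ℝ[X], P.degree < m → P.natDegree ≤ n → ∫ t, U t * P.eval t = 0 := by
      intro n
      induction n with
      | zero =>
        intro P hP hn
        have hP' : P.derivative = 0 := by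
          obtain ⟨c, hc⟩ := Polynomial.natDegree_eq_zero.mp (by omega : P.natDegree = 0)
          rw [← hc]; simp
        have i1 := mul_poly_integrable hUc hD P
        have i2 := mul_poly_integrable h.cont hC P
        have h3 : ∫ t, (a * (F t - U t) * P.eval t + U t * P.derivative.eval t) = 0 := by
          apply integral_eq_zero_of_hasDerivAt_of_integrable (f := fun t => U t * P.eval t)
          · intro t
            exact (hS.der t).mul (P.hasDerivAt t)
          · rw [hP']
            simp only [eval_zero, mul_zero, add_zero]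
            have := ((i2.sub i1).const_mul a)
            refine this.congr ?_
            filter_upwards with t
            simp only [Pi.sub_apply]; ring
          · exact i1
        rw [hP'] at h3
        simp only [eval_zero, mul_zero, add_zero] at h3
        have e : ∀ t, a * (F t - U t) * P.eval t = a * (F t * P.eval t - U t * P.eval t) := by
          intro t; ring
        simp_rw [e] at h3
        rw [integral_const_mul, integral_sub i2 i1, h.mom P hP] at h3
        have := ha.ne'
        have h4 : (0 : ℝ) - ∫ t, U t * P.eval t = 0 := by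
          rcases mul_eq_zero.mp h3 with h | h
          · exact absurd h this
          · exact h
        linarith
      | succ n ih =>
        intro P hP hn
        have hd1 : P.derivative.degree < m := lt_of_le_of_lt degree_derivative_le hP
        have hd2 : P.derivative.natDegree ≤ n := by
          have := natDegree_derivative_le P
          omega
        have i1 := mul_poly_integrable hUc hD P
        have i2 := mul_poly_integrable h.cont hC P
        have i3 := mul_poly_integrable hUc hD P.derivative
        have h3 : ∫ t, (a * (F t - U t) * P.eval t + U t * P.derivative.eval t) = 0 := by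
          apply integral_eq_zero_of_hasDerivAt_of_integrable (f := fun t => U t * P.eval t)
          · intro t
            exact (hS.der t).mul (P.hasDerivAt t)
          · have := ((i2.sub i1).const_mul a).add i3
            refine this.congr ?_
            filter_upwards with t
            simp only [Pi.sub_apply, Pi.add_apply]; ring
          · exact i1
        have e : ∀ t, a * (F t - U t) * P.eval t + U t * P.derivative.eval t =
            a * (F t * P.eval t - U t * P.eval t) + U t * P.derivative.eval t := by
          intro t; ring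
        simp_rw [e] at h3
        have i4 : Integrable (fun t => a * (F t * P.eval t - U t * P.eval t)) :=
          (i2.sub i1).const_mul a
        rw [integral_add i4 i3, integral_const_mul, integral_sub i2 i1,
          h.mom P hP, ih P.derivative hd1 hd2, add_zero] at h3
        have := ha.ne'
        have h4 : (0 : ℝ) - ∫ t, U t * P.eval t = 0 := by
          rcases mul_eq_zero.mp h3 with h | h
          · exact absurd h this
          · exact h
        linarith
    intro P hP
    exact key P.natDegree P hP le_rfl

end ZC
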