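import Pool.Agent.H41.ZcLandau
import Pool.Agent.H41.ZcMoment

/-!
# For all large `k` the function `G_k` has at least `k` sign changes
-/

open Set Filter Topology MeasureTheory

namespace ZC

lemma exp_neg_exp_le {t : ℝ} : Real.exp (-Real.exp t) ≤ Real.exp (-t) := by
  apply Real.exp_le_exp.mpr
  have := Real.add_one_le_exp t
  linarith

lemma V_base {v : ℝ → ℝ} (hv : Continuous v) {β c0 D : ℝ} (hβ : 0 < β) (hD : 0 ≤ D)
    (h1 : ∀ t, |v t - c0| ≤ D * Real.exp t) (h2 : ∀ t, |v t| ≤ D * Real.exp (-Real.exp t))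
    (hne : ∃ t, v t ≠ v (t + β)) : V 0 (fun t => v t - v (t + β)) := by
  refine ⟨hv.sub (hv.comp (continuous_id.add continuous_const)),
    ⟨D * (1 + Real.exp β) + 2 * D, fun t => ?_⟩, ?_, ?_⟩
  · have hb0 : 0 < Real.exp β := Real.exp_pos β
    rcases le_total t 0 with ht | ht
    · rw [abs_of_nonpos ht, neg_neg]
      have e1 : v t - v (t + β) = (v t - c0) - (v (t + β) - c0) := by ring
      rw [e1]
      calc |(v t - c0) - (v (t + β) - c0)| ≤ |v t - c0| + |v (t + β) - c0| := abs_sub _ _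
        _ ≤ D * Real.exp t + D * Real.exp (t + β) := add_le_add (h1 t) (h1 (t + β))
        _ = D * (1 + Real.exp β) * Real.exp t := by rw [Real.exp_add]; ring
        _ ≤ _ := by
          have := Real.exp_pos t
          gcongr
          linarith
    · rw [abs_of_nonneg ht]
      have e2 : Real.exp (-Real.exp (t + β)) ≤ Real.exp (-t) := by
        refine exp_neg_exp_le.trans ?_
        apply Real.exp_le_exp.mpr
        linarith
      calc |v t - v (t + β)| ≤ |v t| + |v (t + β)| := abs_sub _ _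
        _ ≤ D * Real.exp (-Real.exp t) + D * Real.exp (-Real.exp (t + β)) :=
          add_le_add (h2 t) (h2 (t + β))
        _ ≤ D * Real.exp (-t) + D * Real.exp (-t) :=
          add_le_add (mul_le_mul_of_nonneg_left exp_neg_exp_le hD)
            (mul_le_mul_of_nonneg_left e2 hD)
        _ = 2 * D * Real.exp (-t) := by ring
        _ ≤ _ := by
          have := Real.exp_pos (-t)
          gcongr
          have : 0 ≤ D * (1 + Real.exp β) := by positivity
          linarith
  · obtain ⟨t, ht⟩ := hne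
    exact ⟨t, sub_ne_zero.mpr ht⟩
  · intro P hP
    have : P = 0 := by
      rw [Nat.cast_zero] at hP
      by_contra h0
      have := Polynomial.degree_eq_natDegree h0
      rw [this] at hP
      exact absurd hP (by simp)
    rw [this]; simp

/-- `log (1 + x)` in the additive variable -/
noncomputable def v0 (t : ℝ) : ℝ := Real.log (1 + Real.exp (-Real.exp t))

lemma v0_cont : Continuous v0 := by
  unfold v0
  apply Continuous.log
  · fun_prop
  · intro t
    have := Real.exp_pos (-Real.exp t)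
    positivity

lemma x_lt_one (t : ℝ) : Real.exp (-Real.exp t) < 1 := exp_neg_lt_one (Real.exp_pos t)

lemma one_sub_x_le (t : ℝ) : 1 - Real.exp (-Real.exp t) ≤ Real.exp t := by
  have := Real.add_one_le_exp (-Real.exp t)
  linarith

lemma v0_bound1 (t : ℝ) : |v0 t - Real.log 2| ≤ 1 * Real.exp t := by
  unfold v0
  set x := Real.exp (-Real.exp t) with hx
  have h0 : 0 < x := Real.exp_pos _
  have h1 : x < 1 := x_lt_one t
  have h2 := one_sub_x_le t
  rw [← hx] at h2
  have h3 : Real.log (1 + x) ≤ Real.log 2 := Real.log_le_log (by linarith) (by linarith)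
  rw [abs_of_nonpos (by linarith)]
  have h4 : Real.log 2 - Real.log (1 + x) = Real.log (2 / (1 + x)) :=
    (Real.log_div (by norm_num) (by linarith)).symm
  have h5 := Real.log_le_sub_one_of_pos (x := 2 / (1 + x)) (by positivity)
  have h6 : 2 / (1 + x) - 1 ≤ 1 - x := by
    rw [div_sub_one (by linarith), div_le_iff₀ (by linarith)]
    nlinarith
  linarith

lemma v0_bound2 (t : ℝ) : |v0 t| ≤ 1 * Real.exp (-Real.exp t) := by
  unfold v0
  have h0 : 0 < Real.exp (-Real.exp t) := Real.exp_pos _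
  rw [abs_of_nonneg (Real.log_nonneg (by linarith))]
  have := Real.log_le_sub_one_of_pos (x := 1 + Real.exp (-Real.exp t)) (by positivity)
  linarith

lemma v0_ne {β : ℝ} (hβ : 0 < β) : ∃ t, v0 t ≠ v0 (t + β) := by
  refine ⟨0, ?_⟩
  unfold v0
  intro h
  have h1 := Real.log_injOn_pos (x₁ := 1 + Real.exp (-Real.exp 0))
    (by simp only [mem_Ioi]; positivity) (by simp only [mem_Ioi]; positivity) h
  have h2 : Real.exp (-Real.exp 0) = Real.exp (-Real.exp (0 + β)) := by linarith
  have h3 := Real.exp_injective h2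
  have h4 : Real.exp 0 = Real.exp (0 + β) := by linarith
  have h5 := Real.exp_injective h4
  linarith

lemma V_v0 {β : ℝ} (hβ : 0 < β) : V 0 (fun t => v0 t - v0 (t + β)) :=
  V_base v0_cont hβ zero_le_one v0_bound1 v0_bound2 (v0_ne hβ)

lemma log_prime_pos {q : ℕ} (hq : q.Prime) : 0 < Real.log q :=
  Real.log_pos (by exact_mod_cast hq.one_lt)

lemma V_Gk (k : ℕ) : V k (Gk (k + 1)) := by
  induction k with
  | zero =>
    have h := V_v0 (log_prime_pos (prime_nth 1))
    have e : Gk (0 + 1) = fun t => v0 t - v0 (t + Real.log (Nat.nth Nat.Prime 1)) := by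
      ext t
      rw [Gk_succ, Gk_zero, Gk_zero]
      rfl
    rw [e]; exact h
  | succ k ih =>
    have h := ih.diff (log_prime_pos (prime_nth (k + 1 + 1)))
    have e : Gk (k + 1 + 1) = fun t => Gk (k + 1) t -
        Gk (k + 1) (t + Real.log (Nat.nth Nat.Prime (k + 1 + 1))) := by
      ext t
      rw [Gk_succ]
    rw [e]; exact h

lemma V.sop {m : ℕ} {F : ℝ → ℝ} (h : V m F) : V m (Sop aa F) := by
  obtain ⟨C, hC⟩ := h.bd
  have hC0 : 0 ≤ C := by
    have := hC 0
    have h2 := abs_nonneg (F 0)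
    simp at this
    linarith
  have h1 : (1 : ℝ) < aa := by unfold aa; norm_num
  have h2 : (-1 : ℝ) < aa := by unfold aa; norm_num
  have b1 : ∀ t, |F t| ≤ C * Real.exp (-1 * t) := by
    intro t
    refine (hC t).trans ?_
    gcongr
    linarith [le_abs_self t]
  have b2 : ∀ t, |F t| ≤ C * Real.exp (-(-1) * t) := by
    intro t
    refine (hC t).trans ?_
    gcongr
    have := neg_abs_le t
    linarith
  apply h.smooth aa_pos (Sop_Sm aa_pos h1 h.cont b1)
  refine ⟨aa * C / (aa - 1) + aa * C / (aa - -1), fun t => ?_⟩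
  have c1 := Sop_bound aa_pos h1 b1 t
  have c2 := Sop_bound aa_pos h2 b2 t
  have p1 : 0 ≤ aa * C / (aa - 1) := by
    have := aa_pos
    have : 0 < aa - 1 := by linarith
    positivity
  have p2 : 0 ≤ aa * C / (aa - -1) := by
    have := aa_pos
    have : 0 < aa - -1 := by linarith
    positivity
  rcases le_total t 0 with ht | ht
  · rw [abs_of_nonpos ht, neg_neg]
    refine c2.trans ?_
    rw [show -(-1 : ℝ) * t = t by ring]
    have := Real.exp_pos t
    gcongr
    linarith
  · rw [abs_of_nonneg ht]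
    refine c1.trans ?_
    rw [show -(1 : ℝ) * t = -t by ring]
    have := Real.exp_pos (-t)
    gcongr
    linarith

lemma V.sit {m : ℕ} {F : ℝ → ℝ} (h : V m F) (n : ℕ) : V m (Sit aa F n) := by
  induction n with
  | zero => exact h
  | succ n ih => exact ih.sop

lemma Sit_CL {b C : ℝ} {h : ℝ → ℝ} (hab : b < aa) (hc : Continuous h)
    (hb : ∀ t, |h t| ≤ C * Real.exp (-b * t)) {m : ℕ} (n : ℕ) :
    ∀ z, CL (Sit aa h n) m z → ∃ z', CL h m z' := by
  induction n with
  | zero => intro z hz; exact ⟨z, hz⟩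
  | succ n ih =>
    intro z hz
    obtain ⟨r, _, _, h3⟩ := (Sit_Sm aa_pos hab hc hb n).VDL aa_pos hz
    exact ih r h3

lemma Gk_bd (k : ℕ) (t : ℝ) : |Gk k t| ≤ Cc bb * Real.exp (-bb * t) :=
  Gk_bound k one_lt_bb (by unfold bb; norm_num) t

/-- **Main analytic theorem**: for all large `k`, `G_k` has at least `k` sign changes. -/
theorem many_changes : ∃ K, ∀ k, K ≤ k → ∃ z, CL (Gk k) k z := by
  -- the values at the origin tend to -∞
  have hbot : Tendsto (fun n => Sit aa G (n + 1) 0) atTop atBot := by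
    have h1 : Tendsto (fun n => aa ^ n * Jn aa n G) atTop atBot :=
      to_bot (p := fun n => aa ^ n * Jn aa n G) (l := -2 / aa ^ 2) (by
        have := aa_pos
        apply div_neg_of_neg_of_pos (by norm_num) (by positivity)) G_asym
    have h2 := h1.const_mul_atBot aa_pos
    refine h2.congr (fun n => ?_)
    rw [Sit_zero_eq aa_pos bb_lt G_cont G_bd, pow_succ]
    ring
  obtain ⟨n0, hn0⟩ := eventually_atTop.mp (hbot.eventually (eventually_lt_atBot (0 : ℝ)))
  set n1 := n0 + 1 with hn1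
  have hneg : ∀ n, n1 ≤ n → Sit aa G n 0 < 0 := by
    intro n hn
    obtain ⟨m, rfl⟩ : ∃ m, n = m + 1 := ⟨n - 1, by omega⟩
    exact hn0 m (by omega)
  obtain ⟨α, hα, hα2⟩ := landau n1
  set B : ℝ := ((aa / (aa - bb)) ^ n1 * Cc bb) * Real.exp (-bb * α) with hB
  have hBB : ∀ k t, α ≤ t → |Sit aa (Gk k) n1 t| ≤ B := by
    intro k t ht
    obtain ⟨_, h2⟩ := Sit_props aa_pos bb_lt (Gk_cont k) (Gk_bd k) n1
    refine (h2 t).trans ?_
    rw [hB]
    have h3 : 0 ≤ (aa / (aa - bb)) ^ n1 * Cc bb := by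
      have := Cc_nonneg bb
      have h4 : 0 < aa - bb := by linarith [bb_lt]
      have := aa_pos
      positivity
    apply mul_le_mul_of_nonneg_left _ h3
    apply Real.exp_le_exp.mpr
    have : 0 < bb := by unfold bb; norm_num
    nlinarith
  have hB0 : 0 ≤ B := (abs_nonneg _).trans (hBB 0 α le_rfl)
  obtain ⟨n2, hn2⟩ := eventually_atTop.mp (hbot.eventually (eventually_lt_atBot (-B)))
  set N1 := max n1 (n2 + 1) with hN1
  have hNB : Sit aa G N1 0 < -B := by
    obtain ⟨m, hm⟩ : ∃ m, N1 = m + 1 := ⟨N1 - 1, by omega⟩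
    rw [hm]
    exact hn2 m (by omega)
  have hlim : ∀ n t, Tendsto (fun k => Sit aa (Gk k) n t) atTop (𝓝 (Sit aa G n t)) := fun n t =>
    Sit_tendsto aa_pos bb_lt Gk_cont Gk_bd Gk_tendsto n t
  have hev : ∀ᶠ k in atTop, (∀ n ∈ Finset.Icc n1 N1, Sit aa (Gk k) n 0 < 0) ∧
      0 < Sit aa (Gk k) n1 α ∧ Sit aa (Gk k) N1 0 < -B := by
    refine Filter.Eventually.and ?_ (Filter.Eventually.and ?_ ?_)
    · rw [Filter.eventually_all_finset]
      intro n hn
      rw [Finset.mem_Icc] at hn
      exact (hlim n 0).eventually (gt_mem_nhds (hneg n hn.1))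
    · exact (hlim n1 α).eventually (lt_mem_nhds hα2)
    · exact (hlim N1 0).eventually (gt_mem_nhds hNB)
  obtain ⟨K0, hK0⟩ := eventually_atTop.mp hev
  refine ⟨max K0 1, fun k hk => ?_⟩
  by_contra hcon
  push Not at hcon
  obtain ⟨h1, h2, h3⟩ := hK0 k (le_trans (le_max_left _ _) hk)
  have hk1 : 1 ≤ k := le_trans (le_max_right _ _) hk
  obtain ⟨k', rfl⟩ : ∃ k', k = k' + 1 := ⟨k - 1, by omega⟩
  have key := lobe aa_pos (fun n => Sit aa (Gk (k' + 1)) n)
    (fun n => Sit_Sm aa_pos bb_lt (Gk_cont _) (Gk_bd _) n) k' n1 N1 ?_ ?_ ?_ α hα h2 B hB0 ?_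
    (le_max_left _ _)
  · linarith
  · intro z hz
    obtain ⟨z', hz'⟩ := Sit_CL bb_lt (Gk_cont _) (Gk_bd _) n1 z hz
    exact hcon z' hz'
  · intro n _
    exact ((V_Gk k').sit n).chain
  · intro n hn1 hn2
    exact h1 n (Finset.mem_Icc.mpr ⟨hn1, hn2⟩)
  · intro t ht
    have := hBB (k' + 1) t ht
    rw [abs_le] at this
    exact this.1

end ZC
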