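import Pool.Agent.H41.ZcTransform

/-!
# Analytic continuation of the transform of `G` and asymptotics of its smoothings
-/

open Set Filter Topology MeasureTheory

namespace ZC

/-- the smoothing parameter -/
noncomputable def aa : ℝ := 101 / 100
/-- the growth exponent -/
noncomputable def bb : ℝ := 201 / 200

lemma aa_pos : 0 < aa := by unfold aa; norm_num
lemma bb_lt : bb < aa := by unfold aa bb; norm_num
lemma one_lt_bb : 1 < bb := by unfold bb; norm_num

lemma G_bd (t : ℝ) : |G t| ≤ Cc bb * Real.exp (-bb * t) :=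
  G_bound one_lt_bb (by unfold bb; norm_num) t

/-- the part of the transform over the positive half line -/
noncomputable def EE (z : ℂ) : ℂ := ∫ t in Ioi (0 : ℝ), (G t : ℂ) * Complex.exp (z * t)

lemma G_exp_int {x : ℝ} (hx : x < 3) : IntegrableOn (fun t => |G t| * Real.exp (x * t)) (Ioi 0) := by
  have h1 : IntegrableOn (fun r => Cc 3 * Real.exp ((x - 3) * r)) (Ioi 0) :=
    (integrableOn_exp_mul_Ioi (by linarith : x - 3 < 0) 0).const_mul _
  refine h1.mono' ?_ ?_
  · apply Continuous.aestronglyMeasurable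
    have := G_cont
    fun_prop
  · filter_upwards with r
    rw [Real.norm_eq_abs, abs_mul, abs_abs, abs_of_pos (Real.exp_pos _)]
    calc |G r| * Real.exp (x * r) ≤ (Cc 3 * Real.exp (-3 * r)) * Real.exp (x * r) := by
          gcongr
          exact G_bound (by norm_num) le_rfl r
      _ = Cc 3 * Real.exp ((x - 3) * r) := by
          rw [mul_assoc, ← Real.exp_add]; ring_nf

lemma EE_diff {z : ℂ} (hz : z.re < 3) : DifferentiableAt ℂ EE z := by
  exact diff_laplace (ε := (3 - z.re) / 2) G_cont.aestronglyMeasurable (by linarith)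
    (G_exp_int (by linarith)) (G_exp_int (by linarith))

lemma LT_add_EE {z : ℂ} (h1 : bb < z.re) (h3 : z.re < 3) :
    LT G z + EE z = Complex.Gamma z * riemannZeta (z + 1) / riemannZeta z := by
  rw [← G_transform (one_lt_bb.trans h1) h3]
  have hint := int_two G_cont (z := z) G_bd (G_bound (by norm_num) le_rfl) h1 h3
  unfold LT EE
  exact intervalIntegral.integral_Iic_add_Ioi hint.integrableOn hint.integrableOn

/-- the continuation -/
noncomputable def Psi (z : ℂ) : ℂ :=
  Complex.Gamma (z + 1) * riemannZeta₁ (z + 1) * (z - 1) / riemannZeta₁ z - z ^ 2 * EE z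

lemma Gamma_diff1 {z : ℂ} (hz : -1 < z.re) : DifferentiableAt ℂ (fun z => Complex.Gamma (z + 1)) z := by
  have h1 : DifferentiableAt ℂ Complex.Gamma (z + 1) := by
    apply Complex.differentiableAt_Gamma
    intro m h
    have := congrArg Complex.re h
    simp at this
    have hm : (0 : ℝ) ≤ m := by positivity
    linarith
  exact h1.comp z (by fun_prop)

lemma Psi_diff {z : ℂ} (h1 : -1 < z.re) (h3 : z.re < 3) (h0 : riemannZeta₁ z ≠ 0) :
    DifferentiableAt ℂ Psi z := by
  unfold Psi
  have e1 := Gamma_diff1 h1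
  have e2 := EE_diff h3
  have e3 : DifferentiableAt ℂ (fun z => riemannZeta₁ (z + 1)) z :=
    (differentiable_riemannZeta₁.comp (differentiable_id.add_const 1)) z
  have e4 : DifferentiableAt ℂ riemannZeta₁ z := differentiable_riemannZeta₁ z
  apply DifferentiableAt.sub
  · apply DifferentiableAt.div _ e4 h0
    exact (e1.mul e3).mul (by fun_prop)
  · exact (by fun_prop : DifferentiableAt ℂ (fun z : ℂ => z ^ 2) z).mul e2

lemma Psi_zero : Psi 0 = -2 := by
  unfold Psi
  have h1 := riemannZeta_eq_inv_sub_mul (s := 0) (by norm_num)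
  rw [riemannZeta_zero] at h1
  have h2 : riemannZeta₁ 0 = 1 / 2 := by
    have : ((0 : ℂ) - 1)⁻¹ = -1 := by norm_num
    rw [this] at h1
    linear_combination h1
  rw [h2]
  simp

lemma Psi_eq {z : ℂ} (h1 : bb < z.re) (h3 : z.re < 3) : Psi z = z ^ 2 * LT G z := by
  have key := LT_add_EE h1 h3
  have hb := one_lt_bb
  have hz0 : z ≠ 0 := by
    rintro rfl
    simp at h1; linarith
  have hz1 : z ≠ 1 := by
    rintro rfl
    simp at h1; linarith
  have hz2 : z + 1 ≠ 1 := by simpa using hz0
  have hzeta : riemannZeta z ≠ 0 := riemannZeta_ne_zero_of_one_lt_re (hb.trans h1)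
  have e1 := riemannZeta_eq_inv_sub_mul hz1
  have e2 := riemannZeta_eq_inv_sub_mul hz2
  have e3 : z + 1 - 1 = z := by ring
  rw [e3] at e2
  have e4 : riemannZeta₁ z ≠ 0 := by
    intro h0; rw [h0, mul_zero] at e1; exact hzeta e1
  have e5 := Complex.Gamma_add_one z hz0
  have hz3 : z - 1 ≠ 0 := sub_ne_zero.mpr hz1
  unfold Psi
  have e6 : LT G z = Complex.Gamma z * riemannZeta (z + 1) / riemannZeta z - EE z := by
    rw [← key]; ring
  rw [e6, e5, e1, e2]
  field_simp

lemma ball_sub : ∃ R : ℝ, aa < R ∧ DifferentiableOn ℂ Psi (Metric.ball (aa : ℂ) R) := by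
  set U : Set ℂ := {z | -1 < z.re ∧ z.re < 3 ∧ riemannZeta₁ z ≠ 0} with hU
  have hUo : IsOpen U := by
    have h1 : IsOpen {z : ℂ | -1 < z.re} := isOpen_lt continuous_const Complex.continuous_re
    have h2 : IsOpen {z : ℂ | z.re < 3} := isOpen_lt Complex.continuous_re continuous_const
    have h3 : IsOpen {z : ℂ | riemannZeta₁ z ≠ 0} :=
      isOpen_ne_fun differentiable_riemannZeta₁.continuous continuous_const
    have : U = {z : ℂ | -1 < z.re} ∩ ({z : ℂ | z.re < 3} ∩ {z : ℂ | riemannZeta₁ z ≠ 0}) := by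
      ext z; simp [hU]
    rw [this]
    exact h1.inter (h2.inter h3)
  have hsub : Metric.closedBall (aa : ℂ) aa ⊆ U := by
    intro z hz
    have hre : |z.re - aa| ≤ aa := by
      rw [mem_closedBall_iff_norm] at hz
      have := Complex.abs_re_le_norm (z - aa)
      simp at this
      linarith
    rw [abs_le] at hre
    refine ⟨?_, ?_, ?_⟩
    · linarith [hre.1]
    · have := hre.2
      have : aa < 3 / 2 := by unfold aa; norm_num
      linarith
    · apply zeta1_ne_zero
      have e1 : ((101 / 100 : ℝ) : ℂ) = 101 / 100 := by push_cast; ring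
      unfold aa at hz
      rw [e1] at hz
      exact hz
  obtain ⟨δ, hδ, hδU⟩ := (isCompact_closedBall (aa : ℂ) aa).exists_thickening_subset_open hUo hsub
  rw [thickening_closedBall hδ aa_pos.le] at hδU
  refine ⟨δ + aa, by linarith, ?_⟩
  intro z hz
  obtain ⟨h1, h2, h3⟩ := hδU hz
  exact (Psi_diff h1 h2 h3).differentiableWithinAt

/-- Increments of the iterated smoothings at the origin. -/
theorem G_asym : Tendsto (fun n => aa ^ (n + 1) * Jn aa (n + 1) G - aa ^ n * Jn aa n G) atTop
    (𝓝 (-2 / aa ^ 2)) := by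
  obtain ⟨R, hR, hd⟩ := ball_sub
  apply asym aa_pos bb_lt G_cont G_bd hR hd _ Psi_zero
  intro w hw
  have h1 : |w.re| ≤ ‖w‖ := Complex.abs_re_le_norm w
  rw [abs_le] at h1
  have h2 : ((aa : ℂ) + w).re = aa + w.re := by simp
  have h3 : bb < ((aa : ℂ) + w).re := by rw [h2]; linarith [h1.1]
  have h4 : ((aa : ℂ) + w).re < 3 := by
    rw [h2]
    have : aa < 3 / 2 := by unfold aa; norm_num
    have : 0 < bb := by unfold bb; norm_num
    linarith [h1.2]
  exact Psi_eq h3 h4

end ZC
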