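import Pool.Agent.H41.ZcChain

/-!
# The one-sided exponential smoothing operator
-/

open Set Filter Topology MeasureTheory

namespace ZC

/-- one-sided exponential smoothing -/
noncomputable def Sop (a : ℝ) (F : ℝ → ℝ) (t : ℝ) : ℝ :=
  a * Real.exp (-a * t) * ∫ r in Iic t, F r * Real.exp (a * r)

variable {a b C : ℝ} {h : ℝ → ℝ}

lemma int_aux (hab : b < a) (hc : Continuous h) (hb : ∀ t, |h t| ≤ C * Real.exp (-b * t)) (t : ℝ) :
    IntegrableOn (fun r => h r * Real.exp (a * r)) (Iic t) := by
  have h1 : IntegrableOn (fun r => C * Real.exp ((a - b) * r)) (Iic t) :=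
    (integrableOn_exp_mul_Iic (by linarith : 0 < a - b) t).const_mul C
  refine h1.mono' ?_ ?_
  · exact (hc.mul (by fun_prop)).aestronglyMeasurable
  · filter_upwards with r
    rw [Real.norm_eq_abs, abs_mul, abs_of_pos (Real.exp_pos _)]
    calc |h r| * Real.exp (a * r) ≤ (C * Real.exp (-b * r)) * Real.exp (a * r) := by
          gcongr; exact hb r
      _ = C * Real.exp ((a - b) * r) := by
          rw [mul_assoc, ← Real.exp_add]; ring_nf

lemma I_bound (hab : b < a) (hb : ∀ t, |h t| ≤ C * Real.exp (-b * t)) (t : ℝ) :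
    |∫ r in Iic t, h r * Real.exp (a * r)| ≤ C / (a - b) * Real.exp ((a - b) * t) := by
  have h1 : IntegrableOn (fun r => C * Real.exp ((a - b) * r)) (Iic t) :=
    (integrableOn_exp_mul_Iic (by linarith : 0 < a - b) t).const_mul C
  have h2 : ‖∫ r in Iic t, h r * Real.exp (a * r)‖ ≤ ∫ r in Iic t, C * Real.exp ((a - b) * r) := by
    apply norm_integral_le_of_norm_le h1
    filter_upwards with r
    rw [Real.norm_eq_abs, abs_mul, abs_of_pos (Real.exp_pos _)]
    calc |h r| * Real.exp (a * r) ≤ (C * Real.exp (-b * r)) * Real.exp (a * r) := by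
          gcongr; exact hb r
      _ = C * Real.exp ((a - b) * r) := by
          rw [mul_assoc, ← Real.exp_add]; ring_nf
  rw [integral_const_mul, integral_exp_mul_Iic (by linarith)] at h2
  rw [Real.norm_eq_abs] at h2
  refine h2.trans (le_of_eq ?_)
  ring

lemma Sop_bound (ha : 0 < a) (hab : b < a) (hb : ∀ t, |h t| ≤ C * Real.exp (-b * t)) (t : ℝ) :
    |Sop a h t| ≤ (a * C / (a - b)) * Real.exp (-b * t) := by
  unfold Sop
  rw [abs_mul, abs_mul, abs_of_pos ha, abs_of_pos (Real.exp_pos _)]
  calc a * Real.exp (-a * t) * |∫ r in Iic t, h r * Real.exp (a * r)|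
      ≤ a * Real.exp (-a * t) * (C / (a - b) * Real.exp ((a - b) * t)) := by
        gcongr; exact I_bound hab hb t
    _ = (a * C / (a - b)) * (Real.exp (-a * t) * Real.exp ((a - b) * t)) := by ring
    _ = _ := by rw [← Real.exp_add]; ring_nf

lemma I_deriv (hab : b < a) (hc : Continuous h) (hb : ∀ t, |h t| ≤ C * Real.exp (-b * t)) (t : ℝ) :
    HasDerivAt (fun t => ∫ r in Iic t, h r * Real.exp (a * r)) (h t * Real.exp (a * t)) t := by
  have hc' : Continuous (fun r => h r * Real.exp (a * r)) := hc.mul (by fun_prop)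
  have h1 : (fun t => ∫ r in Iic t, h r * Real.exp (a * r)) =
      fun t => (∫ r in Iic (0 : ℝ), h r * Real.exp (a * r)) +
        ∫ r in (0 : ℝ)..t, h r * Real.exp (a * r) := by
    ext t
    have := intervalIntegral.integral_Iic_sub_Iic (int_aux hab hc hb 0) (int_aux hab hc hb t)
    linarith
  rw [h1]
  have := (hc'.integral_hasStrictDerivAt 0 t).hasDerivAt
  exact this.const_add _

lemma Sop_Sm (ha : 0 < a) (hab : b < a) (hc : Continuous h)
    (hb : ∀ t, |h t| ≤ C * Real.exp (-b * t)) : Sm a h (Sop a h) := by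
  constructor
  · intro t
    have h1 : HasDerivAt (fun t => a * Real.exp (-a * t)) (a * (Real.exp (-a * t) * (-a * 1))) t :=
      (((hasDerivAt_id t).const_mul (-a)).exp).const_mul a
    have h2 := h1.mul (I_deriv hab hc hb t)
    have e : a * (h t - Sop a h t) = a * (Real.exp (-a * t) * (-a * 1)) *
        (∫ r in Iic t, h r * Real.exp (a * r)) +
        a * Real.exp (-a * t) * (h t * Real.exp (a * t)) := by
      unfold Sop
      have : Real.exp (-a * t) * Real.exp (a * t) = 1 := by
        rw [← Real.exp_add]; simp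
      linear_combination (-a * h t) * this
    rw [e]
    exact h2
  · have h1 : ∀ t, Real.exp (a * t) * Sop a h t = a * ∫ r in Iic t, h r * Real.exp (a * r) := by
      intro t
      unfold Sop
      have : Real.exp (a * t) * Real.exp (-a * t) = 1 := by
        rw [← Real.exp_add]; simp
      linear_combination (a * ∫ r in Iic t, h r * Real.exp (a * r)) * this
    simp_rw [h1]
    have h2 : Tendsto (fun t => ∫ r in Iic t, h r * Real.exp (a * r)) atBot (𝓝 0) := by
      apply squeeze_zero_norm (a := fun t => C / (a - b) * Real.exp ((a - b) * t))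
      · intro t; rw [Real.norm_eq_abs]; exact I_bound hab hb t
      · have h3 : Tendsto (fun t : ℝ => Real.exp ((a - b) * t)) atBot (𝓝 0) := by
          apply Real.tendsto_exp_atBot.comp
          exact tendsto_id.const_mul_atBot (by linarith)
        simpa using h3.const_mul (C / (a - b))
    simpa using h2.const_mul a

lemma Sop_cont (ha : 0 < a) (hab : b < a) (hc : Continuous h)
    (hb : ∀ t, |h t| ≤ C * Real.exp (-b * t)) : Continuous (Sop a h) :=
  continuous_iff_continuousAt.mpr fun t => ((Sop_Sm ha hab hc hb).der t).continuousAt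

/-- pointwise convergence is preserved -/
lemma Sop_tendsto (hab : b < a) {hk : ℕ → ℝ → ℝ} (hc : ∀ k, Continuous (hk k))
    (hb : ∀ k t, |hk k t| ≤ C * Real.exp (-b * t))
    (hlim : ∀ t, Tendsto (fun k => hk k t) atTop (𝓝 (h t))) (t : ℝ) :
    Tendsto (fun k => Sop a (hk k) t) atTop (𝓝 (Sop a h t)) := by
  unfold Sop
  apply Tendsto.const_mul
  have h1 : IntegrableOn (fun r => C * Real.exp ((a - b) * r)) (Iic t) :=
    (integrableOn_exp_mul_Iic (by linarith : 0 < a - b) t).const_mul C
  apply tendsto_integral_of_dominated_convergence (fun r => C * Real.exp ((a - b) * r))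
  · intro k
    exact ((hc k).mul (by fun_prop)).aestronglyMeasurable
  · exact h1
  · intro k
    filter_upwards with r
    rw [Real.norm_eq_abs, abs_mul, abs_of_pos (Real.exp_pos _)]
    calc |hk k r| * Real.exp (a * r) ≤ (C * Real.exp (-b * r)) * Real.exp (a * r) := by
          gcongr; exact hb k r
      _ = C * Real.exp ((a - b) * r) := by
          rw [mul_assoc, ← Real.exp_add]; ring_nf
  · filter_upwards with r
    exact (hlim r).mul_const _

lemma pow_exp_bound {c : ℝ} (hc : 0 < c) (n : ℕ) {t : ℝ} (ht : t ≤ 0) :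
    (-t) ^ n ≤ (n.factorial / c ^ n) * Real.exp (-c * t) := by
  have h1 := Real.pow_div_factorial_le_exp (c * (-t)) (by nlinarith) n
  rw [div_le_iff₀ (by positivity), mul_pow] at h1
  have h2 : c * -t = -c * t := by ring
  rw [h2] at h1
  rw [div_mul_eq_mul_div, le_div_iff₀ (by positivity)]
  nlinarith

lemma int_pow (hab : b < a) (hc : Continuous h) (hb : ∀ t, |h t| ≤ C * Real.exp (-b * t)) (n : ℕ) :
    IntegrableOn (fun t => (-t) ^ n * (Real.exp (a * t) * h t)) (Iic 0) := by
  set c := (a - b) / 2 with hcdef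
  have hc0 : 0 < c := by rw [hcdef]; linarith
  have hC0 : 0 ≤ C := by
    have := hb 0
    have h2 := abs_nonneg (h 0)
    simp at this
    linarith
  have h1 : IntegrableOn (fun r => ((n.factorial / c ^ n) * C) * Real.exp (c * r)) (Iic 0) :=
    (integrableOn_exp_mul_Iic hc0 0).const_mul _
  refine h1.mono' ?_ ?_
  · apply Continuous.aestronglyMeasurable
    fun_prop
  · filter_upwards [ae_restrict_mem measurableSet_Iic] with t ht
    have ht' : t ≤ 0 := ht
    rw [Real.norm_eq_abs, abs_mul, abs_mul, abs_of_pos (Real.exp_pos _),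
      abs_of_nonneg (by apply pow_nonneg; linarith : 0 ≤ (-t) ^ n)]
    calc (-t) ^ n * (Real.exp (a * t) * |h t|)
        ≤ ((n.factorial / c ^ n) * Real.exp (-c * t)) *
          (Real.exp (a * t) * (C * Real.exp (-b * t))) := by
          apply mul_le_mul (pow_exp_bound hc0 n ht')
          · gcongr; exact hb t
          · positivity
          · positivity
      _ = ((n.factorial / c ^ n) * C) * (Real.exp (-c * t) * (Real.exp (a * t) * Real.exp (-b * t))) := by
          ring
      _ = _ := by
          rw [← Real.exp_add, ← Real.exp_add]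
          congr 2
          rw [hcdef]; ring

/-- the moments `J_n` -/
noncomputable def Jn (a : ℝ) (n : ℕ) (h : ℝ → ℝ) : ℝ :=
  (∫ t in Iic (0 : ℝ), (-t) ^ n * (Real.exp (a * t) * h t)) / n.factorial

lemma Sop_zero (a : ℝ) (h : ℝ → ℝ) : Sop a h 0 = a * Jn a 0 h := by
  unfold Sop Jn
  simp only [mul_zero, Real.exp_zero, mul_one, pow_zero, one_mul, Nat.factorial_zero, Nat.cast_one,
    div_one]
  congr 1
  congr 1
  ext t
  ring

lemma Jn_Sop (ha : 0 < a) (hab : b < a) (hc : Continuous h)
    (hb : ∀ t, |h t| ≤ C * Real.exp (-b * t)) (n : ℕ) :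
    Jn a n (Sop a h) = a * Jn a (n + 1) h := by
  have hS := Sop_Sm ha hab hc hb
  have hSc := Sop_cont ha hab hc hb
  have hSb := Sop_bound ha hab hb
  have i1 := int_pow hab hSc hSb n
  have i2 := int_pow hab hc hb (n + 1)
  have hder : ∀ t ∈ Iic (0 : ℝ), HasDerivAt
      (fun t => (-t) ^ (n + 1) * (Real.exp (a * t) * (Sop a h t + 0)))
      (-((n + 1 : ℕ) : ℝ) * ((-t) ^ n * (Real.exp (a * t) * Sop a h t)) +
        a * ((-t) ^ (n + 1) * (Real.exp (a * t) * h t))) t := by
    intro t _
    have h1 : HasDerivAt (fun t : ℝ => (-t) ^ (n + 1)) (((n + 1 : ℕ) : ℝ) * (-t) ^ n * (-1)) t := by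
      have := (hasDerivAt_neg t).fun_pow (n + 1)
      simpa using this
    have h2 : HasDerivAt (fun t => (-t) ^ (n + 1) * (Real.exp (a * t) * (Sop a h t + 0)))
        ((((n + 1 : ℕ) : ℝ) * (-t) ^ n * (-1)) * (Real.exp (a * t) * (Sop a h t + 0)) +
          (-t) ^ (n + 1) * (a * Real.exp (a * t) * (h t + 0))) t := h1.mul (hS.der' 0 t)
    refine h2.congr_deriv ?_
    ring
  have hint : IntegrableOn (fun t => -((n + 1 : ℕ) : ℝ) * ((-t) ^ n * (Real.exp (a * t) * Sop a h t)) +
        a * ((-t) ^ (n + 1) * (Real.exp (a * t) * h t))) (Iic 0) :=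
    (i1.const_mul _).add (i2.const_mul _)
  have hlim : Tendsto (fun t => (-t) ^ (n + 1) * (Real.exp (a * t) * (Sop a h t + 0))) atBot (𝓝 0) := by
    have hD := hSb
    set D := a * C / (a - b) with hDdef
    set c := (a - b) / 2 with hcdef
    have hc0 : 0 < c := by rw [hcdef]; linarith
    have hD0 : 0 ≤ D := by
      have := hD 0
      have h2 := abs_nonneg (Sop a h 0)
      simp at this
      linarith
    apply squeeze_zero_norm' (a := fun t => (((n + 1).factorial / c ^ (n + 1)) * D) * Real.exp (c * t))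
    · filter_upwards [eventually_le_atBot (0 : ℝ)] with t ht
      rw [Real.norm_eq_abs, abs_mul, abs_mul, abs_of_pos (Real.exp_pos _), add_zero,
        abs_of_nonneg (by apply pow_nonneg; linarith : 0 ≤ (-t) ^ (n + 1))]
      calc (-t) ^ (n + 1) * (Real.exp (a * t) * |Sop a h t|)
          ≤ (((n + 1).factorial / c ^ (n + 1)) * Real.exp (-c * t)) *
            (Real.exp (a * t) * (D * Real.exp (-b * t))) := by
            apply mul_le_mul (pow_exp_bound hc0 (n + 1) ht)
            · gcongr; exact hD t
            · positivity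
            · positivity
        _ = (((n + 1).factorial / c ^ (n + 1)) * D) *
            (Real.exp (-c * t) * (Real.exp (a * t) * Real.exp (-b * t))) := by
            ring
        _ = _ := by
            rw [← Real.exp_add, ← Real.exp_add]
            congr 2
            rw [hcdef]; ring
    · have h3 : Tendsto (fun t : ℝ => Real.exp (c * t)) atBot (𝓝 0) := by
        apply Real.tendsto_exp_atBot.comp
        exact tendsto_id.const_mul_atBot hc0
      simpa using h3.const_mul (((n + 1).factorial / c ^ (n + 1)) * D)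
  have key := integral_Iic_of_hasDerivAt_of_tendsto' hder hint hlim
  rw [integral_add (i1.const_mul _) (i2.const_mul _), integral_const_mul, integral_const_mul] at key
  simp only [neg_zero, ne_eq, Nat.add_eq_zero_iff, one_ne_zero, and_false, not_false_eq_true,
    zero_pow, zero_mul, sub_zero] at key
  unfold Jn
  rw [Nat.factorial_succ]
  generalize (∫ t in Iic (0 : ℝ), (-t) ^ n * (Real.exp (a * t) * Sop a h t)) = A at key ⊢
  generalize (∫ t in Iic (0 : ℝ), (-t) ^ (n + 1) * (Real.exp (a * t) * h t)) = B at key ⊢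
  push_cast at key ⊢
  have hf : (n.factorial : ℝ) ≠ 0 := by positivity
  have hn : ((n : ℝ) + 1) ≠ 0 := by positivity
  field_simp
  linarith

/-- iterates -/
noncomputable def Sit (a : ℝ) (h : ℝ → ℝ) : ℕ → ℝ → ℝ
  | 0 => h
  | n + 1 => Sop a (Sit a h n)

lemma Sit_props (ha : 0 < a) (hab : b < a) (hc : Continuous h)
    (hb : ∀ t, |h t| ≤ C * Real.exp (-b * t)) (n : ℕ) :
    Continuous (Sit a h n) ∧ ∀ t, |Sit a h n t| ≤ ((a / (a - b)) ^ n * C) * Real.exp (-b * t) := by
  induction n with
  | zero => exact ⟨hc, by simpa [Sit] using hb⟩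
  | succ n ih =>
    obtain ⟨i1, i2⟩ := ih
    refine ⟨Sop_cont ha hab i1 i2, fun t => ?_⟩
    have := Sop_bound ha hab i2 t
    refine this.trans (le_of_eq ?_)
    rw [pow_succ]; ring

lemma Sit_Sm (ha : 0 < a) (hab : b < a) (hc : Continuous h)
    (hb : ∀ t, |h t| ≤ C * Real.exp (-b * t)) (n : ℕ) : Sm a (Sit a h n) (Sit a h (n + 1)) := by
  obtain ⟨i1, i2⟩ := Sit_props ha hab hc hb n
  exact Sop_Sm ha hab i1 i2

lemma Sit_tendsto (ha : 0 < a) (hab : b < a) {hk : ℕ → ℝ → ℝ} (hc : ∀ k, Continuous (hk k))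
    (hb : ∀ k t, |hk k t| ≤ C * Real.exp (-b * t))
    (hlim : ∀ t, Tendsto (fun k => hk k t) atTop (𝓝 (h t))) (n : ℕ) (t : ℝ) :
    Tendsto (fun k => Sit a (hk k) n t) atTop (𝓝 (Sit a h n t)) := by
  induction n generalizing t with
  | zero => exact hlim t
  | succ n ih =>
    exact Sop_tendsto hab (fun k => (Sit_props ha hab (hc k) (hb k) n).1)
      (fun k => (Sit_props ha hab (hc k) (hb k) n).2) ih t

lemma Jn_Sit (ha : 0 < a) (hab : b < a) (hc : Continuous h)
    (hb : ∀ t, |h t| ≤ C * Real.exp (-b * t)) (m n : ℕ) :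
    Jn a m (Sit a h n) = a ^ n * Jn a (m + n) h := by
  induction n generalizing m with
  | zero => simp [Sit]
  | succ n ih =>
    obtain ⟨i1, i2⟩ := Sit_props ha hab hc hb n
    change Jn a m (Sop a (Sit a h n)) = _
    rw [Jn_Sop ha hab i1 i2, ih, pow_succ, show m + 1 + n = m + (n + 1) by ring]
    ring

lemma Sit_zero_eq (ha : 0 < a) (hab : b < a) (hc : Continuous h)
    (hb : ∀ t, |h t| ≤ C * Real.exp (-b * t)) (n : ℕ) :
    Sit a h (n + 1) 0 = a ^ (n + 1) * Jn a n h := by
  change Sop a (Sit a h n) 0 = _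
  rw [Sop_zero, Jn_Sit ha hab hc hb, pow_succ, zero_add]
  ring

/-- the Laplace transform over the negative half line -/
noncomputable def LT (h : ℝ → ℝ) (z : ℂ) : ℂ := ∫ t in Iic (0 : ℝ), (h t : ℂ) * Complex.exp (z * t)

lemma LT_int (hc : Continuous h) (hb : ∀ t, |h t| ≤ C * Real.exp (-b * t)) {z : ℂ}
    (hz : b < z.re) : IntegrableOn (fun t : ℝ => (h t : ℂ) * Complex.exp (z * t)) (Iic 0) := by
  have h1 : IntegrableOn (fun r => C * Real.exp ((z.re - b) * r)) (Iic 0) :=
    (integrableOn_exp_mul_Iic (by linarith : 0 < z.re - b) 0).const_mul C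
  refine h1.mono' ?_ ?_
  · apply Continuous.aestronglyMeasurable
    fun_prop
  · filter_upwards with r
    rw [norm_mul, Complex.norm_exp, Complex.norm_real, Real.norm_eq_abs]
    have : (z * (r : ℂ)).re = z.re * r := by simp
    rw [this]
    calc |h r| * Real.exp (z.re * r) ≤ (C * Real.exp (-b * r)) * Real.exp (z.re * r) := by
          gcongr; exact hb r
      _ = C * Real.exp ((z.re - b) * r) := by
          rw [mul_assoc, ← Real.exp_add]; ring_nf

lemma LT_Sop (ha : 0 < a) (hab : b < a) (hc : Continuous h)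
    (hb : ∀ t, |h t| ≤ C * Real.exp (-b * t)) {z : ℂ} (hz : b < z.re) :
    (a - z) * LT (Sop a h) z = a * LT h z - Sop a h 0 := by
  have hS := Sop_Sm ha hab hc hb
  have hSc := Sop_cont ha hab hc hb
  have hSb := Sop_bound ha hab hb
  have i1 := LT_int hSc hSb hz
  have i2 := LT_int hc hb hz
  have hder : ∀ t ∈ Iic (0 : ℝ), HasDerivAt
      (fun t : ℝ => (Sop a h t : ℂ) * Complex.exp (z * t))
      (a * ((h t : ℂ) * Complex.exp (z * t)) + (z - a) * ((Sop a h t : ℂ) * Complex.exp (z * t))) t := by
    intro t _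
    have h1 : HasDerivAt (fun t : ℝ => (Sop a h t : ℂ)) ((a * (h t - Sop a h t) : ℝ) : ℂ) t :=
      (hS.der t).ofReal_comp
    have h2 : HasDerivAt (fun t : ℝ => Complex.exp (z * t)) (Complex.exp (z * t) * (z * 1)) t := by
      have h3 : HasDerivAt (fun t : ℝ => z * (t : ℂ)) (z * 1) t :=
        ((hasDerivAt_id t).ofReal_comp).const_mul z
      exact h3.cexp
    have h4 : HasDerivAt (fun t : ℝ => (Sop a h t : ℂ) * Complex.exp (z * t))
        (((a * (h t - Sop a h t) : ℝ) : ℂ) * Complex.exp (z * t) +
          (Sop a h t : ℂ) * (Complex.exp (z * t) * (z * 1))) t := h1.mul h2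
    refine h4.congr_deriv ?_
    push_cast
    ring
  have hint : IntegrableOn (fun t : ℝ => a * ((h t : ℂ) * Complex.exp (z * t)) +
      (z - a) * ((Sop a h t : ℂ) * Complex.exp (z * t))) (Iic 0) :=
    (i2.const_mul _).add (i1.const_mul _)
  have hlim : Tendsto (fun t : ℝ => (Sop a h t : ℂ) * Complex.exp (z * t)) atBot (𝓝 0) := by
    apply squeeze_zero_norm (a := fun t => (a * C / (a - b)) * Real.exp ((z.re - b) * t))
    · intro t
      rw [norm_mul, Complex.norm_exp, Complex.norm_real, Real.norm_eq_abs]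
      have : (z * (t : ℂ)).re = z.re * t := by simp
      rw [this]
      calc |Sop a h t| * Real.exp (z.re * t)
          ≤ ((a * C / (a - b)) * Real.exp (-b * t)) * Real.exp (z.re * t) := by
            gcongr; exact hSb t
        _ = _ := by rw [mul_assoc, ← Real.exp_add]; ring_nf
    · have h3 : Tendsto (fun t : ℝ => Real.exp ((z.re - b) * t)) atBot (𝓝 0) := by
        apply Real.tendsto_exp_atBot.comp
        exact tendsto_id.const_mul_atBot (by linarith)
      simpa using h3.const_mul (a * C / (a - b))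
  have key := integral_Iic_of_hasDerivAt_of_tendsto' hder hint hlim
  rw [integral_add (i2.const_mul _) (i1.const_mul _), integral_const_mul, integral_const_mul] at key
  simp only [Complex.ofReal_zero, mul_zero, Complex.exp_zero, mul_one, sub_zero] at key
  unfold LT
  linear_combination -key

/-- power series of the Laplace transform -/
lemma LT_series (hab : b < a) (hc : Continuous h)
    (hb : ∀ t, |h t| ≤ C * Real.exp (-b * t)) {w : ℂ} (hw : ‖w‖ < a - b) :
    HasSum (fun n : ℕ => ((-1) ^ n * Jn a n h : ℂ) * w ^ n) (LT h (a + w)) := by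
  have hC0 : 0 ≤ C := by
    have := hb 0
    have h2 := abs_nonneg (h 0)
    simp at this
    linarith
  have key : HasSum (fun n : ℕ => ∫ t in Iic (0 : ℝ),
      ((h t : ℂ) * Complex.exp (a * t)) * ((w * t) ^ n / n.factorial)) (LT h (a + w)) := by
    unfold LT
    apply hasSum_integral_of_dominated_convergence
      (fun n t => (C * Real.exp ((a - b) * t)) * ((‖w‖ * (-t)) ^ n / n.factorial))
    · intro n
      apply Continuous.aestronglyMeasurable
      fun_prop
    · intro n
      filter_upwards [ae_restrict_mem measurableSet_Iic] with t ht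
      have ht' : t ≤ 0 := ht
      rw [norm_mul, norm_mul, norm_div, norm_pow, norm_mul, Complex.norm_exp, Complex.norm_real,
        Complex.norm_real, Real.norm_eq_abs, Real.norm_eq_abs, abs_of_nonpos ht',
        Complex.norm_natCast]
      have : ((a : ℂ) * (t : ℂ)).re = a * t := by simp
      rw [this]
      have h1 : |h t| * Real.exp (a * t) ≤ C * Real.exp ((a - b) * t) := by
        calc |h t| * Real.exp (a * t) ≤ (C * Real.exp (-b * t)) * Real.exp (a * t) := by
              gcongr; exact hb t
          _ = C * Real.exp ((a - b) * t) := by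
              rw [mul_assoc, ← Real.exp_add]; ring_nf
      apply mul_le_mul_of_nonneg_right h1
      have : 0 ≤ ‖w‖ * -t := mul_nonneg (norm_nonneg _) (by linarith)
      positivity
    · filter_upwards with t
      exact (Real.summable_pow_div_factorial _).mul_left _
    · have h1 : IntegrableOn (fun r => C * Real.exp ((a - b - ‖w‖) * r)) (Iic 0) :=
        (integrableOn_exp_mul_Iic (by linarith : 0 < a - b - ‖w‖) 0).const_mul C
      refine h1.congr_fun (fun t _ => ?_) measurableSet_Iic
      simp only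
      rw [tsum_mul_left]
      have h2 : ∑' n : ℕ, (‖w‖ * -t) ^ n / (n.factorial : ℝ) = Real.exp (‖w‖ * -t) := by
        rw [Real.exp_eq_exp_ℝ, NormedSpace.exp_eq_tsum_div]
      rw [h2, mul_assoc, ← Real.exp_add]
      ring_nf
    · filter_upwards with t
      have h1 : HasSum (fun n : ℕ => (w * t) ^ n / (n.factorial : ℂ)) (Complex.exp (w * t)) := by
        rw [Complex.exp_eq_exp_ℂ]
        exact NormedSpace.expSeries_div_hasSum_exp (w * t)
      have h2 := h1.mul_left ((h t : ℂ) * Complex.exp (a * t))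
      have h3 : (h t : ℂ) * Complex.exp (a * t) * Complex.exp (w * t) =
          (h t : ℂ) * Complex.exp ((a + w) * t) := by
        rw [mul_assoc, ← Complex.exp_add]
        ring_nf
      rw [← h3]
      exact h2
  convert key using 1
  ext n
  unfold Jn
  have h1 : ∀ t : ℝ, ((h t : ℂ) * Complex.exp (a * t)) * ((w * t) ^ n / n.factorial) =
      ((-1) ^ n * w ^ n / n.factorial) * (((-t) ^ n * (Real.exp (a * t) * h t) : ℝ) : ℂ) := by
    intro t
    push_cast
    have : (t : ℂ) = (-1) * (-t) := by ring
    rw [mul_pow w, show (t : ℂ) ^ n = (-1) ^ n * (-(t : ℂ)) ^ n by rw [← mul_pow]; ring_nf]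
    ring
  simp_rw [h1]
  rw [integral_const_mul, integral_complex_ofReal]
  push_cast
  ring

end ZC
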