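import Pool.Agent.H41.ZcG
import Pool.Agent.H41.ZcAsym
import Pool.Agent.H41.ZcFree

/-!
# The Mellin transform of `G`
-/

open Set Filter Topology MeasureTheory ArithmeticFunction

namespace ZC

/-- differentiability of Laplace-type integrals -/
lemma diff_laplace {μ : Measure ℝ} {h : ℝ → ℝ} (hm : AEStronglyMeasurable h μ) {z0 : ℂ} {ε : ℝ}
    (hε : 0 < ε) (h1 : Integrable (fun t => |h t| * Real.exp ((z0.re + ε) * t)) μ)
    (h2 : Integrable (fun t => |h t| * Real.exp ((z0.re - ε) * t)) μ) :
    DifferentiableAt ℂ (fun z : ℂ => ∫ t, (h t : ℂ) * Complex.exp (z * t) ∂μ) z0 := by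
  have hmC : AEStronglyMeasurable (fun t => (h t : ℂ)) μ :=
    Complex.continuous_ofReal.comp_aestronglyMeasurable hm
  have hexp : ∀ z : ℂ, Continuous (fun t : ℝ => Complex.exp (z * t)) := by
    intro z; fun_prop
  have key := hasDerivAt_integral_of_dominated_loc_of_deriv_le (μ := μ) (x₀ := z0)
    (s := Metric.ball z0 (ε / 2))
    (F := fun (z : ℂ) (t : ℝ) => (h t : ℂ) * Complex.exp (z * t))
    (F' := fun (z : ℂ) (t : ℝ) => (h t : ℂ) * (Complex.exp (z * t) * t))
    (bound := fun t => (2 / ε) * (|h t| * Real.exp ((z0.re + ε) * t) +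
      |h t| * Real.exp ((z0.re - ε) * t)))
    (Metric.ball_mem_nhds z0 (by positivity)) ?_ ?_ ?_ ?_ ?_ ?_
  · exact key.2.differentiableAt
  · filter_upwards with z
    exact hmC.mul (hexp z).aestronglyMeasurable
  · refine (h1.add h2).mono' (hmC.mul (hexp z0).aestronglyMeasurable) ?_
    filter_upwards with t
    rw [norm_mul, Complex.norm_exp, Complex.norm_real, Real.norm_eq_abs]
    have e : (z0 * (t : ℂ)).re = z0.re * t := by simp
    rw [e, Pi.add_apply, ← mul_add]
    apply mul_le_mul_of_nonneg_left _ (abs_nonneg _)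
    rcases le_total 0 t with ht | ht
    · have : Real.exp (z0.re * t) ≤ Real.exp ((z0.re + ε) * t) :=
        Real.exp_le_exp.mpr (by nlinarith)
      have := Real.exp_pos ((z0.re - ε) * t)
      linarith
    · have : Real.exp (z0.re * t) ≤ Real.exp ((z0.re - ε) * t) :=
        Real.exp_le_exp.mpr (by nlinarith)
      have := Real.exp_pos ((z0.re + ε) * t)
      linarith
  · apply hmC.mul
    apply Continuous.aestronglyMeasurable
    have := hexp z0
    fun_prop
  · filter_upwards with t
    intro z hz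
    rw [norm_mul, norm_mul, Complex.norm_exp, Complex.norm_real, Complex.norm_real,
      Real.norm_eq_abs, Real.norm_eq_abs]
    have e : (z * (t : ℂ)).re = z.re * t := by simp
    rw [e]
    have hz' : |z.re - z0.re| < ε / 2 := by
      rw [mem_ball_iff_norm] at hz
      exact lt_of_le_of_lt (by simpa using Complex.abs_re_le_norm (z - z0)) hz
    rw [abs_lt] at hz'
    have k1 : |t| ≤ (2 / ε) * Real.exp (ε / 2 * |t|) := by
      have := Real.add_one_le_exp (ε / 2 * |t|)
      have h3 : ε / 2 * |t| ≤ Real.exp (ε / 2 * |t|) := by linarith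
      calc |t| = (2 / ε) * (ε / 2 * |t|) := by field_simp
        _ ≤ _ := by gcongr
    have k2 : Real.exp (z.re * t) ≤ Real.exp (z0.re * t + ε / 2 * |t|) := by
      apply Real.exp_le_exp.mpr
      rcases le_total 0 t with ht | ht
      · rw [abs_of_nonneg ht]; nlinarith
      · rw [abs_of_nonpos ht]; nlinarith
    have k3 : Real.exp (z0.re * t + ε / 2 * |t|) * Real.exp (ε / 2 * |t|) ≤
        Real.exp ((z0.re + ε) * t) + Real.exp ((z0.re - ε) * t) := by
      rw [← Real.exp_add]
      rcases le_total 0 t with ht | ht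
      · rw [abs_of_nonneg ht]
        have e2 : z0.re * t + ε / 2 * t + ε / 2 * t = (z0.re + ε) * t := by ring
        rw [e2]
        have := Real.exp_pos ((z0.re - ε) * t)
        linarith
      · rw [abs_of_nonpos ht]
        have e2 : z0.re * t + ε / 2 * -t + ε / 2 * -t = (z0.re - ε) * t := by ring
        rw [e2]
        have := Real.exp_pos ((z0.re + ε) * t)
        linarith
    calc |h t| * (Real.exp (z.re * t) * |t|)
        ≤ |h t| * (Real.exp (z0.re * t + ε / 2 * |t|) * ((2 / ε) * Real.exp (ε / 2 * |t|))) := by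
          gcongr
      _ = (2 / ε) * (|h t| * (Real.exp (z0.re * t + ε / 2 * |t|) * Real.exp (ε / 2 * |t|))) := by
          ring
      _ ≤ (2 / ε) * (|h t| * (Real.exp ((z0.re + ε) * t) + Real.exp ((z0.re - ε) * t))) := by
          gcongr
      _ = _ := by ring
  · exact (h1.add h2).const_mul _
  · filter_upwards with t
    intro z _
    have h3 : HasDerivAt (fun z : ℂ => z * (t : ℂ)) (1 * (t : ℂ)) z :=
      (hasDerivAt_id z).mul_const _
    have h4 := (h3.cexp).const_mul (h t : ℂ)
    simpa using h4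

lemma int_two {h : ℝ → ℝ} (hc : Continuous h) {C1 C2 c1 : ℝ} {z : ℂ}
    (hb1 : ∀ t, |h t| ≤ C1 * Real.exp (-c1 * t)) (hb2 : ∀ t, |h t| ≤ C2 * Real.exp (-3 * t))
    (hz1 : c1 < z.re) (hz2 : z.re < 3) :
    Integrable (fun t : ℝ => (h t : ℂ) * Complex.exp (z * t)) := by
  rw [← integrableOn_univ, ← Set.Iic_union_Ioi (a := (0 : ℝ))]
  apply IntegrableOn.union
  · exact LT_int hc hb1 hz1
  · have h1 : IntegrableOn (fun r => C2 * Real.exp ((z.re - 3) * r)) (Ioi 0) :=
      (integrableOn_exp_mul_Ioi (by linarith : z.re - 3 < 0) 0).const_mul C2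
    refine h1.mono' ?_ ?_
    · apply Continuous.aestronglyMeasurable
      fun_prop
    · filter_upwards with r
      rw [norm_mul, Complex.norm_exp, Complex.norm_real, Real.norm_eq_abs]
      have : (z * (r : ℂ)).re = z.re * r := by simp
      rw [this]
      calc |h r| * Real.exp (z.re * r) ≤ (C2 * Real.exp (-3 * r)) * Real.exp (z.re * r) := by
            gcongr; exact hb2 r
        _ = C2 * Real.exp ((z.re - 3) * r) := by
            rw [mul_assoc, ← Real.exp_add]; ring_nf

lemma mellin_eq (g : ℝ → ℂ) (z : ℂ) :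
    mellin g z = ∫ t : ℝ, g (Real.exp t) * Complex.exp (z * t) := by
  unfold mellin
  have h1 := integral_image_eq_integral_abs_deriv_smul (s := univ) (f := Real.exp)
    (f' := Real.exp) MeasurableSet.univ (fun x _ => (Real.hasDerivAt_exp x).hasDerivWithinAt)
    Real.exp_injective.injOn (fun s : ℝ => (s : ℂ) ^ (z - 1) • g s)
  rw [image_univ, Real.range_exp, Measure.restrict_univ] at h1
  rw [h1]
  congr 1
  ext t
  have h2 : ((Real.exp t : ℝ) : ℂ) ≠ 0 := by
    exact_mod_cast (Real.exp_pos t).ne'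
  have h3 : ((Real.exp t : ℝ) : ℂ) ^ (z - 1) = Complex.exp ((z - 1) * t) := by
    rw [Complex.ofReal_exp, Complex.cpow_def_of_ne_zero (Complex.exp_ne_zero _),
      Complex.log_exp (by simp [Real.pi_pos]) (by simpa using Real.pi_nonneg)]
    ring_nf
  rw [abs_of_pos (Real.exp_pos t), h3]
  simp only [smul_eq_mul, Complex.real_smul]
  rw [Complex.ofReal_exp, ← mul_assoc, ← Complex.exp_add]
  ring_nf

lemma mellin_L0 {z : ℂ} (hz : 0 < z.re) :
    mellin (fun s => (L0 s : ℂ)) z = Complex.Gamma z * riemannZeta (z + 1) := by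
  have h1 := hasSum_mellin (ι := ℕ) (a := fun i => (1 / ((i : ℂ) + 1) : ℂ))
    (p := fun i => (i : ℝ) + 1) (F := fun s => (L0 s : ℂ)) (s := z)
    (fun i => Or.inr (by positivity)) hz ?_ ?_
  · have h2 : ∀ i : ℕ, Complex.Gamma z * (1 / ((i : ℂ) + 1)) / (((i : ℝ) + 1 : ℝ) : ℂ) ^ z =
        Complex.Gamma z * (1 / ((i : ℂ) + 1) ^ (z + 1)) := by
      intro i
      have h3 : ((i : ℂ) + 1) ≠ 0 := by exact_mod_cast Nat.succ_ne_zero i
      rw [Complex.cpow_add _ _ h3, Complex.cpow_one]
      push_cast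
      have h4 : ((i : ℂ) + 1) ^ z ≠ 0 := by
        rw [Ne, Complex.cpow_eq_zero_iff]; tauto
      field_simp
    have h3 := hs_congr (g := fun i : ℕ => Complex.Gamma z * (1 / ((i : ℂ) + 1) ^ (z + 1)))
      (fun i => (h2 i).symm) h1
    have h4 : Complex.Gamma z * riemannZeta (z + 1) =
        ∑' i : ℕ, Complex.Gamma z * (1 / ((i : ℂ) + 1) ^ (z + 1)) := by
      rw [zeta_eq_tsum_one_div_nat_add_one_cpow (by simpa using hz), tsum_mul_left]
    rw [h4]
    exact h3.tsum_eq.symm
  · intro t ht
    have ht' : (0 : ℝ) < t := ht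
    have h5 := Real.hasSum_pow_div_log_of_abs_lt_one (x := Real.exp (-t)) (by
      rw [abs_of_pos (Real.exp_pos _)]; exact exp_neg_lt_one ht')
    have h6 : HasSum (fun n : ℕ => ((Real.exp (-t) ^ (n + 1) / ((n : ℝ) + 1) : ℝ) : ℂ))
        ((L0 t : ℝ) : ℂ) := by
      exact_mod_cast h5
    refine hs_congr (fun n => ?_) h6
    have : Real.exp (-t) ^ (n + 1) = Real.exp (-((n : ℝ) + 1) * t) := by
      rw [← Real.exp_nat_mul]; push_cast; ring_nf
    rw [this]
    push_cast
    ring
  · have h7 : Summable (fun n : ℕ => 1 / (((n + 1 : ℕ) : ℝ)) ^ (z.re + 1)) :=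
      (summable_nat_add_iff 1).mpr (Real.summable_one_div_nat_rpow.mpr (by linarith))
    refine h7.congr (fun n => ?_)
    have h8 : ‖(1 / ((n : ℂ) + 1) : ℂ)‖ = 1 / ((n : ℝ) + 1) := by
      rw [norm_div, norm_one]
      have : (n : ℂ) + 1 = (((n : ℝ) + 1 : ℝ) : ℂ) := by push_cast; ring
      rw [this, Complex.norm_real, Real.norm_eq_abs, abs_of_pos (by positivity)]
    rw [h8]
    push_cast
    rw [Real.rpow_add (by positivity), Real.rpow_one]
    field_simp

/-- the function `ell` -/
noncomputable def ell (t : ℝ) : ℝ := L0 (Real.exp t)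

lemma ell_cont : Continuous ell := by
  have := L0_cont' 1 one_pos
  unfold ell
  simpa using this

lemma ell_bound {c : ℝ} (h1 : 1 ≤ c) (h3 : c ≤ 3) (t : ℝ) : |ell t| ≤ 6 * Real.exp (-c * t) := by
  unfold ell
  rw [abs_of_nonneg (L0_nonneg (Real.exp_pos t))]
  have := L0_le_rpow (Real.exp_pos t) h1 h3
  rw [← Real.exp_mul] at this
  rw [show -c * t = t * -c by ring]
  exact this

lemma ell_int {z : ℂ} (h1 : 1 < z.re) (h3 : z.re < 3) :
    Integrable (fun t : ℝ => (ell t : ℂ) * Complex.exp (z * t)) :=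
  int_two ell_cont (c1 := 1) (ell_bound le_rfl (by norm_num)) (ell_bound (by norm_num) le_rfl) h1 h3

lemma ell_transform {z : ℂ} (h1 : 1 < z.re) :
    ∫ t : ℝ, (ell t : ℂ) * Complex.exp (z * t) = Complex.Gamma z * riemannZeta (z + 1) := by
  rw [← mellin_L0 (by linarith), mellin_eq]
  rfl

lemma gt_eq (n : ℕ) (hn : 0 < n) (t : ℝ) : gt n t = (moebius n : ℝ) * ell (t + Real.log n) := by
  unfold gt ell
  rw [Real.exp_add, Real.exp_log (by exact_mod_cast hn), mul_comm (Real.exp t)]

lemma shift_int (z : ℂ) (β : ℝ) :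
    ∫ t : ℝ, (ell (t + β) : ℂ) * Complex.exp (z * t) =
      Complex.exp (-z * β) * ∫ t : ℝ, (ell t : ℂ) * Complex.exp (z * t) := by
  have h1 := integral_add_right_eq_self (μ := volume)
    (fun t : ℝ => Complex.exp (-z * β) * ((ell t : ℂ) * Complex.exp (z * t))) β
  rw [← integral_const_mul, ← h1]
  congr 1
  ext t
  push_cast
  have : Complex.exp (-z * β) * Complex.exp (z * (t + β)) = Complex.exp (z * t) := by
    rw [← Complex.exp_add]; ring_nf
  linear_combination (-(ell (t + β) : ℂ)) * this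

lemma shift_integrable {z : ℂ} (h1 : 1 < z.re) (h3 : z.re < 3) (β : ℝ) :
    Integrable (fun t : ℝ => (ell (t + β) : ℂ) * Complex.exp (z * t)) := by
  have h := ((ell_int h1 h3).comp_add_right β).const_mul (Complex.exp (-z * β))
  refine h.congr ?_
  filter_upwards with t
  push_cast
  have : Complex.exp (-z * β) * Complex.exp (z * (t + β)) = Complex.exp (z * t) := by
    rw [← Complex.exp_add]; ring_nf
  linear_combination ((ell (t + β) : ℂ)) * this

lemma G_transform {z : ℂ} (h1 : 1 < z.re) (h3 : z.re < 3) :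
    ∫ t : ℝ, (G t : ℂ) * Complex.exp (z * t) =
      Complex.Gamma z * riemannZeta (z + 1) / riemannZeta z := by
  set K : ℝ := ∫ t : ℝ, ‖(ell t : ℂ) * Complex.exp (z * t)‖ with hK
  have hnorm : ∀ n : ℕ, 0 < n → ∫ t : ℝ, ‖(gt n t : ℂ) * Complex.exp (z * t)‖ ≤
      K * (1 / (n : ℝ) ^ z.re) := by
    intro n hn
    have hn' : (0 : ℝ) < n := by exact_mod_cast hn
    have e1 : ∀ t : ℝ, ‖(gt n t : ℂ) * Complex.exp (z * t)‖ ≤ (1 / (n : ℝ) ^ z.re) *
        ‖(ell (t + Real.log n) : ℂ) * Complex.exp (z * ((t + Real.log n : ℝ) : ℂ))‖ := by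
      intro t
      rw [gt_eq n hn]
      have hmu : |(moebius n : ℝ)| ≤ 1 := by
        exact_mod_cast abs_moebius_le_one (n := n)
      rw [norm_mul, norm_mul, Complex.norm_exp, Complex.norm_exp, Complex.norm_real,
        Complex.norm_real, Real.norm_eq_abs, Real.norm_eq_abs, abs_mul]
      have e2 : (z * (t : ℂ)).re = z.re * t := by simp
      have e3 : (z * ((t + Real.log n : ℝ) : ℂ)).re = z.re * (t + Real.log n) := by
        rw [Complex.re_mul_ofReal]
      rw [e2, e3, mul_add, Real.exp_add]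
      have e4 : Real.exp (z.re * Real.log n) = (n : ℝ) ^ z.re := by
        rw [Real.rpow_def_of_pos hn']; ring_nf
      rw [e4]
      have e5 : 0 < (n : ℝ) ^ z.re := by positivity
      have e6 : 1 / (n : ℝ) ^ z.re * (|ell (t + Real.log n)| *
          (Real.exp (z.re * t) * (n : ℝ) ^ z.re)) = |ell (t + Real.log n)| * Real.exp (z.re * t) := by
        field_simp
      rw [e6]
      calc |(moebius n : ℝ)| * |ell (t + Real.log n)| * Real.exp (z.re * t)
          ≤ 1 * |ell (t + Real.log n)| * Real.exp (z.re * t) := by gcongr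
        _ = _ := by ring
    have i1 := ((ell_int h1 h3).norm.comp_add_right (Real.log n)).const_mul (1 / (n : ℝ) ^ z.re)
    have i2 : Integrable (fun t : ℝ => ‖(gt n t : ℂ) * Complex.exp (z * t)‖) := by
      refine i1.mono' ?_ ?_
      · apply Continuous.aestronglyMeasurable
        have := gt_cont n
        fun_prop
      · filter_upwards with t
        rw [norm_norm]; exact e1 t
    calc ∫ t : ℝ, ‖(gt n t : ℂ) * Complex.exp (z * t)‖
        ≤ ∫ t : ℝ, (1 / (n : ℝ) ^ z.re) *
          ‖(ell (t + Real.log n) : ℂ) * Complex.exp (z * ((t + Real.log n : ℝ) : ℂ))‖ :=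
          integral_mono i2 i1 e1
      _ = (1 / (n : ℝ) ^ z.re) * K := by
          rw [integral_const_mul]
          congr 1
          exact integral_add_right_eq_self (μ := volume)
            (fun t : ℝ => ‖(ell t : ℂ) * Complex.exp (z * t)‖) (Real.log n)
      _ = _ := by ring
  have hval : ∀ n : ℕ, ∫ t : ℝ, (gt n t : ℂ) * Complex.exp (z * t) =
      LSeries.term (fun n => ((moebius n : ℤ) : ℂ)) z n *
        (Complex.Gamma z * riemannZeta (z + 1)) := by
    intro n
    rcases Nat.eq_zero_or_pos n with h0 | hn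
    · subst h0
      simp [gt]
    · have hn' : (0 : ℝ) < n := by exact_mod_cast hn
      have e1 : ∀ t : ℝ, (gt n t : ℂ) * Complex.exp (z * t) =
          (moebius n : ℂ) * ((ell (t + Real.log n) : ℂ) * Complex.exp (z * t)) := by
        intro t
        rw [gt_eq n hn]; push_cast; ring
      simp_rw [e1]
      rw [integral_const_mul, shift_int, ell_transform h1, LSeries.term_of_ne_zero hn.ne']
      have e2 : Complex.exp (-z * (Real.log n : ℂ)) = 1 / (n : ℂ) ^ z := by
        rw [Complex.cpow_def_of_ne_zero (by exact_mod_cast hn.ne'), one_div, ← Complex.exp_neg]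
        rw [← Complex.natCast_log]
        ring_nf
      rw [e2]
      ring
  have hint : ∀ n : ℕ, Integrable (fun t : ℝ => (gt n t : ℂ) * Complex.exp (z * t)) := by
    intro n
    rcases Nat.eq_zero_or_pos n with h0 | hn
    · subst h0
      simp [gt]
    · have := (shift_integrable h1 h3 (Real.log n)).const_mul (moebius n : ℂ)
      refine this.congr ?_
      filter_upwards with t
      rw [gt_eq n hn]; push_cast; ring
  have hsum : Summable (fun n : ℕ => ∫ t : ℝ, ‖(gt n t : ℂ) * Complex.exp (z * t)‖) := by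
    apply Summable.of_nonneg_of_le (g := fun n => ∫ t : ℝ, ‖(gt n t : ℂ) * Complex.exp (z * t)‖)
      (f := fun n : ℕ => K * (1 / (n : ℝ) ^ z.re)) (fun n => by positivity) ?_
      ((Real.summable_one_div_nat_rpow.mpr h1).mul_left K)
    intro n
    rcases Nat.eq_zero_or_pos n with h0 | hn
    · subst h0
      have : ∫ t : ℝ, ‖(gt 0 t : ℂ) * Complex.exp (z * t)‖ = 0 := by simp [gt]
      rw [this]
      have : 0 ≤ K := by positivity
      positivity
    · exact hnorm n hn
  have key := hasSum_integral_of_summable_integral_norm hint hsum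
  have e1 : (fun t : ℝ => ∑' n : ℕ, (gt n t : ℂ) * Complex.exp (z * t)) =
      fun t : ℝ => (G t : ℂ) * Complex.exp (z * t) := by
    ext t
    rw [tsum_mul_right]
    unfold G
    rw [Complex.ofReal_tsum]
  rw [e1] at key
  simp_rw [hval] at key
  have h4 : HasSum (LSeries.term (fun n => ((moebius n : ℤ) : ℂ)) z)
      (LSeries (fun n => ((moebius n : ℤ) : ℂ)) z) :=
    (LSeriesSummable_moebius_iff.mpr h1).LSeriesHasSum
  have h5 := h4.mul_right (Complex.Gamma z * riemannZeta (z + 1))
  have h6 := key.unique h5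
  rw [h6]
  have h7 := LSeries_one_mul_Lseries_moebius h1
  rw [LSeries_one_eq_riemannZeta h1] at h7
  have h8 : riemannZeta z ≠ 0 := by
    intro h0; rw [h0] at h7; simp at h7
  field_simp
  linear_combination (Complex.Gamma z * riemannZeta (z + 1)) * h7

end ZC
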